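import Pool.Agent.Lib.MP_b39e30_al.Lin.GDefs

set_option autoImplicit false

namespace Pool.Agent.Lib.MP_b39e30_al.Lin

/-- The elements of `Q` that are congruent to a power of `g` modulo `J w`. -/
def chainK {Γ A : Type*} [Group Γ] [Ring A] (ρ : Γ →* A) (g : Γ)
    (Q : Subgroup Γ) (hg : g ∈ Q) (J : ℕ → AddSubgroup A)
    (h0 : ∀ h ∈ Q, ρ h ∈ J 0)
    (h1 : ∀ w, ∀ a ∈ J 0, ∀ b ∈ J w, a * b ∈ J w ∧ b * a ∈ J w) (w : ℕ) : Subgroup Q where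
  carrier := {h | ∃ i : ℤ, ρ (h : Γ) - ρ (g ^ i) ∈ J w}
  one_mem' := ⟨0, by simp⟩
  mul_mem' := by
    rintro a b ⟨i, hi⟩ ⟨j, hj⟩
    refine ⟨i + j, ?_⟩
    have e : ρ ((a * b : Q) : Γ) - ρ (g ^ (i + j)) =
        (ρ (a : Γ) - ρ (g ^ i)) * ρ (b : Γ) + ρ (g ^ i) * (ρ (b : Γ) - ρ (g ^ j)) := by
      rw [Subgroup.coe_mul, zpow_add, map_mul, map_mul]
      noncomm_ring
    rw [e]
    exact add_mem (h1 w _ (h0 _ b.2) _ hi).2 (h1 w _ (h0 _ (Q.zpow_mem hg i)) _ hj).1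
  inv_mem' := by
    rintro a ⟨i, hi⟩
    refine ⟨-i, ?_⟩
    have e1 : ρ ((a : Γ)⁻¹) * ρ (a : Γ) = 1 := by rw [← map_mul, inv_mul_cancel, map_one]
    have e2 : ρ (g ^ i) * ρ (g ^ (-i)) = 1 := by
      rw [← map_mul, zpow_neg, mul_inv_cancel, map_one]
    have e : ρ ((a⁻¹ : Q) : Γ) - ρ (g ^ (-i)) =
        -(ρ ((a : Γ)⁻¹) * ((ρ (a : Γ) - ρ (g ^ i)) * ρ (g ^ (-i)))) := by
      rw [Subgroup.coe_inv, sub_mul, e2, mul_sub, ← mul_assoc, e1, one_mul, mul_one, neg_sub]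
    rw [e]
    exact neg_mem (h1 w _ (h0 _ (Q.inv_mem a.2)) _
      (h1 w _ (h0 _ (Q.zpow_mem hg (-i))) _ hi).2).1

/-- A filtration lowered by `g` gives a subnormal chain. -/
theorem chain {Γ A : Type*} [Group Γ] [Ring A] (ρ : Γ →* A) (hρ : Function.Injective ρ) (g : Γ)
    (Q : Subgroup Γ) (hg : g ∈ Q) (J : ℕ → AddSubgroup A) (M : ℕ) (hA : Antitone J)
    (h0 : ∀ h ∈ Q, ρ h ∈ J 0)
    (h1 : ∀ w, ∀ a ∈ J 0, ∀ b ∈ J w, a * b ∈ J w ∧ b * a ∈ J w)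
    (h2 : ∀ w, ∀ b ∈ J w, ρ g⁻¹ * b * ρ g - b ∈ J (w + 1)) (hM : J M = ⊥) :
    ((Subgroup.zpowers g).subgroupOf Q).IsSubnormal := by
  have mem : ∀ (w : ℕ) (h : Q),
      h ∈ chainK ρ g Q hg J h0 h1 w ↔ ∃ i : ℤ, ρ (h : Γ) - ρ (g ^ i) ∈ J w := fun _ _ => Iff.rfl
  have hle : ∀ w, chainK ρ g Q hg J h0 h1 (w + 1) ≤ chainK ρ g Q hg J h0 h1 w := by
    intro w h hh
    obtain ⟨i, hi⟩ := (mem _ _).1 hh
    exact (mem _ _).2 ⟨i, hA (Nat.le_succ w) hi⟩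
  have hconj : ∀ w, ∀ h ∈ chainK ρ g Q hg J h0 h1 w,
      h * (⟨g, hg⟩ : Q) * h⁻¹ ∈ chainK ρ g Q hg J h0 h1 (w + 1) := by
    intro w h hh
    obtain ⟨j, hj⟩ := (mem _ _).1 hh
    refine (mem _ _).2 ⟨1, ?_⟩
    have e1 : ρ (h : Γ) * ρ ((h : Γ)⁻¹) = 1 := by rw [← map_mul, mul_inv_cancel, map_one]
    have e2 : ρ g * ρ g⁻¹ = 1 := by rw [← map_mul, mul_inv_cancel, map_one]
    have e3 : ρ (g ^ j) * ρ g = ρ g * ρ (g ^ j) := by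
      rw [← map_mul, ← map_mul, (Commute.zpow_self g j).eq]
    have e : ρ ((h * (⟨g, hg⟩ : Q) * h⁻¹ : Q) : Γ) - ρ (g ^ (1 : ℤ)) =
        ρ g * ((ρ g⁻¹ * (ρ (h : Γ) - ρ (g ^ j)) * ρ g - (ρ (h : Γ) - ρ (g ^ j))) *
          ρ ((h : Γ)⁻¹)) := by
      have e4 : ρ g * (ρ g⁻¹ * (ρ (h : Γ) - ρ (g ^ j)) * ρ g - (ρ (h : Γ) - ρ (g ^ j))) =
          ρ (h : Γ) * ρ g - ρ g * ρ (h : Γ) := by
        rw [mul_sub, ← mul_assoc, ← mul_assoc, e2, one_mul, sub_mul, mul_sub, e3]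
        abel
      rw [← mul_assoc, e4, sub_mul, mul_assoc (ρ g), e1, mul_one, zpow_one, Subgroup.coe_mul,
        Subgroup.coe_mul, Subgroup.coe_inv, map_mul, map_mul]
    rw [e]
    exact (h1 _ _ (h0 _ hg) _ (h1 _ _ (h0 _ (Q.inv_mem h.2)) _ (h2 w _ hj)).2).1
  have hnorm : ∀ w, ∀ h ∈ chainK ρ g Q hg J h0 h1 w, ∀ n ∈ chainK ρ g Q hg J h0 h1 (w + 1),
      h * n * h⁻¹ ∈ chainK ρ g Q hg J h0 h1 (w + 1) := by
    intro w h hh n hn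
    obtain ⟨i, hi⟩ := (mem _ _).1 hn
    obtain ⟨j, hj⟩ := (mem _ _).1 (Subgroup.zpow_mem _ (hconj w h hh) i)
    refine (mem _ _).2 ⟨j, ?_⟩
    have e0 : (((h * (⟨g, hg⟩ : Q) * h⁻¹) ^ i : Q) : Γ) = (h : Γ) * g ^ i * (h : Γ)⁻¹ := by
      rw [conj_zpow]
      simp
    rw [e0] at hj
    have e : ρ ((h * n * h⁻¹ : Q) : Γ) - ρ (g ^ j) =
        ρ (h : Γ) * ((ρ (n : Γ) - ρ (g ^ i)) * ρ ((h : Γ)⁻¹)) +
          (ρ ((h : Γ) * g ^ i * (h : Γ)⁻¹) - ρ (g ^ j)) := by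
      rw [Subgroup.coe_mul, Subgroup.coe_mul, Subgroup.coe_inv, map_mul, map_mul, map_mul, map_mul]
      noncomm_ring
    rw [e]
    exact add_mem (h1 _ _ (h0 _ h.2) _ (h1 _ _ (h0 _ (Q.inv_mem h.2)) _ hi).2).1 hj
  have hsub : ∀ w, (chainK ρ g Q hg J h0 h1 w).IsSubnormal := by
    intro w
    induction w with
    | zero =>
      have : chainK ρ g Q hg J h0 h1 0 = ⊤ := by
        rw [eq_top_iff]
        intro h _
        exact (mem _ _).2 ⟨0, sub_mem (h0 _ h.2) (h0 _ (Q.zpow_mem hg 0))⟩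
      rw [this]
      exact Subgroup.IsSubnormal.top
    | succ w ih =>
      refine Subgroup.IsSubnormal.step _ _ (hle w) ih ⟨?_⟩
      intro n hn h
      rw [Subgroup.mem_subgroupOf] at hn ⊢
      exact hnorm w h h.2 n hn
  have hK : (Subgroup.zpowers g).subgroupOf Q = chainK ρ g Q hg J h0 h1 M := by
    ext h
    rw [Subgroup.mem_subgroupOf, Subgroup.mem_zpowers_iff, mem, hM]
    constructor
    · rintro ⟨i, hi⟩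
      exact ⟨i, by rw [hi, sub_self]; exact zero_mem _⟩
    · rintro ⟨i, hi⟩
      exact ⟨i, (hρ (sub_eq_zero.1 (AddSubgroup.mem_bot.1 hi))).symm⟩
  rw [hK]
  exact hsub M

end Pool.Agent.Lib.MP_b39e30_al.Lin
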