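import Pool.Agent.Lib.MP_b39e30_al.Lin.Defs

set_option autoImplicit false

namespace Pool.Agent.Lib.MP_b39e30_al.Lin

open MvPolynomial

variable {ι : Type} [Fintype ι] [DecidableEq ι] {R : Type*} [CommRing R]

omit [DecidableEq ι] in
theorem dv_X (W : Matrix ι ι R) (i : ι × ι) :
    D W (X i) = (cst W * genU ι R - genU ι R * cst W) i.1 i.2 := mkDerivation_X R _ i

omit [DecidableEq ι] in
theorem dv_C (W : Matrix ι ι R) (a : R) : D W (C a) = 0 := derivation_C _ a

omit [DecidableEq ι] in
theorem dv_mul (W : Matrix ι ι R) (p q : MvPolynomial (ι × ι) R) :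
    D W (p * q) = p * D W q + q * D W p := (D W).leibniz p q

omit [DecidableEq ι] in
theorem dv_map {R' : Type*} [CommRing R'] (φ : R →+* R') (W : Matrix ι ι R)
    (p : MvPolynomial (ι × ι) R) :
    MvPolynomial.map φ (D W p) = D (W.map φ) (MvPolynomial.map φ p) := by
  induction p using MvPolynomial.induction_on with
  | C a => rw [map_C, dv_C, dv_C, map_zero]
  | add p q hp hq => rw [map_add, map_add, map_add, map_add, hp, hq]
  | mul_X p i hp =>
    rw [dv_mul, map_mul, dv_mul, map_add, map_mul, map_mul, hp, map_X, dv_X, dv_X]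
    simp [cst, genU, Matrix.mul_apply]

omit [DecidableEq ι] in
theorem map_Dl {R' : Type*} [CommRing R'] (φ : R →+* R') (ws : List (Matrix ι ι R))
    (p : MvPolynomial (ι × ι) R) :
    MvPolynomial.map φ (Dl ws p) = Dl (ws.map fun W => W.map φ) (MvPolynomial.map φ p) := by
  induction ws with
  | nil => rfl
  | cons W ws ih => exact (dv_map φ W (Dl ws p)).trans (congrArg (D (W.map φ)) ih)

omit [Fintype ι] [DecidableEq ι] in
theorem map_ev {R' : Type*} [CommRing R'] (φ : R →+* R') (U : Matrix ι ι R)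
    (p : MvPolynomial (ι × ι) R) : φ (ev U p) = ev (U.map φ) (MvPolynomial.map φ p) := by
  induction p using MvPolynomial.induction_on with
  | C a => simp [ev]
  | add p q hp hq => simp only [map_add, hp, hq]
  | mul_X p i hp =>
    simp only [map_mul, hp]
    simp [ev]

theorem relP_map [Algebra ℚ R] {R' : Type*} [CommRing R'] [Algebra ℚ R'] (φ : R →+* R') (k n : ℕ)
    (X : Matrix ι ι R) : relP k n (X.map φ) = MvPolynomial.map φ '' relP k n X := by
  let f := (MvPolynomial.map (σ := ι × ι) φ).mapMatrix (m := ι)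
  have h1 : f (genU ι R) = genU ι R' := by
    ext1 a b
    simp [f, genU]
  have h2 : f (cst X) = cst (X.map φ) := by
    ext1 a b
    simp [f, cst]
  have h3 : ∀ a b, (genU ι R' ^ k) a b = MvPolynomial.map φ ((genU ι R ^ k) a b) := fun a b => by
    rw [← h1, ← map_pow]
    rfl
  have h4 : ∀ a b, ((Phi k (cst (X.map φ)))^[n] (genU ι R') - cst (X.map φ)) a b =
      MvPolynomial.map φ (((Phi k (cst X))^[n] (genU ι R) - cst X) a b) := fun a b => by
    rw [← h1, ← h2, ← map_Phi_iter, ← map_sub]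
    rfl
  ext p
  constructor
  · rintro ⟨a, b, e | e⟩
    · exact ⟨_, ⟨a, b, Or.inl rfl⟩, (e.trans (h3 a b)).symm⟩
    · exact ⟨_, ⟨a, b, Or.inr rfl⟩, (e.trans (h4 a b)).symm⟩
  · rintro ⟨q, ⟨a, b, e | e⟩, rfl⟩
    · exact ⟨a, b, Or.inl (by rw [h3, e])⟩
    · exact ⟨a, b, Or.inr (by rw [h4, e])⟩

/-- The conjugate of `U` by `exp (s W)`. -/
noncomputable def dvU [Algebra ℚ R] (k : ℕ) (W U : Matrix ι ι R) (s : R) : Matrix ι ι R :=
  E k (s • W) * U * E k (-(s • W))

theorem dv_mapU [Algebra ℚ R] {R' : Type*} [CommRing R'] [Algebra ℚ R'] (φ : R →+* R') (k : ℕ)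
    (W U : Matrix ι ι R) (s : R) : (dvU k W U s).map φ = dvU k (W.map φ) (U.map φ) (φ s) := by
  have h : φ.mapMatrix (s • W) = φ s • W.map φ := by
    ext a b
    simp
  change φ.mapMatrix _ = _
  rw [dvU, map_mul, map_mul, map_E, map_E, map_neg, h]
  rfl

theorem dv_nat [Algebra ℚ R] {k : ℕ} {Cs : Set (Matrix ι ι R)} {W : Matrix ι ι R} (h0 : W ^ k = 0)
    (h : ∀ U ∈ Cs, E k W * U * E k (-W) ∈ Cs) {U : Matrix ι ι R} (hU : U ∈ Cs) (m : ℕ) :
    dvU k W U m ∈ Cs := by
  have h1 : ∀ s : R, (s • W) ^ k = 0 := fun s => by rw [smul_pow, h0, smul_zero]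
  have h2 : ∀ s t : R, E k ((s + t) • W) = E k (s • W) * E k (t • W) := fun s t => by
    rw [E_eq_exp (h1 _), E_eq_exp (h1 _), E_eq_exp (h1 _), add_smul,
      IsNilpotent.exp_add_of_commute (((Commute.refl W).smul_left s).smul_right t)
        ⟨k, h1 s⟩ ⟨k, h1 t⟩]
  induction m with
  | zero =>
    have h3 := h1 0
    rw [zero_smul] at h3
    rwa [dvU, Nat.cast_zero, zero_smul, neg_zero, E_eq_exp h3, IsNilpotent.exp_zero, one_mul,
      mul_one]
  | succ m ih =>
    have h3 := h _ ih
    rw [dvU, ← neg_smul] at h3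
    rw [dvU, ← neg_smul, Nat.cast_succ, neg_add, h2 (-(m : R)), add_comm, h2, one_smul,
      neg_smul (1 : R), one_smul]
    simpa only [mul_assoc] using h3

theorem dv_eps [Algebra ℚ R] {k : ℕ} {W : Matrix ι ι R} (h0 : W ^ k = 0) (U : Matrix ι ι R)
    {e : R} (he : e * e = 0) : dvU k W U e = U + e • (W * U - U * W) := by
  have h1 : ∀ s : R, s * s = 0 → E k (s • W) = 1 + s • W := fun s hs => by
    rw [E_eq_exp (by rw [smul_pow, h0, smul_zero]),
      ← E_eq_exp (k := 2) (by rw [smul_pow, sq s, hs, zero_smul])]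
    simp [E, Finset.sum_range_succ]
  rw [dvU, ← neg_smul, h1 e he, h1 (-e) (by rw [neg_mul_neg, he])]
  simp only [add_mul, mul_add, one_mul, mul_one, smul_mul_assoc, mul_smul_comm, smul_add,
    smul_smul, mul_neg, he, zero_smul, smul_sub, neg_smul]
  abel

omit [DecidableEq ι] in
theorem dv_taylor (W U : Matrix ι ι R) {e : R} (he : e * e = 0) (p : MvPolynomial (ι × ι) R) :
    ev (U + e • (W * U - U * W)) p = ev U p + e * ev U (D W p) := by
  induction p using MvPolynomial.induction_on with
  | C a => simp [ev]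
  | add p q hp hq =>
    simp only [map_add, hp, hq]
    ring
  | mul_X p i hp =>
    have h1 : ev U (D W (X i)) = (W * U - U * W) i.1 i.2 := by
      simp [dv_X, ev, cst, genU, Matrix.mul_apply]
    have h2 : ∀ V : Matrix ι ι R, ev V (X i) = V i.1 i.2 := fun V => eval_X i
    rw [dv_mul, map_mul, map_mul, map_add, map_mul, map_mul, hp, h1, h2, h2, Matrix.add_apply,
      Matrix.smul_apply, smul_eq_mul]
    linear_combination (ev U (D W p) * (W * U - U * W) i.1 i.2) * he

theorem dv_poly [Algebra ℚ R] (d : ℕ) : ∀ (P : Polynomial R) (a : ℕ), P.natDegree = d →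
    (∀ m : ℕ, a ≤ m → P.eval (m : R) = 0) → P = 0 := by
  induction d using Nat.strong_induction_on with
  | _ d ih =>
    intro P a hd h
    by_contra h0
    have h1 := Polynomial.mul_divByMonic_eq_iff_isRoot.2 (h a le_rfl)
    have : Nontrivial R := Polynomial.Nontrivial.of_polynomial_ne h0
    have h5 : P /ₘ (Polynomial.X - Polynomial.C (a : R)) ≠ 0 :=
      fun e => h0 (by rw [← h1, e, mul_zero])
    refine h5 (ih _ (hd ▸ Polynomial.natDegree_lt_natDegree h5 (Polynomial.degree_divByMonic_lt P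
      _ h0 (by rw [Polynomial.degree_X_sub_C]; exact zero_lt_one))) _ (a + 1) rfl fun m hm => ?_)
    have h2 := h m (by omega)
    rw [← h1, Polynomial.eval_mul, Polynomial.eval_sub, Polynomial.eval_X,
      Polynomial.eval_C] at h2
    have h3 : IsUnit ((m : R) - a) := by
      have h4 : ((m : ℚ) - a) ≠ 0 := sub_ne_zero.2 (by exact_mod_cast (show m ≠ a by omega))
      simpa using h4.isUnit.map (algebraMap ℚ R)
    exact h3.mul_right_eq_zero.1 h2

theorem dv_step [Algebra ℚ R] {k : ℕ} {Cs : Set (Matrix ι ι R)} {W : Matrix ι ι R}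
    (h0 : W ^ k = 0) (h : ∀ U ∈ Cs, E k W * U * E k (-W) ∈ Cs) {p : MvPolynomial (ι × ι) R}
    (hp : ∀ U ∈ Cs, ev U p = 0) {U : Matrix ι ι R} (hU : U ∈ Cs) : ev U (D W p) = 0 := by
  have key : ∀ {S : Type _} [CommRing S] [Algebra ℚ S] (φ : R →+* S) (s : S),
      Polynomial.eval₂RingHom φ s (ev (dvU k (W.map Polynomial.C) (U.map Polynomial.C)
        Polynomial.X) (MvPolynomial.map Polynomial.C p)) =
        ev (dvU k (W.map φ) (U.map φ) s) (MvPolynomial.map φ p) := fun φ s => by
    have e : (Polynomial.eval₂RingHom φ s).comp Polynomial.C = φ :=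
      RingHom.ext fun _ => Polynomial.eval₂_C _ _
    rw [map_ev, dv_mapU, map_map, Matrix.map_map, Matrix.map_map, ← RingHom.coe_comp, e,
      Polynomial.coe_eval₂RingHom, Polynomial.eval₂_X]
  have h1 := dv_poly _ (ev (dvU k (W.map Polynomial.C) (U.map Polynomial.C) Polynomial.X)
    (MvPolynomial.map Polynomial.C p)) 0 rfl fun m _ => (key (RingHom.id R) m).trans (by
      rw [map_id]
      exact hp _ (dv_nat h0 h hU m))
  have h2 := key (algebraMap R (DualNumber R)) DualNumber.eps
  have h3 : W.map (algebraMap R (DualNumber R)) ^ k = 0 := by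
    change (algebraMap R (DualNumber R)).mapMatrix W ^ k = 0
    rw [← map_pow, h0, map_zero]
  rw [h1, map_zero, dv_eps h3 _ DualNumber.eps_mul_eps, dv_taylor _ _ DualNumber.eps_mul_eps,
    ← dv_map, ← map_ev, ← map_ev] at h2
  simpa [TrivSqZeroExt.algebraMap_eq_inl] using (congrArg TrivSqZeroExt.snd h2).symm

omit [DecidableEq ι] in
theorem dv_add (W V : Matrix ι ι R) : D (W + V) = D W + D V :=
  derivation_ext fun i => by
    simp only [Derivation.add_apply, dv_X, cst, genU, Matrix.sub_apply, Matrix.mul_apply,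
      Matrix.map_apply, Matrix.add_apply, map_add, add_mul, mul_add, Finset.sum_add_distrib]
    ring

omit [DecidableEq ι] in
theorem dv_smul (c : R) (W : Matrix ι ι R) : D (c • W) = c • D W :=
  derivation_ext fun i => by
    simp only [Derivation.smul_apply, dv_X, cst, genU, Matrix.sub_apply, Matrix.mul_apply,
      Matrix.map_apply, Matrix.smul_apply, smul_eq_mul, map_mul, smul_eq_C_mul, mul_sub,
      Finset.mul_sum, mul_assoc, mul_left_comm]

/-- The relations vanish at `X` after any iterated derivation along the span of the class. -/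
theorem Cls.vanish [Algebra ℚ R] {k n : ℕ} {X : Matrix ι ι R} {Cs : Set (Matrix ι ι R)}
    (h : Cls k n X Cs) : ∀ p ∈ relP k n X, ∀ ws : List (Matrix ι ι R),
      (∀ W ∈ ws, W ∈ Submodule.span ℚ Cs) → ev X (Dl ws p) = 0 := by
  intro p hp ws hw
  suffices k : ∀ U ∈ Cs, ev U (Dl ws p) = 0 from k X h.mem
  induction ws with
  | nil =>
    intro U hU
    let f := (ev U).mapMatrix (m := ι)
    have h1 : f (genU ι R) = U := by
      ext a b
      simp [f, genU, ev]
    have h2 : f (cst X) = X := by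
      ext a b
      simp [f, cst, ev]
    obtain ⟨a, b, rfl | rfl⟩ := hp
    · change f (genU ι R ^ k) a b = 0
      rw [map_pow, h1, h.nil U hU, Matrix.zero_apply]
    · change f ((Phi k (cst X))^[n] (genU ι R) - cst X) a b = 0
      rw [map_sub, map_Phi_iter, h1, h2, h.engel U hU, sub_self, Matrix.zero_apply]
  | cons W ws ih =>
    have h1 := ih fun V hV => hw V (List.mem_cons_of_mem W hV)
    have h2 := hw W List.mem_cons_self
    intro U hU
    change ev U (D W (Dl ws p)) = 0
    clear hw
    induction h2 using Submodule.span_induction with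
    | mem W hW => exact dv_step (h.nil W hW) (h.conj W hW) h1 hU
    | zero => rw [← zero_smul R (0 : Matrix ι ι R), dv_smul, zero_smul, Derivation.zero_apply,
        map_zero]
    | add W V _ _ k1 k2 => rw [dv_add, Derivation.add_apply, map_add, k1, k2, add_zero]
    | smul c W _ k1 => rw [← algebraMap_smul R c, dv_smul, Derivation.smul_apply, smul_eq_C_mul,
        map_mul, k1, mul_zero]

end Pool.Agent.Lib.MP_b39e30_al.Lin
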