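import Pool.Agent.Lib.MP_b39e30_al.Lin.Defs

set_option autoImplicit false

namespace Pool.Agent.Lib.MP_b39e30_al.Lin

section JM

variable {K A : Type*} [Field K] [CharZero K] [Ring A] [Algebra K A] {X W C : A}

omit [CharZero K] in
theorem jm_pow (hC : X * W = W * X + C) (hc : Commute X C) (i : ℕ) :
    X ^ (i + 1) * W = W * X ^ (i + 1) + ((i : K) + 1) • (C * X ^ i) := by
  induction i with
  | zero => simpa using hC
  | succ i ih =>
    rw [pow_succ X (i + 1), mul_assoc, hC, mul_add, ← mul_assoc, ih, (hc.pow_left _).eq, add_mul,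
      smul_mul_assoc, mul_assoc, mul_assoc, ← pow_succ X i]
    push_cast
    module

theorem jm_nilC (K : Type*) [Field K] [CharZero K] [Algebra K A] (hC : X * W = W * X + C)
    (hc : Commute X C) (n : ℕ) (h : ∃ r, C ^ r * X ^ n = 0) : IsNilpotent C := by
  induction n with
  | zero => exact h.imp fun r hr => by simpa using hr
  | succ n ih =>
    obtain ⟨r, hr⟩ := h
    have h1 := congrArg (fun z => C ^ r * z * C ^ r) (jm_pow (K := K) hC hc n)
    simp only [mul_add, add_mul, mul_smul_comm, smul_mul_assoc] at h1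
    rw [← mul_assoc, hr] at h1
    simp only [mul_assoc, (hc.pow_pow _ _).eq, hr, zero_mul, mul_zero, zero_add] at h1
    refine ih ⟨r + (r + 1), ?_⟩
    rw [pow_add, pow_succ', mul_assoc, mul_assoc]
    exact (smul_eq_zero.1 h1.symm).resolve_left (Nat.cast_add_one_ne_zero n)

theorem jm_nil (K : Type*) [Field K] [CharZero K] [Algebra K A] (hC : X * W = W * X + C)
    (hc : Commute X C) (hn : IsNilpotent X) : IsNilpotent (X * W) := by
  obtain ⟨n, hn⟩ := hn
  obtain ⟨m, hm⟩ := jm_nilC K hC hc n ⟨0, by rw [hn, mul_zero]⟩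
  have k1 : ∀ i k : ℕ, ∃ a, X ^ i * (X * W) ^ k =
      a * X ^ (i + 1) + ((i : K) + 1) ^ k • (C ^ k * X ^ i) := fun i k => by
    induction k with
    | zero => exact ⟨0, by simp⟩
    | succ k ih =>
      obtain ⟨a, ha⟩ := ih
      refine ⟨a * (W * X + (((i + 1 : ℕ) : K) + 1) • C) + ((i : K) + 1) ^ k • (C ^ k * W), ?_⟩
      rw [pow_succ (X * W), ← mul_assoc, ha, add_mul, smul_mul_assoc, mul_assoc, mul_assoc,
        ← mul_assoc _ X W, ← mul_assoc _ X W, ← pow_succ, ← pow_succ, jm_pow (K := K) hC hc,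
        jm_pow (K := K) hC hc i, pow_succ' X (i + 1), pow_succ C]
      simp only [mul_add, add_mul, mul_smul_comm, smul_mul_assoc, mul_assoc]
      module
  have k2 : ∀ i, ∃ a, (X * W) ^ (m * i) = a * X ^ i := fun i => by
    induction i with
    | zero => exact ⟨1, by simp⟩
    | succ i ih =>
      obtain ⟨a, ha⟩ := ih
      obtain ⟨b, hb⟩ := k1 i m
      exact ⟨a * b, by rw [mul_add_one, pow_add, ha, mul_assoc, hb, hm, mul_assoc]; simp⟩
  obtain ⟨a, ha⟩ := k2 n
  exact ⟨_, by rw [ha, hn, mul_zero]⟩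

theorem jm_inj {M : Type*} [AddCommGroup M] [Module K M] (e f h : Module.End K M)
    (a1 : ∀ v, e (f v) = f (e v) + h v) (a2 : ∀ v, e (h v) = h (e v) - (e v + e v))
    (hn : IsNilpotent e) {u : M} (hu : e u = 0) (hh : h u + (u + u) = 0) : u = 0 := by
  have key : ∀ (i : ℕ) v, (e ^ (i + 1)) (f v) = f ((e ^ (i + 1)) v) +
      ((i : K) + 1) • h ((e ^ i) v) - (((i : K) + 1) * i) • (e ^ i) v := fun i v => by
    induction i with
    | zero => simpa using a1 v
    | succ i ih =>
      rw [pow_succ' e (i + 1), Module.End.mul_apply, ih, map_sub, map_add, map_smul, map_smul,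
        a1, a2]
      simp only [pow_succ', Module.End.mul_apply]
      push_cast
      module
  have k2 : ∀ i : ℕ, ∃ v, (e ^ i) v = u := fun i => by
    induction i with
    | zero => exact ⟨u, rfl⟩
    | succ i ih =>
      obtain ⟨v, hv⟩ := ih
      have h0 : -(((i : K) + 1) * ((i + 1 : ℕ) + 1)) ≠ 0 := neg_ne_zero.2
        (mul_ne_zero (Nat.cast_add_one_ne_zero i) (Nat.cast_add_one_ne_zero _))
      refine ⟨(-(((i : K) + 1) * ((i + 1 : ℕ) + 1)))⁻¹ • f v, ?_⟩
      rw [map_smul, inv_smul_eq_iff₀ h0, key, pow_succ', Module.End.mul_apply, hv, hu, map_zero,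
        eq_neg_of_add_eq_zero_left hh]
      push_cast
      module
  obtain ⟨n, hn⟩ := hn
  obtain ⟨v, rfl⟩ := k2 n
  rw [hn, LinearMap.zero_apply]

end JM

open LinearMap in
theorem jm_range {K V : Type*} [Field K] [CharZero K] [AddCommGroup V] [Module K V]
    [FiniteDimensional K V] (L : Submodule K (Module.End K V))
    (hL : ∀ a ∈ L, ∀ b ∈ L, a * b - b * a ∈ L)
    (hnd : ∀ Z ∈ L, (∀ W ∈ L, LinearMap.trace K V (Z * W) = 0) → Z = 0)
    {X : Module.End K V} (hX : X ∈ L) (hn : IsNilpotent X) :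
    ∃ Z ∈ L, X * (X * Z - Z * X) - (X * Z - Z * X) * X = X := by
  by_contra h
  obtain ⟨φ, h1, h2⟩ := Submodule.exists_dual_map_eq_bot_of_notMem
    (p := L.map ((mulLeft K X - mulRight K X) * (mulLeft K X - mulRight K X)))
    (x := X) (fun ⟨Z, hZ, e⟩ => h ⟨Z, hZ, e⟩) inferInstance
  obtain ⟨B, hB⟩ : ∃ B : L →ₗ[K] Module.Dual K L, ∀ Z W, B Z W = trace K V (Z * W) :=
    ⟨((mul K _).compr₂ (trace K V)).compl₁₂ L.subtype L.subtype, fun _ _ => rfl⟩
  obtain ⟨W, hW⟩ := (injective_iff_surjective_of_finrank_eq_finrank (f := B)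
    Subspace.dual_finrank_eq.symm).1 ((injective_iff_map_eq_zero B).2 fun Z hZ => Subtype.ext
      (hnd _ Z.2 fun W hW => by rw [← hB Z ⟨W, hW⟩, hZ]; rfl)) (φ.comp L.subtype)
  have h3 : ∀ Z ∈ L, trace K V (W * Z) = φ Z := fun Z hZ => by rw [← hB W ⟨Z, hZ⟩, hW]; rfl
  have sk : ∀ a b : Module.End K V,
      trace K V ((X * a - a * X) * b) = -trace K V (a * (X * b - b * X)) := fun a b => by
    rw [sub_mul, mul_sub, map_sub, map_sub, mul_assoc X, trace_mul_comm K X, mul_assoc, mul_assoc,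
      neg_sub]
  have h4 := hnd _ (hL _ hX _ (hL _ hX _ W.2)) fun Z hZ => by
    rw [sk, sk, neg_neg, h3 _ (hL _ hX _ (hL _ hX _ hZ))]
    exact (Submodule.mem_bot K).1 (h2 ▸ Submodule.mem_map_of_mem (Submodule.mem_map_of_mem hZ))
  refine h1 ?_
  rw [← h3 X hX, trace_mul_comm]
  exact (isNilpotent_trace_of_isNilpotent (jm_nil K (C := X * W.1 - W.1 * X) (by abel)
    (sub_eq_zero.1 h4) hn)).eq_zero

open LinearMap in
/-- Jacobson-Morozov for a Lie algebra of endomorphisms with nondegenerate trace form. -/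
theorem jacobson_morozov {K V : Type*} [Field K] [CharZero K] [AddCommGroup V] [Module K V]
    [FiniteDimensional K V] (L : Submodule K (Module.End K V))
    (hL : ∀ a ∈ L, ∀ b ∈ L, a * b - b * a ∈ L)
    (hnd : ∀ Z ∈ L, (∀ W ∈ L, LinearMap.trace K V (Z * W) = 0) → Z = 0)
    {X : Module.End K V} (hX : X ∈ L) (hn : IsNilpotent X) :
    ∃ H ∈ L, ∃ Y ∈ L, H * X - X * H = X + X ∧ H * Y - Y * H = -(Y + Y) ∧ X * Y - Y * X = H := by
  obtain ⟨Z, hZ, h0⟩ := jm_range L hL hnd hX hn
  obtain ⟨Y, hY, h1⟩ : ∃ Y ∈ L, (X * Y - Y * X) * X - X * (X * Y - Y * X) = X + X :=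
    ⟨-(Z + Z), neg_mem (add_mem hZ hZ), by linear_combination (norm := noncomm_ring) h0 + h0⟩
  have hH := hL _ hX _ hY
  generalize h2 : X * Y - Y * X = H at h1 hH
  obtain ⟨S, hS⟩ : ∃ S : Submodule K (Module.End K V), ∀ u, u ∈ S ↔ u ∈ L ∧ X * u - u * X = 0 :=
    ⟨L ⊓ ker (mulLeft K X - mulRight K X), fun _ => Iff.rfl⟩
  obtain ⟨T, hT⟩ : ∃ T : Module.End K (Module.End K V), ∀ u, T u = H * u - u * H + (u + u) :=
    ⟨mulLeft K H - mulRight K H + (1 + 1), fun _ => rfl⟩
  have m : ∀ u ∈ S, T u ∈ S := fun u hu => by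
    obtain ⟨a, b⟩ := (hS u).1 hu
    rw [hS, hT]
    exact ⟨add_mem (hL _ hH _ a) (add_mem a a),
      by linear_combination (norm := noncomm_ring) H * b - b * H - h1 * u + u * h1⟩
  have inj : Function.Injective (T.restrict m) := by
    refine (injective_iff_map_eq_zero _).2 fun u hu => Subtype.ext
      (jm_inj (mulLeft K X - mulRight K X) (mulLeft K Y - mulRight K Y)
        (mulLeft K H - mulRight K H) (fun v => ?_) (fun v => ?_)
        ((commute_mulLeft_right X X).isNilpotent_sub ((isNilpotent_mulLeft_iff K X).2 hn)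
          ((isNilpotent_mulRight_iff K X).2 hn)) ((hS u).1 u.2).2
        ((hT u).symm.trans (congrArg Subtype.val hu))) <;>
      simp only [LinearMap.sub_apply, mulLeft_apply, mulRight_apply]
    · linear_combination (norm := noncomm_ring) h2 * v - v * h2
    · linear_combination (norm := noncomm_ring) v * h1 - h1 * v
  obtain ⟨W, hW⟩ := injective_iff_surjective.1 inj
    ⟨H * Y - Y * H + (Y + Y), (hS _).2 ⟨add_mem (hL _ hH _ hY) (add_mem hY hY), by
      linear_combination (norm := noncomm_ring) H * h2 - h2 * H - h1 * Y + Y * h1⟩⟩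
  have h3 := (hT W).symm.trans (congrArg Subtype.val hW)
  obtain ⟨a, b⟩ := (hS W).1 W.2
  exact ⟨H, hH, Y - W, sub_mem hY a, h1, by linear_combination (norm := noncomm_ring) -h3,
    by linear_combination (norm := noncomm_ring) h2 - b⟩

end Pool.Agent.Lib.MP_b39e30_al.Lin
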