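import Pool.Agent.Lib.MP_b39e30_al.Lin.Defs

set_option autoImplicit false

namespace Pool.Agent.Lib.MP_b39e30_al.Lin

attribute [local instance 100] LieRing.ofAssociativeRing

theorem nondeg_nil {K L M : Type*} [Field K] [LieRing L] [LieAlgebra K L] [Module.Finite K L]
    [AddCommGroup M] [Module K M] [LieRingModule L M] [LieModule K L M] [Module.Finite K M]
    [LieModule.IsFaithful K L M] (h : LieModule.IsNilpotent L M) : LieRing.IsNilpotent L := by
  have h1 : LieRing.IsNilpotent (LieModule.toEnd K L M).range := by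
    rw [LieAlgebra.isNilpotent_iff_forall (R := K)]
    rintro ⟨_, x, rfl⟩
    exact LieAlgebra.isNilpotent_ad_of_isNilpotent
      ((LieModule.isNilpotent_iff_forall' (R := K)).1 h x)
  exact ((LieModule.toEnd K L M).equivRangeOfInjective
    LieModule.IsFaithful.injective_toEnd).injective.lieAlgebra_isNilpotent

theorem nondeg_abs {K L M : Type*} [Field K] [CharZero K] [IsAlgClosed K] [LieRing L]
    [LieAlgebra K L] [Module.Finite K L] [AddCommGroup M] [Module K M] [LieRingModule L M]
    [LieModule K L M] [Module.Finite K M] [LieModule.IsFaithful K L M]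
    [LieModule.IsIrreducible K L M] (x : L) (hx : ∀ y, LieModule.traceForm K L M y x = 0) :
    x = 0 := by
  let N : LieIdeal K L := LieAlgebra.InvariantForm.orthogonal (LieModule.traceForm K L M)
    (LieModule.traceForm_lieInvariant K L M) ⊤
  have hN : ∀ z, z ∈ N ↔ ∀ y, LieModule.traceForm K L M y z = 0 := fun z => by
    rw [LieAlgebra.InvariantForm.mem_orthogonal]
    simp
  have h0 : LieModule.traceForm K N M = 0 := by
    ext ⟨a, ha⟩ ⟨b, hb⟩
    exact (hN b).1 hb a
  have h1 := LieModule.isNilpotent_derivedSeries_of_traceForm_eq_zero h0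
  have : LieModule.IsFaithful K (LieAlgebra.derivedSeries K N 1) M := by
    rw [LieModule.isFaithful_iff']
    intro z hz
    exact Subtype.ext (Subtype.ext ((LieModule.isFaithful_iff' K L M).1 inferInstance _ hz))
  have h2 := nondeg_nil (K := K) h1
  have h3 : LieAlgebra.IsSolvable N := by
    obtain ⟨k, hk⟩ := LieAlgebra.IsSolvable.solvable K (LieAlgebra.derivedSeries K N 1)
    rw [LieIdeal.derivedSeries_eq_bot_iff] at hk
    refine LieAlgebra.IsSolvable.mk (R := K) (k := k + 1) ?_
    rwa [LieAlgebra.derivedSeries_def, LieAlgebra.derivedSeriesOfIdeal_add]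
  obtain ⟨h4, h5⟩ := LieAlgebra.hasCentralRadical_and_of_isIrreducible_of_isFaithful K L M
  have h6 : x ∈ LieAlgebra.center K L := by
    rw [← (LieAlgebra.hasCentralRadical_iff K L).1 h4]
    exact (LieAlgebra.LieIdeal.solvable_iff_le_radical K L N).1 h3 ((hN x).2 hx)
  obtain ⟨t, ht⟩ := Submodule.mem_span_singleton.1 ((h5 x).1 h6)
  have hM : Module.finrank K M ≠ 0 :=
    (Module.finrank_pos_iff.2 (LieModule.nontrivial_of_isIrreducible K L M)).ne'
  have h7 := hx x
  rw [LieModule.traceForm_apply_apply, ← ht] at h7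
  have h8 : t = 0 := by simpa [LinearMap.smul_comp, hM] using h7
  rw [← LieModule.toEnd_eq_zero_iff K L M, ← ht, h8, zero_smul]

/-- The trace form of an irreducible Lie algebra of endomorphisms is nondegenerate. -/
theorem trace_nondeg {K V : Type*} [Field K] [CharZero K] [IsAlgClosed K] [AddCommGroup V]
    [Module K V] [FiniteDimensional K V] (L : Submodule K (Module.End K V))
    (hL : ∀ a ∈ L, ∀ b ∈ L, a * b - b * a ∈ L)
    (hirr : ∀ W : Submodule K V, (∀ a ∈ L, ∀ v ∈ W, a v ∈ W) → W = ⊥ ∨ W = ⊤) :
    ∀ Z ∈ L, (∀ W ∈ L, LinearMap.trace K V (Z * W) = 0) → Z = 0 := by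
  intro Z hZ h
  rcases subsingleton_or_nontrivial V with hV | hV
  · exact Subsingleton.elim _ _
  let L' : LieSubalgebra K (Module.End K V) := { L with lie_mem' := fun {a b} ha hb => hL a ha b hb }
  have : LieModule.IsIrreducible K L' V := by
    refine LieModule.IsIrreducible.mk fun N hN => ?_
    rcases hirr N.toSubmodule (fun a ha v hv => N.lie_mem (x := (⟨a, ha⟩ : L')) hv) with h1 | h1
    · exact absurd (LieSubmodule.toSubmodule_injective h1) hN
    · exact LieSubmodule.toSubmodule_injective h1
  have : Module.Finite K L' := inferInstanceAs (Module.Finite K L)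
  have h1 := nondeg_abs (K := K) (L := L') (M := V) ⟨Z, hZ⟩ (fun y => by
    rw [LieModule.traceForm_comm, LieModule.traceForm_apply_apply]
    exact h y.1 y.2)
  exact congrArg Subtype.val h1

end Pool.Agent.Lib.MP_b39e30_al.Lin
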