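import Pool.Agent.Lib.MP_b39e30_al.Lin.Defs

set_option autoImplicit false

namespace Pool.Agent.Lib.MP_b39e30_al.Lin

section Conj

variable {A : Type*} [Ring A] [Algebra ℚ A]

omit [Algebra ℚ A] in
theorem sl2_neg_pow {k : ℕ} {U : A} (h : U ^ k = 0) : (-U) ^ k = 0 := by
  rw [neg_pow, h, mul_zero]

/-- Conjugation by the exponential when the third bracket vanishes. -/
theorem sl2_conj {k : ℕ} {U Z Z₁ W : A} (hU : U ^ k = 0) (e1 : U * Z - Z * U = Z₁)
    (e2 : U * Z₁ - Z₁ * U = W + W) (e3 : U * W - W * U = 0) :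
    E k U * Z * E k (-U) = Z + Z₁ + W := by
  have hL : (LinearMap.mulLeft ℚ U) ^ k = 0 := by
    rw [LinearMap.pow_mulLeft, hU, LinearMap.mulLeft_zero_eq_zero]
  have hR : (LinearMap.mulRight ℚ (-U)) ^ k = 0 := by
    rw [LinearMap.pow_mulRight, sl2_neg_pow hU, LinearMap.mulRight_zero_eq_zero]
  have hc := LinearMap.commute_mulLeft_right (R := ℚ) U (-U)
  have hT : ∀ Z : A, (LinearMap.mulLeft ℚ U + LinearMap.mulRight ℚ (-U)) Z = U * Z - Z * U := by
    intro Z
    simp [sub_eq_add_neg]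
  have hL' : ∀ Z : A, IsNilpotent.exp (LinearMap.mulLeft ℚ U) Z = E k U * Z := by
    intro Z
    simp only [IsNilpotent.exp_eq_sum hL, E, LinearMap.sum_apply, LinearMap.smul_apply,
      LinearMap.pow_mulLeft, LinearMap.mulLeft_apply, Finset.sum_mul, smul_mul_assoc]
  have hR' : IsNilpotent.exp (LinearMap.mulRight ℚ (-U)) Z = Z * E k (-U) := by
    simp only [IsNilpotent.exp_eq_sum hR, E, LinearMap.sum_apply, LinearMap.smul_apply,
      LinearMap.pow_mulRight, LinearMap.mulRight_apply, Finset.mul_sum, mul_smul_comm]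
  have h1 : IsNilpotent.exp (LinearMap.mulLeft ℚ U + LinearMap.mulRight ℚ (-U)) Z =
      E k U * Z * E k (-U) := by
    rw [IsNilpotent.exp_add_of_commute hc ⟨k, hL⟩ ⟨k, hR⟩, Module.End.mul_apply, hR', hL',
      mul_assoc]
  have h2 : ((LinearMap.mulLeft ℚ U + LinearMap.mulRight ℚ (-U)) ^ 2) Z = W + W := by
    rw [pow_two, Module.End.mul_apply, hT, hT, e1, e2]
  have h3 : ((LinearMap.mulLeft ℚ U + LinearMap.mulRight ℚ (-U)) ^ 3) • Z = 0 := by
    rw [Module.End.smul_def, pow_succ', Module.End.mul_apply, h2, map_add, hT, e3, add_zero]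
  have h4 := IsNilpotent.exp_smul_eq_sum h3 (hc.isNilpotent_add ⟨k, hL⟩ ⟨k, hR⟩)
  rw [Module.End.smul_def, h1] at h4
  rw [h4]
  simp only [Finset.sum_range_succ, Finset.sum_range_zero, Module.End.smul_def, h2, pow_zero,
    pow_one, hT, e1, Module.End.one_apply]
  norm_num
  module

theorem sl2_nil {k : ℕ} {U Z : A} (hU : U ^ k = 0) (hZ : Z ^ k = 0) :
    (E k U * Z * E k (-U)) ^ k = 0 := by
  rw [E_eq_exp hU, E_eq_exp (sl2_neg_pow hU)]
  have h1 := IsNilpotent.exp_mul_exp_neg_self (a := U) ⟨k, hU⟩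
  have h2 := IsNilpotent.exp_neg_mul_exp_self (a := U) ⟨k, hU⟩
  have h3 : ∀ m : ℕ, (IsNilpotent.exp U * Z * IsNilpotent.exp (-U)) ^ m =
      IsNilpotent.exp U * Z ^ m * IsNilpotent.exp (-U) := by
    intro m
    induction m with
    | zero => rw [pow_zero, pow_zero, mul_one, h1]
    | succ m ih =>
      rw [pow_succ, ih, pow_succ]
      simp only [mul_assoc]
      rw [← mul_assoc (IsNilpotent.exp (-U)), h2, one_mul]
  rw [h3, hZ, mul_zero, zero_mul]

variable {K : Type*} [CommRing K] [Algebra K A] {X H Y : A}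

omit [Algebra ℚ A] in
theorem sl2_br (h1 : H * X - X * H = X + X) (h2 : H * Y - Y * H = -(Y + Y))
    (h3 : X * Y - Y * X = H) (a b c a' b' c' : K) :
    (a • X + b • H + c • Y) * (a' • X + b' • H + c' • Y) -
      (a' • X + b' • H + c' • Y) * (a • X + b • H + c • Y) =
      (2 * (b * a' - a * b')) • X + (a * c' - c * a') • H + (2 * (c * b' - b * c')) • Y := by
  have e1 := eq_add_of_sub_eq h1
  have e2 := eq_add_of_sub_eq h2
  have e3 := eq_add_of_sub_eq h3
  simp only [mul_add, add_mul, smul_mul_assoc, mul_smul_comm, e1, e2, e3]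
  module

/-- One Engel step inside the span of the triple. -/
theorem sl2_step {k : ℕ} (hX : X ^ k = 0) (h1 : H * X - X * H = X + X)
    (h2 : H * Y - Y * H = -(Y + Y)) (h3 : X * Y - Y * X = H) {a b c : K} (h : a * c + b ^ 2 = 0)
    (hU : (a • X + b • H + c • Y) ^ k = 0) :
    ∃ a' b' : K, Phi k X (a • X + b • H + c • Y) = a' • X + b' • H + (-c ^ 2) • Y ∧
      a' * (-c ^ 2) + b' ^ 2 = 0 ∧ (Phi k X (a • X + b • H + c • Y)) ^ k = 0 := by
  have hx : X = (1 : K) • X + (0 : K) • H + (0 : K) • Y := by module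
  have hx' : -X = (-1 : K) • X + (0 : K) • H + (0 : K) • Y := by module
  have hp : Phi k X (a • X + b • H + c • Y) = E k (-X) * (E k (a • X + b • H + c • Y) * X *
      E k (-(a • X + b • H + c • Y))) * E k (- -X) := by
    rw [Phi, neg_neg]
    simp only [mul_assoc]
  have s1 : E k (a • X + b • H + c • Y) * X * E k (-(a • X + b • H + c • Y)) =
      ((1 + b) ^ 2) • X + (-(c * (1 + b))) • H + (-c ^ 2) • Y := by
    rw [sl2_conj (Z₁ := (2 * b) • X + (-c) • H + (0 : K) • Y)
      (W := (b ^ 2) • X + (-(b * c)) • H + (-c ^ 2) • Y) hU]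
    · module
    · conv_lhs => enter [1, 2]; rw [hx]
      conv_lhs => enter [2, 1]; rw [hx]
      rw [sl2_br h1 h2 h3]
      module
    · rw [sl2_br h1 h2 h3]
      match_scalars
      · linear_combination 2 * h
      · ring
      · ring
    · rw [sl2_br h1 h2 h3]
      match_scalars
      · linear_combination (2 * b) * h
      · linear_combination (-c) * h
      · ring
  refine ⟨(1 + b) ^ 2 - 2 * (c * (1 + b)) + c ^ 2, -(c * (1 + b)) + c ^ 2, ?_, by ring, ?_⟩
  · rw [hp, s1, sl2_conj (Z₁ := (-(2 * (c * (1 + b)))) • X + (c ^ 2) • H + (0 : K) • Y)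
      (W := (c ^ 2) • X + (0 : K) • H + (0 : K) • Y) (sl2_neg_pow hX)]
    · module
    · rw [hx', sl2_br h1 h2 h3]
      module
    · rw [hx', sl2_br h1 h2 h3]
      module
    · rw [hx', sl2_br h1 h2 h3]
      module
  · rw [hp]
    exact sl2_nil (sl2_neg_pow hX) (sl2_nil hU hX)

theorem sl2_iter {k : ℕ} (hX : X ^ k = 0) (h1 : H * X - X * H = X + X)
    (h2 : H * Y - Y * H = -(Y + Y)) (h3 : X * Y - Y * X = H) {t : K}
    (hU : ((1 : K) • X + (-t) • H + (-t ^ 2) • Y) ^ k = 0) (n : ℕ) :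
    ∃ a b : K, (Phi k X)^[n] ((1 : K) • X + (-t) • H + (-t ^ 2) • Y) =
      a • X + b • H + (-t ^ 2 ^ (n + 1)) • Y ∧ a * (-t ^ 2 ^ (n + 1)) + b ^ 2 = 0 ∧
      (a • X + b • H + (-t ^ 2 ^ (n + 1)) • Y) ^ k = 0 := by
  induction n with
  | zero => exact ⟨1, -t, by simp, by ring, by simpa using hU⟩
  | succ n ih =>
    obtain ⟨a, b, e1, e2, e3⟩ := ih
    obtain ⟨a', b', f1, f2, f3⟩ := sl2_step hX h1 h2 h3 e2 e3
    have e4 : -(-t ^ 2 ^ (n + 1)) ^ 2 = -t ^ 2 ^ (n + 1 + 1) := by ring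
    rw [e4] at f1 f2
    exact ⟨a', b', by rw [Function.iterate_succ_apply', e1, f1], f2, f1 ▸ f3⟩

omit [Algebra ℚ A] in
theorem sl2_kill (h1 : H * X - X * H = X + X) (h2 : H * Y - Y * H = -(Y + Y))
    (h3 : X * Y - Y * X = H) {a b c : K} (h : a • X + b • H + c • Y = X) :
    (8 * c) • Y = 0 := by
  have h4 : (a - 1) • X + b • H + c • Y = 0 := by
    rw [sub_smul, one_smul, ← sub_eq_zero.2 h]
    abel
  have h5 := sl2_br h1 h2 h3 (0 : K) 1 0 (a - 1) b c
  rw [h4, mul_zero, zero_mul, sub_zero] at h5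
  have h6 := sl2_br h1 h2 h3 (0 : K) 1 0 (2 * (1 * (a - 1) - 0 * b)) (0 * c - 0 * (a - 1))
    (2 * (0 * b - 1 * c))
  rw [← h5, mul_zero, zero_mul, sub_zero] at h6
  linear_combination (norm := module) (2 : K) • h5 - h6

end Conj

/-- An `sl₂`-triple cannot satisfy the formal Engel condition unless it is zero. -/
theorem sl2_FE {B : Type*} [Ring B] [Algebra ℚ B] {k n : ℕ} {X H Y : B} (hX : X ^ k = 0)
    (h1 : H * X - X * H = X + X) (h2 : H * Y - Y * H = -(Y + Y)) (h3 : X * Y - Y * X = H)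
    (h : FE k n X Y) : X = 0 := by
  let t : Subring.center (PowerSeries B) :=
    ⟨PowerSeries.X, Subring.mem_center_iff.2 fun g => (PowerSeries.commute_X g).eq⟩
  have c1 := congrArg (PowerSeries.C (R := B)) h1
  have c2 := congrArg (PowerSeries.C (R := B)) h2
  have c3 := congrArg (PowerSeries.C (R := B)) h3
  simp only [map_sub, map_mul, map_add, map_neg] at c1 c2 c3
  have cX : (PowerSeries.C X) ^ k = 0 := by rw [← map_pow, hX, map_zero]
  have i1 : Y * X - X * Y = -H := by rw [← h3, neg_sub]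
  have i2 : Y * -H - -H * Y = -(Y + Y) := by rw [← h2]; noncomm_ring
  have i3 : Y * -(Y + Y) - -(Y + Y) * Y = 0 := by noncomm_ring
  have hf : flow Y X = (1 : Subring.center (PowerSeries B)) • PowerSeries.C X +
      (-t) • PowerSeries.C H + (-t ^ 2) • PowerSeries.C Y := by
    ext i
    simp only [one_smul, neg_smul, Subring.smul_def, smul_eq_mul, t, SubmonoidClass.mk_pow,
      map_add, map_neg, flow, PowerSeries.coeff_mk, PowerSeries.coeff_mul_C, PowerSeries.coeff_C,
      PowerSeries.coeff_X, PowerSeries.coeff_X_pow]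
    rcases i with _ | _ | _ | i
    · simp
    · simp [i1]
    · simp only [Function.iterate_succ_apply', Function.iterate_zero_apply, i1, i2]
      norm_num
      module
    · simp only [Function.iterate_succ_apply, i1, i2, i3]
      rw [Function.iterate_fixed (by simp)]
      simp
  obtain ⟨g1, g2⟩ := h
  rw [hf] at g1 g2
  obtain ⟨a, b, e1, -, -⟩ := sl2_iter cX c1 c2 c3 g1 n
  have k1 := congrArg (PowerSeries.coeff (2 ^ (n + 1))) (sl2_kill c1 c2 c3 (e1.symm.trans g2))
  have k2 : (8 : ℚ) • Y = 0 := by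
    rw [mul_neg, neg_smul, mul_smul, map_neg, map_zero, neg_eq_zero,
      show (8 : Subring.center (PowerSeries B)) = ((8 : ℕ) : Subring.center (PowerSeries B)) by
        norm_num, Nat.cast_smul_eq_nsmul, map_nsmul] at k1
    simp only [Subring.smul_def, smul_eq_mul, t, SubmonoidClass.mk_pow, PowerSeries.coeff_mul_C,
      PowerSeries.coeff_X_pow_self, one_mul] at k1
    rw [← k1]
    exact_mod_cast Nat.cast_smul_eq_nsmul ℚ 8 Y
  have k3 : Y = 0 := by
    have := congrArg (fun z => (8 : ℚ)⁻¹ • z) k2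
    simpa [smul_smul] using this
  have k4 : H = 0 := by rw [← h3, k3, mul_zero, zero_mul, sub_zero]
  have k5 : (2 : ℚ) • X = 0 := by
    rw [two_smul, ← h1, k4, mul_zero, zero_mul, sub_zero]
  have := congrArg (fun z => (2 : ℚ)⁻¹ • z) k5
  simpa [smul_smul] using this

end Pool.Agent.Lib.MP_b39e30_al.Lin
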