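import Pool.Agent.Lib.MP_b39e30_al.Lin.Defs
import Pool.Agent.Lib.MP_b39e30_al.Lin.Sl2
import Pool.Agent.Lib.MP_b39e30_al.Lin.JM
import Pool.Agent.Lib.MP_b39e30_al.Lin.Nondeg

set_option autoImplicit false

namespace Pool.Agent.Lib.MP_b39e30_al.Lin

theorem f1_simple {K A V : Type*} [Field K] [CharZero K] [IsAlgClosed K] [Ring A] [Algebra K A]
    [Algebra ℚ A] [AddCommGroup V] [Module K V] [Module A V] [IsScalarTower K A V]
    [FiniteDimensional K V] [IsSimpleModule A V] {k n : ℕ} {x : A} {T : Set A} (hxT : x ∈ T)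
    (hT : Algebra.adjoin K T = ⊤) (hx : x ^ k = 0) (h : ∀ y, LG K T y → FE k n x y) (v : V) :
    x • v = 0 := by
  let π : A →ₐ[K] Module.End K V := Algebra.lsmul K K V
  have hπ : ∀ a w, π a w = a • w := fun _ _ => rfl
  let L0 : Submodule K A :=
    { carrier := {y | LG K T y}
      add_mem' := fun ha hb => LG.add ha hb
      zero_mem' := LG.zero
      smul_mem' := fun c _ ha => LG.smul c ha }
  let L : Submodule K (Module.End K V) := L0.map π.toLinearMap
  have hL : ∀ a ∈ L, ∀ b ∈ L, a * b - b * a ∈ L := by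
    rintro _ ⟨a, ha, rfl⟩ _ ⟨b, hb, rfl⟩
    exact ⟨a * b - b * a, LG.br ha hb, by simp⟩
  have hirr : ∀ W : Submodule K V, (∀ a ∈ L, ∀ w ∈ W, a w ∈ W) → W = ⊥ ∨ W = ⊤ := by
    intro W hW
    have hst : ∀ a : A, ∀ w ∈ W, a • w ∈ W := by
      intro a
      have ha : a ∈ Algebra.adjoin K T := hT ▸ Algebra.mem_top
      induction ha using Algebra.adjoin_induction with
      | mem a ha => exact fun w hw => hW (π a) ⟨a, LG.mem ha, rfl⟩ w hw
      | algebraMap c => exact fun w hw => by rw [algebraMap_smul]; exact W.smul_mem c hw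
      | add a b _ _ ha hb => exact fun w hw => by rw [add_smul]; exact W.add_mem (ha w hw) (hb w hw)
      | mul a b _ _ ha hb => exact fun w hw => by rw [mul_smul]; exact ha _ (hb w hw)
    let W' : Submodule A V :=
      { carrier := W
        add_mem' := fun ha hb => W.add_mem ha hb
        zero_mem' := W.zero_mem
        smul_mem' := fun c w hw => hst c w hw }
    rcases eq_bot_or_eq_top W' with h0 | h0
    · refine Or.inl (eq_bot_iff.2 fun w hw => ?_)
      have hw' : w ∈ W' := hw
      rw [h0] at hw'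
      exact hw'
    · refine Or.inr (eq_top_iff.2 fun w _ => ?_)
      have hw' : w ∈ W' := h0 ▸ Submodule.mem_top
      exact hw'
  have hxk : π x ^ k = 0 := by rw [← map_pow, hx, map_zero]
  obtain ⟨H, -, _, ⟨y, hy, rfl⟩, h1, h2, h3⟩ :=
    jacobson_morozov L hL (trace_nondeg L hL hirr) (X := π x) ⟨x, LG.mem hxT, rfl⟩ ⟨k, hxk⟩
  let _ : Algebra ℚ (Module.End K V) :=
    ((algebraMap K (Module.End K V)).comp (algebraMap ℚ K)).toAlgebra' fun c z =>
      Algebra.commutes (algebraMap ℚ K c) z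
  have h0 : π x = 0 := sl2_FE hxk h1 h2 h3 ((h y hy).map (π : A →+* Module.End K V))
  rw [← hπ, h0, LinearMap.zero_apply]

theorem f1_LG {K A B : Type*} [CommRing K] [Ring A] [Ring B] [Algebra K A] [Algebra K B]
    (f : A →ₐ[K] B) {S : Set B} {y : A} (hy : LG K (f ⁻¹' S) y) : LG K S (f y) := by
  induction hy with
  | mem ha => exact LG.mem ha
  | zero => rw [map_zero]; exact LG.zero
  | add _ _ ha hb => rw [map_add]; exact LG.add ha hb
  | smul c _ ha => rw [map_smul]; exact LG.smul c ha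
  | br _ _ ha hb => rw [map_sub, map_mul, map_mul]; exact LG.br ha hb

/-- Over a field the formal Engel condition puts `X` into the Jacobson radical of the envelope. -/
theorem field1 {ι : Type} [Fintype ι] [DecidableEq ι] {K : Type*} [Field K] [CharZero K]
    [IsAlgClosed K] {k n : ℕ} {X : Matrix ι ι K} {S : Set (Matrix ι ι K)} (hXS : X ∈ S)
    (hX : X ^ k = 0) (h : ∀ Y, LG K S Y → FE k n X Y) :
    ∀ a ∈ Algebra.adjoin K S, (X * a).trace = 0 := by
  intro a ha
  let A := Algebra.adjoin K S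
  let x : A := ⟨X, Algebra.subset_adjoin hXS⟩
  let _ : Algebra ℚ A :=
    ((algebraMap K A).comp (algebraMap ℚ K)).toAlgebra' fun c z => Algebra.commutes _ z
  have : Module.Finite K A := inferInstanceAs (Module.Finite K (Subalgebra.toSubmodule A))
  have : IsArtinianRing A := IsArtinianRing.of_finite K A
  have hx : x ^ k = 0 := Subtype.ext (by simpa using hX)
  have hT : Algebra.adjoin K (A.val ⁻¹' S) = ⊤ := Algebra.adjoin_adjoin_coe_preimage
  have hFE : ∀ y, LG K (A.val ⁻¹' S) y → FE k n x y := fun y hy =>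
    FE.of_map (A.val : A →+* Matrix ι ι K) Subtype.val_injective (h _ (f1_LG A.val hy))
  have hJ : x ∈ Ring.jacobson A := by
    rw [Ring.jacobson_eq_sInf_isMaximal, Ideal.mem_sInf]
    intro m hm
    have : IsSimpleModule A (A ⧸ m) :=
      isSimpleModule_iff_isCoatom.2 (Ideal.isMaximal_def.1 hm)
    have h1 := f1_simple (K := K) (V := A ⧸ m) (x := x) (T := A.val ⁻¹' S) hXS hT hx hFE
      (Submodule.Quotient.mk 1)
    rw [← Submodule.Quotient.mk_smul, smul_eq_mul, mul_one, Submodule.Quotient.mk_eq_zero] at h1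
    exact h1
  obtain ⟨N, hN⟩ := IsSemiprimaryRing.isNilpotent (R := A)
  have hxa : x * ⟨a, ha⟩ ∈ Ring.jacobson A := Ideal.mul_mem_right _ _ hJ
  have hp := Ideal.pow_mem_pow hxa N
  rw [hN, Ideal.zero_eq_bot, Ideal.mem_bot] at hp
  have hnil : IsNilpotent (X * a) := ⟨N, by simpa using congrArg Subtype.val hp⟩
  exact (Matrix.isNilpotent_trace_of_isNilpotent hnil).eq_zero

end Pool.Agent.Lib.MP_b39e30_al.Lin
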