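import Pool.Agent.Lib.MP_b39e30_al.Lin.Defs

set_option autoImplicit false

namespace Pool.Agent.Lib.MP_b39e30_al.Lin

open Polynomial in
/-- The Fitting idempotent of `a` has trace zero, hence vanishes. -/
theorem field2_nil {ι : Type} [Fintype ι] [DecidableEq ι] {K : Type*} [Field K] [CharZero K]
    {a : Matrix ι ι K} (h : ∀ q : K[X], (aeval a q * a).trace = 0) : IsNilpotent a := by
  obtain ⟨q, h1, h2⟩ := exists_eq_pow_rootMultiplicity_mul_and_not_dvd a.charpoly
    a.charpoly_monic.ne_zero 0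
  rw [C_0, sub_zero] at h1 h2
  generalize rootMultiplicity 0 a.charpoly = m at h1
  have h3 : aeval a (X ^ m * q) = 0 := by rw [← h1, Matrix.aeval_self_charpoly]
  obtain ⟨u, v, h4⟩ : IsCoprime ((X : K[X]) ^ (m + 1)) q :=
    (irreducible_X.coprime_iff_not_dvd.2 h2).pow_left
  have h5 : IsIdempotentElem (aeval a (u * X ^ (m + 1))) := by
    have e : u * X ^ (m + 1) * (u * X ^ (m + 1)) =
        u * X ^ (m + 1) - u * v * X * (X ^ m * q) := by
      linear_combination (u * X ^ (m + 1)) * h4
    rw [IsIdempotentElem, ← map_mul, e, map_sub, map_mul _ (u * v * X), h3, mul_zero, sub_zero]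
  have h6 : (aeval a (u * X ^ (m + 1))).trace = 0 := by
    rw [pow_succ, ← mul_assoc, map_mul, aeval_X]
    exact h _
  have h7 : aeval a (u * X ^ (m + 1)) = 0 := by
    apply Matrix.toLinAlgEquiv'.injective
    rw [map_zero]
    refine LinearMap.IsIdempotentElem.eq_zero_of_trace_eq_zero (h5.map Matrix.toLinAlgEquiv') ?_
    exact (Matrix.trace_toLin'_eq _).trans h6
  refine ⟨m, ?_⟩
  have e : (X : K[X]) ^ m = X ^ m * (u * X ^ (m + 1)) + v * (X ^ m * q) := by
    linear_combination (-X ^ m) * h4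
  rw [← aeval_X_pow (R := K), e, map_add, map_mul, h7, map_mul _ v, h3, mul_zero, mul_zero,
    add_zero]

theorem field2_tr {ι : Type} [Fintype ι] [DecidableEq ι] {K : Type*} [Field K]
    {S : Set (Matrix ι ι K)}
    (h : ∀ l : List (Matrix ι ι K), l ≠ [] → (∀ W ∈ l, W ∈ S) → l.prod.trace = 0)
    {y s : Matrix ι ι K} (hy : y ∈ Algebra.adjoin K S) (hs : s ∈ S) : (y * s).trace = 0 := by
  rw [← Subalgebra.mem_toSubmodule, Algebra.adjoin_eq_span] at hy
  induction hy using Submodule.span_induction with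
  | mem x hx =>
    obtain ⟨l, h1, rfl⟩ := Submonoid.exists_list_of_mem_closure hx
    have h2 := h (l ++ [s]) (by simp) fun W hW => by
      rcases List.mem_append.1 hW with e | e
      · exact h1 W e
      · rwa [List.mem_singleton.1 e]
    rwa [List.prod_append, List.prod_singleton] at h2
  | zero => rw [zero_mul, Matrix.trace_zero]
  | add x z _ _ h1 h2 => rw [add_mul, Matrix.trace_add, h1, h2, add_zero]
  | smul c x _ h1 => rw [smul_mul_assoc, Matrix.trace_smul, h1, smul_zero]

theorem field2_jac {ι : Type} [Fintype ι] [DecidableEq ι] {K : Type*} [Field K] [CharZero K]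
    {S : Set (Matrix ι ι K)}
    (h : ∀ l : List (Matrix ι ι K), l ≠ [] → (∀ W ∈ l, W ∈ S) → l.prod.trace = 0)
    (x : Algebra.adjoin K S) (hx : x.1 ∈ S) :
    x ∈ Ideal.jacobson (⊥ : Ideal (Algebra.adjoin K S)) := by
  refine Ideal.mem_jacobson_iff.2 fun y => ?_
  have h1 : IsNilpotent (y * x).1 := field2_nil fun q => by
    rw [← Polynomial.aeval_subalgebra_coe, MulMemClass.coe_mul, ← mul_assoc]
    exact field2_tr h (Subalgebra.mul_mem _ (Subtype.prop _) y.2) hx
  obtain ⟨n, hn⟩ := h1
  have h2 : IsNilpotent (y * x) := ⟨n, Subtype.ext hn⟩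
  obtain ⟨z, hz⟩ := h2.isUnit_add_one.exists_left_inv
  refine ⟨z, ?_⟩
  rw [Ideal.mem_bot, mul_assoc, sub_eq_zero]
  rwa [mul_add, mul_one] at hz

/-- Matrices all of whose nonempty products have trace zero generate a nilpotent algebra. -/
theorem field2 {ι : Type} [Fintype ι] [DecidableEq ι] {K : Type*} [Field K] [CharZero K]
    {S : Set (Matrix ι ι K)}
    (h : ∀ l : List (Matrix ι ι K), l ≠ [] → (∀ W ∈ l, W ∈ S) → l.prod.trace = 0) :
    ∃ N : ℕ, ∀ l : List (Matrix ι ι K), (∀ W ∈ l, W ∈ S) → N ≤ l.length → l.prod = 0 := by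
  have : IsArtinianRing (Algebra.adjoin K S) := IsArtinianRing.of_finite K _
  obtain ⟨N, hN⟩ := IsArtinianRing.isNilpotent_jacobson_bot (R := Algebra.adjoin K S)
  have h1 : ∀ l : List (Matrix ι ι K), (∀ W ∈ l, W ∈ S) → ∃ x : Algebra.adjoin K S,
      x ∈ Ideal.jacobson (⊥ : Ideal (Algebra.adjoin K S)) ^ l.length ∧ x.1 = l.prod := by
    intro l
    induction l using List.reverseRecOn with
    | nil => exact fun _ => ⟨1, by simp [Submodule.pow_zero], rfl⟩
    | append_singleton l s ih =>
      intro hl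
      obtain ⟨x, h2, h3⟩ := ih fun W hW => hl W (List.mem_append_left _ hW)
      have hs : s ∈ S := hl s (by simp)
      refine ⟨x * ⟨s, Algebra.subset_adjoin hs⟩, ?_, ?_⟩
      · rw [List.length_append, List.length_singleton, Submodule.pow_succ]
        exact Ideal.mul_mem_mul h2 (field2_jac h _ hs)
      · rw [List.prod_append, List.prod_singleton, ← h3]
        rfl
  refine ⟨N, fun l hl hn => ?_⟩
  obtain ⟨x, h2, h3⟩ := h1 (l.take N) fun W hW => hl W (List.mem_of_mem_take hW)
  rw [List.length_take, min_eq_left hn, hN, Submodule.zero_eq_bot, Ideal.mem_bot] at h2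
  rw [← List.prod_take_mul_prod_drop l N, ← h3, h2]
  exact zero_mul _

end Pool.Agent.Lib.MP_b39e30_al.Lin
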