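import Pool.Agent.Lib.MP_b39e30_al.Lin.Defs

set_option autoImplicit false
set_option linter.unusedSectionVars false

namespace Pool.Agent.Lib.MP_b39e30_al.Lin

open MvPolynomial

section FormalAux

variable {ι : Type} [Fintype ι] [DecidableEq ι] {K : Type*} [CommRing K]

theorem formal_D_X (W : Matrix ι ι K) (a b : ι) :
    D W (X (a, b)) = (cst W * genU ι K - genU ι K * cst W) a b := by
  simp only [D, mkDerivation_X]

theorem formal_cst_add (A B : Matrix ι ι K) : cst (A + B) = cst A + cst B := by
  refine Matrix.ext fun a b => ?_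
  simp only [cst, Matrix.map_apply, Matrix.add_apply, map_add]

theorem formal_cst_sub (A B : Matrix ι ι K) : cst (A - B) = cst A - cst B := by
  refine Matrix.ext fun a b => ?_
  simp only [cst, Matrix.map_apply, Matrix.sub_apply, map_sub]

theorem formal_cst_mul (A B : Matrix ι ι K) : cst (A * B) = cst A * cst B := by
  simp only [cst, Matrix.map_mul]

theorem formal_cst_smul (c : K) (A : Matrix ι ι K) : cst (c • A) = c • cst A := by
  refine Matrix.ext fun a b => ?_
  simp only [cst, Matrix.map_apply, Matrix.smul_apply, smul_eq_mul, map_mul, smul_eq_C_mul]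

theorem formal_D_zero : D (0 : Matrix ι ι K) = 0 := by
  refine derivation_ext fun p => ?_
  obtain ⟨a, b⟩ := p
  rw [formal_D_X]
  simp [cst]

theorem formal_D_add (A B : Matrix ι ι K) : D (A + B) = D A + D B := by
  refine derivation_ext fun p => ?_
  obtain ⟨a, b⟩ := p
  rw [Derivation.add_apply, formal_D_X, formal_D_X, formal_D_X, formal_cst_add,
    ← Matrix.add_apply]
  refine congrFun (congrFun ?_ a) b
  noncomm_ring

theorem formal_D_smul (c : K) (A : Matrix ι ι K) : D (c • A) = c • D A := by
  refine derivation_ext fun p => ?_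
  obtain ⟨a, b⟩ := p
  rw [Derivation.smul_apply, formal_D_X, formal_D_X, formal_cst_smul, ← Matrix.smul_apply,
    smul_sub, smul_mul_assoc, mul_smul_comm]

theorem formal_map_cst_mul (A B : Matrix ι ι K) (M : Matrix ι ι (MvPolynomial (ι × ι) K)) :
    (cst B * M).map (D A) = cst B * M.map (D A) := by
  refine Matrix.ext fun a b => ?_
  simp only [Matrix.map_apply, Matrix.mul_apply, map_sum, cst, Derivation.leibniz,
    derivation_C, mul_zero, add_zero, smul_eq_mul]

theorem formal_map_mul_cst (A B : Matrix ι ι K) (M : Matrix ι ι (MvPolynomial (ι × ι) K)) :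
    (M * cst B).map (D A) = M.map (D A) * cst B := by
  refine Matrix.ext fun a b => ?_
  simp only [Matrix.map_apply, Matrix.mul_apply, map_sum, cst, Derivation.leibniz,
    derivation_C, mul_zero, zero_add, smul_eq_mul]
  exact Finset.sum_congr rfl fun x _ => mul_comm _ _

theorem formal_map_genU (A : Matrix ι ι K) :
    (genU ι K).map (D A) = cst A * genU ι K - genU ι K * cst A := by
  refine Matrix.ext fun a b => ?_
  rw [← formal_D_X]
  rfl

theorem formal_D_D_X (A B : Matrix ι ι K) (a b : ι) :
    D A (D B (X (a, b))) = (cst B * (cst A * genU ι K - genU ι K * cst A) -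
      (cst A * genU ι K - genU ι K * cst A) * cst B) a b := by
  rw [formal_D_X, ← formal_map_genU A, ← formal_map_cst_mul, ← formal_map_mul_cst]
  simp only [Matrix.sub_apply, Matrix.map_apply, map_sub]

theorem formal_D_br (A B : Matrix ι ι K) : D (A * B - B * A) = ⁅D B, D A⁆ := by
  refine derivation_ext fun p => ?_
  obtain ⟨a, b⟩ := p
  rw [Derivation.commutator_apply, formal_D_D_X, formal_D_D_X, formal_D_X, formal_cst_sub,
    formal_cst_mul, formal_cst_mul, ← Matrix.sub_apply]
  refine congrFun (congrFun ?_ a) b
  noncomm_ring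

theorem formal_Dl_add (ws : List (Matrix ι ι K)) (p q : MvPolynomial (ι × ι) K) :
    Dl ws (p + q) = Dl ws p + Dl ws q := by
  induction ws with
  | nil => rfl
  | cons W ws ih =>
    change D W (Dl ws (p + q)) = D W (Dl ws p) + D W (Dl ws q)
    rw [ih, map_add]

theorem formal_Dl_smul (ws : List (Matrix ι ι K)) (c : K) (p : MvPolynomial (ι × ι) K) :
    Dl ws (c • p) = c • Dl ws p := by
  induction ws with
  | nil => rfl
  | cons W ws ih =>
    change D W (Dl ws (c • p)) = c • D W (Dl ws p)
    rw [ih, Derivation.map_smul]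

/-- The polynomials all of whose derivatives along `S` vanish at `X`. -/
def formalSub (X : Matrix ι ι K) (S : Set (Matrix ι ι K)) :
    Submodule K (MvPolynomial (ι × ι) K) where
  carrier := {q | ∀ ws : List (Matrix ι ι K), (∀ W ∈ ws, W ∈ S) → ev X (Dl ws q) = 0}
  add_mem' := by
    intro p q hp hq ws hws
    rw [formal_Dl_add, map_add, hp ws hws, hq ws hws, add_zero]
  zero_mem' := by
    intro ws _
    have h := formal_Dl_smul ws (0 : K) 0
    rw [zero_smul, zero_smul] at h
    rw [h, map_zero]
  smul_mem' := by
    intro c p hp ws hws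
    rw [formal_Dl_smul, smul_eq_C_mul, map_mul, hp ws hws, mul_zero]

theorem formal_stable {X : Matrix ι ι K} {S : Set (Matrix ι ι K)} {Y : Matrix ι ι K}
    (hY : LG K S Y) : ∀ q ∈ formalSub X S, D Y q ∈ formalSub X S := by
  induction hY with
  | @mem W hW =>
    intro q hq ws hws
    have h := hq (ws ++ [W]) (by
      intro V hV
      rcases List.mem_append.1 hV with hV | hV
      · exact hws V hV
      · rw [List.mem_singleton.1 hV]
        exact hW)
    simpa only [Dl, List.foldr_append, List.foldr_cons, List.foldr_nil] using h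
  | zero =>
    intro q _
    rw [formal_D_zero]
    exact Submodule.zero_mem _
  | add _ _ iha ihb =>
    intro q hq
    rw [formal_D_add, Derivation.add_apply]
    exact Submodule.add_mem _ (iha q hq) (ihb q hq)
  | smul c _ ih =>
    intro q hq
    rw [formal_D_smul, Derivation.smul_apply]
    exact Submodule.smul_mem _ c (ih q hq)
  | br _ _ iha ihb =>
    intro q hq
    rw [formal_D_br, Derivation.commutator_apply]
    exact Submodule.sub_mem _ (ihb _ (iha q hq)) (iha _ (ihb q hq))

/-- A power series of matrices as a matrix of power series. -/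
noncomputable def formalPsi (ι : Type) [Fintype ι] [DecidableEq ι] (K : Type*) [CommRing K] :
    PowerSeries (Matrix ι ι K) →+* Matrix ι ι (PowerSeries K) where
  toFun f := Matrix.of fun a b => PowerSeries.mk fun i => (PowerSeries.coeff i f) a b
  map_one' := by
    ext a b i
    simp only [Matrix.of_apply, PowerSeries.coeff_mk, PowerSeries.coeff_one, Matrix.one_apply]
    split_ifs <;> simp_all [Matrix.one_apply, PowerSeries.coeff_one]
  map_mul' f g := by
    ext a b i
    simp only [Matrix.of_apply, PowerSeries.coeff_mk, PowerSeries.coeff_mul, Matrix.mul_apply,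
      map_sum, Matrix.sum_apply]
    exact Finset.sum_comm
  map_zero' := by
    ext a b i
    simp
  map_add' f g := by
    ext a b i
    simp

theorem formal_Psi_coeff (f : PowerSeries (Matrix ι ι K)) (a b : ι) (i : ℕ) :
    PowerSeries.coeff i (formalPsi ι K f a b) = (PowerSeries.coeff i f) a b := by
  simp only [formalPsi, RingHom.coe_mk, MonoidHom.coe_mk, OneHom.coe_mk, Matrix.of_apply,
    PowerSeries.coeff_mk]

theorem formal_Psi_inj : Function.Injective (formalPsi ι K) := by
  intro f g hfg
  ext i a b
  rw [← formal_Psi_coeff, ← formal_Psi_coeff, hfg]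

theorem formal_Psi_C (W : Matrix ι ι K) (a b : ι) :
    formalPsi ι K (PowerSeries.C W) a b = PowerSeries.C (W a b) := by
  ext i
  rw [formal_Psi_coeff, PowerSeries.coeff_C, PowerSeries.coeff_C]
  split_ifs <;> rfl

/-- Substitution of a matrix of power series for the generic matrix. -/
noncomputable def formalSubst (U : Matrix ι ι (PowerSeries K)) :
    MvPolynomial (ι × ι) K →+* PowerSeries K :=
  eval₂Hom PowerSeries.C fun p => U p.1 p.2

theorem formal_subst_genU (U : Matrix ι ι (PowerSeries K)) :
    (formalSubst U).mapMatrix (genU ι K) = U := by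
  refine Matrix.ext fun a b => ?_
  simp only [RingHom.mapMatrix_apply, Matrix.map_apply, genU, Matrix.of_apply, formalSubst,
    eval₂Hom_X']

theorem formal_subst_cst (U : Matrix ι ι (PowerSeries K)) (W : Matrix ι ι K) :
    (formalSubst U).mapMatrix (cst W) = formalPsi ι K (PowerSeries.C W) := by
  refine Matrix.ext fun a b => ?_
  rw [formal_Psi_C]
  simp only [RingHom.mapMatrix_apply, Matrix.map_apply, cst, formalSubst, eval₂Hom_C]

variable [Algebra ℚ K]

theorem formal_flow_succ (Y X : Matrix ι ι K) (i : ℕ) :
    ((i + 1 : ℕ) : ℚ) • PowerSeries.coeff (i + 1) (flow Y X) =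
      Y * PowerSeries.coeff i (flow Y X) - PowerSeries.coeff i (flow Y X) * Y := by
  have h : ((i + 1 : ℕ) : ℚ) * (((i + 1).factorial : ℚ)⁻¹) = (i.factorial : ℚ)⁻¹ := by
    rw [Nat.factorial_succ, Nat.cast_mul, mul_inv, mul_inv_cancel_left₀]
    exact Nat.cast_ne_zero.2 (Nat.succ_ne_zero i)
  simp only [flow, PowerSeries.coeff_mk]
  rw [smul_smul, h, Function.iterate_succ_apply', smul_sub, mul_smul_comm, smul_mul_assoc]

theorem formal_deriv_flow (Y X : Matrix ι ι K) (a b : ι) :
    PowerSeries.derivative K (formalPsi ι K (flow Y X) a b) =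
      formalPsi ι K (PowerSeries.C Y * flow Y X - flow Y X * PowerSeries.C Y) a b := by
  ext i
  rw [PowerSeries.coeff_derivative, formal_Psi_coeff, formal_Psi_coeff, map_sub,
    PowerSeries.coeff_C_mul, PowerSeries.coeff_mul_C, ← formal_flow_succ, Matrix.smul_apply,
    Nat.cast_smul_eq_nsmul, nsmul_eq_mul, mul_comm]
  push_cast
  rfl

theorem formal_chain (Y X : Matrix ι ι K) (q : MvPolynomial (ι × ι) K) :
    PowerSeries.derivative K (formalSubst (formalPsi ι K (flow Y X)) q) =
      formalSubst (formalPsi ι K (flow Y X)) (D Y q) := by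
  induction q using MvPolynomial.induction_on with
  | C c => simp only [formalSubst, eval₂Hom_C, derivation_C, map_zero, PowerSeries.derivative_C]
  | add p q hp hq => simp only [map_add, hp, hq]
  | mul_X p s hp =>
    obtain ⟨a, b⟩ := s
    have h1 : formalSubst (formalPsi ι K (flow Y X)) (MvPolynomial.X (a, b)) =
        formalPsi ι K (flow Y X) a b := by
      simp only [formalSubst, eval₂Hom_X']
    have h2 : formalSubst (formalPsi ι K (flow Y X)) (D Y (MvPolynomial.X (a, b))) =
        PowerSeries.derivative K (formalPsi ι K (flow Y X) a b) := by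
      have h3 : (formalSubst (formalPsi ι K (flow Y X))).mapMatrix
          (cst Y * genU ι K - genU ι K * cst Y) =
          formalPsi ι K (PowerSeries.C Y * flow Y X - flow Y X * PowerSeries.C Y) := by
        rw [map_sub, map_mul, map_mul, formal_subst_cst, formal_subst_genU, map_sub, map_mul,
          map_mul]
      rw [formal_D_X, formal_deriv_flow, ← h3]
      rfl
    rw [map_mul, Derivation.leibniz, Derivation.leibniz, map_add, smul_eq_mul, smul_eq_mul,
      smul_eq_mul, smul_eq_mul, map_mul, map_mul, h2, h1, hp]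

theorem formal_const (Y X : Matrix ι ι K) (q : MvPolynomial (ι × ι) K) :
    PowerSeries.coeff 0 (formalSubst (formalPsi ι K (flow Y X)) q) = ev X q := by
  have h : (PowerSeries.constantCoeff (R := K)).comp (formalSubst (formalPsi ι K (flow Y X))) =
      ev X := by
    refine ringHom_ext (fun c => ?_) (fun p => ?_)
    · simp [formalSubst, ev]
    · simp only [RingHom.comp_apply, formalSubst, eval₂Hom_X', ev, eval_X]
      rw [← PowerSeries.coeff_zero_eq_constantCoeff_apply, formal_Psi_coeff]
      simp [flow]
  rw [PowerSeries.coeff_zero_eq_constantCoeff_apply, ← h, RingHom.comp_apply]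

theorem formal_vanish {X : Matrix ι ι K} {S : Set (Matrix ι ι K)} {Y : Matrix ι ι K}
    (hY : LG K S Y) (q : MvPolynomial (ι × ι) K) (hq : q ∈ formalSub X S) :
    formalSubst (formalPsi ι K (flow Y X)) q = 0 := by
  ext i
  rw [map_zero]
  induction i generalizing q with
  | zero =>
    rw [formal_const]
    exact hq [] (by simp)
  | succ i ih =>
    have h := ih _ (formal_stable hY q hq)
    rw [← formal_chain, PowerSeries.coeff_derivative] at h
    have hu : IsUnit ((i : K) + 1) := by
      have h1 : IsUnit ((i + 1 : ℕ) : ℚ) := (Nat.cast_ne_zero.2 (Nat.succ_ne_zero i)).isUnit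
      simpa using h1.map (algebraMap ℚ K)
    exact (hu.mul_left_eq_zero).1 h

end FormalAux

/-- From the vanishing of the derived relations to the formal Engel condition. -/
theorem formal {ι : Type} [Fintype ι] [DecidableEq ι] {K : Type*} [CommRing K] [Algebra ℚ K]
    {k n : ℕ} {X : Matrix ι ι K} {S : Set (Matrix ι ι K)}
    (h : ∀ p ∈ relP k n X, ∀ ws : List (Matrix ι ι K), (∀ W ∈ ws, W ∈ S) → ev X (Dl ws p) = 0) :
    ∀ Y, LG K S Y → FE k n X Y := by
  intro Y hY
  refine ⟨formal_Psi_inj ?_, formal_Psi_inj ?_⟩
  · rw [map_pow, map_zero, ← formal_subst_genU (formalPsi ι K (flow Y X)), ← map_pow]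
    refine Matrix.ext fun a b => ?_
    exact formal_vanish hY _ (h _ ⟨a, b, Or.inl rfl⟩)
  · rw [map_Phi_iter, ← sub_eq_zero, ← formal_subst_cst (formalPsi ι K (flow Y X))]
    have h1 : (formalSubst (formalPsi ι K (flow Y X))).mapMatrix
        ((Phi k (cst X))^[n] (genU ι K) - cst X) = 0 := by
      refine Matrix.ext fun a b => ?_
      exact formal_vanish hY _ (h _ ⟨a, b, Or.inr rfl⟩)
    rw [map_sub, map_Phi_iter, formal_subst_genU] at h1
    exact h1

end Pool.Agent.Lib.MP_b39e30_al.Lin
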