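import Pool.Agent.Lib.MP_b39e30_al.Lin.Defs

set_option autoImplicit false

namespace Pool.Agent.Lib.MP_b39e30_al.Lin

/-- Passage from field points to a power of an ideal in a Noetherian `ℚ`-algebra. -/
theorem noeth {S : Type} [CommRing S] [Algebra ℚ S] [IsNoetherianRing S] (a : Ideal S)
    (I : ℕ → Ideal S) (hI : Antitone I)
    (h : ∀ (K : Type) [Field K] [CharZero K] [IsAlgClosed K] (φ : S →+* K),
      (∀ x ∈ a, φ x = 0) → ∃ N, ∀ x ∈ I N, φ x = 0) : ∃ N e : ℕ, I N ^ e ≤ a := by
  have hp : ∀ p : Ideal S, p ∈ a.minimalPrimes → ∃ N, I N ≤ p := by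
    intro p hp
    have hpp : p.IsPrime := hp.1.1
    let K := AlgebraicClosure (FractionRing (S ⧸ p))
    let φ : S →+* K := (algebraMap (FractionRing (S ⧸ p)) K).comp
      ((algebraMap (S ⧸ p) (FractionRing (S ⧸ p))).comp (Ideal.Quotient.mk p))
    have hker : ∀ x, φ x = 0 ↔ x ∈ p := by
      intro x
      simp only [φ, RingHom.comp_apply,
        map_eq_zero_iff _ (algebraMap (FractionRing (S ⧸ p)) K).injective,
        map_eq_zero_iff _ (IsFractionRing.injective (S ⧸ p) (FractionRing (S ⧸ p))),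
        Ideal.Quotient.eq_zero_iff_mem]
    have : CharZero K :=
      charZero_of_injective_ringHom (φ.comp (algebraMap ℚ S)).injective
    obtain ⟨N, hN⟩ := h K φ fun x hx => (hker x).2 (hp.1.2 hx)
    exact ⟨N, fun x hx => (hker x).1 (hN x hx)⟩
  choose! f hf using hp
  have hfin : a.minimalPrimes.Finite := Ideal.finite_minimalPrimes_of_isNoetherianRing S a
  obtain ⟨N, hN⟩ := (hfin.image f).bddAbove
  have hle : I N ≤ a.radical := by
    rw [← Ideal.sInf_minimalPrimes]
    exact le_sInf fun p hp => (hI (hN ⟨p, hp, rfl⟩)).trans (hf p hp)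
  obtain ⟨e, he⟩ := Ideal.exists_pow_le_of_le_radical_of_fg hle (IsNoetherian.noetherian _)
  exact ⟨N, e, he⟩

end Pool.Agent.Lib.MP_b39e30_al.Lin
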