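import Pool.Agent.Lib.MP_b39e30_al.Lin.Defs

set_option autoImplicit false

namespace Pool.Agent.Lib.MP_b39e30_al.Lin

open MvPolynomial

section Pair

variable {σ τ : Type} [Fintype σ] [Fintype τ] {R : Type*} [CommRing R]

/-- The Fischer pairing. -/
noncomputable def polPair (σ : Type) [Fintype σ] (R : Type*) [CommRing R] :
    MvPolynomial σ R →ₗ[R] MvPolynomial σ R →ₗ[R] R :=
  (basisMonomials σ R).constr R fun m => ((∏ i, (m i).factorial : ℕ) : R) • lcoeff R m

theorem polPair_monomial (m : σ →₀ ℕ) (c : R) (f : MvPolynomial σ R) :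
    polPair σ R (monomial m c) f = c * (((∏ i, (m i).factorial : ℕ) : R) * coeff m f) := by
  have h : (monomial m c : MvPolynomial σ R) = c • basisMonomials σ R m := by
    simp [smul_monomial]
  rw [h, map_smul, polPair, Module.Basis.constr_basis]
  simp

theorem polPair_mul_X (i : σ) (g f : MvPolynomial σ R) :
    polPair σ R (g * X i) f = polPair σ R g (pderiv i f) := by
  classical
  induction g using MvPolynomial.induction_on' with
  | monomial m c =>
    rw [X, monomial_mul, mul_one, polPair_monomial, polPair_monomial, coeff_pderiv]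
    have h : (∏ j, ((m + Finsupp.single i 1 : σ →₀ ℕ) j).factorial) =
        (∏ j, (m j).factorial) * (m i + 1) := by
      rw [← Finset.mul_prod_erase _ _ (Finset.mem_univ i),
        ← Finset.mul_prod_erase _ (fun j => (m j).factorial) (Finset.mem_univ i)]
      have h2 : ∏ j ∈ Finset.univ.erase i, ((m + Finsupp.single i 1 : σ →₀ ℕ) j).factorial =
          ∏ j ∈ Finset.univ.erase i, (m j).factorial := by
        refine Finset.prod_congr rfl fun j hj => ?_
        simp [Finsupp.single_eq_of_ne (Finset.ne_of_mem_erase hj)]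
      rw [h2]
      simp only [Finsupp.add_apply, Finsupp.single_eq_same, Nat.factorial_succ]
      ring
    rw [h]
    push_cast
    ring
  | add p q hp hq =>
    rw [add_mul, map_add, map_add, LinearMap.add_apply, LinearMap.add_apply, hp, hq]

theorem polPair_C (c : R) (f : MvPolynomial σ R) :
    polPair σ R (C c) f = c * constantCoeff f := by
  rw [← monomial_zero', polPair_monomial]
  simp [constantCoeff_eq]

theorem pol_chain (M : τ → σ → R) (l : σ) (F : MvPolynomial τ R) :
    pderiv l (aeval (fun s => ∑ l, C (M s l) * X l : τ → MvPolynomial σ R) F) =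
      aeval (fun s => ∑ l, C (M s l) * X l : τ → MvPolynomial σ R)
        (∑ s, M s l • pderiv s F) := by
  classical
  induction F using MvPolynomial.induction_on with
  | C a => simp
  | add p q hp hq => simp only [map_add, hp, hq, smul_add, Finset.sum_add_distrib]
  | mul_X p s hp =>
    have h1 : pderiv l (∑ l, C (M s l) * X l : MvPolynomial σ R) = C (M s l) := by
      simp [pderiv_X, Pi.single_apply]
    have h2 : (∑ t, M t l • pderiv t (p * X s) : MvPolynomial τ R) =
        (∑ t, M t l • pderiv t p) * X s + C (M s l) * p := by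
      simp only [pderiv_mul, smul_add, Finset.sum_add_distrib, Finset.sum_mul, smul_mul_assoc]
      congr 1
      simp [pderiv_X, Pi.single_apply, smul_eq_C_mul]
    rw [map_mul, aeval_X, pderiv_mul, hp, h1, h2, map_add, map_mul, map_mul, aeval_X, aeval_C,
      algebraMap_eq]
    ring

theorem polPair_adj (M : τ → σ → R) (g : MvPolynomial σ R) (F : MvPolynomial τ R) :
    polPair σ R g (aeval (fun s => ∑ l, C (M s l) * X l : τ → MvPolynomial σ R) F) =
      polPair τ R (aeval (fun l => ∑ s, C (M s l) * X s : σ → MvPolynomial τ R) g) F := by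
  induction g using MvPolynomial.induction_on generalizing F with
  | C a =>
    rw [aeval_C, algebraMap_eq, polPair_C, polPair_C]
    congr 1
    induction F using MvPolynomial.induction_on with
    | C a => simp
    | add p q hp hq => simp only [map_add, hp, hq]
    | mul_X p s hp => simp
  | add p q hp hq => simp only [map_add, LinearMap.add_apply, hp, hq]
  | mul_X p l hp =>
    rw [polPair_mul_X, pol_chain, hp, map_mul, aeval_X, Finset.mul_sum, map_sum, map_sum,
      LinearMap.sum_apply]
    refine Finset.sum_congr rfl fun s _ => ?_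
    rw [map_smul, ← polPair_mul_X, mul_left_comm, ← smul_eq_C_mul, map_smul, LinearMap.smul_apply]

end Pair

/-- Weyl polarisation over a commutative `ℚ`-algebra. -/
theorem polar {κ μ : Type} [Fintype κ] [Fintype μ] {R : Type*} [CommRing R] [Algebra ℚ R]
    (L : Submodule ℚ (κ → R)) (F : MvPolynomial (μ × κ) R)
    (h : ∀ z : κ → κ → R, (∀ j, z j ∈ L) → ∀ a : μ → κ → ℚ,
      MvPolynomial.eval (fun p : μ × κ => ∑ j, a p.1 j • z j p.2) F = 0)
    (Y : μ → κ → R) (hY : ∀ i, Y i ∈ L) :
    MvPolynomial.eval (fun p : μ × κ => Y p.1 p.2) F = 0 := by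
  classical
  let M : μ × κ → μ × μ → R := fun s l => if s.1 = l.1 then Y l.2 s.2 else 0
  let f : MvPolynomial (μ × μ) R :=
    aeval (fun s => ∑ l, C (M s l) * X l : μ × κ → MvPolynomial (μ × μ) R) F
  have hev : ∀ b : μ × μ → R, eval b f = eval (fun s : μ × κ => ∑ l, Y l s.2 * b (s.1, l)) F := by
    intro b
    have h1 : (eval b).comp ((aeval (fun s => ∑ l, C (M s l) * X l :
        μ × κ → MvPolynomial (μ × μ) R)).toRingHom) =
        eval (fun s : μ × κ => ∑ l, Y l s.2 * b (s.1, l)) := by
      ext x
      · simp
      · simp [M, Fintype.sum_prod_type, ite_mul]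
    exact DFunLike.congr_fun h1 F
  have hf : f = 0 := by
    ext m
    rw [coeff_zero, ← Module.forall_dual_apply_eq_zero_iff ℚ]
    intro φ
    let g : MvPolynomial (μ × μ) ℚ := ∑ m ∈ f.support, monomial m (φ (coeff m f))
    have hg : ∀ m, coeff m g = φ (coeff m f) := by
      intro m
      simp only [g, coeff_sum, coeff_monomial, Finset.sum_ite_eq', mem_support_iff]
      split_ifs with hm
      · rfl
      · rw [not_not.1 hm, map_zero]
    have hge : ∀ b : μ × μ → ℚ, eval b g = φ (eval (fun l => algebraMap ℚ R (b l)) f) := by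
      intro b
      conv_rhs => rw [f.as_sum]
      simp only [g, map_sum, eval_monomial]
      refine Finset.sum_congr rfl fun m _ => ?_
      have h2 : (m.prod fun n e => algebraMap ℚ R (b n) ^ e) =
          algebraMap ℚ R (m.prod fun n e => b n ^ e) := by
        simp [Finsupp.prod]
      rw [h2, mul_comm (coeff m f), ← Algebra.smul_def, map_smul, smul_eq_mul, mul_comm]
    let u : μ × μ → MvPolynomial ((μ × κ) ⊕ (κ × μ)) ℚ :=
      fun l => ∑ j, X (Sum.inl (l.1, j)) * X (Sum.inr (j, l.2))
    have hu : aeval u g = 0 := by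
      refine MvPolynomial.funext fun x => ?_
      have h3 : eval x (aeval u g) =
          eval (fun l : μ × μ => ∑ j, x (Sum.inl (l.1, j)) * x (Sum.inr (j, l.2))) g := by
        have h4 : (eval x).comp (aeval u).toRingHom =
            eval (fun l : μ × μ => ∑ j, x (Sum.inl (l.1, j)) * x (Sum.inr (j, l.2))) := by
          ext y
          · simp
          · simp [u]
        exact DFunLike.congr_fun h4 g
      rw [h3, hge, hev, map_zero]
      have h5 := h (fun j => ∑ l, x (Sum.inr (j, l)) • Y l)
        (fun j => L.sum_mem fun l _ => L.smul_mem _ (hY l)) (fun i j => x (Sum.inl (i, j)))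
      have h6 : (fun s : μ × κ => ∑ l, Y l s.2 * algebraMap ℚ R
          (∑ j, x (Sum.inl (s.1, j)) * x (Sum.inr (j, l)))) =
          fun p : μ × κ => ∑ j, x (Sum.inl (p.1, j)) •
            (∑ l, x (Sum.inr (j, l)) • Y l) p.2 := by
        funext s
        simp only [Finset.sum_apply, Pi.smul_apply]
        simp only [map_sum, Finset.mul_sum, Algebra.smul_def, map_mul]
        rw [Finset.sum_comm]
        exact Finset.sum_congr rfl fun j _ => Finset.sum_congr rfl fun l _ => by ring
      rw [h6, h5, map_zero]
    have hτ : aeval (fun l => ∑ s, C (M s l) * X s : μ × μ → MvPolynomial (μ × κ) R)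
        (MvPolynomial.map (algebraMap ℚ R) g) = 0 := by
      let v : (μ × κ) ⊕ (κ × μ) → MvPolynomial (μ × κ) R :=
        Sum.elim (fun s => X s) fun s => C (Y s.2 s.1)
      have h7 : ((aeval (fun l => ∑ s, C (M s l) * X s :
          μ × μ → MvPolynomial (μ × κ) R)).toRingHom).comp (MvPolynomial.map (algebraMap ℚ R)) =
          (aeval v).toRingHom.comp (aeval u).toRingHom := by
        refine MvPolynomial.ringHom_ext (fun q => ?_) fun l => ?_
        · exact DFunLike.congr_fun (Subsingleton.elim
            ((((aeval (fun l => ∑ s, C (M s l) * X s :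
              μ × μ → MvPolynomial (μ × κ) R)).toRingHom).comp
              (MvPolynomial.map (algebraMap ℚ R))).comp C)
            (((aeval v).toRingHom.comp (aeval u).toRingHom).comp C)) q
        · simp [u, v, M, Fintype.sum_prod_type, apply_ite C, mul_comm]
      have h8 := DFunLike.congr_fun h7 g
      simp only [RingHom.comp_apply, AlgHom.toRingHom_eq_coe, RingHom.coe_coe] at h8
      rw [h8, hu, map_zero]
    have h9 : polPair (μ × μ) R (MvPolynomial.map (algebraMap ℚ R) g) f = 0 := by
      rw [polPair_adj, hτ, map_zero, LinearMap.zero_apply]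
    have h10 : ∑ m ∈ g.support, ((∏ i, (m i).factorial : ℕ) : ℚ) * coeff m g ^ 2 = 0 := by
      have h11 := congrArg φ h9
      rw [g.as_sum, map_sum, map_sum, LinearMap.sum_apply, map_sum, map_zero] at h11
      rw [← h11]
      refine Finset.sum_congr rfl fun m _ => ?_
      rw [map_monomial, polPair_monomial, ← Algebra.smul_def, ← nsmul_eq_mul _ (coeff m f),
        map_smul, map_nsmul, ← hg, nsmul_eq_mul, smul_eq_mul]
      ring
    rw [← hg]
    by_contra hm
    have h12 := (Finset.sum_eq_zero_iff_of_nonneg fun m _ => by positivity).1 h10 m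
      (mem_support_iff.2 hm)
    have h13 : (0 : ℚ) < ((∏ i, (m i).factorial : ℕ) : ℚ) :=
      Nat.cast_pos.2 (Finset.prod_pos fun i _ => Nat.factorial_pos _)
    exact hm (pow_eq_zero_iff two_ne_zero |>.1 ((mul_eq_zero.1 h12).resolve_left h13.ne'))
  have h14 := hev fun l => if l.1 = l.2 then 1 else 0
  rw [hf, map_zero] at h14
  simpa using h14.symm

end Pool.Agent.Lib.MP_b39e30_al.Lin
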