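import Pool.Agent.Lib.MP_b39e30_al.Lin.Defs
import Pool.Agent.Lib.MP_b39e30_al.Lin.Deriv
import Pool.Agent.Lib.MP_b39e30_al.Lin.Formal
import Pool.Agent.Lib.MP_b39e30_al.Lin.Field1
import Pool.Agent.Lib.MP_b39e30_al.Lin.Field2
import Pool.Agent.Lib.MP_b39e30_al.Lin.Polar
import Pool.Agent.Lib.MP_b39e30_al.Lin.Noeth

set_option autoImplicit false

namespace Pool.Agent.Lib.MP_b39e30_al.Lin

open MvPolynomial

section Aux

variable {ι : Type} [Fintype ι] [DecidableEq ι]

theorem eng_map_prod {A B : Type*} [CommRing A] [CommRing B] (ψ : A →+* B)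
    (l : List (Matrix ι ι A)) : l.prod.map ψ = (l.map fun W => W.map ψ).prod :=
  map_list_prod ψ.mapMatrix l

theorem eng_map_trace {A B : Type*} [CommRing A] [CommRing B] (ψ : A →+* B) (X : Matrix ι ι A)
    (l : List (Matrix ι ι A)) :
    ψ (X * l.prod).trace = (X.map ψ * (l.map fun W => W.map ψ).prod).trace := by
  rw [AddMonoidHom.map_trace ψ, Matrix.map_mul, eng_map_prod]

theorem eng_lift {α β : Type*} (f : α → β) (s : Set α) (l : List β) (h : ∀ b ∈ l, b ∈ f '' s) :
    ∃ l' : List α, (∀ a ∈ l', a ∈ s) ∧ l'.map f = l := by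
  induction l with
  | nil => exact ⟨[], by simp, rfl⟩
  | cons b l ih =>
    obtain ⟨a, ha, rfl⟩ := h b List.mem_cons_self
    obtain ⟨l', h1, rfl⟩ := ih fun b hb => h b (List.mem_cons_of_mem _ hb)
    exact ⟨a :: l', by simpa using ⟨ha, h1⟩, rfl⟩

variable {R : Type*} [CommRing R] [Algebra ℚ R]

omit [DecidableEq ι] in
theorem eng_polar {μ : Type} [Fintype μ] (L : Submodule ℚ (Matrix ι ι R))
    (F : MvPolynomial (μ × ι × ι) R)
    (h : ∀ z : ι × ι → Matrix ι ι R, (∀ j, z j ∈ L) → ∀ a : μ → ι × ι → ℚ,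
      eval (fun p : μ × ι × ι => (∑ j, a p.1 j • z j) p.2.1 p.2.2) F = 0)
    (Y : μ → Matrix ι ι R) (hY : ∀ i, Y i ∈ L) :
    eval (fun p : μ × ι × ι => Y p.1 p.2.1 p.2.2) F = 0 := by
  let e : (ι × ι → R) →ₗ[ℚ] Matrix ι ι R :=
    { toFun := fun v => Matrix.of fun a b => v (a, b)
      map_add' := fun _ _ => rfl
      map_smul' := fun _ _ => rfl }
  refine polar (L.comap e) F (fun z hz a => ?_) (fun i p => Y i p.1 p.2) hY
  have h1 := h (fun j => e (z j)) hz a
  simp only [Matrix.sum_apply, Matrix.smul_apply] at h1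
  exact h1

/-- The generic matrices; `none` stands for `X`. -/
noncomputable def engT (ι : Type) (j : Option (ι × ι)) :
    Matrix ι ι (MvPolynomial (Option (ι × ι) × ι × ι) ℚ) := Matrix.of fun a b => X (j, a, b)

/-- The span of the generic matrices other than `X`. -/
noncomputable def engV (ι : Type) :
    Submodule ℚ (Matrix ι ι (MvPolynomial (Option (ι × ι) × ι × ι) ℚ)) :=
  Submodule.span ℚ (Set.range fun j => engT ι (some j))

/-- Specialisation of the generic matrices. -/
noncomputable def engEv (X0 : Matrix ι ι R) (z : ι × ι → Matrix ι ι R) :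
    MvPolynomial (Option (ι × ι) × ι × ι) ℚ →+* R :=
  eval₂Hom (algebraMap ℚ R) fun p => (p.1.elim X0 z) p.2.1 p.2.2

omit [Fintype ι] [DecidableEq ι] in
theorem engEv_none (X0 : Matrix ι ι R) (z : ι × ι → Matrix ι ι R) :
    (engT ι none).map (engEv X0 z) = X0 := by
  ext a b
  simp [engT, engEv]

omit [DecidableEq ι] in
theorem engEv_sum (X0 : Matrix ι ι R) (z : ι × ι → Matrix ι ι R) (a : ι × ι → ℚ) :
    (∑ j, a j • engT ι (some j)).map (engEv X0 z) = ∑ j, a j • z j := by
  ext c d
  simp only [Matrix.map_apply, Matrix.sum_apply, Matrix.smul_apply, map_sum, map_rat_smul]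
  simp [engT, engEv]

omit [DecidableEq ι] in
theorem engV_sum (a : ι × ι → ℚ) : ∑ j, a j • engT ι (some j) ∈ engV ι :=
  Submodule.sum_mem _ fun j _ => Submodule.smul_mem _ _ (Submodule.subset_span ⟨j, rfl⟩)

omit [DecidableEq ι] in
theorem engEv_mem (X0 : Matrix ι ι R) {L : Submodule ℚ (Matrix ι ι R)}
    {z : ι × ι → Matrix ι ι R} (hz : ∀ j, z j ∈ L)
    {W : Matrix ι ι (MvPolynomial (Option (ι × ι) × ι × ι) ℚ)} (hW : W ∈ engV ι) :
    W.map (engEv X0 z) ∈ L := by
  obtain ⟨a, rfl⟩ := (Submodule.mem_span_range_iff_exists_fun ℚ).1 hW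
  rw [engEv_sum]
  exact L.sum_mem fun j _ => L.smul_mem _ (hz j)

/-- The ideal of polynomials that vanish at all specialisations in `L`. -/
noncomputable def engI (X0 : Matrix ι ι R) (L : Submodule ℚ (Matrix ι ι R)) :
    Ideal (MvPolynomial (Option (ι × ι) × ι × ι) ℚ) :=
  ⨅ z : {z : ι × ι → Matrix ι ι R // ∀ j, z j ∈ L}, RingHom.ker (engEv X0 z.1)

omit [Fintype ι] [DecidableEq ι] in
theorem mem_engI {X0 : Matrix ι ι R} {L : Submodule ℚ (Matrix ι ι R)}
    {x : MvPolynomial (Option (ι × ι) × ι × ι) ℚ} :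
    x ∈ engI X0 L ↔ ∀ z : ι × ι → Matrix ι ι R, (∀ j, z j ∈ L) → engEv X0 z x = 0 := by
  simp [engI, RingHom.mem_ker]

variable {k n : ℕ} {X0 : Matrix ι ι R} {Cs : Set (Matrix ι ι R)}

/-- At a field point the traces of `X` times a word vanish. -/
theorem eng_point (h : Cls k n X0 Cs) (K : Type) [Field K] [CharZero K] [IsAlgClosed K]
    (φ : MvPolynomial (Option (ι × ι) × ι × ι) ℚ →+* K)
    (hφ : ∀ x ∈ engI X0 (Submodule.span ℚ Cs), φ x = 0)
    (l : List (Matrix ι ι (MvPolynomial (Option (ι × ι) × ι × ι) ℚ))) (hl : ∀ W ∈ l, W ∈ engV ι) :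
    φ (engT ι none * l.prod).trace = 0 := by
  let S : Set (Matrix ι ι K) := (fun W => W.map φ) '' insert (engT ι none) (engV ι)
  have hX : (engT ι none).map φ ^ k = 0 := by
    have h1 : (engT ι none).map φ ^ k = (engT ι none ^ k).map φ :=
      (map_pow φ.mapMatrix _ k).symm
    rw [h1]
    ext a b
    refine hφ _ (mem_engI.2 fun z _ => ?_)
    have h2 : (engT ι none ^ k).map (engEv X0 z) = (engT ι none).map (engEv X0 z) ^ k :=
      map_pow (engEv X0 z).mapMatrix _ k
    rw [engEv_none, h.nil X0 h.mem] at h2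
    exact congrFun (congrFun h2 a) b
  have hF : ∀ Y, LG K S Y → FE k n ((engT ι none).map φ) Y := by
    refine formal fun p hp ws hws => ?_
    rw [relP_map] at hp
    obtain ⟨q, hq, rfl⟩ := hp
    obtain ⟨ws', h1, rfl⟩ := eng_lift _ _ ws hws
    rw [← map_Dl, ← map_ev]
    refine hφ _ (mem_engI.2 fun z hz => ?_)
    rw [map_ev, map_Dl, engEv_none]
    refine h.vanish _ ?_ _ fun W hW => ?_
    · have h2 := relP_map (engEv X0 z) k n (engT ι none)
      rw [engEv_none] at h2
      rw [h2]
      exact ⟨q, hq, rfl⟩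
    · obtain ⟨W', h2, rfl⟩ := List.mem_map.1 hW
      rcases h1 W' h2 with rfl | h3
      · rw [engEv_none]
        exact Submodule.subset_span h.mem
      · exact engEv_mem X0 hz h3
  rw [eng_map_trace]
  refine field1 (S := S) ⟨_, Set.mem_insert _ _, rfl⟩ hX hF _ (Subalgebra.list_prod_mem _ ?_)
  intro W hW
  obtain ⟨W', h2, rfl⟩ := List.mem_map.1 hW
  exact Algebra.subset_adjoin ⟨W', Set.mem_insert_of_mem _ (hl W' h2), rfl⟩

/-- The ideal generated by the traces of `X` times a word in the span of the class. -/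
def engJ (X0 : Matrix ι ι R) (L : Submodule ℚ (Matrix ι ι R)) : Ideal R :=
  Ideal.span {t | ∃ l : List (Matrix ι ι R), (∀ W ∈ l, W ∈ L) ∧ t = (X0 * l.prod).trace}

theorem eng_step1 (h : Cls k n X0 Cs) : ∃ e : ℕ, engJ X0 (Submodule.span ℚ Cs) ^ e = ⊥ := by
  obtain ⟨-, e, he⟩ := noeth (engI X0 (Submodule.span ℚ Cs))
    (fun _ => engJ (engT ι none) (engV ι)) antitone_const fun K _ _ _ φ hφ => ⟨0, fun x hx => by
      refine (Ideal.span_le (I := RingHom.ker φ)).2 ?_ hx
      rintro _ ⟨l, hl, rfl⟩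
      exact eng_point h K φ hφ l hl⟩
  refine ⟨e, ?_⟩
  rw [engJ, Ideal.span, Submodule.span_pow, Submodule.span_eq_bot]
  intro x hx
  obtain ⟨f, rfl⟩ := Set.mem_pow.1 hx
  choose l hl hf using fun i => (f i).2
  let μ : Type := Σ i : Fin e, Fin (l i).length
  let G : μ → Matrix ι ι (MvPolynomial (μ × ι × ι) R) := fun i => Matrix.of fun a b => X (i, a, b)
  let F : MvPolynomial (μ × ι × ι) R := ∏ i : Fin e,
    (X0.map (C : R →+* MvPolynomial (μ × ι × ι) R) * (List.ofFn fun j => G ⟨i, j⟩).prod).trace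
  have hF : ∀ W : μ → Matrix ι ι R, eval (fun p : μ × ι × ι => W p.1 p.2.1 p.2.2) F =
      ∏ i : Fin e, (X0 * (List.ofFn fun j => W ⟨i, j⟩).prod).trace := by
    intro W
    rw [map_prod]
    refine Finset.prod_congr rfl fun i _ => ?_
    rw [eng_map_trace, List.map_ofFn]
    congr 2
    · ext a b
      simp
    · congr 2
      funext j
      ext a b
      simp [G]
  have h1 := eng_polar (Submodule.span ℚ Cs) F (fun z hz a => ?_)
    (fun i => (l i.1).get i.2) fun i => hl _ _ (List.get_mem _ _)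
  · rw [hF fun i => (l i.1).get i.2] at h1
    rw [List.prod_ofFn, ← h1]
    refine Finset.prod_congr rfl fun i _ => ?_
    rw [hf i, List.ofFn_get]
  · rw [hF fun i => ∑ j, a i j • z j]
    have h2 : ∏ i : Fin e, (engT ι none *
        (List.ofFn fun j => ∑ s, a ⟨i, j⟩ s • engT ι (some s)).prod).trace ∈
        engJ (engT ι none) (engV ι) ^ e := by
      have h3 := Ideal.prod_mem_prod (s := (Finset.univ : Finset (Fin e)))
        (I := fun _ => engJ (engT ι none) (engV ι))
        (x := fun i => (engT ι none *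
          (List.ofFn fun j => ∑ s, a ⟨i, j⟩ s • engT ι (some s)).prod).trace)
        fun i _ => Ideal.subset_span ⟨_, fun W hW => by
          obtain ⟨j, rfl⟩ := List.mem_ofFn.1 hW
          exact engV_sum _, rfl⟩
      simpa using h3
    have h4 := mem_engI.1 (he h2) z hz
    rw [map_prod] at h4
    rw [← h4]
    refine Finset.prod_congr rfl fun i _ => ?_
    rw [eng_map_trace, List.map_ofFn, engEv_none]
    congr 4
    funext j
    exact (engEv_sum X0 z _).symm

omit [Algebra ℚ R] in
theorem eng_conj_prod {a b : Matrix ι ι R} (hab : b * a = 1) (l : List (Matrix ι ι R)) :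
    b * (l.map fun W => a * W * b).prod * a = l.prod := by
  induction l with
  | nil => simpa using hab
  | cons W l ih =>
    rw [List.map_cons, List.prod_cons, List.prod_cons, ← ih]
    calc b * (a * W * b * (l.map fun W => a * W * b).prod) * a
        = (b * a) * W * (b * (l.map fun W => a * W * b).prod * a) := by
          simp only [Matrix.mul_assoc]
      _ = _ := by rw [hab, Matrix.one_mul]

theorem eng_trace_mem (h : Cls k n X0 Cs) {U : Matrix ι ι R} (hU : U ∈ Submodule.span ℚ Cs)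
    (l : List (Matrix ι ι R)) (hl : ∀ W ∈ l, W ∈ Submodule.span ℚ Cs) :
    (U * l.prod).trace ∈ engJ X0 (Submodule.span ℚ Cs) := by
  induction hU using Submodule.span_induction with
  | zero => simp
  | add x y _ _ hx hy => rw [Matrix.add_mul, Matrix.trace_add]; exact add_mem hx hy
  | smul c x _ hx =>
    rw [Matrix.smul_mul, Matrix.trace_smul, Algebra.smul_def]
    exact Ideal.mul_mem_left _ _ hx
  | mem U hU =>
    obtain ⟨a, b, hab, hX, hc⟩ := h.hom U hU
    refine Ideal.subset_span ⟨l.map fun W => a * W * b, fun W hW => ?_, ?_⟩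
    · obtain ⟨W', h1, rfl⟩ := List.mem_map.1 hW
      have h2 := hl W' h1
      clear h1 hW
      induction h2 using Submodule.span_induction with
      | zero => simp
      | add x y _ _ hx hy =>
        rw [Matrix.mul_add, Matrix.add_mul]
        exact add_mem hx hy
      | smul c x _ hx =>
        rw [Matrix.mul_smul, Matrix.smul_mul]
        exact Submodule.smul_mem _ _ hx
      | mem x hx => exact Submodule.subset_span (hc x hx)
    · rw [← hX, ← eng_conj_prod hab l]
      calc (U * (b * (l.map fun W => a * W * b).prod * a)).trace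
          = ((U * b * (l.map fun W => a * W * b).prod) * a).trace := by
            simp only [Matrix.mul_assoc]
        _ = _ := by rw [Matrix.trace_mul_comm]; simp only [Matrix.mul_assoc]

/-- The ideal generated by the entries of the long words in the generic matrices. -/
noncomputable def engW (ι : Type) [Fintype ι] [DecidableEq ι] (N : ℕ) :
    Ideal (MvPolynomial (Option (ι × ι) × ι × ι) ℚ) :=
  Ideal.span {t | ∃ l : List (Matrix ι ι (MvPolynomial (Option (ι × ι) × ι × ι) ℚ)),
    (∀ W ∈ l, W ∈ engV ι) ∧ N ≤ l.length ∧ ∃ a b, t = l.prod a b}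

theorem engW_pow (N e : ℕ) (l : List (Matrix ι ι (MvPolynomial (Option (ι × ι) × ι × ι) ℚ)))
    (hl : ∀ W ∈ l, W ∈ engV ι) (hN : N * e ≤ l.length) (a b : ι) :
    l.prod a b ∈ engW ι N ^ e := by
  induction e generalizing l a b with
  | zero => simp
  | succ e ih =>
    rw [← List.take_append_drop N l, List.prod_append, Matrix.mul_apply, pow_succ']
    rw [Nat.mul_succ] at hN
    refine Ideal.sum_mem _ fun c _ => Ideal.mul_mem_mul (Ideal.subset_span
      ⟨_, fun W hW => hl W (List.mem_of_mem_take hW), ?_, a, c, rfl⟩)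
      (ih _ (fun W hW => hl W (List.mem_of_mem_drop hW)) ?_ c b)
    · rw [List.length_take]
      omega
    · rw [List.length_drop]
      omega

theorem eng_step2 (h : Cls k n X0 Cs) :
    ∃ N e : ℕ, engW ι N ^ e ≤ engI X0 (Submodule.span ℚ Cs) := by
  obtain ⟨e, he⟩ := eng_step1 h
  refine noeth _ (engW ι) (fun N N' hN => Ideal.span_mono ?_) fun K _ _ _ φ hφ => ?_
  · rintro _ ⟨l, h1, h2, h3⟩
    exact ⟨l, h1, hN.trans h2, h3⟩
  obtain ⟨N, hN⟩ := field2 (ι := ι) (K := K)
      (S := (fun W => Matrix.map W φ) '' (engV ι : Set _)) fun l hl0 hl => by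
    obtain ⟨l', h1, rfl⟩ := eng_lift _ _ l hl
    obtain ⟨U, l', rfl⟩ := List.exists_cons_of_ne_nil fun h0 : l' = [] => hl0 (by simp [h0])
    rw [List.map_cons, List.prod_cons, ← eng_map_trace]
    refine IsNilpotent.eq_zero ⟨e, ?_⟩
    rw [← map_pow]
    refine hφ _ (mem_engI.2 fun z hz => ?_)
    rw [map_pow, eng_map_trace, ← Ideal.mem_bot, ← he]
    refine Ideal.pow_mem_pow (eng_trace_mem h (engEv_mem X0 hz (h1 U List.mem_cons_self)) _
      fun W hW => ?_) e
    obtain ⟨W', h2, rfl⟩ := List.mem_map.1 hW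
    exact engEv_mem X0 hz (h1 W' (List.mem_cons_of_mem _ h2))
  refine ⟨N, fun x hx => (Ideal.span_le (I := RingHom.ker φ)).2 ?_ hx⟩
  rintro _ ⟨l, h1, h2, a, b, rfl⟩
  have h3 := hN (l.map fun W => W.map φ) (fun W hW => by
    obtain ⟨W', h4, rfl⟩ := List.mem_map.1 hW
    exact ⟨W', h1 W' h4, rfl⟩) (by simpa using h2)
  rw [← eng_map_prod] at h3
  exact congrFun (congrFun h3 a) b

end Aux

/-- Long products of elements of the class vanish. -/
theorem engine {ι : Type} [Fintype ι] [DecidableEq ι] {R : Type*} [CommRing R] [Algebra ℚ R]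
    {k n : ℕ} {X : Matrix ι ι R} {Cs : Set (Matrix ι ι R)} (h : Cls k n X Cs) :
    ∃ m : ℕ, ∀ l : List (Matrix ι ι R), (∀ U ∈ l, U ∈ Cs) → l.length = m → l.prod = 0 := by
  obtain ⟨N, e, he⟩ := eng_step2 h
  refine ⟨N * e, fun l hl hm => ?_⟩
  ext a b
  let G : Fin l.length → Matrix ι ι (MvPolynomial (Fin l.length × ι × ι) R) :=
    fun i => Matrix.of fun a b => MvPolynomial.X (i, a, b)
  have hF : ∀ W : Fin l.length → Matrix ι ι R,
      eval (fun p : Fin l.length × ι × ι => W p.1 p.2.1 p.2.2) ((List.ofFn G).prod a b) =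
        (List.ofFn W).prod a b := by
    intro W
    have h1 := eng_map_prod (eval fun p : Fin l.length × ι × ι => W p.1 p.2.1 p.2.2) (List.ofFn G)
    have h2 : (fun W' => Matrix.map W'
        (eval fun p : Fin l.length × ι × ι => W p.1 p.2.1 p.2.2)) ∘ G = W := by
      funext j
      ext a b
      simp [G]
    rw [List.map_ofFn, h2] at h1
    exact congrFun (congrFun h1 a) b
  have h1 := eng_polar (Submodule.span ℚ Cs) ((List.ofFn G).prod a b) (fun z hz c => ?_) l.get
    fun i => Submodule.subset_span (hl _ (List.get_mem _ _))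
  · rw [hF, List.ofFn_get] at h1
    exact h1
  · rw [hF fun i => ∑ j, c i j • z j]
    have h2 := mem_engI.1 (he (engW_pow N e (List.ofFn fun i => ∑ j, c i j • engT ι (some j))
      (fun W hW => by
        obtain ⟨j, rfl⟩ := List.mem_ofFn.1 hW
        exact engV_sum _) (by simp [hm]) a b)) z hz
    have h3 := eng_map_prod (engEv X z) (List.ofFn fun i => ∑ j, c i j • engT ι (some j))
    have h4 : (fun W => Matrix.map W (engEv X z)) ∘ (fun i => ∑ j, c i j • engT ι (some j)) =
        fun i => ∑ j, c i j • z j := funext fun i => engEv_sum X z _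
    rw [List.map_ofFn, h4] at h3
    rw [← h3]
    exact h2

end Pool.Agent.Lib.MP_b39e30_al.Lin
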