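import Pool.Agent.Lib.MP_b39e30_al.Lin.GDefs

set_option autoImplicit false

namespace Pool.Agent.Lib.MP_b39e30_al.Lin

open MvPolynomial

variable {ι : Type} [Fintype ι] [DecidableEq ι] {R : Type*} [CommRing R]

omit [DecidableEq ι] in
theorem gdv_X (W : Matrix ι ι R) (i : Bool × ι × ι) :
    DG W (X i) = pt (genG ι R true * cstG W) (-(cstG W * genG ι R false)) i :=
  mkDerivation_X R _ i

omit [DecidableEq ι] in
theorem gdv_C (W : Matrix ι ι R) (a : R) : DG W (C a) = 0 := derivation_C _ a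

omit [DecidableEq ι] in
theorem gdv_mul (W : Matrix ι ι R) (p q : MvPolynomial (Bool × ι × ι) R) :
    DG W (p * q) = p * DG W q + q * DG W p := (DG W).leibniz p q

omit [DecidableEq ι] in
theorem gdv_map {R' : Type*} [CommRing R'] (φ : R →+* R') (W : Matrix ι ι R)
    (p : MvPolynomial (Bool × ι × ι) R) :
    MvPolynomial.map φ (DG W p) = DG (W.map φ) (MvPolynomial.map φ p) := by
  induction p using MvPolynomial.induction_on with
  | C a => rw [map_C, gdv_C, gdv_C, map_zero]
  | add p q hp hq => rw [map_add, map_add, map_add, map_add, hp, hq]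
  | mul_X p i hp =>
    rw [gdv_mul, map_mul, gdv_mul, map_add, map_mul, map_mul, hp, map_X, gdv_X, gdv_X]
    obtain ⟨s, a, b⟩ := i
    cases s <;> simp [pt, cstG, genG, Matrix.mul_apply]

omit [DecidableEq ι] in
theorem map_DGl {R' : Type*} [CommRing R'] (φ : R →+* R') (ws : List (Matrix ι ι R))
    (p : MvPolynomial (Bool × ι × ι) R) :
    MvPolynomial.map φ (DGl ws p) = DGl (ws.map fun W => W.map φ) (MvPolynomial.map φ p) := by
  induction ws with
  | nil => rfl
  | cons W ws ih => exact (gdv_map φ W (DGl ws p)).trans (congrArg (DG (W.map φ)) ih)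

omit [Fintype ι] [DecidableEq ι] in
theorem map_pt {R' : Type*} [CommRing R'] (φ : R →+* R') (y y' : Matrix ι ι R)
    (p : MvPolynomial (Bool × ι × ι) R) :
    φ (eval (pt y y') p) = eval (pt (y.map φ) (y'.map φ)) (MvPolynomial.map φ p) := by
  induction p using MvPolynomial.induction_on with
  | C a => simp
  | add p q hp hq => simp only [map_add, hp, hq]
  | mul_X p i hp =>
    simp only [map_mul, hp]
    obtain ⟨s, a, b⟩ := i
    cases s <;> simp [pt]

theorem relG_map {R' : Type*} [CommRing R'] (φ : R →+* R') (n : ℕ) (g g' : Matrix ι ι R) :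
    relG n (g.map φ) (g'.map φ) = MvPolynomial.map φ '' relG n g g' := by
  let f := (MvPolynomial.map (σ := Bool × ι × ι) φ).mapMatrix (m := ι)
  have h1 : ∀ s, f (genG ι R s) = genG ι R' s := fun s => by
    ext1 a b
    simp [f, genG]
  have h2 : ∀ W : Matrix ι ι R, f (cstG W) = cstG (W.map φ) := fun W => by
    ext1 a b
    simp [f, cstG]
  have h3 := congrArg Prod.fst (map_engP f (cstG g) (cstG g') n (genG ι R true, genG ι R false))
  rw [Prod.map_fst, Prod.map_apply, h1, h1, h2, h2] at h3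
  have h4 : ∀ a b, (((engP (cstG (g.map φ)) (cstG (g'.map φ)))^[n]
      (genG ι R' true, genG ι R' false)).1 - 1) a b = MvPolynomial.map φ
        ((((engP (cstG g) (cstG g'))^[n] (genG ι R true, genG ι R false)).1 - 1) a b) :=
    fun a b => by
      rw [← h3, ← map_one f, ← map_sub]
      rfl
  ext p
  constructor
  · rintro ⟨a, b, e⟩
    exact ⟨_, ⟨a, b, rfl⟩, (e.trans (h4 a b)).symm⟩
  · rintro ⟨q, ⟨a, b, e⟩, rfl⟩
    exact ⟨a, b, by rw [h4, e]⟩

variable {Γ : Type*} [Group Γ]

theorem relG_subset (ρ : Γ →* Matrix ι ι R) {n : ℕ} {g : Γ} (h : Eng n g) :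
    relG n (ρ g) (ρ g⁻¹) ⊆ vanG ρ := by
  rintro _ ⟨a, b, rfl⟩ y
  let f := (eval (pt (ρ y) (ρ y⁻¹))).mapMatrix (m := ι)
  have h1 : f (genG ι R true) = ρ y := by
    ext a b
    simp [f, genG, pt]
  have h1' : f (genG ι R false) = ρ y⁻¹ := by
    ext a b
    simp [f, genG, pt]
  have h2 : ∀ W : Matrix ι ι R, f (cstG W) = W := fun W => by
    ext a b
    simp [f, cstG]
  have h3 := congrArg Prod.fst
    (map_engP f (cstG (ρ g)) (cstG (ρ g⁻¹)) n (genG ι R true, genG ι R false))
  rw [Prod.map_fst, Prod.map_apply, h1, h1', h2, h2, engP_hom, h y, map_one] at h3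
  change f (_ - 1) a b = 0
  rw [map_sub, h3, map_one, sub_self, Matrix.zero_apply]

theorem vanG_DGl (ρ : Γ →* Matrix ι ι R) {S : Set (Matrix ι ι R)}
    (hS : ∀ W ∈ S, ∀ p ∈ vanG ρ, DG W p ∈ vanG ρ) :
    ∀ p ∈ vanG ρ, ∀ ws : List (Matrix ι ι R), (∀ W ∈ ws, W ∈ S) →
      eval (pt 1 1) (DGl ws p) = 0 := by
  intro p hp ws hw
  have key : DGl ws p ∈ vanG ρ := by
    induction ws with
    | nil => exact hp
    | cons W ws ih =>
      exact hS W (hw W List.mem_cons_self) _ (ih fun V hV => hw V (List.mem_cons_of_mem W hV))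
  have h1 := key 1
  rwa [inv_one, map_one] at h1

omit [DecidableEq ι] in
theorem gdv_evX (Y Y' V : Matrix ι ι R) (i : Bool × ι × ι) :
    eval (pt Y Y') (DG V (X i)) = pt (Y * V) (-(V * Y')) i := by
  rw [gdv_X]
  obtain ⟨s, a, b⟩ := i
  cases s <;> simp [pt, cstG, genG, Matrix.mul_apply]

omit [DecidableEq ι] in
theorem gdv_tau (Y Y' u u' : Matrix ι ι R) (p : MvPolynomial (Bool × ι × ι) R) :
    eval (pt Y Y') (aeval (pt (genG ι R true * cstG u') (cstG u * genG ι R false)) p) =
      eval (pt (Y * u') (u * Y')) p := by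
  induction p using MvPolynomial.induction_on with
  | C a => simp
  | add p q hp hq => simp only [map_add, hp, hq]
  | mul_X p i hp =>
    rw [map_mul, map_mul, map_mul, hp, aeval_X, eval_X]
    obtain ⟨s, a, b⟩ := i
    cases s <;> simp [pt, cstG, genG, Matrix.mul_apply]

theorem gdv_conj (Y Y' W : Matrix ι ι R) {u u' : Matrix ι ι R} (h : u' * u = 1)
    (p : MvPolynomial (Bool × ι × ι) R) :
    eval (pt Y Y') (DG W (aeval (pt (genG ι R true * cstG u') (cstG u * genG ι R false)) p)) =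
      eval (pt (Y * u') (u * Y')) (DG (u * W * u') p) := by
  induction p using MvPolynomial.induction_on with
  | C a => rw [aeval_C, algebraMap_eq, gdv_C, gdv_C, map_zero, map_zero]
  | add p q hp hq => simp only [map_add, hp, hq]
  | mul_X p i hp =>
    have e1 : Y * u' * (u * W * u') = Y * W * u' := by
      rw [mul_assoc Y, ← mul_assoc u', ← mul_assoc u', h, one_mul, mul_assoc]
    have e2 : u * W * u' * (u * Y') = u * (W * Y') := by
      rw [mul_assoc (u * W), ← mul_assoc u', h, one_mul, mul_assoc]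
    rw [map_mul, gdv_mul, gdv_mul, map_add, map_add, map_mul, map_mul, map_mul, map_mul, hp,
      gdv_tau, gdv_tau, gdv_evX, e1, e2, aeval_X]
    congr 2
    obtain ⟨s, a, b⟩ := i
    cases s
    · change eval _ (DG W (∑ c, C (u a c) * X (false, c, b))) = -∑ c, u a c * (W * Y') c b
      rw [map_sum, map_sum, ← Finset.sum_neg_distrib]
      refine Finset.sum_congr rfl fun c _ => ?_
      rw [gdv_mul, gdv_C, mul_zero, add_zero, map_mul, gdv_evX, eval_C, ← mul_neg (u a c)]
      rfl
    · change eval _ (DG W (∑ c, X (true, a, c) * C (u' c b))) = ∑ c, (Y * W) a c * u' c b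
      rw [map_sum, map_sum]
      refine Finset.sum_congr rfl fun c _ => ?_
      rw [gdv_mul, gdv_C, mul_zero, zero_add, map_mul, gdv_evX, eval_C, mul_comm]
      rfl

/-- The matrices whose derivation preserves the vanishing ideal are stable under conjugation. -/
theorem vanG_conj (ρ : Γ →* Matrix ι ι R) {W : Matrix ι ι R}
    (hW : ∀ p ∈ vanG ρ, DG W p ∈ vanG ρ) (x : Γ) :
    ∀ p ∈ vanG ρ, DG (ρ x * W * ρ x⁻¹) p ∈ vanG ρ := by
  intro p hp y
  have h : ρ x⁻¹ * ρ x = 1 := by rw [← map_mul, inv_mul_cancel, map_one]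
  have h1 := hW (aeval (pt (genG ι R true * cstG (ρ x⁻¹)) (cstG (ρ x) * genG ι R false)) p)
    (fun z => by
      have := hp (z * x⁻¹)
      rwa [mul_inv_rev, inv_inv, map_mul, map_mul, ← gdv_tau] at this) (y * x)
  rwa [gdv_conj _ _ _ h, ← map_mul ρ (y * x), ← map_mul ρ x (y * x)⁻¹, mul_inv_cancel_right,
    mul_inv_rev, mul_inv_cancel_left] at h1

end Pool.Agent.Lib.MP_b39e30_al.Lin
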