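import Pool.Agent.Lib.MP_b39e30_al.Lin.Defs

set_option autoImplicit false

namespace Pool.Agent.Lib.MP_b39e30_al.Lin

theorem setup_two {B : Type*} [CommRing B] [Algebra ℚ B] {Y : B} (h : IsNilpotent Y) :
    ∃ b, IsNilpotent.exp Y = 1 + Y + Y ^ 2 * b := by
  obtain ⟨k, hk⟩ := h
  have h2 : Y ^ (k + 2) = 0 := by rw [pow_add, hk, zero_mul]
  refine ⟨∑ i ∈ Finset.range k, (((i + 2).factorial : ℚ)⁻¹) • Y ^ i, ?_⟩
  rw [IsNilpotent.exp_eq_sum h2, Finset.sum_range_succ', Finset.sum_range_succ', Finset.mul_sum]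
  simp only [zero_add, Nat.factorial_one, Nat.factorial_zero, Nat.cast_one, inv_one, one_smul,
    pow_one, pow_zero, mul_smul_comm, ← pow_add, add_comm 2]
  ring

theorem setup_comm {B : Type*} [CommRing B] [Algebra ℚ B] {N : B} (h : IsNilpotent N) :
    ∃ X, IsNilpotent X ∧ IsNilpotent.exp X = 1 + N := by
  have key : ∀ j : ℕ, ∃ X a, IsNilpotent X ∧
      IsNilpotent.exp X = (1 + N) * (1 + N ^ (j + 1) * a) := by
    intro j
    induction j with
    | zero =>
      obtain ⟨u, hu⟩ := h.isUnit_one_add.exists_right_inv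
      refine ⟨0, -u, IsNilpotent.zero, ?_⟩
      rw [IsNilpotent.exp_zero]
      linear_combination N * hu
    | succ j ih =>
      obtain ⟨X, a, h1, h2⟩ := ih
      have h3 : IsNilpotent (-(N ^ (j + 1) * a)) :=
        ((Commute.all _ _).isNilpotent_mul_right (h.pow_succ j)).neg
      obtain ⟨b, hb⟩ := setup_two h3
      refine ⟨X + -(N ^ (j + 1) * a), N ^ j * a ^ 2 * (b - 1 + N ^ (j + 1) * a * b),
        (Commute.all _ _).isNilpotent_add h1 h3, ?_⟩
      rw [IsNilpotent.exp_add_of_commute (Commute.all _ _) h1 h3, h2, hb]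
      ring
  obtain ⟨m, hm⟩ := h
  obtain ⟨X, a, h1, h2⟩ := key m
  exact ⟨X, h1, by rw [h2, pow_succ, hm, zero_mul, zero_mul, add_zero, mul_one]⟩

theorem setup_log {A : Type*} [Ring A] [Algebra ℚ A] {N : A} (h : IsNilpotent N) :
    ∃ (k : ℕ) (X : A), X ^ k = 0 ∧ E k X = 1 + N := by
  let _ : CommRing (Algebra.adjoin ℚ ({N} : Set A)) :=
    { (inferInstance : Ring (Algebra.adjoin ℚ ({N} : Set A))) with
      mul_comm := fun a b => mul_comm' a b }
  have h1 : IsNilpotent (⟨N, Algebra.self_mem_adjoin_singleton ℚ N⟩ :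
      Algebra.adjoin ℚ ({N} : Set A)) := h.imp fun m hm => Subtype.ext hm
  obtain ⟨X, ⟨k, hk⟩, h2⟩ := setup_comm h1
  refine ⟨k, X, congrArg Subtype.val hk, ?_⟩
  have h3 := map_E (Algebra.adjoin ℚ ({N} : Set A)).val.toRingHom k X
  rw [E_eq_exp hk, h2] at h3
  exact h3.symm

theorem setup_pow {A : Type*} [Ring A] {a b : A} (h1 : a * b = 1) (h2 : b * a = 1) (X : A)
    (i : ℕ) : (b * X * a) ^ i = b * X ^ i * a := by
  induction i with
  | zero => rw [pow_zero, pow_zero, mul_one, h2]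
  | succ i ih =>
    rw [pow_succ, ih, pow_succ]
    calc b * X ^ i * a * (b * X * a) = b * X ^ i * (a * b) * X * a := by simp only [mul_assoc]
      _ = _ := by rw [h1, mul_one, mul_assoc b]

theorem setup_E {A : Type*} [Ring A] [Algebra ℚ A] {a b : A} (h1 : a * b = 1) (h2 : b * a = 1)
    (k : ℕ) (X : A) : E k (b * X * a) = b * E k X * a := by
  simp only [E, setup_pow h1 h2, Finset.mul_sum, Finset.sum_mul, mul_smul_comm, smul_mul_assoc]

theorem setup_key {G A R : Type*} [Group G] [Ring A] [Algebra ℚ A] [CommRing R] [Algebra R A]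
    (u : G →* A) {g : G} {r : Rˣ} {k : ℕ} {X : A} (hk : X ^ k = 0) (h : u g = (r : R) • E k X)
    (M : A) : E k X * M * E k (-X) = u g * M * u g⁻¹ ∧ E k (-X) * M * E k X = u g⁻¹ * M * u g := by
  have h1 : E k X * E k (-X) = 1 := by
    rw [E_eq_exp hk, E_eq_exp (by rw [neg_pow, hk, mul_zero])]
    exact IsNilpotent.exp_mul_exp_neg_self ⟨k, hk⟩
  have h2 : E k (-X) = (r : R) • u g⁻¹ := by
    calc E k (-X) = u g⁻¹ * u g * E k (-X) := by rw [← map_mul, inv_mul_cancel, map_one, one_mul]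
      _ = _ := by rw [h, mul_smul_comm, smul_mul_assoc, mul_assoc, h1, mul_one]
  rw [h2, h]
  simp only [mul_smul_comm, smul_mul_assoc, and_self]

/-- Logarithm of a scalar multiple of a unipotent matrix, and the Engel condition on the
conjugates of the logarithm. -/
theorem setup {d : ℕ} {R : Type*} [CommRing R] [Algebra ℚ R] (G : Subgroup (GL (Fin d) R))
    (g : G) (r : Rˣ)
    (hr : IsNilpotent (((g : GL (Fin d) R) : Matrix (Fin d) (Fin d) R) - (r : R) • 1)) (n : ℕ)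
    (hE : ∀ x : G, (fun y => y⁻¹ * g⁻¹ * y * g)^[n] x = 1) :
    ∃ (k : ℕ) (X : Matrix (Fin d) (Fin d) R),
      ((g : GL (Fin d) R) : Matrix (Fin d) (Fin d) R) = (r : R) • E k X ∧
      Cls k n X {U | ∃ y : G, U = (((y : GL (Fin d) R)⁻¹ : GL (Fin d) R) : Matrix (Fin d) (Fin d) R) *
        X * ((y : GL (Fin d) R) : Matrix (Fin d) (Fin d) R)} := by
  let u : G →* Matrix (Fin d) (Fin d) R := (Units.coeHom _).comp G.subtype
  obtain ⟨k, X, hk, hX⟩ := setup_log (hr.smul ((r⁻¹ : Rˣ) : R))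
  have hg : u g = (r : R) • E k X := by
    rw [hX, smul_add, smul_smul, Units.mul_inv, one_smul, add_sub_cancel]
    rfl
  have h1 : ∀ y : G, u y * u y⁻¹ = 1 := fun y => by rw [← map_mul, mul_inv_cancel, map_one]
  have h2 : ∀ y : G, u y⁻¹ * u y = 1 := fun y => by rw [← map_mul, inv_mul_cancel, map_one]
  have h3 : ∀ (z : G) (M : Matrix (Fin d) (Fin d) R),
      E k (u z⁻¹ * X * u z) * M * E k (-(u z⁻¹ * X * u z)) =
        u (z⁻¹ * g * z) * M * u (z⁻¹ * g * z)⁻¹ := fun z M =>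
    (setup_key u (r := r) (by rw [setup_pow (h1 z) (h2 z), hk, mul_zero, zero_mul]) (by
      rw [setup_E (h1 z) (h2 z), map_mul, map_mul, hg, mul_smul_comm, smul_mul_assoc]) M).1
  have h4 : ∀ x : G, Phi k X (u x⁻¹ * X * u x) =
      u (x⁻¹ * g⁻¹ * x * g)⁻¹ * X * u (x⁻¹ * g⁻¹ * x * g) := fun x => by
    have e : Phi k X (u x⁻¹ * X * u x) = E k (-X) * (E k (u x⁻¹ * X * u x) * X *
      E k (-(u x⁻¹ * X * u x))) * E k X := by simp only [Phi, mul_assoc]
    rw [e, h3, (setup_key u hk hg _).2]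
    simp only [mul_inv_rev, inv_inv, map_mul, mul_assoc]
  refine ⟨k, X, hg, ?_⟩
  change Cls k n X {U | ∃ y : G, U = u y⁻¹ * X * u y}
  refine ⟨⟨1, by rw [inv_one, map_one, one_mul, mul_one]⟩, ?_, ?_, ?_, ?_⟩
  · rintro _ ⟨y, rfl⟩
    rw [setup_pow (h1 y) (h2 y), hk, mul_zero, zero_mul]
  · rintro _ ⟨z, rfl⟩ _ ⟨y, rfl⟩
    refine ⟨y * (z⁻¹ * g * z)⁻¹, ?_⟩
    rw [h3]
    simp only [mul_inv_rev, inv_inv, map_mul, mul_assoc]
  · rintro _ ⟨y, rfl⟩
    have h5 : Function.Semiconj (fun x : G => u x⁻¹ * X * u x) (fun y => y⁻¹ * g⁻¹ * y * g)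
        (Phi k X) := fun x => (h4 x).symm
    have h6 := h5.iterate_right n y
    rw [hE y, inv_one, map_one, one_mul, mul_one] at h6
    exact h6.symm
  · rintro _ ⟨y, rfl⟩
    refine ⟨u y, u y⁻¹, h2 y, ?_, ?_⟩
    · calc u y * (u y⁻¹ * X * u y) * u y⁻¹ = u y * u y⁻¹ * X * (u y * u y⁻¹) := by
            simp only [mul_assoc]
        _ = X := by rw [h1, one_mul, mul_one]
    · rintro _ ⟨z, rfl⟩
      refine ⟨z * y⁻¹, ?_⟩
      simp only [mul_inv_rev, inv_inv, map_mul, mul_assoc]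

end Pool.Agent.Lib.MP_b39e30_al.Lin
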