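import Pool.Agent.Lib.MP_b39e30_al.Lin.GDefs
import Pool.Agent.Lib.MP_b39e30_al.Lin.Setup

set_option autoImplicit false

namespace Pool.Agent.Lib.MP_b39e30_al.Lin

theorem gu_one {B : Type*} [Ring B] (a b : PowerSeries B) :
    PowerSeries.coeff 1 (a * b) = PowerSeries.constantCoeff a * PowerSeries.coeff 1 b +
      PowerSeries.coeff 1 a * PowerSeries.constantCoeff b := by
  rw [PowerSeries.coeff_mul, Finset.Nat.antidiagonal_succ]
  simp

/-- The linear term of the formal Engel condition. -/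
theorem GE.unip {B : Type*} [Ring B] [Algebra ℚ B] {n : ℕ} {g g' Y : B} (h1 : g * g' = 1)
    (h2 : g' * g = 1) (h : GE n g g' Y) : (fun Z => g' * Z * g - Z)^[n] Y = 0 := by
  have hC : ∀ x : B, PowerSeries.coeff 1 (PowerSeries.C x) = 0 := fun x => by
    simp
  have key : ∀ (j : ℕ) (p : PowerSeries B × PowerSeries B) (Z : B),
      PowerSeries.constantCoeff p.1 = 1 → PowerSeries.constantCoeff p.2 = 1 →
      PowerSeries.coeff 1 p.1 = Z → PowerSeries.coeff 1 p.2 = -Z →
      PowerSeries.coeff 1 ((engP (PowerSeries.C g) (PowerSeries.C g'))^[j] p).1 =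
        (fun Z => g' * Z * g - Z)^[j] Z := by
    intro j
    induction j with
    | zero => exact fun p Z _ _ a _ => a
    | succ j ih =>
      intro p Z a b c d
      rw [Function.iterate_succ_apply, Function.iterate_succ_apply]
      refine ih _ _ ?_ ?_ ?_ ?_
      · simp [engP, a, b, h2]
      · simp [engP, a, b, h2]
      · simp only [engP, gu_one, map_mul, a, b, c, d, PowerSeries.constantCoeff_C, hC, mul_zero,
          zero_mul, zero_add, add_zero, one_mul, mul_one, mul_assoc, h2, sub_eq_add_neg]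
      · simp only [engP, gu_one, map_mul, a, b, c, d, PowerSeries.constantCoeff_C, hC, mul_zero,
          zero_add, add_zero, one_mul, mul_one, neg_mul, mul_neg, h2]
        abel
  rw [← key n (Ex Y, Ex (-Y)) Y (by simp [Ex]) (by simp [Ex]) (by simp [Ex]) (by simp [Ex]), h]
  simp [PowerSeries.coeff_one]

theorem gu_coef {n : ℕ} {p : ℕ × ℕ} (hp : p ∈ Finset.HasAntidiagonal.antidiagonal n) :
    ((n.factorial : ℚ)⁻¹) * (n.choose p.1 : ℚ) =
      ((p.1.factorial : ℚ)⁻¹) * ((p.2.factorial : ℚ)⁻¹) := by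
  rw [← Finset.HasAntidiagonal.mem_antidiagonal.1 hp, Nat.cast_add_choose]
  field_simp

theorem gu_mul {B : Type*} [Ring B] [Algebra ℚ B] {a b : B} (h : Commute a b) :
    Ex a * Ex b = Ex (a + b) := by
  ext n
  simp only [Ex, PowerSeries.coeff_mul, PowerSeries.coeff_mk, h.add_pow', Finset.smul_sum]
  refine Finset.sum_congr rfl fun p hp => ?_
  rw [← Nat.cast_smul_eq_nsmul ℚ, smul_smul, gu_coef hp, smul_mul_smul_comm]

theorem gu_zero {B : Type*} [Ring B] [Algebra ℚ B] : Ex (0 : B) = 1 := by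
  ext n
  cases n <;> simp [Ex, PowerSeries.coeff_one]

theorem gu_flow {B : Type*} [Ring B] [Algebra ℚ B] (W V X : B) (h : V = -W) :
    flow W X = Ex W * PowerSeries.C X * Ex V := by
  ext n
  have e : (fun Z => W * Z - Z * W) = ⇑(LinearMap.mulLeft ℚ W + LinearMap.mulRight ℚ V) :=
    funext fun Z => by simp [h, sub_eq_add_neg]
  simp only [flow, Ex, PowerSeries.coeff_mk]
  rw [PowerSeries.coeff_mul, e, ← Module.End.pow_apply,
    (LinearMap.commute_mulLeft_right W V).add_pow', LinearMap.sum_apply, Finset.smul_sum]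
  refine Finset.sum_congr rfl fun p hp => ?_
  rw [PowerSeries.coeff_mul_C, PowerSeries.coeff_mk, PowerSeries.coeff_mk, LinearMap.smul_apply,
    ← Nat.cast_smul_eq_nsmul ℚ, smul_smul, gu_coef hp, smul_mul_assoc, smul_mul_smul_comm,
    LinearMap.pow_mulLeft, LinearMap.pow_mulRight]
  simp [mul_assoc]

theorem gu_step {A : Type*} [Ring A] [Algebra ℚ A] {k : ℕ} {X : A} (hX : X ^ k = 0) (n : ℕ) :
    ∀ p : A × A, p.1 * p.2 = 1 → p.2 * p.1 = 1 →
      ((engP (E k X) (E k (-X)))^[n] p).1 * ((engP (E k X) (E k (-X)))^[n] p).2 = 1 ∧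
      (Phi k X)^[n] (p.2 * X * p.1) =
        ((engP (E k X) (E k (-X)))^[n] p).2 * X * ((engP (E k X) (E k (-X)))^[n] p).1 := by
  have hX' : (-X) ^ k = 0 := by rw [neg_pow, hX, mul_zero]
  have h1 : E k X * E k (-X) = 1 := by
    rw [E_eq_exp hX, E_eq_exp hX']
    exact IsNilpotent.exp_mul_exp_neg_self ⟨k, hX⟩
  have h2 : E k (-X) * E k X = 1 := by
    rw [E_eq_exp hX, E_eq_exp hX']
    exact IsNilpotent.exp_neg_mul_exp_self ⟨k, hX⟩
  have c : ∀ {a b : A}, a * b = 1 → ∀ z, a * (b * z) = z := fun h z => by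
    rw [← mul_assoc, h, one_mul]
  induction n with
  | zero => exact fun p a _ => ⟨a, rfl⟩
  | succ n ih =>
    intro p a b
    have e : Phi k X (p.2 * X * p.1) =
        (engP (E k X) (E k (-X)) p).2 * X * (engP (E k X) (E k (-X)) p).1 := by
      rw [Phi, ← neg_mul, ← mul_neg, setup_E a b, setup_E a b]
      simp only [engP, mul_assoc]
    rw [Function.iterate_succ_apply, Function.iterate_succ_apply, e]
    refine ih _ ?_ ?_
    · simp only [engP, mul_assoc, c h1, c h2, c a, b]
    · simp only [engP, mul_assoc, c h1, c a, c b, h2]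

/-- The formal Engel condition for a scalar multiple of a unipotent element, on logarithms. -/
theorem GE.toFE {K B : Type*} [Field K] [Ring B] [Algebra K B] [Algebra ℚ B] {k n : ℕ}
    {X Y : B} {c : K} (hc : c ≠ 0) (hX : X ^ k = 0)
    (h : GE n (c • E k X) (c⁻¹ • E k (-X)) Y) : FE k n X (-Y) := by
  have hs : ∀ (c : K) (x : B), (PowerSeries.C (c • x) : PowerSeries B) = c • PowerSeries.C x :=
    fun c x => by
      ext i
      simp [PowerSeries.coeff_C]
  have hX' : (PowerSeries.C X : PowerSeries B) ^ k = 0 := by rw [← map_pow, hX, map_zero]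
  have e : engP (PowerSeries.C (c • E k X) : PowerSeries B) (PowerSeries.C (c⁻¹ • E k (-X))) =
      engP (E k (PowerSeries.C X)) (E k (-PowerSeries.C X)) := funext fun p => by
    simp only [engP, hs, map_E, map_neg, smul_mul_assoc, mul_smul_comm, smul_smul,
      mul_inv_cancel₀ hc, one_smul]
  have a : Ex Y * Ex (-Y) = 1 := by
    rw [gu_mul (Commute.refl Y).neg_right, add_neg_cancel, gu_zero]
  have b : Ex (-Y) * Ex Y = 1 := by
    rw [gu_mul (Commute.refl Y).neg_left, neg_add_cancel, gu_zero]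
  obtain ⟨k1, k2⟩ := gu_step hX' n (Ex Y, Ex (-Y)) a b
  rw [GE, e] at h
  rw [h, one_mul] at k1
  rw [h, k1, one_mul, mul_one] at k2
  rw [FE, gu_flow (-Y) Y X (neg_neg Y).symm]
  exact ⟨by rw [setup_pow a b, hX', mul_zero, zero_mul], k2⟩

end Pool.Agent.Lib.MP_b39e30_al.Lin
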