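import Pool.Agent.Lib.MP_b39e30_al.Lin.GDefs
import Pool.Agent.Lib.MP_b39e30_al.Lin.GUnip
import Pool.Agent.Lib.MP_b39e30_al.Lin.Setup
import Pool.Agent.Lib.MP_b39e30_al.Lin.Sl2
import Pool.Agent.Lib.MP_b39e30_al.Lin.JM
import Pool.Agent.Lib.MP_b39e30_al.Lin.Nondeg

set_option autoImplicit false

namespace Pool.Agent.Lib.MP_b39e30_al.Lin

theorem girr_stab {K V : Type*} [Field K] [AddCommGroup V] [Module K V] {g g' : Module.End K V}
    (h1 : g * g' = 1) (c : K) (a : ℕ) : ∀ W : Module.End K V,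
      (fun Z => g' * Z * g - Z)^[a] W = 0 →
        ∀ v ∈ g.maxGenEigenspace c, W v ∈ g.maxGenEigenspace c := by
  induction a with
  | zero =>
    intro W hW v _
    rw [show W = 0 from hW]
    exact Submodule.zero_mem _
  | succ a ih =>
    intro W hW v hv
    have h2 := ih _ hW
    obtain ⟨b, hb⟩ := (Module.End.mem_maxGenEigenspace g c v).1 hv
    induction b generalizing v with
    | zero =>
      rw [show v = 0 from hb, map_zero]
      exact Submodule.zero_mem _
    | succ b ihb =>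
      rw [pow_succ, Module.End.mul_apply] at hb
      have h3 := ihb _ ((Module.End.mem_maxGenEigenspace g c _).2 ⟨b, hb⟩) hb
      have h4 := Module.End.mapsTo_maxGenEigenspace_of_comm (Commute.refl g) c (h2 v hv)
      have e : (g - c • (1 : Module.End K V)) * W =
          W * (g - c • (1 : Module.End K V)) - g * (g' * W * g - W) := by
        rw [mul_sub g, ← mul_assoc, ← mul_assoc, h1, one_mul, mul_sub, sub_mul, mul_smul_comm,
          smul_mul_assoc, one_mul, mul_one]
        abel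
      have h5 : (g - c • (1 : Module.End K V)) (W v) ∈ g.maxGenEigenspace c := by
        rw [← Module.End.mul_apply, e]
        exact Submodule.sub_mem _ h3 h4
      obtain ⟨m, hm⟩ := (Module.End.mem_maxGenEigenspace g c _).1 h5
      exact (Module.End.mem_maxGenEigenspace g c _).2
        ⟨m + 1, by rw [pow_succ, Module.End.mul_apply, hm]⟩

theorem girr_poly {K : Type*} [Field K] [CharZero K] (k : ℕ) (a : ℕ → ℕ → K)
    (h : ∀ m : ℕ, ∑ i ∈ Finset.range (k + 2), ∑ j ∈ Finset.range (k + 2),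
      a i j * (m : K) ^ (i + j) = 0) : a 1 0 + a 0 1 = 0 := by
  have h1 : (∑ i ∈ Finset.range (k + 2), ∑ j ∈ Finset.range (k + 2),
      Polynomial.C (a i j) * Polynomial.X ^ (i + j) : Polynomial K) = 0 := by
    refine Polynomial.eq_zero_of_infinite_isRoot _
      (Set.infinite_of_injective_forall_mem (f := fun m : ℕ => (m : K)) Nat.cast_injective
        fun m => ?_)
    simpa [Polynomial.eval_finsetSum] using h m
  have h2 := congrArg (fun q => Polynomial.coeff q 1) h1
  simp only [Polynomial.finsetSum_coeff, Polynomial.coeff_C_mul_X_pow,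
    Polynomial.coeff_zero] at h2
  simp only [Finset.sum_range_succ'] at h2
  rw [← h2]
  have e : ∀ {i : ℕ} (x : K), 2 ≤ i → (if 1 = i then x else 0) = 0 :=
    fun x hi => if_neg (by omega)
  rw [Finset.sum_eq_zero fun i _ => by
      rw [Finset.sum_eq_zero fun j _ => e _ (by omega), e _ (by omega), e _ (by omega)]
      simp,
    Finset.sum_eq_zero fun j _ => e _ (by omega), Finset.sum_eq_zero fun j _ => e _ (by omega)]
  simp

theorem girr_ad {K B : Type*} [Field K] [CharZero K] [Ring B] [Algebra K B] [Algebra ℚ B]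
    (L : Submodule K B) {X W : B} {k : ℕ} (hX : X ^ k = 0)
    (hc : ∀ Z ∈ L, E k X * Z * E k (-X) ∈ L) (hW : W ∈ L) : X * W - W * X ∈ L := by
  have hn : ∀ m : ℕ, (m • X) ^ k = 0 := fun m => by rw [smul_pow, hX, smul_zero]
  have hn' : ∀ m : ℕ, (-(m • X)) ^ k = 0 := fun m => by rw [neg_pow, hn, mul_zero]
  have hX' : (-X) ^ k = 0 := by rw [neg_pow, hX, mul_zero]
  have h1 : ∀ m : ℕ, IsNilpotent.exp (m • X) * W * IsNilpotent.exp (-(m • X)) ∈ L := by
    intro m
    induction m with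
    | zero => simpa using hW
    | succ m ih =>
      have h2 := hc _ ih
      have c1 : Commute X (m • X) := (Commute.refl X).smul_right m
      rw [E_eq_exp hX, E_eq_exp hX', ← mul_assoc, ← mul_assoc, mul_assoc,
        ← IsNilpotent.exp_add_of_commute c1 ⟨k, hX⟩ ⟨k, hn m⟩,
        ← IsNilpotent.exp_add_of_commute c1.symm.neg_left.neg_right ⟨k, hn' m⟩ ⟨k, hX'⟩] at h2
      rw [succ_nsmul', neg_add_rev]
      exact h2
  by_contra h0
  obtain ⟨φ, h2, h3⟩ := Submodule.exists_dual_map_eq_bot_of_notMem h0 inferInstance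
  have h4 := girr_poly k (fun i j => φ (((i.factorial : ℚ)⁻¹) • X ^ i * W *
    ((j.factorial : ℚ)⁻¹) • (-X) ^ j)) fun m => by
      have h5 : φ _ ∈ L.map φ := Submodule.mem_map_of_mem (h1 m)
      rw [h3, Submodule.mem_bot, ← E_eq_exp (k := k + 2) (by rw [pow_add, hn, zero_mul]),
        ← E_eq_exp (k := k + 2) (by rw [pow_add, hn', zero_mul]), E, E, Finset.sum_mul,
        Finset.sum_mul_sum, map_sum] at h5
      rw [← h5]
      refine Finset.sum_congr rfl fun i _ => ?_
      rw [map_sum]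
      refine Finset.sum_congr rfl fun j _ => ?_
      rw [← smul_neg, smul_pow, smul_pow, smul_comm _ (m ^ i), smul_comm _ (m ^ j),
        smul_mul_assoc (m ^ i), smul_mul_smul_comm (m ^ i), map_nsmul, nsmul_eq_mul, mul_comm]
      push_cast
      rw [pow_add]
  refine h2 ?_
  rw [← h4, ← map_add]
  simp [sub_eq_add_neg]

theorem girr_E {K V : Type*} [Field K] [CharZero K] [AddCommGroup V] [Module K V]
    [Algebra ℚ (Module.End K V)] {X : Module.End K V} {U : Submodule K V}
    (h : ∀ v ∈ U, X v ∈ U) (k : ℕ) : ∀ v ∈ U, E k X v ∈ U := by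
  intro v hv
  rw [E, LinearMap.sum_apply]
  have h1 : ∀ i : ℕ, (X ^ i) v ∈ U := fun i => by
    induction i with
    | zero => simpa using hv
    | succ i ih => rw [pow_succ', Module.End.mul_apply]; exact h _ ih
  refine U.sum_mem fun i _ => ?_
  rw [inv_natCast_smul_eq ℚ K, LinearMap.smul_apply]
  exact U.smul_mem _ (h1 i)

/-- On an irreducible module the formal Engel condition forces `g` to be a scalar. -/
theorem irr_scalar {K V : Type*} [Field K] [CharZero K] [IsAlgClosed K] [AddCommGroup V]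
    [Module K V] [FiniteDimensional K V] [Algebra ℚ (Module.End K V)] {n : ℕ}
    (L : Submodule K (Module.End K V)) (hL : ∀ a ∈ L, ∀ b ∈ L, a * b - b * a ∈ L)
    {g g' : Module.End K V} (h1 : g * g' = 1) (h2 : g' * g = 1)
    (hc : ∀ W ∈ L, g * W * g' ∈ L ∧ g' * W * g ∈ L)
    (hirr : ∀ U : Submodule K V, (∀ a ∈ L, ∀ v ∈ U, a v ∈ U) → (∀ v ∈ U, g v ∈ U) →
      (∀ v ∈ U, g' v ∈ U) → U = ⊥ ∨ U = ⊤)
    (h : ∀ Y ∈ L, GE n g g' Y) : ∃ c : K, g = c • (1 : Module.End K V) := by
  rcases subsingleton_or_nontrivial V with hV | hV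
  · exact ⟨0, Subsingleton.elim _ _⟩
  obtain ⟨c, hc0⟩ := Module.End.exists_eigenvalue g
  obtain ⟨v, hv, hv0⟩ := hc0.exists_hasEigenvector
  rw [Module.End.mem_eigenspace_iff] at hv
  have hc1 : c ≠ 0 := by
    rintro rfl
    refine hv0 ?_
    rw [← Module.End.one_apply (R := K) v, ← h2, Module.End.mul_apply, hv, zero_smul, map_zero]
  have cg : Commute g g' := h1.trans h2.symm
  have hU : g.maxGenEigenspace c = ⊤ := by
    refine (hirr _ (fun a ha => girr_stab h1 c n a (GE.unip h1 h2 (h a ha)))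
      (fun w hw => Module.End.mapsTo_maxGenEigenspace_of_comm (Commute.refl g) c hw)
      fun w hw => Module.End.mapsTo_maxGenEigenspace_of_comm cg c hw).resolve_left fun e => ?_
    have h3 : v ∈ g.maxGenEigenspace c :=
      (Module.End.mem_maxGenEigenspace g c v).2 ⟨1, by simp [hv]⟩
    rw [e] at h3
    exact hv0 h3
  have hN : IsNilpotent (g - c • (1 : Module.End K V)) :=
    Module.End.isNilpotent_iff_of_finite.2 fun w =>
      (Module.End.mem_maxGenEigenspace g c w).1 (hU ▸ Submodule.mem_top)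
  obtain ⟨k, X, hk, hX⟩ := setup_log (hN.smul c⁻¹)
  have hg : g = c • E k X := by
    rw [hX, smul_add, smul_smul, mul_inv_cancel₀ hc1, one_smul, add_sub_cancel]
  have hk' : (-X) ^ k = 0 := by rw [neg_pow, hk, mul_zero]
  have hg' : g' = c⁻¹ • E k (-X) := by
    have h3 : g * (c⁻¹ • E k (-X)) = 1 := by
      rw [hg, smul_mul_smul_comm, mul_inv_cancel₀ hc1, one_smul, E_eq_exp hk, E_eq_exp hk']
      exact IsNilpotent.exp_mul_exp_neg_self ⟨k, hk⟩
    rw [← mul_one g', ← h3, ← mul_assoc, h2, one_mul]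
  have had : ∀ W ∈ L, X * W - W * X ∈ L := fun W hW => girr_ad L hk (fun Z hZ => by
    have h3 := (hc Z hZ).1
    rwa [hg, hg', smul_mul_assoc, smul_mul_smul_comm, mul_inv_cancel₀ hc1, one_smul] at h3) hW
  have hbr : ∀ a ∈ L ⊔ K ∙ X, ∀ b ∈ L ⊔ K ∙ X, a * b - b * a ∈ L := by
    intro a ha b hb
    obtain ⟨W, hW, _, h3, rfl⟩ := Submodule.mem_sup.1 ha
    obtain ⟨s, rfl⟩ := Submodule.mem_span_singleton.1 h3
    obtain ⟨Z, hZ, _, h4, rfl⟩ := Submodule.mem_sup.1 hb
    obtain ⟨t, rfl⟩ := Submodule.mem_span_singleton.1 h4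
    have e : (W + s • X) * (Z + t • X) - (Z + t • X) * (W + s • X) =
        W * Z - Z * W + s • (X * Z - Z * X) - t • (X * W - W * X) := by
      simp only [add_mul, mul_add, smul_mul_assoc, mul_smul_comm, smul_sub, smul_add, smul_smul,
        mul_comm t s]
      abel
    rw [e]
    exact L.sub_mem (L.add_mem (hL W hW Z hZ) (L.smul_mem _ (had Z hZ))) (L.smul_mem _ (had W hW))
  have hXL : X ∈ L ⊔ K ∙ X := Submodule.mem_sup_right (Submodule.mem_span_singleton_self X)
  have hL' : ∀ a ∈ L ⊔ K ∙ X, ∀ b ∈ L ⊔ K ∙ X, a * b - b * a ∈ L ⊔ K ∙ X :=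
    fun a ha b hb => Submodule.mem_sup_left (hbr a ha b hb)
  obtain ⟨H, hH, Y, hY, e1, e2, e3⟩ := jacobson_morozov _ hL' (trace_nondeg _ hL' fun U hU =>
    hirr U (fun a ha => hU a (Submodule.mem_sup_left ha))
      (fun w hw => by
        rw [hg]
        exact U.smul_mem _ (girr_E (hU X hXL) k w hw))
      fun w hw => by
        rw [hg']
        exact U.smul_mem _ (girr_E (hU _ (neg_mem hXL)) k w hw)) hXL ⟨k, hk⟩
  have hY' : -Y ∈ L := by
    have h3 := L.smul_mem (2 : K)⁻¹ (hbr H hH Y hY)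
    rwa [e2, ← two_smul K Y, ← smul_neg, smul_smul, inv_mul_cancel₀ two_ne_zero, one_smul] at h3
  have h3 := h _ hY'
  rw [hg, hg'] at h3
  have h4 := GE.toFE hc1 hk h3
  rw [neg_neg] at h4
  refine ⟨c, ?_⟩
  rw [hg, E_eq_exp hk, sl2_FE hk e1 e2 e3 h4, IsNilpotent.exp_zero]

end Pool.Agent.Lib.MP_b39e30_al.Lin
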