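import Pool.Agent.Lib.MP_b39e30_al.Lin.GDefs
import Pool.Agent.Lib.MP_b39e30_al.Lin.GIrr
import Pool.Agent.Lib.MP_b39e30_al.Lin.Field1

set_option autoImplicit false

namespace Pool.Agent.Lib.MP_b39e30_al.Lin

theorem gf_conj {K A : Type*} [CommRing K] [Ring A] [Algebra K A] {T : Set A} {g g' : A}
    (h2 : g' * g = 1) (hT : ∀ W ∈ T, g * W * g' ∈ T) {y : A} (hy : LG K T y) :
    LG K T (g * y * g') := by
  induction hy with
  | mem ha => exact LG.mem (hT _ ha)
  | zero => rw [mul_zero, zero_mul]; exact LG.zero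
  | add _ _ ha hb => rw [mul_add, add_mul]; exact LG.add ha hb
  | smul c _ ha => rw [mul_smul_comm, smul_mul_assoc]; exact LG.smul c ha
  | br _ _ ha hb =>
    have e : ∀ a b : A, g * a * g' * (g * b * g') = g * (a * b) * g' := fun a b => by
      simp only [mul_assoc]
      rw [← mul_assoc g' g, h2, one_mul]
    rw [mul_sub, sub_mul, ← e, ← e]
    exact LG.br ha hb

theorem gf_simple {K A V : Type*} [Field K] [CharZero K] [IsAlgClosed K] [Ring A] [Algebra K A]
    [Algebra ℚ A] [AddCommGroup V] [Module K V] [Module A V] [IsScalarTower K A V]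
    [FiniteDimensional K V] [IsSimpleModule A V] {n : ℕ} {g g' : A} {T T' : Set A}
    (h1 : g * g' = 1) (h2 : g' * g = 1) (hS : ∀ W ∈ T, g * W * g' ∈ T ∧ g' * W * g ∈ T)
    (hT : Algebra.adjoin K T' = ⊤) (hT' : ∀ a ∈ T', a ∈ T ∨ a = g ∨ a = g')
    (h : ∀ y, LG K T y → GE n g g' y) (b : A) (v : V) : (g * b - b * g) • v = 0 := by
  let π : A →ₐ[K] Module.End K V := Algebra.lsmul K K V
  have hπ : ∀ a w, π a w = a • w := fun _ _ => rfl
  let L0 : Submodule K A :=
    { carrier := {y | LG K T y}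
      add_mem' := fun ha hb => LG.add ha hb
      zero_mem' := LG.zero
      smul_mem' := fun c _ ha => LG.smul c ha }
  let L : Submodule K (Module.End K V) := L0.map π.toLinearMap
  have hL : ∀ a ∈ L, ∀ b ∈ L, a * b - b * a ∈ L := by
    rintro _ ⟨a, ha, rfl⟩ _ ⟨b, hb, rfl⟩
    exact ⟨a * b - b * a, LG.br ha hb, by simp⟩
  have hc : ∀ W ∈ L, π g * W * π g' ∈ L ∧ π g' * W * π g ∈ L := by
    rintro _ ⟨a, ha, rfl⟩
    exact ⟨⟨g * a * g', gf_conj h2 (fun W hW => (hS W hW).1) ha, by simp⟩,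
      ⟨g' * a * g, gf_conj h1 (fun W hW => (hS W hW).2) ha, by simp⟩⟩
  have hirr : ∀ W : Submodule K V, (∀ a ∈ L, ∀ w ∈ W, a w ∈ W) → (∀ w ∈ W, π g w ∈ W) →
      (∀ w ∈ W, π g' w ∈ W) → W = ⊥ ∨ W = ⊤ := by
    intro W hW hg hg'
    have hst : ∀ a : A, ∀ w ∈ W, a • w ∈ W := by
      intro a
      have ha : a ∈ Algebra.adjoin K T' := hT ▸ Algebra.mem_top
      induction ha using Algebra.adjoin_induction with
      | mem a ha =>
        rcases hT' a ha with e | e | e
        · exact fun w hw => hW (π a) ⟨a, LG.mem e, rfl⟩ w hw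
        · exact e ▸ hg
        · exact e ▸ hg'
      | algebraMap c => exact fun w hw => by rw [algebraMap_smul]; exact W.smul_mem c hw
      | add a b _ _ ha hb => exact fun w hw => by rw [add_smul]; exact W.add_mem (ha w hw) (hb w hw)
      | mul a b _ _ ha hb => exact fun w hw => by rw [mul_smul]; exact ha _ (hb w hw)
    let W' : Submodule A V :=
      { carrier := W
        add_mem' := fun ha hb => W.add_mem ha hb
        zero_mem' := W.zero_mem
        smul_mem' := fun c w hw => hst c w hw }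
    rcases eq_bot_or_eq_top W' with h0 | h0
    · refine Or.inl (eq_bot_iff.2 fun w hw => ?_)
      have hw' : w ∈ W' := hw
      rw [h0] at hw'
      exact hw'
    · refine Or.inr (eq_top_iff.2 fun w _ => ?_)
      have hw' : w ∈ W' := h0 ▸ Submodule.mem_top
      exact hw'
  let _ : Algebra ℚ (Module.End K V) :=
    ((algebraMap K (Module.End K V)).comp (algebraMap ℚ K)).toAlgebra' fun c z =>
      Algebra.commutes (algebraMap ℚ K c) z
  obtain ⟨c, hc⟩ := irr_scalar (n := n) L hL (g := π g) (g' := π g')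
    (by rw [← map_mul, h1, map_one]) (by rw [← map_mul, h2, map_one]) hc hirr (by
      rintro _ ⟨y, hy, rfl⟩
      exact (h y hy).map (π : A →+* Module.End K V))
  rw [← hπ, map_sub, map_mul, map_mul, hc, smul_mul_assoc, mul_smul_comm, one_mul, mul_one,
    sub_self, LinearMap.zero_apply]

/-- Over a field the commutators with `g` lie in the Jacobson radical of the envelope. -/
theorem fieldG {ι : Type} [Fintype ι] [DecidableEq ι] {K : Type*} [Field K] [CharZero K]
    [IsAlgClosed K] {n : ℕ} {g g' : Matrix ι ι K} {S : Set (Matrix ι ι K)} (h1 : g * g' = 1)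
    (h2 : g' * g = 1) (hS : ∀ W ∈ S, g * W * g' ∈ S ∧ g' * W * g ∈ S)
    (h : ∀ Y, LG K S Y → GE n g g' Y) :
    ∀ W ∈ S, ∀ a ∈ Algebra.adjoin K (S ∪ {g, g'}), ((g * W - W * g) * a).trace = 0 := by
  intro W hW a ha
  let A := Algebra.adjoin K (S ∪ {g, g'})
  let x : A := ⟨g, Algebra.subset_adjoin (Or.inr (Or.inl rfl))⟩
  let x' : A := ⟨g', Algebra.subset_adjoin (Or.inr (Or.inr rfl))⟩
  let w : A := ⟨W, Algebra.subset_adjoin (Or.inl hW)⟩
  let _ : Algebra ℚ A :=
    ((algebraMap K A).comp (algebraMap ℚ K)).toAlgebra' fun c z => Algebra.commutes _ z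
  have : Module.Finite K A := inferInstanceAs (Module.Finite K (Subalgebra.toSubmodule A))
  have : IsArtinianRing A := IsArtinianRing.of_finite K A
  have hT : Algebra.adjoin K (A.val ⁻¹' (S ∪ {g, g'})) = ⊤ := Algebra.adjoin_adjoin_coe_preimage
  have hGE : ∀ y, LG K (A.val ⁻¹' S) y → GE n x x' y := fun y hy =>
    GE.of_map (A.val : A →+* Matrix ι ι K) Subtype.val_injective (h _ (f1_LG A.val hy))
  have hJ : x * w - w * x ∈ Ring.jacobson A := by
    rw [Ring.jacobson_eq_sInf_isMaximal, Ideal.mem_sInf]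
    intro m hm
    have : IsSimpleModule A (A ⧸ m) :=
      isSimpleModule_iff_isCoatom.2 (Ideal.isMaximal_def.1 hm)
    have h3 := gf_simple (K := K) (V := A ⧸ m) (g := x) (g' := x') (T := A.val ⁻¹' S)
      (Subtype.ext h1) (Subtype.ext h2) (fun U hU => hS U.1 hU) hT
      (fun a ha => ha.imp_right fun e => e.imp Subtype.ext Subtype.ext) hGE w
      (Submodule.Quotient.mk 1)
    rw [← Submodule.Quotient.mk_smul, smul_eq_mul, mul_one, Submodule.Quotient.mk_eq_zero] at h3
    exact h3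
  obtain ⟨N, hN⟩ := IsSemiprimaryRing.isNilpotent (R := A)
  have hxa : (x * w - w * x) * ⟨a, ha⟩ ∈ Ring.jacobson A := Ideal.mul_mem_right _ _ hJ
  have hp := Ideal.pow_mem_pow hxa N
  rw [hN, Ideal.zero_eq_bot, Ideal.mem_bot] at hp
  have hnil : IsNilpotent ((g * W - W * g) * a) :=
    ⟨N, by simpa using congrArg Subtype.val hp⟩
  exact (Matrix.isNilpotent_trace_of_isNilpotent hnil).eq_zero

end Pool.Agent.Lib.MP_b39e30_al.Lin
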