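import Pool.Agent.Lib.MP_b39e30_al.Lin.GDefs
import Pool.Agent.Lib.MP_b39e30_al.Lin.Formal

set_option autoImplicit false

namespace Pool.Agent.Lib.MP_b39e30_al.Lin

open MvPolynomial

section GFormalAux

variable {ι : Type} [Fintype ι] [DecidableEq ι] {K : Type*} [CommRing K]

theorem gf_D_t (W : Matrix ι ι K) (a b : ι) :
    DG W (X (true, a, b)) = (genG ι K true * cstG W) a b := by
  simp only [DG, mkDerivation_X]
  rfl

theorem gf_D_f (W : Matrix ι ι K) (a b : ι) :
    DG W (X (false, a, b)) = (-(cstG W * genG ι K false)) a b := by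
  simp only [DG, mkDerivation_X]
  rfl

omit [Fintype ι] [DecidableEq ι] in
theorem gf_cst_add (A B : Matrix ι ι K) : cstG (A + B) = cstG A + cstG B := by
  refine Matrix.ext fun a b => ?_
  simp only [cstG, Matrix.map_apply, Matrix.add_apply, map_add]

omit [Fintype ι] [DecidableEq ι] in
theorem gf_cst_sub (A B : Matrix ι ι K) : cstG (A - B) = cstG A - cstG B := by
  refine Matrix.ext fun a b => ?_
  simp only [cstG, Matrix.map_apply, Matrix.sub_apply, map_sub]

omit [DecidableEq ι] in
theorem gf_cst_mul (A B : Matrix ι ι K) : cstG (A * B) = cstG A * cstG B := by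
  simp only [cstG, Matrix.map_mul]

omit [Fintype ι] [DecidableEq ι] in
theorem gf_cst_smul (c : K) (A : Matrix ι ι K) : cstG (c • A) = c • cstG A := by
  refine Matrix.ext fun a b => ?_
  simp only [cstG, Matrix.map_apply, Matrix.smul_apply, smul_eq_mul, map_mul, smul_eq_C_mul]

theorem gf_D_zero : DG (0 : Matrix ι ι K) = 0 := by
  refine derivation_ext fun p => ?_
  obtain ⟨s, a, b⟩ := p
  cases s
  · rw [gf_D_f]
    simp [cstG]
  · rw [gf_D_t]
    simp [cstG]

theorem gf_D_add (A B : Matrix ι ι K) : DG (A + B) = DG A + DG B := by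
  refine derivation_ext fun p => ?_
  obtain ⟨s, a, b⟩ := p
  cases s
  · rw [Derivation.add_apply, gf_D_f, gf_D_f, gf_D_f, gf_cst_add, ← Matrix.add_apply, add_mul,
      neg_add]
  · rw [Derivation.add_apply, gf_D_t, gf_D_t, gf_D_t, gf_cst_add, ← Matrix.add_apply, mul_add]

theorem gf_D_smul (c : K) (A : Matrix ι ι K) : DG (c • A) = c • DG A := by
  refine derivation_ext fun p => ?_
  obtain ⟨s, a, b⟩ := p
  cases s
  · rw [Derivation.smul_apply, gf_D_f, gf_D_f, gf_cst_smul, ← Matrix.smul_apply, smul_neg,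
      smul_mul_assoc]
  · rw [Derivation.smul_apply, gf_D_t, gf_D_t, gf_cst_smul, ← Matrix.smul_apply, mul_smul_comm]

theorem gf_map_cst_mul (A B : Matrix ι ι K) (M : Matrix ι ι (MvPolynomial (Bool × ι × ι) K)) :
    (cstG B * M).map (DG A) = cstG B * M.map (DG A) := by
  refine Matrix.ext fun a b => ?_
  simp only [Matrix.map_apply, Matrix.mul_apply, map_sum, cstG, Derivation.leibniz,
    derivation_C, mul_zero, add_zero, smul_eq_mul]

theorem gf_map_mul_cst (A B : Matrix ι ι K) (M : Matrix ι ι (MvPolynomial (Bool × ι × ι) K)) :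
    (M * cstG B).map (DG A) = M.map (DG A) * cstG B := by
  refine Matrix.ext fun a b => ?_
  simp only [Matrix.map_apply, Matrix.mul_apply, map_sum, cstG, Derivation.leibniz,
    derivation_C, mul_zero, zero_add, smul_eq_mul]
  exact Finset.sum_congr rfl fun x _ => mul_comm _ _

theorem gf_map_t (A : Matrix ι ι K) :
    (genG ι K true).map (DG A) = genG ι K true * cstG A := by
  refine Matrix.ext fun a b => ?_
  rw [← gf_D_t]
  rfl

theorem gf_map_f (A : Matrix ι ι K) :
    (genG ι K false).map (DG A) = -(cstG A * genG ι K false) := by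
  refine Matrix.ext fun a b => ?_
  rw [← gf_D_f]
  rfl

theorem gf_D_D_t (A B : Matrix ι ι K) (a b : ι) :
    DG A (DG B (X (true, a, b))) = (genG ι K true * cstG A * cstG B) a b := by
  rw [gf_D_t, ← gf_map_t A, ← gf_map_mul_cst]
  rfl

theorem gf_D_D_f (A B : Matrix ι ι K) (a b : ι) :
    DG A (DG B (X (false, a, b))) = (-(cstG B * -(cstG A * genG ι K false))) a b := by
  rw [gf_D_f, ← gf_map_f A, ← gf_map_cst_mul]
  simp only [Matrix.neg_apply, Matrix.map_apply, map_neg]

theorem gf_D_br (A B : Matrix ι ι K) : DG (A * B - B * A) = ⁅DG A, DG B⁆ := by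
  refine derivation_ext fun p => ?_
  obtain ⟨s, a, b⟩ := p
  cases s
  · rw [Derivation.commutator_apply, gf_D_D_f, gf_D_D_f, gf_D_f, gf_cst_sub, gf_cst_mul,
      gf_cst_mul, ← Matrix.sub_apply]
    refine congrFun (congrFun ?_ a) b
    noncomm_ring
  · rw [Derivation.commutator_apply, gf_D_D_t, gf_D_D_t, gf_D_t, gf_cst_sub, gf_cst_mul,
      gf_cst_mul, ← Matrix.sub_apply]
    refine congrFun (congrFun ?_ a) b
    noncomm_ring

theorem gf_Dl_add (ws : List (Matrix ι ι K)) (p q : MvPolynomial (Bool × ι × ι) K) :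
    DGl ws (p + q) = DGl ws p + DGl ws q := by
  induction ws with
  | nil => rfl
  | cons W ws ih =>
    change DG W (DGl ws (p + q)) = DG W (DGl ws p) + DG W (DGl ws q)
    rw [ih, map_add]

theorem gf_Dl_smul (ws : List (Matrix ι ι K)) (c : K) (p : MvPolynomial (Bool × ι × ι) K) :
    DGl ws (c • p) = c • DGl ws p := by
  induction ws with
  | nil => rfl
  | cons W ws ih =>
    change DG W (DGl ws (c • p)) = c • DG W (DGl ws p)
    rw [ih, Derivation.map_smul]

/-- The polynomials all of whose derivatives along `S` vanish at the identity. -/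
def gfSub (S : Set (Matrix ι ι K)) : Submodule K (MvPolynomial (Bool × ι × ι) K) where
  carrier := {q | ∀ ws : List (Matrix ι ι K), (∀ W ∈ ws, W ∈ S) → eval (pt 1 1) (DGl ws q) = 0}
  add_mem' := by
    intro p q hp hq ws hws
    rw [gf_Dl_add, map_add, hp ws hws, hq ws hws, add_zero]
  zero_mem' := by
    intro ws _
    have h := gf_Dl_smul ws (0 : K) 0
    rw [zero_smul, zero_smul] at h
    rw [h, map_zero]
  smul_mem' := by
    intro c p hp ws hws
    rw [gf_Dl_smul, smul_eq_C_mul, map_mul, hp ws hws, mul_zero]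

theorem gf_stable {S : Set (Matrix ι ι K)} {Y : Matrix ι ι K}
    (hY : LG K S Y) : ∀ q ∈ gfSub S, DG Y q ∈ gfSub S := by
  induction hY with
  | @mem W hW =>
    intro q hq ws hws
    have h := hq (ws ++ [W]) (by
      intro V hV
      rcases List.mem_append.1 hV with hV | hV
      · exact hws V hV
      · rw [List.mem_singleton.1 hV]
        exact hW)
    simpa only [DGl, List.foldr_append, List.foldr_cons, List.foldr_nil] using h
  | zero =>
    intro q _
    rw [gf_D_zero]
    exact Submodule.zero_mem _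
  | add _ _ iha ihb =>
    intro q hq
    rw [gf_D_add, Derivation.add_apply]
    exact Submodule.add_mem _ (iha q hq) (ihb q hq)
  | smul c _ ih =>
    intro q hq
    rw [gf_D_smul, Derivation.smul_apply]
    exact Submodule.smul_mem _ c (ih q hq)
  | br _ _ iha ihb =>
    intro q hq
    rw [gf_D_br, Derivation.commutator_apply]
    exact Submodule.sub_mem _ (iha _ (ihb q hq)) (ihb _ (iha q hq))

/-- Substitution of two matrices of power series for the generic matrices. -/
noncomputable def gfSubst (U V : Matrix ι ι (PowerSeries K)) :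
    MvPolynomial (Bool × ι × ι) K →+* PowerSeries K :=
  eval₂Hom PowerSeries.C (pt U V)

theorem gf_subst_t (U V : Matrix ι ι (PowerSeries K)) :
    (gfSubst U V).mapMatrix (genG ι K true) = U := by
  refine Matrix.ext fun a b => ?_
  simp only [RingHom.mapMatrix_apply, Matrix.map_apply, genG, Matrix.of_apply, gfSubst,
    eval₂Hom_X']
  rfl

theorem gf_subst_f (U V : Matrix ι ι (PowerSeries K)) :
    (gfSubst U V).mapMatrix (genG ι K false) = V := by
  refine Matrix.ext fun a b => ?_
  simp only [RingHom.mapMatrix_apply, Matrix.map_apply, genG, Matrix.of_apply, gfSubst,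
    eval₂Hom_X']
  rfl

theorem gf_subst_cst (U V : Matrix ι ι (PowerSeries K)) (W : Matrix ι ι K) :
    (gfSubst U V).mapMatrix (cstG W) = formalPsi ι K (PowerSeries.C W) := by
  refine Matrix.ext fun a b => ?_
  rw [formal_Psi_C]
  simp only [RingHom.mapMatrix_apply, Matrix.map_apply, cstG, gfSubst, eval₂Hom_C]

variable [Algebra ℚ K]

theorem gf_Ex_succ (Y : Matrix ι ι K) (i : ℕ) :
    ((i + 1 : ℕ) : ℚ) • PowerSeries.coeff (i + 1) (Ex Y) = ((i.factorial : ℚ)⁻¹) • Y ^ (i + 1) := by
  have h : ((i + 1 : ℕ) : ℚ) * (((i + 1).factorial : ℚ)⁻¹) = (i.factorial : ℚ)⁻¹ := by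
    rw [Nat.factorial_succ, Nat.cast_mul, mul_inv, mul_inv_cancel_left₀]
    exact Nat.cast_ne_zero.2 (Nat.succ_ne_zero i)
  simp only [Ex, PowerSeries.coeff_mk]
  rw [smul_smul, h]

theorem gf_deriv (Y : Matrix ι ι K) (F : PowerSeries (Matrix ι ι K))
    (hF : ∀ i, PowerSeries.coeff i F = ((i.factorial : ℚ)⁻¹) • Y ^ (i + 1)) (a b : ι) :
    PowerSeries.derivative K (formalPsi ι K (Ex Y) a b) = formalPsi ι K F a b := by
  ext i
  rw [PowerSeries.coeff_derivative, formal_Psi_coeff, formal_Psi_coeff, hF, ← gf_Ex_succ,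
    Matrix.smul_apply, Nat.cast_smul_eq_nsmul, nsmul_eq_mul, mul_comm]
  push_cast
  rfl

theorem gf_deriv_t (Y : Matrix ι ι K) (a b : ι) :
    PowerSeries.derivative K (formalPsi ι K (Ex Y) a b) =
      formalPsi ι K (Ex Y * PowerSeries.C Y) a b := by
  refine gf_deriv Y _ (fun i => ?_) a b
  rw [PowerSeries.coeff_mul_C, Ex, PowerSeries.coeff_mk, smul_mul_assoc, pow_succ]

theorem gf_deriv_f (Y : Matrix ι ι K) (a b : ι) :
    PowerSeries.derivative K (formalPsi ι K (Ex (-Y)) a b) =
      formalPsi ι K (-(PowerSeries.C Y * Ex (-Y))) a b := by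
  refine gf_deriv (-Y) _ (fun i => ?_) a b
  rw [map_neg, PowerSeries.coeff_C_mul, Ex, PowerSeries.coeff_mk, pow_succ', ← neg_mul,
    mul_smul_comm]

/-- The substitution of the formal exponential and its inverse. -/
noncomputable def gfEv (Y : Matrix ι ι K) : MvPolynomial (Bool × ι × ι) K →+* PowerSeries K :=
  gfSubst (formalPsi ι K (Ex Y)) (formalPsi ι K (Ex (-Y)))

theorem gf_chain_X (Y : Matrix ι ι K) (s : Bool × ι × ι) :
    gfEv Y (DG Y (X s)) = PowerSeries.derivative K (gfEv Y (X s)) := by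
  obtain ⟨s, a, b⟩ := s
  cases s
  · have h1 : gfEv Y (X (false, a, b)) = formalPsi ι K (Ex (-Y)) a b :=
      congrFun (congrFun (gf_subst_f (formalPsi ι K (Ex Y)) (formalPsi ι K (Ex (-Y)))) a) b
    have h3 : (gfEv Y).mapMatrix (-(cstG Y * genG ι K false)) =
        formalPsi ι K (-(PowerSeries.C Y * Ex (-Y))) := by
      rw [gfEv, map_neg, map_mul, gf_subst_cst, gf_subst_f, map_neg, map_mul]
    rw [h1, gf_D_f, gf_deriv_f, ← h3]
    rfl
  · have h1 : gfEv Y (X (true, a, b)) = formalPsi ι K (Ex Y) a b :=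
      congrFun (congrFun (gf_subst_t (formalPsi ι K (Ex Y)) (formalPsi ι K (Ex (-Y)))) a) b
    have h3 : (gfEv Y).mapMatrix (genG ι K true * cstG Y) =
        formalPsi ι K (Ex Y * PowerSeries.C Y) := by
      rw [gfEv, map_mul, gf_subst_cst, gf_subst_t, map_mul]
    rw [h1, gf_D_t, gf_deriv_t, ← h3]
    rfl

theorem gf_chain (Y : Matrix ι ι K) (q : MvPolynomial (Bool × ι × ι) K) :
    PowerSeries.derivative K (gfEv Y q) = gfEv Y (DG Y q) := by
  induction q using MvPolynomial.induction_on with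
  | C c =>
    simp only [gfEv, gfSubst, eval₂Hom_C, derivation_C, map_zero, PowerSeries.derivative_C]
  | add p q hp hq => simp only [map_add, hp, hq]
  | mul_X p s hp =>
    rw [map_mul, Derivation.leibniz, Derivation.leibniz, map_add, smul_eq_mul, smul_eq_mul,
      smul_eq_mul, smul_eq_mul, map_mul, map_mul, gf_chain_X, hp]

theorem gf_const (Y : Matrix ι ι K) (q : MvPolynomial (Bool × ι × ι) K) :
    PowerSeries.coeff 0 (gfEv Y q) = eval (pt 1 1) q := by
  have h : (PowerSeries.constantCoeff (R := K)).comp (gfEv Y) = eval (pt 1 1) := by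
    refine ringHom_ext (fun c => ?_) (fun p => ?_)
    · simp [gfEv, gfSubst]
    · obtain ⟨s, a, b⟩ := p
      simp only [RingHom.comp_apply, gfEv, gfSubst, eval₂Hom_X', eval_X]
      rw [← PowerSeries.coeff_zero_eq_constantCoeff_apply]
      cases s
      · refine (formal_Psi_coeff _ a b 0).trans ?_
        simp [Ex, pt]
      · refine (formal_Psi_coeff _ a b 0).trans ?_
        simp [Ex, pt]
  rw [PowerSeries.coeff_zero_eq_constantCoeff_apply, ← h, RingHom.comp_apply]

theorem gf_vanish {S : Set (Matrix ι ι K)} {Y : Matrix ι ι K}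
    (hY : LG K S Y) (q : MvPolynomial (Bool × ι × ι) K) (hq : q ∈ gfSub S) : gfEv Y q = 0 := by
  ext i
  rw [map_zero]
  induction i generalizing q with
  | zero =>
    rw [gf_const]
    exact hq [] (by simp)
  | succ i ih =>
    have h := ih _ (gf_stable hY q hq)
    rw [← gf_chain, PowerSeries.coeff_derivative] at h
    have hu : IsUnit ((i : K) + 1) := by
      have h1 : IsUnit ((i + 1 : ℕ) : ℚ) := (Nat.cast_ne_zero.2 (Nat.succ_ne_zero i)).isUnit
      simpa using h1.map (algebraMap ℚ K)
    exact (hu.mul_left_eq_zero).1 h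

end GFormalAux

/-- From the vanishing of the derived relations to the formal Engel condition. -/
theorem formalG {ι : Type} [Fintype ι] [DecidableEq ι] {K : Type*} [CommRing K] [Algebra ℚ K]
    {n : ℕ} {g g' : Matrix ι ι K} {S : Set (Matrix ι ι K)}
    (h : ∀ p ∈ relG n g g', ∀ ws : List (Matrix ι ι K), (∀ W ∈ ws, W ∈ S) →
      eval (pt 1 1) (DGl ws p) = 0) : ∀ Y, LG K S Y → GE n g g' Y := by
  intro Y hY
  refine formal_Psi_inj ?_
  have h1 : (gfEv Y).mapMatrix
      (((engP (cstG g) (cstG g'))^[n] (genG ι K true, genG ι K false)).1 - 1) = 0 := by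
    refine Matrix.ext fun a b => ?_
    exact gf_vanish hY _ (h _ ⟨a, b, rfl⟩)
  have h2 := congrArg Prod.fst (map_engP (gfEv Y).mapMatrix (cstG g) (cstG g') n
    (genG ι K true, genG ι K false))
  have h3 := congrArg Prod.fst (map_engP (formalPsi ι K) (PowerSeries.C g) (PowerSeries.C g') n
    (Ex Y, Ex (-Y)))
  rw [Prod.map_fst] at h2 h3
  rw [map_sub, map_one, sub_eq_zero, h2, gfEv, gf_subst_cst, gf_subst_cst, Prod.map_apply,
    gf_subst_t, gf_subst_f] at h1
  rw [h3, map_one, Prod.map_apply, h1]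

end Pool.Agent.Lib.MP_b39e30_al.Lin
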