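import Pool.Agent.Lib.MP_b39e30_al.Lin.GDefs
import Pool.Agent.Lib.MP_b39e30_al.Lin.Deriv
import Pool.Agent.Lib.MP_b39e30_al.Lin.Setup

set_option autoImplicit false

namespace Pool.Agent.Lib.MP_b39e30_al.Lin

open MvPolynomial

variable {Γ : Type*} [Group Γ]

theorem logs_conj {A : Type*} [Ring A] [Algebra ℚ A] (ρ : Γ →* A) (N : Subgroup Γ) [N.Normal]
    (x : Γ) : ∀ W ∈ Submodule.span ℚ (logs ρ N), ρ x * W * ρ x⁻¹ ∈ Submodule.span ℚ (logs ρ N) := by
  intro W hW
  have h1 : ρ x⁻¹ * ρ x = 1 := by rw [← map_mul, inv_mul_cancel, map_one]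
  have h2 : ρ x * ρ x⁻¹ = 1 := by rw [← map_mul, mul_inv_cancel, map_one]
  induction hW using Submodule.span_induction with
  | mem W hW =>
    obtain ⟨⟨k, hk⟩, w, hw, e⟩ := hW
    have h3 : (ρ x * W * ρ x⁻¹) ^ k = 0 := by rw [setup_pow h1 h2, hk, mul_zero, zero_mul]
    refine Submodule.subset_span ⟨⟨k, h3⟩, x * w * x⁻¹, Subgroup.Normal.conj_mem ‹_› w hw x, ?_⟩
    rw [map_mul, map_mul, e, ← E_eq_exp hk, ← E_eq_exp h3, setup_E h1 h2]
  | zero =>
    rw [mul_zero, zero_mul]
    exact Submodule.zero_mem _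
  | add W V _ _ k1 k2 =>
    rw [mul_add, add_mul]
    exact Submodule.add_mem _ k1 k2
  | smul c W _ k1 =>
    rw [mul_smul_comm, smul_mul_assoc]
    exact Submodule.smul_mem _ c k1

section Aux

variable {ι : Type} [Fintype ι] [DecidableEq ι] {R : Type*} [CommRing R]

omit [DecidableEq ι] in
theorem lgs_X (W : Matrix ι ι R) (i : Bool × ι × ι) :
    DG W (X i) = pt (genG ι R true * cstG W) (-(cstG W * genG ι R false)) i :=
  mkDerivation_X R _ i

omit [DecidableEq ι] in
theorem lgs_C (W : Matrix ι ι R) (a : R) : DG W (C a) = 0 := derivation_C _ a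

omit [DecidableEq ι] in
theorem lgs_mul (W : Matrix ι ι R) (p q : MvPolynomial (Bool × ι × ι) R) :
    DG W (p * q) = p * DG W q + q * DG W p := (DG W).leibniz p q

omit [DecidableEq ι] in
theorem lgs_map {R' : Type*} [CommRing R'] (φ : R →+* R') (W : Matrix ι ι R)
    (p : MvPolynomial (Bool × ι × ι) R) :
    MvPolynomial.map φ (DG W p) = DG (W.map φ) (MvPolynomial.map φ p) := by
  induction p using MvPolynomial.induction_on with
  | C a => rw [map_C, lgs_C, lgs_C, map_zero]
  | add p q hp hq => rw [map_add, map_add, map_add, map_add, hp, hq]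
  | mul_X p i hp =>
    rw [lgs_mul, map_mul, lgs_mul, map_add, map_mul, map_mul, hp, map_X, lgs_X, lgs_X]
    obtain ⟨s, a, b⟩ := i
    cases s <;> simp [pt, cstG, genG, Matrix.mul_apply]

omit [Fintype ι] [DecidableEq ι] in
theorem lgs_pt {R' : Type*} [CommRing R'] (φ : R →+* R') (y y' : Matrix ι ι R)
    (p : MvPolynomial (Bool × ι × ι) R) :
    φ (eval (pt y y') p) = eval (pt (y.map φ) (y'.map φ)) (MvPolynomial.map φ p) := by
  induction p using MvPolynomial.induction_on with
  | C a => simp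
  | add p q hp hq => simp only [map_add, hp, hq]
  | mul_X p i hp =>
    simp only [map_mul, hp]
    obtain ⟨s, a, b⟩ := i
    cases s <;> simp [pt]

omit [DecidableEq ι] in
theorem lgs_taylor (W y y' : Matrix ι ι R) {e : R} (he : e * e = 0)
    (p : MvPolynomial (Bool × ι × ι) R) :
    eval (pt (y + e • (y * W)) (y' + e • (-W * y'))) p =
      eval (pt y y') p + e * eval (pt y y') (DG W p) := by
  induction p using MvPolynomial.induction_on with
  | C a => simp
  | add p q hp hq =>
    simp only [map_add, hp, hq]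
    ring
  | mul_X p i hp =>
    have h1 : eval (pt y y') (DG W (X i)) = pt (y * W) (-W * y') i := by
      obtain ⟨s, a, b⟩ := i
      cases s <;> simp [lgs_X, pt, cstG, genG, Matrix.mul_apply]
    have h2 : pt (y + e • (y * W)) (y' + e • (-W * y')) i =
        pt y y' i + e * pt (y * W) (-W * y') i := by
      obtain ⟨s, a, b⟩ := i
      cases s <;> simp [pt]
    rw [lgs_mul, map_mul, map_mul, map_add, map_mul, map_mul, hp, h1, eval_X, eval_X, h2]
    linear_combination (eval (pt y y') (DG W p) * pt (y * W) (-W * y') i) * he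

theorem lgs_eps [Algebra ℚ R] {k : ℕ} {W : Matrix ι ι R} (h0 : W ^ k = 0) {e : R}
    (he : e * e = 0) : E k (e • W) = 1 + e • W := by
  rw [E_eq_exp (by rw [smul_pow, h0, smul_zero]),
    ← E_eq_exp (k := 2) (by rw [smul_pow, sq e, he, zero_smul])]
  simp [E, Finset.sum_range_succ]

theorem lgs_nat [Algebra ℚ R] {k : ℕ} {W : Matrix ι ι R} (h0 : W ^ k = 0) (m : ℕ) :
    E k ((m : R) • W) = E k W ^ m := by
  have h1 : ∀ s : R, (s • W) ^ k = 0 := fun s => by rw [smul_pow, h0, smul_zero]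
  induction m with
  | zero => rw [E_eq_exp (h1 _), Nat.cast_zero, zero_smul, IsNilpotent.exp_zero, pow_zero]
  | succ m ih =>
    rw [pow_succ, ← ih, E_eq_exp (h1 _), E_eq_exp (h1 _), E_eq_exp h0, Nat.cast_succ, add_smul,
      one_smul, IsNilpotent.exp_add_of_commute ((Commute.refl W).smul_left _) ⟨k, h1 _⟩ ⟨k, h0⟩]

theorem lgs_curve [Algebra ℚ R] {R' : Type*} [CommRing R'] [Algebra ℚ R'] (φ : R →+* R') (k : ℕ)
    (W : Matrix ι ι R) (s : R) : (E k (s • W)).map φ = E k (φ s • W.map φ) := by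
  have h : φ.mapMatrix (s • W) = φ s • W.map φ := by
    ext a b
    simp
  change φ.mapMatrix _ = _
  rw [map_E, h]

theorem lgs_step [Algebra ℚ R] (ρ : Γ →* Matrix ι ι R) {k : ℕ} {W : Matrix ι ι R}
    (h0 : W ^ k = 0) {w : Γ} (hw : ρ w = IsNilpotent.exp W) {p : MvPolynomial (Bool × ι × ι) R}
    (hp : p ∈ vanG ρ) : DG W p ∈ vanG ρ := by
  intro y
  have h0' : (-W) ^ k = 0 := by rw [neg_pow, h0, mul_zero]
  have hw' : ρ w⁻¹ = E k (-W) := by
    rw [← mul_one (ρ w⁻¹), ← IsNilpotent.exp_mul_exp_neg_self ⟨k, h0⟩, ← hw, ← mul_assoc,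
      ← map_mul, inv_mul_cancel, map_one, one_mul, E_eq_exp h0']
  have key : ∀ {S : Type _} [CommRing S] [Algebra ℚ S] (φ : R →+* S) (s : S),
      Polynomial.eval₂RingHom φ s (eval (pt
        ((ρ y).map Polynomial.C * E k ((Polynomial.X : Polynomial R) • W.map Polynomial.C))
        (E k ((Polynomial.X : Polynomial R) • (-W).map Polynomial.C) * (ρ y⁻¹).map Polynomial.C))
        (MvPolynomial.map Polynomial.C p)) =
        eval (pt ((ρ y).map φ * E k (s • W.map φ)) (E k (s • (-W).map φ) * (ρ y⁻¹).map φ))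
          (MvPolynomial.map φ p) := fun φ s => by
    have e : (Polynomial.eval₂RingHom φ s).comp Polynomial.C = φ :=
      RingHom.ext fun _ => Polynomial.eval₂_C _ _
    rw [lgs_pt, Matrix.map_mul, Matrix.map_mul, lgs_curve, lgs_curve, map_map]
    simp only [Matrix.map_map]
    rw [← RingHom.coe_comp, e, Polynomial.coe_eval₂RingHom, Polynomial.eval₂_X]
  have h1 := dv_poly _ _ 0 rfl fun m _ => (key (RingHom.id R) m).trans (by
    have h4 := hp (y * w ^ m)
    rw [mul_inv_rev, ← inv_pow, map_mul, map_mul, map_pow, map_pow, hw, hw', ← E_eq_exp h0,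
      ← lgs_nat h0, ← lgs_nat h0'] at h4
    rw [map_id]
    exact h4)
  have h2 := key (algebraMap R (DualNumber R)) DualNumber.eps
  have h3 : ∀ V : Matrix ι ι R, V ^ k = 0 → V.map (algebraMap R (DualNumber R)) ^ k = 0 :=
    fun V hV => by
      change (algebraMap R (DualNumber R)).mapMatrix V ^ k = 0
      rw [← map_pow, hV, map_zero]
  have h5 : (-W).map (algebraMap R (DualNumber R)) = -W.map (algebraMap R (DualNumber R)) := by
    ext1 a b
    simp
  rw [h1, map_zero, lgs_eps (h3 _ h0) DualNumber.eps_mul_eps,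
    lgs_eps (h3 _ h0') DualNumber.eps_mul_eps, h5, mul_add, add_mul, mul_one, one_mul,
    mul_smul_comm, smul_mul_assoc, lgs_taylor _ _ _ DualNumber.eps_mul_eps, ← lgs_map, ← lgs_pt,
    ← lgs_pt] at h2
  simpa [TrivSqZeroExt.algebraMap_eq_inl] using (congrArg TrivSqZeroExt.snd h2).symm

omit [DecidableEq ι] in
theorem lgs_add (W V : Matrix ι ι R) : DG (W + V) = DG W + DG V :=
  derivation_ext fun i => by
    obtain ⟨s, a, b⟩ := i
    cases s <;> simp [lgs_X, pt, cstG, genG, Matrix.mul_apply, mul_add, add_mul,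
      Finset.sum_add_distrib, add_comm]

omit [DecidableEq ι] in
theorem lgs_smul (c : R) (W : Matrix ι ι R) : DG (c • W) = c • DG W :=
  derivation_ext fun i => by
    obtain ⟨s, a, b⟩ := i
    cases s <;> simp [lgs_X, pt, cstG, genG, Matrix.mul_apply, smul_eq_C_mul, Finset.mul_sum,
      mul_assoc, mul_left_comm]

end Aux

theorem logs_DG {ι : Type} [Fintype ι] [DecidableEq ι] {R : Type*} [CommRing R] [Algebra ℚ R]
    (ρ : Γ →* Matrix ι ι R) (N : Subgroup Γ) :
    ∀ W ∈ Submodule.span ℚ (logs ρ N), ∀ p ∈ vanG ρ, DG W p ∈ vanG ρ := by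
  intro W hW p hp
  induction hW using Submodule.span_induction with
  | mem W hW =>
    obtain ⟨⟨k, hk⟩, w, _, e⟩ := hW
    exact lgs_step ρ hk e hp
  | zero =>
    intro y
    rw [← zero_smul R (0 : Matrix ι ι R), lgs_smul, zero_smul, Derivation.zero_apply, map_zero]
  | add W V _ _ k1 k2 =>
    intro y
    rw [lgs_add, Derivation.add_apply, map_add, k1 y, k2 y, add_zero]
  | smul c W _ k1 =>
    intro y
    rw [← algebraMap_smul R c, lgs_smul, Derivation.smul_apply, smul_eq_C_mul, map_mul, k1 y,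
      mul_zero]

end Pool.Agent.Lib.MP_b39e30_al.Lin
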