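import Pool.Agent.Lib.MP_b39e30_al.Lin.GDefs
import Pool.Agent.Lib.MP_b39e30_al.Lin.Engine
import Pool.Agent.Lib.MP_b39e30_al.Lin.GDeriv
import Pool.Agent.Lib.MP_b39e30_al.Lin.GLogs
import Pool.Agent.Lib.MP_b39e30_al.Lin.GFormal
import Pool.Agent.Lib.MP_b39e30_al.Lin.GField

set_option autoImplicit false

namespace Pool.Agent.Lib.MP_b39e30_al.Lin

open MvPolynomial

section Word

variable {A : Type*} [Ring A]

theorem ge_map_letter {B : Type*} [Ring B] (f : A →+* B) (g g' : A) (p : Fin 4 × A) :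
    f (letter g g' p) = letter (f g) (f g') (p.1, f p.2) := by
  obtain ⟨i, W⟩ := p
  fin_cases i <;> simp [letter]

theorem ge_map_word {B : Type*} [Ring B] (f : A →+* B) (g g' : A) (l : List (Fin 4 × A)) :
    f (l.map (letter g g')).prod =
      ((l.map fun p => (p.1, f p.2)).map (letter (f g) (f g'))).prod := by
  rw [map_list_prod, List.map_map, List.map_map]
  congr 2
  funext p
  exact ge_map_letter f g g' p

omit [Ring A] in
theorem ge_nC_map {B : Type*} (f : A → B) (l : List (Fin 4 × A)) :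
    nC (l.map fun p => (p.1, f p.2)) = nC l := by
  simp only [nC, List.countP_map]
  rfl

omit [Ring A] in
theorem ge_nC_cons (p : Fin 4 × A) (l : List (Fin 4 × A)) :
    nC (p :: l) = nC l + if p.1 = 1 then 1 else 0 := by
  simp [nC, List.countP_cons]

omit [Ring A] in
theorem ge_split (a b : ℕ) (l : List (Fin 4 × A)) (h : a + b ≤ nC l) :
    ∃ l₁ l₂, l = l₁ ++ l₂ ∧ a ≤ nC l₁ ∧ b ≤ nC l₂ := by
  induction l generalizing a with
  | nil => exact ⟨[], [], rfl, by omega, by omega⟩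
  | cons p l ih =>
    rcases a with _ | a
    · exact ⟨[], p :: l, rfl, Nat.zero_le _, by omega⟩
    · rw [ge_nC_cons] at h
      by_cases hp : p.1 = 1
      · rw [if_pos hp] at h
        obtain ⟨l₁, l₂, rfl, h1, h2⟩ := ih a (by omega)
        exact ⟨p :: l₁, l₂, rfl, by rw [ge_nC_cons, if_pos hp]; omega, h2⟩
      · rw [if_neg hp] at h
        obtain ⟨l₁, l₂, rfl, h1, h2⟩ := ih (a + 1) (by omega)
        exact ⟨p :: l₁, l₂, rfl, by rw [ge_nC_cons]; omega, h2⟩

theorem ge_absorb (g g' : A) (T : Submonoid A) (J : Set A) (hJ : ∀ t ∈ T, ∀ x ∈ J, t * x ∈ J)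
    (l : List (Fin 4 × A)) (h1 : ∀ p ∈ l, letter g g' p ∈ T)
    (h2 : ∀ p ∈ l, p.1 = 1 → letter g g' p ∈ J) (r : ℕ) (hr : r ≤ nC l) :
    ∃ l' : List A, (∀ x ∈ l', x ∈ J) ∧ l'.length = r ∧
      ∃ b, (l.map (letter g g')).prod = l'.prod * b := by
  induction l generalizing r with
  | nil => exact ⟨[], by simp, by simpa [nC, eq_comm] using hr, 1, by simp⟩
  | cons p l ih =>
    rcases r with _ | r
    · exact ⟨[], by simp, rfl, _, (one_mul _).symm⟩
    have ih' := ih (fun q hq => h1 q (List.mem_cons_of_mem _ hq))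
      fun q hq => h2 q (List.mem_cons_of_mem _ hq)
    rw [ge_nC_cons] at hr
    by_cases hp : p.1 = 1
    · rw [if_pos hp] at hr
      obtain ⟨l', h3, h4, b, h5⟩ := ih' r (by omega)
      refine ⟨letter g g' p :: l', ?_, by simp [h4], b, ?_⟩
      · simpa using ⟨h2 p List.mem_cons_self hp, h3⟩
      · rw [List.map_cons, List.prod_cons, h5, List.prod_cons, mul_assoc]
    · rw [if_neg hp] at hr
      obtain ⟨l', h3, h4, b, h5⟩ := ih' (r + 1) (by omega)
      obtain ⟨x, l', rfl⟩ := List.exists_cons_of_length_eq_add_one h4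
      refine ⟨letter g g' p * x :: l', ?_, h4, b, ?_⟩
      · intro y hy
        rcases List.mem_cons.1 hy with rfl | hy
        · exact hJ _ (h1 p List.mem_cons_self) _ (h3 x List.mem_cons_self)
        · exact h3 y (List.mem_cons_of_mem _ hy)
      · rw [List.map_cons, List.prod_cons, h5, List.prod_cons, List.prod_cons]
        simp only [mul_assoc]

end Word

section Aux

variable {ι : Type} [Fintype ι] [DecidableEq ι]

/-- Over a field, words with many commutator letters vanish. -/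
theorem ge_field {K : Type*} [Field K] [CharZero K] [IsAlgClosed K] {n : ℕ}
    {g g' : Matrix ι ι K} {S : Set (Matrix ι ι K)} (h1 : g * g' = 1) (h2 : g' * g = 1)
    (hS : ∀ W ∈ S, g * W * g' ∈ S ∧ g' * W * g ∈ S) (h : ∀ Y, LG K S Y → GE n g g' Y) :
    ∃ N : ℕ, ∀ l : List (Fin 4 × Matrix ι ι K), (∀ p ∈ l, p.2 ∈ S) → N ≤ nC l →
      (l.map (letter g g')).prod = 0 := by
  let T := Algebra.adjoin K (S ∪ {g, g'})
  have hg : g ∈ T := Algebra.subset_adjoin (Or.inr (Or.inl rfl))
  have hg' : g' ∈ T := Algebra.subset_adjoin (Or.inr (Or.inr rfl))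
  obtain ⟨N, hN⟩ := field2 (ι := ι) (K := K) (S := {x | x ∈ T ∧ ∀ a ∈ T, (x * a).trace = 0})
    fun l hl0 hl => by
      obtain ⟨x, l, rfl⟩ := List.exists_cons_of_ne_nil hl0
      rw [List.prod_cons]
      exact (hl x List.mem_cons_self).2 _
        (T.list_prod_mem fun y hy => (hl y (List.mem_cons_of_mem _ hy)).1)
  refine ⟨N, fun l hl hn => ?_⟩
  have hT : ∀ p ∈ l, letter g g' p ∈ T := by
    rintro ⟨i, W⟩ hp
    have hW : W ∈ T := Algebra.subset_adjoin (Or.inl (hl _ hp))
    fin_cases i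
    · exact hW
    · exact sub_mem (mul_mem hg hW) (mul_mem hW hg)
    · exact hg
    · exact hg'
  obtain ⟨l', h3, h4, b, h5⟩ := ge_absorb g g' T.toSubmonoid
    {x | x ∈ T ∧ ∀ a ∈ T, (x * a).trace = 0}
    (fun t ht x hx => ⟨mul_mem ht hx.1, fun a ha => by
      rw [Matrix.mul_assoc, Matrix.trace_mul_comm, Matrix.mul_assoc]
      exact hx.2 _ (mul_mem ha ht)⟩) l hT
    (by
      rintro ⟨i, W⟩ hp rfl
      exact ⟨hT _ hp, fieldG h1 h2 hS h W (hl _ hp)⟩) N hn
  rw [h5, hN l' h3 h4.ge, zero_mul]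

variable {R : Type*} [CommRing R] [Algebra ℚ R]

/-- The generic matrices; `Sum.inl` stands for `g` and its inverse. -/
noncomputable def geT (ι : Type) (j : Bool ⊕ ι × ι) :
    Matrix ι ι (MvPolynomial ((Bool ⊕ ι × ι) × ι × ι) ℚ) := Matrix.of fun a b => X (j, a, b)

/-- Specialisation of the generic matrices. -/
noncomputable def geEv (g g' : Matrix ι ι R) (z : ι × ι → Matrix ι ι R) :
    MvPolynomial ((Bool ⊕ ι × ι) × ι × ι) ℚ →+* R :=
  eval₂Hom (algebraMap ℚ R) fun p => (p.1.elim (fun s => bif s then g else g') z) p.2.1 p.2.2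

omit [Fintype ι] [DecidableEq ι] in
theorem geEv_true (g g' : Matrix ι ι R) (z : ι × ι → Matrix ι ι R) :
    (geT ι (Sum.inl true)).map (geEv g g' z) = g := by
  ext a b
  simp [geT, geEv]

omit [Fintype ι] [DecidableEq ι] in
theorem geEv_false (g g' : Matrix ι ι R) (z : ι × ι → Matrix ι ι R) :
    (geT ι (Sum.inl false)).map (geEv g g' z) = g' := by
  ext a b
  simp [geT, geEv]

omit [DecidableEq ι] in
theorem geEv_sum (g g' : Matrix ι ι R) (z : ι × ι → Matrix ι ι R) (a : ι × ι → ℚ) :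
    (∑ j, a j • geT ι (Sum.inr j)).map (geEv g g' z) = ∑ j, a j • z j := by
  ext c d
  simp only [Matrix.map_apply, Matrix.sum_apply, Matrix.smul_apply, map_sum, map_rat_smul]
  simp [geT, geEv]

/-- The generic matrices all of whose specialisations lie in `L`. -/
def geS (g g' : Matrix ι ι R) (L : Submodule ℚ (Matrix ι ι R)) :
    Set (Matrix ι ι (MvPolynomial ((Bool ⊕ ι × ι) × ι × ι) ℚ)) :=
  {W | ∀ z : ι × ι → Matrix ι ι R, (∀ j, z j ∈ L) → W.map (geEv g g' z) ∈ L}

/-- The ideal of polynomials that vanish at all specialisations in `L`. -/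
noncomputable def geI (g g' : Matrix ι ι R) (L : Submodule ℚ (Matrix ι ι R)) :
    Ideal (MvPolynomial ((Bool ⊕ ι × ι) × ι × ι) ℚ) :=
  ⨅ z : {z : ι × ι → Matrix ι ι R // ∀ j, z j ∈ L}, RingHom.ker (geEv g g' z.1)

omit [Fintype ι] [DecidableEq ι] in
theorem mem_geI {g g' : Matrix ι ι R} {L : Submodule ℚ (Matrix ι ι R)}
    {x : MvPolynomial ((Bool ⊕ ι × ι) × ι × ι) ℚ} :
    x ∈ geI g g' L ↔ ∀ z : ι × ι → Matrix ι ι R, (∀ j, z j ∈ L) → geEv g g' z x = 0 := by
  simp [geI, RingHom.mem_ker]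

/-- The ideal generated by the entries of the words with many commutator letters. -/
noncomputable def geW (g g' : Matrix ι ι R) (L : Submodule ℚ (Matrix ι ι R)) (N : ℕ) :
    Ideal (MvPolynomial ((Bool ⊕ ι × ι) × ι × ι) ℚ) :=
  Ideal.span {t | ∃ l : List (Fin 4 × Matrix ι ι (MvPolynomial ((Bool ⊕ ι × ι) × ι × ι) ℚ)),
    (∀ p ∈ l, p.2 ∈ geS g g' L) ∧ N ≤ nC l ∧
      ∃ a b, t = (l.map (letter (geT ι (Sum.inl true)) (geT ι (Sum.inl false)))).prod a b}

theorem geW_pow (g g' : Matrix ι ι R) (L : Submodule ℚ (Matrix ι ι R)) (N e : ℕ)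
    (l : List (Fin 4 × Matrix ι ι (MvPolynomial ((Bool ⊕ ι × ι) × ι × ι) ℚ)))
    (hl : ∀ p ∈ l, p.2 ∈ geS g g' L) (hN : N * e ≤ nC l) (a b : ι) :
    (l.map (letter (geT ι (Sum.inl true)) (geT ι (Sum.inl false)))).prod a b ∈
      geW g g' L N ^ e := by
  induction e generalizing l a b with
  | zero => simp
  | succ e ih =>
    obtain ⟨l₁, l₂, rfl, h1, h2⟩ := ge_split N (N * e) l (by rw [Nat.mul_succ] at hN; omega)
    rw [List.map_append, List.prod_append, Matrix.mul_apply, pow_succ']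
    exact Ideal.sum_mem _ fun c _ => Ideal.mul_mem_mul (Ideal.subset_span
      ⟨_, fun W hW => hl W (List.mem_append_left _ hW), h1, a, c, rfl⟩)
      (ih _ (fun W hW => hl W (List.mem_append_right _ hW)) h2 c b)

theorem ge_step {Γ : Type*} [Group Γ] (ρ : Γ →* Matrix ι ι R) (N : Subgroup Γ) [N.Normal] {n : ℕ}
    {g : Γ} (h : Eng n g) :
    ∃ M e : ℕ, geW (ρ g) (ρ g⁻¹) (Submodule.span ℚ (logs ρ N)) M ^ e ≤
      geI (ρ g) (ρ g⁻¹) (Submodule.span ℚ (logs ρ N)) := by
  refine noeth _ _ (fun M M' hM => Ideal.span_mono ?_) fun K _ _ _ φ hφ => ?_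
  · rintro _ ⟨l, h1, h2, h3⟩
    exact ⟨l, h1, hM.trans h2, h3⟩
  have hone : ∀ s t : Bool, (∀ z, (geT ι (Sum.inl s)).map (geEv (ρ g) (ρ g⁻¹) z) *
      (geT ι (Sum.inl t)).map (geEv (ρ g) (ρ g⁻¹) z) = 1) →
      (geT ι (Sum.inl s)).map φ * (geT ι (Sum.inl t)).map φ = 1 := by
    intro s t hst
    have h1 : φ.mapMatrix (geT ι (Sum.inl s) * geT ι (Sum.inl t) - 1) = 0 := by
      ext a b
      refine hφ _ (mem_geI.2 fun z _ => ?_)
      have h2 : (geEv (ρ g) (ρ g⁻¹) z).mapMatrix (geT ι (Sum.inl s) * geT ι (Sum.inl t) - 1) =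
          0 := by
        rw [map_sub, map_mul, map_one, sub_eq_zero]
        exact hst z
      exact congrFun (congrFun h2 a) b
    rw [map_sub, map_mul, map_one, sub_eq_zero] at h1
    exact h1
  obtain ⟨M, hM⟩ := ge_field (n := n) (g := (geT ι (Sum.inl true)).map φ)
    (g' := (geT ι (Sum.inl false)).map φ)
    (S := (fun W => Matrix.map W φ) '' geS (ρ g) (ρ g⁻¹) (Submodule.span ℚ (logs ρ N)))
    (hone _ _ fun z => by rw [geEv_true, geEv_false, ← map_mul, mul_inv_cancel, map_one])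
    (hone _ _ fun z => by rw [geEv_true, geEv_false, ← map_mul, inv_mul_cancel, map_one])
    (by
      rintro _ ⟨W, hW, rfl⟩
      refine ⟨⟨geT ι (Sum.inl true) * W * geT ι (Sum.inl false), fun z hz => ?_, ?_⟩,
        ⟨geT ι (Sum.inl false) * W * geT ι (Sum.inl true), fun z hz => ?_, ?_⟩⟩
      · rw [Matrix.map_mul, Matrix.map_mul, geEv_true, geEv_false]
        exact logs_conj ρ N g _ (hW z hz)
      · simp only [Matrix.map_mul]
      · rw [Matrix.map_mul, Matrix.map_mul, geEv_true, geEv_false]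
        simpa only [inv_inv] using logs_conj ρ N g⁻¹ _ (hW z hz)
      · simp only [Matrix.map_mul])
    (by
      refine formalG fun p hp ws hws => ?_
      rw [relG_map] at hp
      obtain ⟨q, hq, rfl⟩ := hp
      obtain ⟨ws', h1, rfl⟩ := eng_lift _ _ ws hws
      have h2 := map_pt φ (1 : Matrix ι ι _) 1 (DGl ws' q)
      rw [Matrix.map_one _ (map_zero φ) (map_one φ), map_DGl] at h2
      rw [← h2]
      refine hφ _ (mem_geI.2 fun z hz => ?_)
      rw [map_pt, map_DGl, Matrix.map_one _ (map_zero _) (map_one _)]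
      refine vanG_DGl ρ (logs_DG ρ N) _ (relG_subset ρ h ?_) _ fun W hW => ?_
      · have h3 := relG_map (geEv (ρ g) (ρ g⁻¹) z) n (geT ι (Sum.inl true)) (geT ι (Sum.inl false))
        rw [geEv_true, geEv_false] at h3
        rw [h3]
        exact ⟨q, hq, rfl⟩
      · obtain ⟨W', h3, rfl⟩ := List.mem_map.1 hW
        exact h1 W' h3 z hz)
  refine ⟨M, fun x hx => (Ideal.span_le (I := RingHom.ker φ)).2 ?_ hx⟩
  rintro _ ⟨l, h1, h2, a, b, rfl⟩
  have h3 := hM (l.map fun p => (p.1, p.2.map φ)) (fun p hp => by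
    obtain ⟨q, h4, rfl⟩ := List.mem_map.1 hp
    exact ⟨q.2, h1 q h4, rfl⟩) (by rw [ge_nC_map (fun W => Matrix.map W φ)]; exact h2)
  have h4 := ge_map_word φ.mapMatrix (geT ι (Sum.inl true)) (geT ι (Sum.inl false)) l
  exact congrFun (congrFun (h4.trans h3) a) b

end Aux

/-- Words with many commutator letters vanish. -/
theorem engineG {ι : Type} [Fintype ι] [DecidableEq ι] {R : Type*} [CommRing R] [Algebra ℚ R]
    {Γ : Type*} [Group Γ] (ρ : Γ →* Matrix ι ι R) (N : Subgroup Γ) [N.Normal] {n : ℕ} {g : Γ}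
    (h : Eng n g) :
    ∃ m : ℕ, ∀ l : List (Fin 4 × Matrix ι ι R), (∀ p ∈ l, p.2 ∈ Submodule.span ℚ (logs ρ N)) →
      m ≤ nC l → (l.map (letter (ρ g) (ρ g⁻¹))).prod = 0 := by
  obtain ⟨M, e, he⟩ := ge_step ρ N h
  refine ⟨M * e, fun l hl hm => ?_⟩
  ext a b
  let G : Fin l.length → Matrix ι ι (MvPolynomial (Fin l.length × ι × ι) R) :=
    fun i => Matrix.of fun a b => MvPolynomial.X (i, a, b)
  let F : MvPolynomial (Fin l.length × ι × ι) R :=
    ((List.ofFn fun i => ((l.get i).1, G i)).map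
      (letter ((ρ g).map (C : R →+* MvPolynomial (Fin l.length × ι × ι) R))
        ((ρ g⁻¹).map (C : R →+* MvPolynomial (Fin l.length × ι × ι) R)))).prod a b
  have hF : ∀ W : Fin l.length → Matrix ι ι R,
      eval (fun p : Fin l.length × ι × ι => W p.1 p.2.1 p.2.2) F =
        ((List.ofFn fun i => ((l.get i).1, W i)).map (letter (ρ g) (ρ g⁻¹))).prod a b := by
    intro W
    have h1 := ge_map_word (eval fun p : Fin l.length × ι × ι => W p.1 p.2.1 p.2.2).mapMatrix
      ((ρ g).map (C : R →+* MvPolynomial (Fin l.length × ι × ι) R))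
      ((ρ g⁻¹).map (C : R →+* MvPolynomial (Fin l.length × ι × ι) R))
      (List.ofFn fun i => ((l.get i).1, G i))
    have h2 : ∀ U : Matrix ι ι R,
        (eval fun p : Fin l.length × ι × ι => W p.1 p.2.1 p.2.2).mapMatrix
          (U.map (C : R →+* MvPolynomial (Fin l.length × ι × ι) R)) = U := fun U => by
      ext a b
      simp
    have h3 : ∀ i, (eval fun p : Fin l.length × ι × ι => W p.1 p.2.1 p.2.2).mapMatrix (G i) =
        W i := fun i => by
      ext a b
      simp [G]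
    rw [h2, h2, List.map_ofFn (f := fun i => ((l.get i).1, G i))
      (g := fun p => (p.1, RingHom.mapMatrix _ p.2))] at h1
    simp only [Function.comp_def, h3] at h1
    exact congrFun (congrFun h1 a) b
  have hn : ∀ {B : Type _} (W : Fin l.length → B),
      nC (List.ofFn fun i => ((l.get i).1, W i)) = nC l := by
    intro B W
    have h1 : (List.ofFn fun i => ((l.get i).1, W i)).map (fun p => (p.1, ())) =
        l.map fun p => (p.1, ()) := by
      conv_rhs => rw [← List.ofFn_get l]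
      rw [List.map_ofFn, List.map_ofFn]
      rfl
    rw [← ge_nC_map (fun _ => ()), h1, ge_nC_map (fun _ => ())]
  have h1 := eng_polar (Submodule.span ℚ (logs ρ N)) F (fun z hz c => ?_) (fun i => (l.get i).2)
    fun i => hl _ (List.get_mem _ _)
  · rw [hF fun i => (l.get i).2] at h1
    rw [List.ofFn_get] at h1
    exact h1
  · rw [hF fun i => ∑ j, c i j • z j]
    have h2 := mem_geI.1 (he (geW_pow _ _ _ M e
      (List.ofFn fun i => ((l.get i).1, ∑ j, c i j • geT ι (Sum.inr j)))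
      (fun p hp => by
        obtain ⟨i, rfl⟩ := List.mem_ofFn.1 hp
        intro z hz
        rw [geEv_sum]
        exact Submodule.sum_mem _ fun j _ => Submodule.smul_mem _ _ (hz j))
      (by rw [hn]; exact hm) a b)) z hz
    have h3 := ge_map_word (geEv (ρ g) (ρ g⁻¹) z).mapMatrix (geT ι (Sum.inl true))
      (geT ι (Sum.inl false)) (List.ofFn fun i => ((l.get i).1, ∑ j, c i j • geT ι (Sum.inr j)))
    rw [List.map_ofFn (f := fun i => ((l.get i).1, ∑ j, c i j • geT ι (Sum.inr j)))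
      (g := fun p => (p.1, RingHom.mapMatrix _ p.2))] at h3
    simp only [Function.comp_def, RingHom.mapMatrix_apply, geEv_sum, geEv_true, geEv_false] at h3
    rw [← h3]
    exact h2

end Pool.Agent.Lib.MP_b39e30_al.Lin
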