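import Pool.Agent.Lib.MP_b39e30_al.Lin.GDefs
import Pool.Agent.Lib.MP_b39e30_al.Lin.GLogs
import Pool.Agent.Lib.MP_b39e30_al.Lin.Setup

set_option autoImplicit false

namespace Pool.Agent.Lib.MP_b39e30_al.Lin

section filt

variable {A : Type*} [Ring A] [Algebra ℚ A] {g g' : A} {L : Submodule ℚ A}

/-- Weighted letters. -/
def FiltL (g g' : A) (L : Submodule ℚ A) (i : ℕ) (x : A) : Prop :=
  (i = 0 ∧ (x = g ∨ x = g')) ∨ ∃ W ∈ L, x = (fun Z => g' * Z * g - Z)^[i] W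

/-- Weighted words. -/
inductive FiltW (g g' : A) (L : Submodule ℚ A) : ℕ → A → Prop
  | one : FiltW g g' L 0 1
  | cons {i w : ℕ} {x a : A} : FiltL g g' L i x → FiltW g g' L w a → FiltW g g' L (i + w) (x * a)

/-- The span of the words of weight at least `w`. -/
def filtS (g g' : A) (L : Submodule ℚ A) (w : ℕ) : Submodule ℚ A :=
  Submodule.span ℚ {a | ∃ v, w ≤ v ∧ FiltW g g' L v a}

theorem FiltW.mul {v w : ℕ} {a b : A} (ha : FiltW g g' L v a) (hb : FiltW g g' L w b) :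
    FiltW g g' L (v + w) (a * b) := by
  induction ha with
  | one => simpa using hb
  | cons hx _ ih => rw [add_assoc, mul_assoc]; exact .cons hx ih

theorem FiltW.mem {v : ℕ} {a : A} (ha : FiltW g g' L v a) : a ∈ filtS g g' L v :=
  Submodule.subset_span ⟨v, le_rfl, ha⟩

theorem FiltL.mem {v : ℕ} {a : A} (ha : FiltL g g' L v a) : a ∈ filtS g g' L v := by
  simpa using (FiltW.cons ha .one).mem

theorem filt_anti : Antitone (filtS g g' L) := fun _ _ h =>
  Submodule.span_mono fun _ ⟨v, h1, h2⟩ => ⟨v, h.trans h1, h2⟩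

theorem filt_mul {v w : ℕ} {a b : A} (ha : a ∈ filtS g g' L v) (hb : b ∈ filtS g g' L w) :
    a * b ∈ filtS g g' L (v + w) := by
  have h := Submodule.mul_mem_mul ha hb
  rw [filtS, filtS, Submodule.span_mul_span] at h
  refine Submodule.span_mono ?_ h
  rintro _ ⟨x, ⟨i, h1, h2⟩, y, ⟨j, h3, h4⟩, rfl⟩
  exact ⟨i + j, add_le_add h1 h3, h2.mul h4⟩

theorem FiltL.ad (h1 : g' * g = 1) (hL : ∀ W ∈ L, g' * W * g ∈ L) {i : ℕ} {x : A}
    (hx : FiltL g g' L i x) : FiltL g g' L i (g' * x * g) := by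
  rcases hx with ⟨hi, rfl | rfl⟩ | ⟨W, hW, rfl⟩
  · exact Or.inl ⟨hi, Or.inl (by rw [h1, one_mul])⟩
  · exact Or.inl ⟨hi, Or.inr (by rw [mul_assoc, h1, mul_one])⟩
  · have hc : Function.Commute (fun Z => g' * Z * g) fun Z => g' * Z * g - Z := fun Z => by
      simp only [mul_sub, sub_mul]
    exact Or.inr ⟨_, hL W hW, hc.iterate_right i W⟩

theorem FiltW.ad (h1 : g' * g = 1) (h2 : g * g' = 1) (hL : ∀ W ∈ L, g' * W * g ∈ L) {w : ℕ}
    {a : A} (ha : FiltW g g' L w a) : FiltW g g' L w (g' * a * g) := by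
  induction ha with
  | one => rw [mul_one, h1]; exact .one
  | @cons i w x a hx _ ih =>
    have e : g' * (x * a) * g = g' * x * g * (g' * a * g) := by
      calc g' * (x * a) * g = g' * x * (g * g') * a * g := by rw [h2, mul_one, mul_assoc g' x a]
        _ = _ := by simp only [mul_assoc]
    rw [e]
    exact .cons (hx.ad h1 hL) ih

theorem FiltL.step (h1 : g' * g = 1) {i : ℕ} {x : A} (hx : FiltL g g' L i x) :
    g' * x * g - x ∈ filtS g g' L (i + 1) := by
  rcases hx with ⟨-, rfl | rfl⟩ | ⟨W, hW, rfl⟩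
  · rw [h1, one_mul, sub_self]; exact zero_mem _
  · rw [mul_assoc, h1, mul_one, sub_self]; exact zero_mem _
  · exact FiltL.mem (Or.inr ⟨W, hW, by rw [Function.iterate_succ_apply']⟩)

theorem FiltW.step (h1 : g' * g = 1) (h2 : g * g' = 1) (hL : ∀ W ∈ L, g' * W * g ∈ L) {w : ℕ}
    {a : A} (ha : FiltW g g' L w a) : g' * a * g - a ∈ filtS g g' L (w + 1) := by
  induction ha with
  | one => rw [mul_one, h1, sub_self]; exact zero_mem _
  | @cons i w x a hx ha ih =>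
    have e : g' * (x * a) * g - x * a
        = (g' * x * g - x) * (g' * a * g) + x * (g' * a * g - a) := by
      have e1 : g' * (x * a) * g = g' * x * g * (g' * a * g) := by
        calc g' * (x * a) * g = g' * x * (g * g') * a * g := by rw [h2, mul_one, mul_assoc g' x a]
          _ = _ := by simp only [mul_assoc]
      rw [e1, sub_mul, mul_sub, sub_add_sub_cancel]
    rw [e]
    refine add_mem ?_ (by rw [add_assoc]; exact filt_mul hx.mem ih)
    rw [add_right_comm]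
    exact filt_mul (hx.step h1) (ha.ad h1 h2 hL).mem

theorem FiltW.list (h1 : g' * g = 1) (hL : ∀ W ∈ L, g' * W * g ∈ L) {n : ℕ}
    (hu : ∀ W ∈ L, (fun Z => g' * Z * g - Z)^[n] W = 0) {w : ℕ} {a : A}
    (ha : FiltW g g' L w a) : a = 0 ∨ ∃ l : List (Fin 4 × A), (∀ p ∈ l, p.2 ∈ L) ∧
      w ≤ n * nC l ∧ (l.map (letter g g')).prod = a := by
  have hT : ∀ i, ∀ W ∈ L, (fun Z => g' * Z * g - Z)^[i] W ∈ L := fun i W hW => by
    induction i with
    | zero => exact hW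
    | succ i ih => rw [Function.iterate_succ_apply']; exact sub_mem (hL _ ih) ih
  induction ha with
  | one => exact Or.inr ⟨[], by simp, by simp, by simp⟩
  | @cons i w x a hx _ ih =>
    rcases ih with rfl | ⟨l, k1, k2, rfl⟩
    · exact Or.inl (mul_zero _)
    rcases hx with ⟨rfl, rfl | rfl⟩ | ⟨W, hW, rfl⟩
    · exact Or.inr ⟨(2, 0) :: l, List.forall_mem_cons.2 ⟨zero_mem _, k1⟩,
        by simpa [nC] using k2, by simp [letter]⟩
    · exact Or.inr ⟨(3, 0) :: l, List.forall_mem_cons.2 ⟨zero_mem _, k1⟩,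
        by simpa [nC] using k2, by simp [letter]⟩
    rcases le_or_gt n i with h | h
    · obtain ⟨j, rfl⟩ := Nat.exists_eq_add_of_le h
      rw [Function.iterate_add_apply, hu _ (hT j W hW), zero_mul]
      exact Or.inl rfl
    rcases i with _ | i
    · exact Or.inr ⟨(0, W) :: l, List.forall_mem_cons.2 ⟨hW, k1⟩,
        by simpa [nC] using k2, by simp [letter]⟩
    refine Or.inr ⟨(3, 0) :: (1, -(fun Z => g' * Z * g - Z)^[i] W) :: l,
      List.forall_mem_cons.2 ⟨zero_mem _, List.forall_mem_cons.2 ⟨neg_mem (hT i W hW), k1⟩⟩,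
      ?_, ?_⟩
    · have e : ∀ Y : A, nC (((3 : Fin 4), (0 : A)) :: (1, Y) :: l) = nC l + 1 := fun Y => by
        simp [nC]
      rw [e, mul_add, mul_one]
      omega
    · rw [Function.iterate_succ_apply']
      generalize (fun Z => g' * Z * g - Z)^[i] W = Y
      have e : g' * (g * -Y - -Y * g) = g' * Y * g - Y := by
        rw [mul_sub, ← mul_assoc, h1, one_mul, neg_mul, mul_neg, mul_assoc]
        abel
      rw [List.map_cons, List.map_cons, List.prod_cons, List.prod_cons, ← mul_assoc, ← e]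
      rfl

end filt

/-- The weight filtration. -/
theorem filt {Γ A : Type*} [Group Γ] [Ring A] [Algebra ℚ A] (ρ : Γ →* A) (g : Γ)
    (N : Subgroup Γ) [N.Normal] (hN : ∀ w ∈ N, IsNilpotent (ρ w - 1)) {n m : ℕ}
    (hu : ∀ W ∈ Submodule.span ℚ (logs ρ N), (fun Z => ρ g⁻¹ * Z * ρ g - Z)^[n] W = 0)
    (hm : ∀ l : List (Fin 4 × A), (∀ p ∈ l, p.2 ∈ Submodule.span ℚ (logs ρ N)) → m ≤ nC l →
      (l.map (letter (ρ g) (ρ g⁻¹))).prod = 0) :
    ∃ (J : ℕ → AddSubgroup A) (M : ℕ), Antitone J ∧ (∀ h ∈ Subgroup.zpowers g ⊔ N, ρ h ∈ J 0) ∧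
      (∀ w, ∀ a ∈ J 0, ∀ b ∈ J w, a * b ∈ J w ∧ b * a ∈ J w) ∧
      (∀ w, ∀ b ∈ J w, ρ g⁻¹ * b * ρ g - b ∈ J (w + 1)) ∧ J M = ⊥ := by
  set L := Submodule.span ℚ (logs ρ N) with hLd
  have h1 : ρ g⁻¹ * ρ g = 1 := by rw [← map_mul, inv_mul_cancel, map_one]
  have h2 : ρ g * ρ g⁻¹ = 1 := by rw [← map_mul, mul_inv_cancel, map_one]
  have hL : ∀ W ∈ L, ρ g⁻¹ * W * ρ g ∈ L := fun W hW => by
    simpa only [inv_inv] using logs_conj ρ N g⁻¹ W hW
  have hN' : ∀ w ∈ N, ρ w ∈ filtS (ρ g) (ρ g⁻¹) L 0 := fun w hw => by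
    obtain ⟨k, X, hk, hX⟩ := setup_log (hN w hw)
    rw [add_sub_cancel] at hX
    have h3 : X ∈ L := Submodule.subset_span ⟨⟨k, hk⟩, w, hw, by rw [← hX, E_eq_exp hk]⟩
    have h4 : X ∈ filtS (ρ g) (ρ g⁻¹) L 0 := FiltL.mem (Or.inr ⟨X, h3, rfl⟩)
    have h5 : ∀ i : ℕ, X ^ i ∈ filtS (ρ g) (ρ g⁻¹) L 0 := fun i => by
      induction i with
      | zero => rw [pow_zero]; exact FiltW.one.mem
      | succ i ih => rw [pow_succ]; exact filt_mul (v := 0) (w := 0) ih h4
    rw [← hX]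
    exact Submodule.sum_mem _ fun i _ => Submodule.smul_mem _ _ (h5 i)
  let K : Subgroup Γ :=
    { carrier := {h | ρ h ∈ filtS (ρ g) (ρ g⁻¹) L 0 ∧ ρ h⁻¹ ∈ filtS (ρ g) (ρ g⁻¹) L 0}
      one_mem' := by
        refine ⟨?_, ?_⟩ <;> simp only [inv_one, map_one] <;> exact FiltW.one.mem
      mul_mem' := fun {a b} ha hb =>
        ⟨by rw [map_mul]; exact filt_mul (v := 0) (w := 0) ha.1 hb.1,
          by rw [mul_inv_rev, map_mul]; exact filt_mul (v := 0) (w := 0) hb.2 ha.2⟩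
      inv_mem' := fun {a} ha => ⟨ha.2, by rw [inv_inv]; exact ha.1⟩ }
  have hK : Subgroup.zpowers g ⊔ N ≤ K := sup_le
    (Subgroup.zpowers_le_of_mem ⟨FiltL.mem (Or.inl ⟨rfl, Or.inl rfl⟩),
      FiltL.mem (Or.inl ⟨rfl, Or.inr rfl⟩)⟩) fun w hw => ⟨hN' w hw, hN' _ (N.inv_mem hw)⟩
  refine ⟨fun w => (filtS (ρ g) (ρ g⁻¹) L w).toAddSubgroup, m * n + 1,
    fun _ _ h _ hx => filt_anti h hx, fun h hh => (hK hh).1, fun w a ha b hb =>
      ⟨by simpa using filt_mul (v := 0) (w := w) ha hb, filt_mul (v := w) (w := 0) hb ha⟩, fun w b hb => ?_, ?_⟩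
  · change b ∈ filtS (ρ g) (ρ g⁻¹) L w at hb
    change _ ∈ filtS (ρ g) (ρ g⁻¹) L (w + 1)
    induction hb using Submodule.span_induction with
    | mem a ha =>
      obtain ⟨v, h3, h4⟩ := ha
      exact filt_anti (Nat.succ_le_succ h3) (h4.step h1 h2 hL)
    | zero => simp
    | add a b _ _ ha hb =>
      rw [mul_add, add_mul, add_sub_add_comm]
      exact add_mem ha hb
    | smul c a _ ha =>
      rw [mul_smul_comm, smul_mul_assoc, ← smul_sub]
      exact Submodule.smul_mem _ c ha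
  · have h3 : filtS (ρ g) (ρ g⁻¹) L (m * n + 1) = ⊥ := by
      refine Submodule.span_eq_bot.2 ?_
      rintro a ⟨v, h4, h5⟩
      rcases h5.list h1 hL hu with h | ⟨l, k1, k2, rfl⟩
      · exact h
      refine hm l k1 (le_of_not_gt fun h => ?_)
      have := Nat.mul_le_mul_left n h.le
      rw [mul_comm m n] at h4
      omega
    show (filtS (ρ g) (ρ g⁻¹) L (m * n + 1)).toAddSubgroup = ⊥
    rw [h3]
    rfl

end Pool.Agent.Lib.MP_b39e30_al.Lin
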