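import Pool.Agent.Lib.MP_b39e30_al.Lin.GDefs

set_option autoImplicit false

namespace Pool.Agent.Lib.MP_b39e30_al.Lin

variable {Γ : Type*} [Group Γ]

theorem gcm_lcs (g : Γ) (f : ℕ → Γ) (e : ℕ) :
    zw g f e ∈ (Subgroup.normalClosure ({g} : Set Γ)).lowerCentralSeries e := by
  have h0 : ∀ x : Γ, x⁻¹ * g * x ∈ Subgroup.normalClosure ({g} : Set Γ) := fun x =>
    Subgroup.normalClosure_normal.conj_mem' g
      (Subgroup.subset_normalClosure (Set.mem_singleton g)) x
  induction e with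
  | zero => exact h0 _
  | succ e ih =>
    have h1 := Subgroup.commutator_mem_commutator (inv_mem ih) (inv_mem (h0 (f (e + 1))))
    rwa [commutatorElement_def, inv_inv, inv_inv] at h1

theorem zw_of_nilpotent {g : Γ} (h : Group.IsNilpotent (Subgroup.normalClosure ({g} : Set Γ))) :
    ∃ e, ∀ f : ℕ → Γ, zw g f e = 1 := by
  obtain ⟨e, he⟩ := (Subgroup.isNilpotent_iff_lowerCentralSeries _).1 h
  exact ⟨e, fun f => Subgroup.mem_bot.1 (he ▸ gcm_lcs g f e)⟩

theorem zw_mono {g : Γ} {f : ℕ → Γ} {e e' : ℕ} (h : zw g f e = 1) (he : e ≤ e') :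
    zw g f e' = 1 := by
  induction e', he using Nat.le_induction with
  | base => exact h
  | succ k _ ih => rw [zw, ih, inv_one, one_mul, mul_one, inv_mul_cancel]

theorem gcm_conj (g x : Γ) (f : ℕ → Γ) (e : ℕ) :
    x⁻¹ * zw g f e * x = zw g (fun i => f i * x) e := by
  induction e with
  | zero =>
    simp only [zw]
    group
  | succ e ih =>
    simp only [zw, ← ih]
    group

theorem gcm_congr (g : Γ) {f f' : ℕ → Γ} {e : ℕ} (h : ∀ i ≤ e, f i = f' i) :
    zw g f e = zw g f' e := by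
  induction e with
  | zero => rw [zw, zw, h 0 le_rfl]
  | succ e ih => rw [zw, zw, ih fun i hi => h i (hi.trans e.le_succ), h _ le_rfl]

theorem gcm_mem (g : Γ) (f : ℕ → Γ) (e : ℕ) : zw g f e ∈ ZN g e :=
  Subgroup.subset_closure ⟨f, rfl⟩

theorem ZN_normal (g : Γ) (e : ℕ) : (ZN g e).Normal := by
  refine ⟨fun n hn x => ?_⟩
  have h1 : ZN g e ≤ (ZN g e).comap (MulAut.conj x).toMonoidHom := by
    refine (Subgroup.closure_le _).2 ?_
    rintro _ ⟨f, rfl⟩
    have h2 := gcm_mem g (fun i => f i * x⁻¹) e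
    rwa [← gcm_conj, inv_inv] at h2
  exact h1 hn

theorem gcm_succ (g : Γ) (e : ℕ) : ZN g (e + 1) ≤ ZN g e := by
  refine (Subgroup.closure_le _).2 ?_
  rintro _ ⟨f, rfl⟩
  have h1 := mul_mem (inv_mem (gcm_mem g f e))
    ((ZN_normal g e).conj_mem' _ (gcm_mem g f e) ((f (e + 1))⁻¹ * g * f (e + 1)))
  simpa only [zw, mul_assoc, SetLike.mem_coe] using h1

theorem gcm_anti (g : Γ) {e e' : ℕ} (he : e ≤ e') : ZN g e' ≤ ZN g e :=
  antitone_nat_of_succ_le (gcm_succ g) he

theorem gcm_cent (g : Γ) (e : ℕ) {w : Γ} (hw : w ∈ ZN g e) :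
    g⁻¹ * (w * g * w⁻¹) ∈ ZN g (e + 1) := by
  have := ZN_normal g (e + 1)
  have h1 : ZN g e ≤ (Subgroup.centralizer {(g : Γ ⧸ ZN g (e + 1))}).comap
      (QuotientGroup.mk' (ZN g (e + 1))) := by
    refine (Subgroup.closure_le _).2 ?_
    rintro _ ⟨f, rfl⟩ _ rfl
    have h2 := gcm_mem g (Function.update f (e + 1) 1) (e + 1)
    rw [zw, Function.update_self, gcm_congr g (f' := f) fun i hi =>
      Function.update_of_ne (by omega) _ _] at h2
    rw [QuotientGroup.mk'_apply, ← QuotientGroup.mk_mul, ← QuotientGroup.mk_mul, QuotientGroup.eq]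
    simpa only [mul_inv_rev, inv_one, one_mul, mul_one, mul_assoc] using h2
  have h3 : (g : Γ ⧸ ZN g (e + 1)) * w = w * g := h1 hw _ rfl
  rw [← QuotientGroup.eq, QuotientGroup.mk_mul, QuotientGroup.mk_mul, ← h3, QuotientGroup.mk_inv,
    mul_inv_cancel_right]

theorem ZN_subnormal (g : Γ) (e : ℕ) : (Subgroup.zpowers g ⊔ ZN g e).IsSubnormal := by
  induction e with
  | zero =>
    have h1 : g ∈ ZN g 0 := by simpa [zw] using gcm_mem g (fun _ => 1) 0
    rw [sup_eq_right.2 ((Subgroup.zpowers_le).2 h1)]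
    exact (ZN_normal g 0).isSubnormal
  | succ e ih =>
    have hle : Subgroup.zpowers g ⊔ ZN g (e + 1) ≤ Subgroup.zpowers g ⊔ ZN g e :=
      sup_le_sup_left (gcm_succ g e) _
    have key : ∀ w ∈ ZN g e, Subgroup.zpowers g ⊔ ZN g (e + 1) ≤
        (Subgroup.zpowers g ⊔ ZN g (e + 1)).comap (MulAut.conj w).toMonoidHom := fun w hw => by
      refine sup_le ((Subgroup.zpowers_le).2 ?_) fun n hn =>
        Subgroup.mem_sup_right ((ZN_normal g (e + 1)).conj_mem n hn w)
      have h1 := Subgroup.mul_mem_sup (Subgroup.mem_zpowers g) (gcm_cent g e hw)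
      rwa [mul_inv_cancel_left] at h1
    refine Subgroup.IsSubnormal.step _ _ hle ih
      ((Subgroup.normal_subgroupOf_iff_le_normalizer hle).2
        (sup_le (le_sup_left.trans Subgroup.le_normalizer) fun w hw =>
          Subgroup.mem_normalizer_iff.2 fun x => ⟨fun hx => key w hw hx, fun hx => ?_⟩))
    have h2 : w⁻¹ * (w * x * w⁻¹) * w⁻¹⁻¹ ∈ Subgroup.zpowers g ⊔ ZN g (e + 1) :=
      key w⁻¹ (inv_mem hw) hx
    simpa [mul_assoc] using h2

theorem gcm_prod {A : Type*} [Ring A] {T : Set A} (d : ℕ) (p : A)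
    (h : ∀ a : Fin d → A, (∀ i, a i ∈ T) → p * (List.ofFn a).prod = 0) (a : Fin d → A)
    (ha : ∀ i, a i ∈ AddSubgroup.closure T) : p * (List.ofFn a).prod = 0 := by
  induction d generalizing p with
  | zero => exact h a fun i => i.elim0
  | succ d ih =>
    rw [List.ofFn_succ, List.prod_cons]
    have key : ∀ t ∈ AddSubgroup.closure T,
        p * (t * (List.ofFn fun i : Fin d => a i.succ).prod) = 0 := fun t ht => by
      induction ht using AddSubgroup.closure_induction with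
      | mem t ht =>
        rw [← mul_assoc]
        refine ih (p * t) (fun b hb => ?_) _ fun i => ha _
        have h1 := h (Fin.cons t b) (Fin.cases ht hb)
        rwa [List.ofFn_succ, List.prod_cons, ← mul_assoc] at h1
      | zero => rw [zero_mul, mul_zero]
      | add s t _ _ h1 h2 => rw [add_mul, mul_add, h1, h2, add_zero]
      | neg s _ h1 => rw [neg_mul, mul_neg, h1, neg_zero]
    exact key _ (ha 0)

theorem gcm_span {A : Type*} [Ring A] (ρ : Γ →* A) (g : Γ) (e : ℕ) {w : Γ} (hw : w ∈ ZN g e)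
    (u : Γ) : ρ u * (ρ w - 1) ∈
      AddSubgroup.closure {a : A | ∃ u f, a = ρ u * (ρ (zw g f e) - 1)} := by
  induction hw using Subgroup.closure_induction generalizing u with
  | mem z hz =>
    obtain ⟨f, rfl⟩ := hz
    exact AddSubgroup.subset_closure ⟨u, f, rfl⟩
  | one => simp
  | mul a b _ _ h1 h2 =>
    have h3 : ρ u * (ρ (a * b) - 1) = ρ (u * a) * (ρ b - 1) + ρ u * (ρ a - 1) := by
      simp only [map_mul]
      noncomm_ring
    rw [h3]
    exact add_mem (h2 _) (h1 _)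
  | inv a _ h1 =>
    have h3 : ρ u * (ρ a⁻¹ - 1) = -(ρ (u * a⁻¹) * (ρ a - 1)) := by
      rw [mul_sub, mul_sub, ← map_mul, ← map_mul, inv_mul_cancel_right, mul_one, mul_one, neg_sub]
    rw [h3]
    exact neg_mem (h1 _)

theorem gcm_all {A : Type*} [Ring A] {ρ : Γ →* A} {g : Γ} {e d : ℕ} (h : PP ρ g e d)
    (u w : Fin d → Γ) (hw : ∀ i, w i ∈ ZN g e) :
    (List.ofFn fun i => ρ (u i) * (ρ (w i) - 1)).prod = 0 := by
  have h1 := gcm_prod (T := {a : A | ∃ u f, a = ρ u * (ρ (zw g f e) - 1)}) d 1 (fun a ha => ?_) _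
    fun i => gcm_span ρ g e (hw i) (u i)
  · rwa [one_mul] at h1
  · choose u f hf using ha
    rw [one_mul, funext hf]
    exact h u f

theorem PP.mono {A : Type*} [Ring A] {ρ : Γ →* A} {g : Γ} {e e' d : ℕ} (h : PP ρ g e d)
    (he : e ≤ e') : PP ρ g e' d := by
  exact fun u f => gcm_all h u _ fun i => gcm_anti g he (gcm_mem g (f i) e')

theorem PP.pow {A : Type*} [Ring A] {ρ : Γ →* A} {g : Γ} {e d : ℕ} (h : PP ρ g e d) :
    ∀ w ∈ ZN g e, (ρ w - 1) ^ d = 0 := by
  intro w hw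
  have h1 := gcm_all h (fun _ => 1) (fun _ => w) fun _ => hw
  rwa [List.ofFn_const, List.prod_replicate, map_one, one_mul] at h1

end Pool.Agent.Lib.MP_b39e30_al.Lin
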