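import Pool.Agent.Lib.MP_b39e30_al.Lin.GDefs

set_option autoImplicit false

namespace Pool.Agent.Lib.MP_b39e30_al.Lin

open Subgroup
open scoped commutatorElement

section Ext

variable {H : Type*} [Group H]

/-- The upper central series. -/
abbrev baerU (H : Type*) [Group H] (k : ℕ) : Subgroup H := Subgroup.upperCentralSeries H k

/-- The elements that commute with `z` modulo `N`. -/
def baerK (N : Subgroup H) [hN : N.Normal] (z : H) : Subgroup H where
  carrier := {y | z * y * z⁻¹ * y⁻¹ ∈ N}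
  one_mem' := by simp
  mul_mem' := fun {a b} ha hb => by
    have e : z * (a * b) * z⁻¹ * (a * b)⁻¹ =
        z * a * z⁻¹ * a⁻¹ * (a * (z * b * z⁻¹ * b⁻¹) * a⁻¹) := by group
    rw [Set.mem_ofPred_eq, e]
    exact N.mul_mem ha (hN.conj_mem _ hb a)
  inv_mem' := fun {a} ha => by
    have e : z * a⁻¹ * z⁻¹ * a⁻¹⁻¹ = a⁻¹ * (z * a * z⁻¹ * a⁻¹)⁻¹ * a⁻¹⁻¹ := by group
    rw [Set.mem_ofPred_eq, e]
    exact hN.conj_mem _ (N.inv_mem ha) _

lemma baer_up {M : Subgroup H} {t : H} (hg : ∀ K : Subgroup H, M ≤ K → t ∈ K → K = ⊤) {k : ℕ}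
    {z : H} (h1 : ∀ m ∈ M, z * m * z⁻¹ * m⁻¹ ∈ baerU H k)
    (h2 : z⁻¹ * t⁻¹ * z * t ∈ baerU H k) : z ∈ baerU H (k + 1) := by
  have h3 : t ∈ baerK (baerU H k) z := by
    have e : z * t * z⁻¹ * t⁻¹ = z * t * (z⁻¹ * t⁻¹ * z * t) * (z * t)⁻¹ := by group
    change z * t * z⁻¹ * t⁻¹ ∈ baerU H k
    rw [e]
    exact Normal.conj_mem inferInstance _ h2 _
  have h4 := hg (baerK (baerU H k) z) h1 h3
  refine Subgroup.mem_upperCentralSeries_succ_iff.2 fun y => ?_
  have h5 : y ∈ baerK (baerU H k) z := h4 ▸ mem_top y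
  exact h5

lemma baer_step {M : Subgroup H} {t : H} (hg : ∀ K : Subgroup H, M ≤ K → t ∈ K → K = ⊤) {k : ℕ}
    {B : Subgroup H} [hB : B.Normal]
    (h : ∀ z ∈ B, ∀ m ∈ M, z * m * z⁻¹ * m⁻¹ ∈ baerU H k) (j : ℕ) :
    ∀ z ∈ B, (fun y => y⁻¹ * t⁻¹ * y * t)^[j] z = 1 → z ∈ baerU H (k + j) := by
  induction j with
  | zero =>
    intro z _ e
    rw [show z = 1 from e]
    exact one_mem _
  | succ j ih =>
    intro z hz e
    rw [Function.iterate_succ_apply] at e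
    refine baer_up hg (fun m hm => Subgroup.upperCentralSeries_mono H (Nat.le_add_right k j)
      (h z hz m hm)) (ih _ ?_ e)
    have e1 : z⁻¹ * t⁻¹ * z * t = z⁻¹ * (t⁻¹ * z * t⁻¹⁻¹) := by group
    rw [e1]
    exact B.mul_mem (B.inv_mem hz) (hB.conj_mem _ hz _)

lemma baer_ext {M : Subgroup H} [hM : M.Normal] {t : H} {n c : ℕ} (hE : Eng n t)
    (hg : ∀ K : Subgroup H, M ≤ K → t ∈ K → K = ⊤) (hc : M.lowerCentralSeries c = ⊥) :
    Group.IsNilpotent H := by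
  have key : ∀ i d, M.lowerCentralSeries (d + i) = ⊥ →
      ∃ k, M.lowerCentralSeries d ≤ baerU H k := fun i => by
    induction i with
    | zero => exact fun d e => ⟨0, e.le⟩
    | succ i ih =>
      intro d e
      obtain ⟨k, hk⟩ := ih (d + 1) (by rwa [Nat.add_right_comm, Nat.add_assoc])
      exact ⟨k + n, fun z hz => baer_step hg
        (fun z hz m hm => hk (commutator_mem_commutator hz hm)) n z hz (hE z)⟩
  obtain ⟨k, hk⟩ := key c 0 (by rwa [Nat.zero_add])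
  refine ⟨k + 1, hg _ (hk.trans (Subgroup.upperCentralSeries_mono H k.le_succ)) (baer_up hg
    (fun m hm => hk (M.mul_mem (hM.conj_mem _ hm _) (M.inv_mem hm))) ?_)⟩
  rw [inv_mul_cancel_right, inv_mul_cancel]
  exact one_mem _

end Ext

variable {Γ : Type*} [Group Γ]

lemma baer_nrm {T : Set Γ} {t : Γ} (ht : t ∈ normalizer T) :
    t ∈ normalizer ((closure T : Subgroup Γ) : Set Γ) := by
  have key : ∀ x ∈ normalizer T, ∀ a ∈ closure T, x * a * x⁻¹ ∈ closure T := fun x hx a ha => by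
    have h : closure T ≤ (closure T).comap (MulAut.conj x).toMonoidHom :=
      (closure_le _).2 fun b hb => subset_closure ((mem_set_normalizer_iff.1 hx b).1 hb)
    exact h ha
  refine mem_set_normalizer_iff.2 fun a => ⟨key t ht a, fun h => ?_⟩
  have h1 := key _ (inv_mem ht) _ h
  rwa [show t⁻¹ * (t * a * t⁻¹) * t⁻¹⁻¹ = a by group] at h1

lemma baer_L1 {T : Set Γ} {t : Γ} {n : ℕ} (hE : Eng n t) (ht : t ∈ normalizer T)
    (hT : Group.IsNilpotent (closure T)) : Group.IsNilpotent (closure (insert t T)) := by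
  obtain ⟨c, hc⟩ := (isNilpotent_iff_lowerCentralSeries _).1 hT
  have hle : closure T ≤ closure (insert t T) := closure_mono (Set.subset_insert t T)
  have hn : ((closure T).subgroupOf (closure (insert t T))).Normal := by
    refine (normal_subgroupOf_iff_le_normalizer hle).2 ((closure_le _).2 ?_)
    rintro x (rfl | hx)
    · exact baer_nrm ht
    · exact le_normalizer (subset_closure hx)
  refine baer_ext (M := (closure T).subgroupOf (closure (insert t T))) (n := n) (c := c)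
    (t := ⟨t, subset_closure (Set.mem_insert t T)⟩) (fun x => Subtype.ext ?_) (fun K h1 h2 => ?_) ?_
  · have h1 : Function.Semiconj (Subtype.val : closure (insert t T) → Γ)
        (fun y => y⁻¹ * (⟨t, subset_closure (Set.mem_insert t T)⟩ : closure (insert t T))⁻¹ * y *
          ⟨t, subset_closure (Set.mem_insert t T)⟩) (fun y => y⁻¹ * t⁻¹ * y * t) := fun y => rfl
    rw [h1.iterate_right n x]
    exact hE x
  · rw [eq_top_iff, ← closure_closure_coe_preimage, closure_le]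
    rintro ⟨x, hx⟩ (h | h)
    · obtain rfl : x = t := h
      exact h2
    · exact h1 (subset_closure h)
  · rw [← map_subtype_inj, Subgroup.map_bot, map_lowerCentralSeries,
      map_subgroupOf_eq_of_le hle, hc]

lemma baer_L2 {S T : Set Γ} (hS : ∀ s ∈ S, ∀ x, x * s * x⁻¹ ∈ S) {M : Subgroup Γ}
    (hM : Group.IsNilpotent M) (hTS : T ⊆ S) (hTM : T ⊆ M)
    (hT : ∀ s ∈ S, s ∈ closure T → s ∈ T) {s0 : Γ} (h0 : s0 ∈ S) (h1 : s0 ∈ M) (h2 : s0 ∉ T) :
    ∃ s ∈ S, s ∈ M ∧ s ∉ T ∧ s ∈ normalizer T := by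
  obtain ⟨c, hc⟩ := (isNilpotent_iff_lowerCentralSeries _).1 hM
  have hD : closure T ≤ M := (closure_le _).2 hTM
  by_contra hno
  have step : ∀ j, (∀ s ∈ S, ∀ d ∈ closure T, d⁻¹ * s ∈ M.lowerCentralSeries (j + 1) → s ∈ T) →
      ∀ s ∈ S, ∀ d ∈ closure T, d⁻¹ * s ∈ M.lowerCentralSeries j → s ∈ T := by
    intro j ih s hs d hd hb
    have key : ∀ b ∈ M.lowerCentralSeries j, ∀ e ∈ closure T, ∀ u ∈ S, u = b * e * b⁻¹ →
        u ∈ T := fun b hb e he u hu eu => by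
      refine ih u hu e he ?_
      have e1 : e⁻¹ * u = ⁅b, e⁻¹⁆⁻¹ := by rw [eu, commutatorElement_def]; group
      rw [e1]
      exact inv_mem (commutator_mem_commutator hb (inv_mem (hD he)))
    by_contra hsT
    refine hno ⟨s, hs, ?_, hsT, mem_set_normalizer_iff.2 fun a => ⟨fun ha => ?_, fun ha => ?_⟩⟩
    · have h3 := M.mul_mem (hD hd) (M.lowerCentralSeries_le_self j hb)
      rwa [mul_inv_cancel_left] at h3
    · refine key _ ((mem_set_normalizer_iff.1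
        (M.self_le_normalizer_lowerCentralSeries j (hD hd)) _).1 hb) (d * a * d⁻¹)
        (mul_mem (mul_mem hd (subset_closure ha)) (inv_mem hd)) _ (hS a (hTS ha) s) ?_
      group
    · have h3 := hS _ (hTS ha) s⁻¹
      rw [show s⁻¹ * (s * a * s⁻¹) * s⁻¹⁻¹ = a by group] at h3
      refine key _ (inv_mem hb) (d⁻¹ * (s * a * s⁻¹) * d)
        (mul_mem (mul_mem (inv_mem hd) (subset_closure ha)) hd) _ h3 ?_
      group
  have key : ∀ i j, M.lowerCentralSeries (j + i) = ⊥ →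
      ∀ s ∈ S, ∀ d ∈ closure T, d⁻¹ * s ∈ M.lowerCentralSeries j → s ∈ T := fun i => by
    induction i with
    | zero =>
      intro j e s hs d hd hb
      rw [Nat.add_zero] at e
      rw [e, mem_bot, inv_mul_eq_one] at hb
      exact hT s hs (hb ▸ hd)
    | succ i ih =>
      exact fun j e => step j (ih (j + 1) (by rwa [Nat.add_right_comm, Nat.add_assoc]))
  exact h2 (key c 0 (by rwa [Nat.zero_add]) s0 h0 1 (one_mem _) (by rwa [inv_one, one_mul]))

/-- Subsets of `S` that generate a nilpotent subgroup. -/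
def baerG (S T : Set Γ) : Prop := T ⊆ S ∧ Group.IsNilpotent (closure T)

lemma baer_img {S T : Set Γ} (hS : ∀ s ∈ S, ∀ x, x * s * x⁻¹ ∈ S) (h : baerG S T) (x : Γ) :
    baerG S ((fun a => x * a * x⁻¹) '' T) := by
  refine ⟨?_, ?_⟩
  · rintro _ ⟨a, ha, rfl⟩
    exact hS a (h.1 ha) x
  · obtain ⟨c, hc⟩ := (isNilpotent_iff_lowerCentralSeries _).1 h.2
    refine isNilpotent_of_lowerCentralSeries_eq_bot (n := c) ?_
    have e := MonoidHom.map_closure (MulAut.conj x).toMonoidHom T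
    have e1 : (MulAut.conj x).toMonoidHom '' T = (fun a => x * a * x⁻¹) '' T := rfl
    rw [← e1, ← e, ← map_lowerCentralSeries, hc, Subgroup.map_bot]

lemma baer_max_img {S T : Set Γ} (hS : ∀ s ∈ S, ∀ x, x * s * x⁻¹ ∈ S) (h : Maximal (baerG S) T)
    (x : Γ) : Maximal (baerG S) ((fun a => x * a * x⁻¹) '' T) := by
  refine ⟨baer_img hS h.1 x, fun T' h1 h2 a ha => ?_⟩
  have h3 : T ≤ (fun a => x⁻¹ * a * x⁻¹⁻¹) '' T' := fun b hb =>
    ⟨_, h2 ⟨b, hb, rfl⟩, by group⟩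
  exact ⟨_, h.2 (baer_img hS h1 x⁻¹) h3 ⟨a, ha, rfl⟩, by group⟩

lemma baer_max_mem {S T : Set Γ} (h : Maximal (baerG S) T) {s : Γ} (hs : s ∈ S)
    (h1 : s ∈ closure T) : s ∈ T := by
  have e : closure (insert s T) = closure T :=
    le_antisymm ((closure_le _).2 (Set.insert_subset h1 subset_closure))
      (closure_mono (Set.subset_insert s T))
  exact h.2 (y := insert s T) ⟨Set.insert_subset hs h.1.1, e ▸ h.1.2⟩ (Set.subset_insert s T)
    (Set.mem_insert s T)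

lemma baer_uniq {S : Set Γ} {n : ℕ} (hf : S.Finite) (hS : ∀ s ∈ S, ∀ x, x * s * x⁻¹ ∈ S)
    (hE : ∀ s ∈ S, Eng n s) {A B : Set Γ} (hA : Maximal (baerG S) A) (hB : Maximal (baerG S) B) :
    A = B := by
  by_contra hne
  have hfin : {T | ∃ A B, Maximal (baerG S) A ∧ Maximal (baerG S) B ∧ A ≠ B ∧ T ⊆ A ∧
      T ⊆ B}.Finite := hf.finite_subsets.subset fun T ⟨_, _, h, _, _, h1, _⟩ => h1.trans h.1.1
  obtain ⟨T, ⟨T1, T2, m1, m2, hne, t1, t2⟩, hmax⟩ := hfin.exists_maximal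
    ⟨∅, A, B, hA, hB, hne, Set.empty_subset _, Set.empty_subset _⟩
  have hins : ∀ A B, Maximal (baerG S) A → Maximal (baerG S) B → A ≠ B → T ⊆ A → T ⊆ B →
      ∀ a ∈ A, a ∈ B → a ∈ T := fun A B a1 a2 a3 a4 a5 a a6 a7 =>
    hmax (y := insert a T) ⟨A, B, a1, a2, a3, Set.insert_subset a6 a4, Set.insert_subset a7 a5⟩
      (Set.subset_insert a T) (Set.mem_insert a T)
  have hT : ∀ s ∈ S, s ∈ closure T → s ∈ T := fun s hs h =>
    hins T1 T2 m1 m2 hne t1 t2 s (baer_max_mem m1 hs (closure_mono t1 h))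
      (baer_max_mem m2 hs (closure_mono t2 h))
  have hex : ∀ A B, Maximal (baerG S) A → Maximal (baerG S) B → A ≠ B → T ⊆ A → T ⊆ B →
      ∃ s ∈ A, s ∉ T ∧ s ∈ normalizer T := fun A B a1 a2 a3 a4 a5 => by
    obtain ⟨s0, b1, b2⟩ := Set.not_subset.1 fun e : A ⊆ T => a3 (a1.eq_of_le a2.1 (e.trans a5))
    obtain ⟨s, c1, c2, c3, c4⟩ := baer_L2 hS a1.1.2 (a4.trans a1.1.1) (a4.trans subset_closure) hT
      (a1.1.1 b1) (subset_closure b1) b2
    exact ⟨s, baer_max_mem a1 c1 c2, c3, c4⟩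
  obtain ⟨s1, p1, p2, p3⟩ := hex T1 T2 m1 m2 hne t1 t2
  obtain ⟨s2, q1, q2, q3⟩ := hex T2 T1 m2 m1 hne.symm t2 t1
  have cl0 : ∀ x ∈ normalizer T, x * s1 * x⁻¹ ∈ T1 → x ∈ normalizer T1 := fun x hx h => by
    have e : T1 = (fun a => x * a * x⁻¹) '' T1 := by
      by_contra e
      refine p2 ((mem_set_normalizer_iff.1 hx s1).2 (hins _ _ m1 (baer_max_img hS m1 x) e t1
        (fun a ha => ⟨x⁻¹ * a * x, t1 ((mem_set_normalizer_iff''.1 hx a).1 ha), ?_⟩) _ h
        ⟨s1, p1, rfl⟩))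
      group
    refine mem_set_normalizer_iff.2 fun a => ⟨fun ha => e ▸ ⟨a, ha, rfl⟩, fun ha => ?_⟩
    rw [e] at ha
    obtain ⟨b, hb, e1⟩ := ha
    rwa [← mul_left_cancel (mul_right_cancel e1)]
  have cl1 : ∀ t ∈ S, t ∈ normalizer T1 → t ∈ T1 := fun t ht h =>
    m1.2 (y := insert t T1) ⟨Set.insert_subset ht m1.1.1, baer_L1 (hE t ht) h m1.1.2⟩
      (Set.subset_insert t T1) (Set.mem_insert t T1)
  have s1S := m1.1.1 p1
  have key : ∀ j, ∀ u ∈ normalizer T, (fun y => y⁻¹ * s1⁻¹ * y * s1)^[j] u = 1 →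
      u⁻¹ * s1 * u⁻¹⁻¹ ∈ T1 := fun j => by
    induction j with
    | zero =>
      intro u _ e
      rw [show u = 1 from e]
      simpa using p1
    | succ j ih =>
      intro u hu e
      rw [Function.iterate_succ_apply] at e
      have h1 := ih _ (mul_mem (mul_mem (mul_mem (inv_mem hu) (inv_mem p3)) hu) p3) e
      have h2 : u⁻¹ * s1 * u⁻¹⁻¹ ∈ normalizer T :=
        mul_mem (mul_mem (inv_mem hu) p3) (inv_mem (inv_mem hu))
      refine cl1 _ (hS _ s1S _) (cl0 _ h2 (baer_max_mem m1 (hS _ s1S _) ?_))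
      have h3 := mul_mem (mul_mem (subset_closure p1) (subset_closure h1))
        (inv_mem (subset_closure p1))
      convert h3 using 1
      group
  have h1 := cl0 _ (inv_mem q3) (key n s2 q3 (hE s1 s1S s2))
  exact q2 (hins T1 T2 m1 m2 hne t1 t2 s2 (cl1 s2 (m2.1.1 q1) (inv_mem_iff.1 h1)) q1)

/-- Baer's theorem for a bounded left Engel element with a finite conjugacy class. -/
theorem baer_finite {Γ : Type*} [Group Γ] {n : ℕ} {g : Γ} (h : Eng n g)
    (hf : {z | ∃ y : Γ, z = y⁻¹ * g * y}.Finite) :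
    Group.IsNilpotent (Subgroup.normalClosure ({g} : Set Γ)) := by
  have hS : ∀ s ∈ {z | ∃ y : Γ, z = y⁻¹ * g * y}, ∀ x,
      x * s * x⁻¹ ∈ {z | ∃ y : Γ, z = y⁻¹ * g * y} := by
    rintro _ ⟨y, rfl⟩ x
    exact ⟨y * x⁻¹, by group⟩
  have hE : ∀ s ∈ {z | ∃ y : Γ, z = y⁻¹ * g * y}, Eng n s := by
    rintro _ ⟨y, rfl⟩
    have h1 := h.map (MulAut.conj y⁻¹).toMonoidHom (MulAut.conj y⁻¹).surjective
    simpa using h1
  have hfin : {T | baerG {z | ∃ y : Γ, z = y⁻¹ * g * y} T}.Finite :=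
    hf.finite_subsets.subset fun T h => h.1
  have hex : ∀ s ∈ {z | ∃ y : Γ, z = y⁻¹ * g * y},
      ∃ T, s ∈ T ∧ Maximal (baerG {z | ∃ y : Γ, z = y⁻¹ * g * y}) T := fun s hs => by
    have h1 : Group.IsNilpotent (Subgroup.closure ({s} : Set Γ)) := by
      refine isNilpotent_of_lowerCentralSeries_eq_bot (n := 1) ?_
      rw [Subgroup.lowerCentralSeries_succ, Subgroup.lowerCentralSeries_zero,
        commutator_eq_bot_iff_le_centralizer, ← zpowers_eq_closure]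
      rintro _ ⟨i, rfl⟩ _ ⟨j, rfl⟩
      exact zpow_mul_comm s j i
    have h4 : baerG {z | ∃ y : Γ, z = y⁻¹ * g * y} {s} := ⟨Set.singleton_subset_iff.2 hs, h1⟩
    obtain ⟨T, h2, h3⟩ := hfin.exists_le_maximal (a := {s}) h4
    exact ⟨T, h2 rfl, h3⟩
  obtain ⟨T, -, hT⟩ := hex g ⟨1, by simp⟩
  obtain ⟨c, hc⟩ := (isNilpotent_iff_lowerCentralSeries _).1 hT.1.2
  refine isNilpotent_of_lowerCentralSeries_eq_bot (n := c) (eq_bot_iff.2 (hc ▸
    lowerCentralSeries_mono c (closure_mono fun s hs => ?_)))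
  obtain ⟨a, rfl, ha⟩ := Group.mem_conjugatesOfSet_iff.1 hs
  obtain ⟨y, rfl⟩ := isConj_iff.1 ha
  obtain ⟨T', h1, h2⟩ := hex (y * a * y⁻¹) ⟨y⁻¹, by rw [inv_inv]⟩
  exact baer_uniq hf hS hE hT h2 ▸ h1

end Pool.Agent.Lib.MP_b39e30_al.Lin
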