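import Pool.Agent.Lib.MP_b39e30_al.Lin.GDefs

set_option autoImplicit false

namespace Pool.Agent.Lib.MP_b39e30_al.Lin

open MvPolynomial

variable {ι : Type} [Fintype ι] [DecidableEq ι] {K : Type*} [Field K] {Γ : Type*} [Group Γ]

omit [Fintype ι] [DecidableEq ι] in
theorem clos_pt_map {S T : Type*} (f : S → T) [CommRing S] [CommRing T] (M N : Matrix ι ι S) :
    (fun i => f (pt M N i)) = pt (M.map f) (N.map f) := by
  funext i
  obtain ⟨s, a, b⟩ := i
  cases s <;> rfl

omit [Fintype ι] [DecidableEq ι] in
theorem clos_gen_true {B : Type*} [CommRing B] (y y' : Matrix ι ι B) :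
    (genG ι B true).map (eval (pt y y')) = y := by
  ext a b
  simp [genG, pt]

omit [Fintype ι] [DecidableEq ι] in
theorem clos_gen_false {B : Type*} [CommRing B] (y y' : Matrix ι ι B) :
    (genG ι B false).map (eval (pt y y')) = y' := by
  ext a b
  simp [genG, pt]

omit [Fintype ι] [DecidableEq ι] in
theorem clos_cst {B : Type*} [CommRing B] (y y' W : Matrix ι ι B) :
    (cstG W).map (eval (pt y y')) = W := by
  ext a b
  simp [cstG]

omit [Fintype ι] [DecidableEq ι] in
theorem clos_sub {B : Type*} [CommRing B] [Algebra K B] (y y' : Matrix ι ι B)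
    (M N : Matrix ι ι (MvPolynomial (Bool × ι × ι) B)) (p : MvPolynomial (Bool × ι × ι) K) :
    eval (pt y y') (aeval (pt M N) p) =
      aeval (pt (M.map (eval (pt y y'))) (N.map (eval (pt y y')))) p := by
  have h : (eval (pt y y')).comp (algebraMap K (MvPolynomial (Bool × ι × ι) B)) =
      algebraMap K B := by
    ext c
    rw [RingHom.comp_apply, MvPolynomial.algebraMap_apply, eval_C]
  rw [map_aeval, h, clos_pt_map, aeval_eq_eval₂Hom]

/-- The polynomial whose coefficients are the values of a functional on the coefficients. -/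
noncomputable def closCf {σ B : Type*} [CommRing B] [Algebra K B] (φ : B →ₗ[K] K)
    (q : MvPolynomial σ B) : MvPolynomial σ K := ∑ m ∈ q.support, monomial m (φ (coeff m q))

theorem clos_cf_eval {σ B : Type*} [CommRing B] [Algebra K B] (φ : B →ₗ[K] K)
    (q : MvPolynomial σ B) (b : σ → K) :
    eval b (closCf φ q) = φ (eval (fun l => algebraMap K B (b l)) q) := by
  conv_rhs => rw [q.as_sum]
  simp only [closCf, map_sum, eval_monomial]
  refine Finset.sum_congr rfl fun m _ => ?_
  have h2 : (m.prod fun n e => algebraMap K B (b n) ^ e) =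
      algebraMap K B (m.prod fun n e => b n ^ e) := by
    simp [Finsupp.prod]
  rw [h2, mul_comm (coeff m q), ← Algebra.smul_def, map_smul, smul_eq_mul, mul_comm]

theorem clos_cf_zero {σ B : Type*} [CommRing B] [Algebra K B] (q : MvPolynomial σ B) (y : σ → B)
    (h : ∀ φ : B →ₗ[K] K, aeval y (closCf φ q) = 0) : eval y q = 0 := by
  classical
  let b := Module.Free.chooseBasis K B
  let s := q.support.biUnion fun m => (b.repr (coeff m q)).support
  have hc : ∀ m ∈ q.support, coeff m q = ∑ i ∈ s, b.repr (coeff m q) i • b i := by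
    intro m hm
    have h1 := b.linearCombination_repr (coeff m q)
    rw [Finsupp.linearCombination_apply, Finsupp.sum_of_support_subset _
      (Finset.subset_biUnion_of_mem (fun m => (b.repr (coeff m q)).support) hm) _
      (fun i _ => zero_smul K (b i))] at h1
    exact h1.symm
  have h2 : eval y q = ∑ i ∈ s, b i * aeval y (closCf (b.coord i) q) := by
    conv_lhs => rw [q.as_sum]
    simp only [closCf, map_sum, eval_monomial, aeval_monomial, Finset.mul_sum]
    rw [Finset.sum_comm]
    refine Finset.sum_congr rfl fun m hm => ?_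
    conv_lhs => rw [hc m hm]
    rw [Finset.sum_mul]
    refine Finset.sum_congr rfl fun i _ => ?_
    rw [Module.Basis.coord_apply, Algebra.smul_def]
    ring
  rw [h2]
  exact Finset.sum_eq_zero fun i _ => by rw [h, mul_zero]

/-- The points of the Zariski closure of the image of `ρ` with values in `B`. -/
def Clo (ρ : Γ →* Matrix ι ι K) (B : Type*) [CommRing B] [Algebra K B] :
    Set (Matrix ι ι B × Matrix ι ι B) := {y | ∀ p ∈ vanG ρ, aeval (pt y.1 y.2) p = 0}

variable (ρ : Γ →* Matrix ι ι K) {B : Type*} [CommRing B] [Algebra K B]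

theorem Clo.of (x : Γ) :
    ((ρ x).map (algebraMap K B), (ρ x⁻¹).map (algebraMap K B)) ∈ Clo ρ B := by
  intro p hp
  have h := hp x
  have h2 := MvPolynomial.aeval_algebraMap_apply B (pt (ρ x) (ρ x⁻¹)) p
  have h3 : aeval (pt (ρ x) (ρ x⁻¹)) p = 0 := h
  rw [h3, map_zero] at h2
  rw [← clos_pt_map]
  exact h2

theorem Clo.ext (q : MvPolynomial (Bool × ι × ι) B)
    (hq : ∀ x : Γ, eval (pt ((ρ x).map (algebraMap K B)) ((ρ x⁻¹).map (algebraMap K B))) q = 0) :
    ∀ y ∈ Clo ρ B, eval (pt y.1 y.2) q = 0 := by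
  intro y hy
  refine clos_cf_zero (K := K) q _ fun φ => hy _ fun x => ?_
  rw [clos_cf_eval, clos_pt_map, hq, map_zero]

theorem Clo.mul {y z : Matrix ι ι B × Matrix ι ι B} (hy : y ∈ Clo ρ B) (hz : z ∈ Clo ρ B) :
    (y.1 * z.1, z.2 * y.2) ∈ Clo ρ B := by
  have h1 : ∀ x : Γ, ((ρ x).map (algebraMap K B) * z.1, z.2 * (ρ x⁻¹).map (algebraMap K B)) ∈
      Clo ρ B := by
    intro x p hp
    have h := Clo.ext ρ (aeval (pt (cstG ((ρ x).map (algebraMap K B)) * genG ι B true)
      (genG ι B false * cstG ((ρ x⁻¹).map (algebraMap K B)))) p) (fun x' => by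
        have h2 := Clo.of (B := B) ρ (x * x') p hp
        rw [mul_inv_rev, map_mul, map_mul, Matrix.map_mul, Matrix.map_mul] at h2
        rw [clos_sub, Matrix.map_mul, Matrix.map_mul, clos_cst, clos_cst, clos_gen_true,
          clos_gen_false]
        exact h2) z hz
    rw [clos_sub, Matrix.map_mul, Matrix.map_mul, clos_cst, clos_cst, clos_gen_true,
      clos_gen_false] at h
    exact h
  intro p hp
  have h := Clo.ext ρ (aeval (pt (genG ι B true * cstG z.1) (cstG z.2 * genG ι B false)) p)
    (fun x => by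
      rw [clos_sub, Matrix.map_mul, Matrix.map_mul, clos_cst, clos_cst, clos_gen_true,
        clos_gen_false]
      exact h1 x p hp) y hy
  rw [clos_sub, Matrix.map_mul, Matrix.map_mul, clos_cst, clos_cst, clos_gen_true,
    clos_gen_false] at h
  exact h

theorem Clo.swap {y : Matrix ι ι B × Matrix ι ι B} (hy : y ∈ Clo ρ B) : (y.2, y.1) ∈ Clo ρ B := by
  intro p hp
  have h := Clo.ext ρ (aeval (pt (genG ι B false) (genG ι B true)) p) (fun x => by
    have h2 := Clo.of (B := B) ρ x⁻¹ p hp
    rw [inv_inv] at h2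
    rw [clos_sub, clos_gen_true, clos_gen_false]
    exact h2) y hy
  rw [clos_sub, clos_gen_true, clos_gen_false] at h
  exact h

theorem Clo.inv {y : Matrix ι ι B × Matrix ι ι B} (hy : y ∈ Clo ρ B) :
    y.1 * y.2 = 1 ∧ y.2 * y.1 = 1 := by
  have key : ∀ (u v : Matrix ι ι B) (s t : Bool) (a b : ι),
      eval (pt u v) ((genG ι B s * genG ι B t - 1) a b) =
        ((genG ι B s).map (eval (pt u v)) * (genG ι B t).map (eval (pt u v)) - 1) a b := by
    intro u v s t a b
    rw [← Matrix.map_mul, Matrix.sub_apply, Matrix.sub_apply, map_sub, Matrix.map_apply,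
      Matrix.one_apply, Matrix.one_apply, apply_ite (eval (pt u v)), map_one, map_zero]
  have one : (1 : Matrix ι ι K).map (algebraMap K B) = 1 :=
    Matrix.map_one _ (map_zero _) (map_one _)
  constructor
  · rw [← sub_eq_zero]
    ext a b
    have h := Clo.ext ρ ((genG ι B true * genG ι B false - 1) a b) (fun x => by
      rw [key, clos_gen_true, clos_gen_false, ← Matrix.map_mul, ← map_mul, mul_inv_cancel,
        map_one, one, sub_self, Matrix.zero_apply]) y hy
    rw [key, clos_gen_true, clos_gen_false] at h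
    exact h
  · rw [← sub_eq_zero]
    ext a b
    have h := Clo.ext ρ ((genG ι B false * genG ι B true - 1) a b) (fun x => by
      rw [key, clos_gen_true, clos_gen_false, ← Matrix.map_mul, ← map_mul, inv_mul_cancel,
        map_one, one, sub_self, Matrix.zero_apply]) y hy
    rw [key, clos_gen_true, clos_gen_false] at h
    exact h

theorem Clo.map {B' : Type*} [CommRing B'] [Algebra K B'] (θ : B →ₐ[K] B')
    {y : Matrix ι ι B × Matrix ι ι B} (hy : y ∈ Clo ρ B) : (y.1.map θ, y.2.map θ) ∈ Clo ρ B' := by
  intro p hp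
  have h := hy p hp
  rw [← clos_pt_map, ← comp_aeval_apply, h, map_zero]

end Pool.Agent.Lib.MP_b39e30_al.Lin
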