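import Pool.Agent.Lib.MP_b39e30_al.Lin.GDefs

set_option autoImplicit false

namespace Pool.Agent.Lib.MP_b39e30_al.Lin

theorem gder_lift {R A B : Type*} [CommRing R] [CommRing A] [CommRing B] [Algebra R A]
    [Algebra.FormallySmooth R A] (φ : R →+* B) (g : B →+* A) (hg : Function.Surjective g)
    (hk : IsNilpotent (RingHom.ker g)) (hc : ∀ r, g (φ r) = algebraMap R A r) :
    ∃ ψ : A →+* B, (∀ x, g (ψ x) = x) ∧ ∀ r, ψ (algebraMap R A r) = φ r := by
  let : Algebra R B := φ.toAlgebra
  let g' : B →ₐ[R] A := { g with commutes' := hc }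
  let ψ := Algebra.FormallySmooth.liftOfSurjective (AlgHom.id R A) g' hg hk
  exact ⟨ψ.toRingHom, fun x => Algebra.FormallySmooth.liftOfSurjective_apply _ g' hg hk x,
    fun r => ψ.commutes r⟩

theorem gder_ker {F : Type*} [CommRing F] :
    IsNilpotent (RingHom.ker (TrivSqZeroExt.fstHom F F F).toRingHom) := by
  refine ⟨2, ?_⟩
  rw [Ideal.zero_eq_bot, eq_bot_iff, Submodule.pow_succ, Submodule.pow_one, Ideal.mul_le]
  intro r hr s hs
  have hr' : r.fst = 0 := hr
  have hs' : s.fst = 0 := hs
  rw [Ideal.mem_bot]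
  ext
  · simp [hr']
  · simp [hr', hs']

open scoped IntermediateField.algebraAdjoinAdjoin in
/-- In characteristic zero a transcendental element is moved by a derivation. -/
theorem exists_derivation {K F : Type*} [Field K] [Field F] [Algebra K F] [CharZero K] {f : F}
    (hf : Transcendental K f) : ∃ δ : Derivation K F F, δ f ≠ 0 := by
  have h1 : AlgebraicIndepOn K id ({f} : Set F) := by
    let : Unique ({f} : Set F) := Set.uniqueSingleton f
    exact algebraicIndependent_unique_type_iff.2 hf
  obtain ⟨s, hfs, hs⟩ := exists_isTranscendenceBasis_superset h1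
  have hfs' : f ∈ s := hfs rfl
  set v : s → F := (↑) with hv
  have halg := hs.isAlgebraic_field
  have : CharZero (IntermediateField.adjoin K (Set.range v)) :=
    algebraRat.charZero _
  have : Algebra.IsSeparable (IntermediateField.adjoin K (Set.range v)) F := inferInstance
  have : Algebra.FormallyEtale (IntermediateField.adjoin K (Set.range v)) F :=
    Algebra.FormallyEtale.of_isSeparable _ F
  have : Algebra.FormallySmooth (Algebra.adjoin K (Set.range v))
      (IntermediateField.adjoin K (Set.range v)) := .of_isLocalization (nonZeroDivisors _)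
  have : Algebra.FormallySmooth (Algebra.adjoin K (Set.range v)) F :=
    .comp _ (IntermediateField.adjoin K (Set.range v)) _
  let φ0 : MvPolynomial s K →ₐ[K] TrivSqZeroExt F F :=
    MvPolynomial.aeval fun i => TrivSqZeroExt.inl (v i) + TrivSqZeroExt.inr 1
  let φ : Algebra.adjoin K (Set.range v) →ₐ[K] TrivSqZeroExt F F :=
    φ0.comp hs.1.aevalEquiv.symm.toAlgHom
  have h0 : ∀ p : MvPolynomial s K, (φ0 p).fst = MvPolynomial.aeval v p := by
    intro p
    have : (TrivSqZeroExt.fstHom K F F).comp φ0 = MvPolynomial.aeval v := by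
      ext i
      simp [φ0]
    exact DFunLike.congr_fun this p
  have hc : ∀ r : Algebra.adjoin K (Set.range v),
      (TrivSqZeroExt.fstHom F F F).toRingHom (φ.toRingHom r) = algebraMap _ F r := by
    intro r
    obtain ⟨p, rfl⟩ := hs.1.aevalEquiv.surjective r
    have : φ (hs.1.aevalEquiv p) = φ0 p := by simp [φ]
    show (φ (hs.1.aevalEquiv p)).fst = _
    rw [this, h0, hs.1.algebraMap_aevalEquiv]
  obtain ⟨ψ, hψ1, hψ2⟩ := gder_lift φ.toRingHom (TrivSqZeroExt.fstHom F F F).toRingHom
    (fun x => ⟨TrivSqZeroExt.inl x, rfl⟩) gder_ker hc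
  have hψ1' : ∀ x, (ψ x).fst = x := hψ1
  have hK : ∀ k : K, ψ (algebraMap K F k) = TrivSqZeroExt.inl (algebraMap K F k) := by
    intro k
    rw [IsScalarTower.algebraMap_apply K (Algebra.adjoin K (Set.range v)) F, hψ2]
    exact φ.commutes k
  have hmul : ∀ a b : F, (ψ (a * b)).snd = a * (ψ b).snd + b * (ψ a).snd := by
    intro a b
    rw [map_mul, TrivSqZeroExt.snd_mul, hψ1', hψ1']
    simp [mul_comm]
  let L : F →ₗ[K] F :=
    { toFun := fun x => (ψ x).snd
      map_add' := fun a b => by simp
      map_smul' := fun k a => by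
        rw [Algebra.smul_def, hmul, hK]
        simp [Algebra.smul_def] }
  refine ⟨Derivation.mk' L fun a b => hmul a b, ?_⟩
  have h2 : algebraMap (Algebra.adjoin K (Set.range v)) F
      (hs.1.aevalEquiv (MvPolynomial.X ⟨f, hfs'⟩)) = f := by
    rw [hs.1.algebraMap_aevalEquiv]
    simp [hv]
  have h3 : ψ f = TrivSqZeroExt.inl f + TrivSqZeroExt.inr 1 := by
    have h4 := hψ2 (hs.1.aevalEquiv (MvPolynomial.X ⟨f, hfs'⟩))
    rw [h2] at h4
    rw [h4]
    show φ _ = _
    simp [φ, φ0, hv]
  show (ψ f).snd ≠ 0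
  rw [h3]
  simp

end Pool.Agent.Lib.MP_b39e30_al.Lin
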