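import Pool.Agent.Lib.MP_b39e30_al.Lin.GDefs
import Pool.Agent.Lib.MP_b39e30_al.Lin.GClos
import Pool.Agent.Lib.MP_b39e30_al.Lin.GDer

set_option autoImplicit false

namespace Pool.Agent.Lib.MP_b39e30_al.Lin

open MvPolynomial

theorem gpt_entry {ι K : Type*} [Fintype ι] {S : Set (Matrix ι ι K)} (h : S.Infinite) :
    ∃ a b, ((fun z : Matrix ι ι K => z a b) '' S).Infinite := by
  by_contra hc
  push Not at hc
  exact h ((Set.Finite.pi' fun a => Set.Finite.pi' fun b => hc a b).subset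
    fun z hz a b => ⟨z, hz, rfl⟩)

theorem gpt_map {ι : Type} [Fintype ι] [DecidableEq ι] {K B : Type*} [CommRing K] [CommRing B]
    [Algebra K B] (φ : MvPolynomial (Bool × ι × ι) K →ₐ[K] B) (W : Matrix ι ι K) (a b : ι) :
    φ ((genG ι K true * cstG W * genG ι K false) a b) =
      ((genG ι K true).map φ * W.map (algebraMap K B) * (genG ι K false).map φ) a b := by
  have h : (cstG W).map φ = W.map (algebraMap K B) := by
    ext i j
    simp [cstG]
  rw [← h, ← Matrix.map_mul, ← Matrix.map_mul, Matrix.map_apply]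

/-- An infinite conjugacy class gives a point of the closure and a derivation that moves the
conjugate of `g` by this point. -/
theorem exists_point {ι : Type} [Fintype ι] [DecidableEq ι] {K : Type} [Field K] [CharZero K]
    {Γ : Type*} [Group Γ] (ρ : Γ →* Matrix ι ι K) (g : Γ)
    (h : {z | ∃ y : Γ, z = ρ (y⁻¹ * g * y)}.Infinite) :
    ∃ (F : Type) (_ : Field F) (_ : IsAlgClosed F) (_ : Algebra K F) (δ : Derivation K F F)
      (y : Matrix ι ι F × Matrix ι ι F), y ∈ Clo ρ F ∧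
      (y.1 * (ρ g).map (algebraMap K F) * y.2).map δ ≠ 0 := by
  obtain ⟨a, b, hab⟩ := gpt_entry h
  let f : MvPolynomial (Bool × ι × ι) K := (genG ι K true * cstG (ρ g) * genG ι K false) a b
  let I : Ideal (MvPolynomial (Bool × ι × ι) K) :=
    ⨅ y : Γ, RingHom.ker (eval (pt (ρ y) (ρ y⁻¹)))
  have hI : ∀ p, p ∈ I ↔ p ∈ vanG ρ := fun p => by
    simp only [I, vanG, Ideal.mem_iInf, RingHom.mem_ker, Set.mem_ofPred_eq]
  have hd : Disjoint (I : Set (MvPolynomial (Bool × ι × ι) K))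
      ((nonZeroDivisors (Polynomial K)).map (Polynomial.aeval f).toMonoidHom :
        Submonoid (MvPolynomial (Bool × ι × ι) K)) := by
    refine Set.disjoint_left.2 fun p hp ⟨q, hq, hqp⟩ => nonZeroDivisors.ne_zero hq ?_
    refine Polynomial.eq_zero_of_infinite_isRoot q (hab.mono ?_)
    rintro _ ⟨_, ⟨y, rfl⟩, rfl⟩
    have h1 : aeval (pt (ρ y⁻¹) (ρ y⁻¹⁻¹)) (Polynomial.aeval f q) = 0 := by
      rw [show Polynomial.aeval f q = p from hqp]
      exact (hI p).1 hp y⁻¹
    have h2 : ∀ s, (genG ι K s).map (aeval (pt (ρ y⁻¹) (ρ y⁻¹⁻¹))) =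
        bif s then ρ y⁻¹ else ρ y⁻¹⁻¹ := fun s => by
      ext i j
      simp [genG, pt]
    rw [← Polynomial.aeval_algHom_apply, gpt_map, h2, h2] at h1
    simpa [Polynomial.IsRoot, Polynomial.coe_aeval_eq_eval] using h1
  obtain ⟨p, hp, hIp, hpd⟩ := I.exists_le_prime_disjoint _ hd
  let F := AlgebraicClosure (FractionRing (MvPolynomial (Bool × ι × ι) K ⧸ p))
  let φ : MvPolynomial (Bool × ι × ι) K →ₐ[K] F :=
    (IsScalarTower.toAlgHom K (FractionRing (MvPolynomial (Bool × ι × ι) K ⧸ p)) F).comp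
      ((IsScalarTower.toAlgHom K (MvPolynomial (Bool × ι × ι) K ⧸ p)
        (FractionRing (MvPolynomial (Bool × ι × ι) K ⧸ p))).comp (Ideal.Quotient.mkₐ K p))
  have hker : ∀ x, φ x = 0 ↔ x ∈ p := fun x => by
    simp only [φ, AlgHom.comp_apply, IsScalarTower.toAlgHom_apply,
      map_eq_zero_iff _ (algebraMap (FractionRing (MvPolynomial (Bool × ι × ι) K ⧸ p)) F).injective,
      map_eq_zero_iff _ (IsFractionRing.injective (MvPolynomial (Bool × ι × ι) K ⧸ p)
        (FractionRing (MvPolynomial (Bool × ι × ι) K ⧸ p))),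
      Ideal.Quotient.mkₐ_eq_mk, Ideal.Quotient.eq_zero_iff_mem]
  have ht : Transcendental K (φ f) := by
    rintro ⟨q, hq, h0⟩
    rw [Polynomial.aeval_algHom_apply, hker] at h0
    exact Set.disjoint_left.1 hpd h0 ⟨q, mem_nonZeroDivisors_of_ne_zero hq, rfl⟩
  obtain ⟨δ, hδ⟩ := exists_derivation ht
  refine ⟨F, inferInstance, inferInstance, inferInstance, δ,
    ((genG ι K true).map φ, (genG ι K false).map φ), fun q hq => ?_, fun h0 => hδ ?_⟩
  · have h1 : aeval (pt ((genG ι K true).map φ) ((genG ι K false).map φ)) = φ := by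
      ext ⟨s, i, j⟩
      cases s <;> simp [genG, pt]
    rw [h1, hker]
    exact hIp ((hI q).2 hq)
  · rw [gpt_map]
    exact congrFun (congrFun h0 a) b

end Pool.Agent.Lib.MP_b39e30_al.Lin
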