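import Pool.Agent.Lib.MP_b39e30_al.Lin.GDefs
import Pool.Agent.Lib.MP_b39e30_al.Lin.GClos

set_option autoImplicit false

namespace Pool.Agent.Lib.MP_b39e30_al.Lin

open MvPolynomial

section tan

open TrivSqZeroExt

variable {ι : Type} [Fintype ι] {K F : Type*} [Field K] [Field F] [Algebra K F]

theorem tan_leib (δ : Derivation K F F) (M N : Matrix ι ι F) :
    (M * N).map δ = M * N.map δ + M.map δ * N := by
  ext a b
  simp only [Matrix.map_apply, Matrix.mul_apply, map_sum, Matrix.add_apply, Derivation.leibniz,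
    smul_eq_mul, ← Finset.sum_add_distrib]
  exact Finset.sum_congr rfl fun c _ => by ring

theorem tan_fst (M N : Matrix ι ι (TrivSqZeroExt F F)) :
    (M * N).map fst = M.map fst * N.map fst := by
  ext a b
  simp only [Matrix.map_apply, Matrix.mul_apply, fst_sum, fst_mul]

theorem tan_snd (M N : Matrix ι ι (TrivSqZeroExt F F)) :
    (M * N).map snd = M.map fst * N.map snd + M.map snd * N.map fst := by
  ext a b
  simp only [Matrix.map_apply, Matrix.mul_apply, snd_sum, snd_mul, Matrix.add_apply, smul_eq_mul,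
    ← Finset.sum_add_distrib, MulOpposite.smul_eq_mul_unop, MulOpposite.unop_op]

/-- The map to the dual numbers given by a derivation. -/
def tanHom (δ : Derivation K F F) : F →ₐ[K] TrivSqZeroExt F F where
  toFun x := inl x + inr (δ x)
  map_one' := by simp
  map_mul' x y := by ext <;> simp [mul_comm]
  map_zero' := by simp
  map_add' x y := by ext <;> simp
  commutes' c := by ext <;> simp [algebraMap_eq_inl']

theorem tan_eval {σ : Type*} (a : σ → TrivSqZeroExt F F) (v : σ → MvPolynomial σ F)
    (h : ∀ s, eval (fun s => (a s).fst) (v s) = (a s).snd) (q : MvPolynomial σ F) :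
    (eval a (map (algebraMap F _) q)).fst = eval (fun s => (a s).fst) q ∧
      (eval a (map (algebraMap F _) q)).snd =
        eval (fun s => (a s).fst) (mkDerivation F v q) := by
  induction q using MvPolynomial.induction_on with
  | C c => simp [algebraMap_eq_inl, derivation_C]
  | add p q hp hq => simp only [map_add, fst_add, snd_add, hp.1, hp.2, hq.1, hq.2, and_self]
  | mul_X p s hp =>
    simp only [map_mul, map_X, eval_X, fst_mul, snd_mul, hp.1, hp.2, Derivation.leibniz,
      mkDerivation_X, smul_eq_mul, map_add, h, MulOpposite.smul_eq_mul_unop, MulOpposite.unop_op,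
      true_and]
    ring

theorem tan_pt (Y Y' W : Matrix ι ι F) (s : Bool × ι × ι) :
    eval (pt Y Y') (pt (genG ι F true * cstG W) (-(cstG W * genG ι F false)) s) =
      pt (Y * W) (-(W * Y')) s := by
  obtain ⟨_ | _, a, b⟩ := s <;> simp [pt, genG, cstG, Matrix.mul_apply]

end tan

/-- The tangent vector at the identity obtained from a point of the closure and a derivation. -/
theorem tangent {ι : Type} [Fintype ι] [DecidableEq ι] {K F : Type*} [Field K] [Field F]
    [Algebra K F] {Γ : Type*} [Group Γ] (ρ : Γ →* Matrix ι ι K) (δ : Derivation K F F)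
    {y : Matrix ι ι F × Matrix ι ι F} (hy : y ∈ Clo ρ F) (ρF : Γ →* Matrix ι ι F)
    (hρ : ∀ x, ρF x = (ρ x).map (algebraMap K F)) :
    (∀ p ∈ vanG ρF, DG (y.2 * y.1.map δ) p ∈ vanG ρF) ∧
      ∀ g : Γ, ρF g * (y.2 * y.1.map δ) = (y.2 * y.1.map δ) * ρF g →
        (y.1 * ρF g * y.2).map δ = 0 := by
  obtain ⟨i1, i2⟩ := Clo.inv ρ hy
  have d0 : ∀ M : Matrix ι ι K, (M.map (algebraMap K F)).map δ = 0 := fun M => by
    ext a b
    simp
  have d1 : y.2.map δ * y.1 = -(y.2 * y.1.map δ) := by
    have h := tan_leib δ y.2 y.1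
    rw [i2, ← Matrix.map_one (algebraMap K F) (map_zero _) (map_one _), d0] at h
    exact eq_neg_of_add_eq_zero_right h.symm
  refine ⟨fun q hq x => ?_, fun g hg => ?_⟩
  · have f1 : ∀ (d : Derivation K F F) (M : Matrix ι ι F),
        (M.map (tanHom d)).map TrivSqZeroExt.fst = M := fun d M => by
      ext a b
      simp [tanHom]
    have f2 : ∀ (d : Derivation K F F) (M : Matrix ι ι F),
        (M.map (tanHom d)).map TrivSqZeroExt.snd = M.map d := fun d M => by
      ext a b
      simp [tanHom]
    have f3 : ∀ M : Matrix ι ι K, M.map (algebraMap K (TrivSqZeroExt F F)) =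
        (M.map (algebraMap K F)).map (tanHom 0) := fun M => by
      ext1 a b
      exact ((tanHom 0).commutes _).symm
    have f4 : ∀ M : Matrix ι ι F, M.map (0 : Derivation K F F) = 0 := fun M => rfl
    have f5 : ∀ (M N : Matrix ι ι (TrivSqZeroExt F F)) (f : TrivSqZeroExt F F → F) s,
        f (pt M N s) = pt (M.map f) (N.map f) s := by
      rintro M N f ⟨_ | _, a, b⟩ <;> rfl
    have h1 := Clo.ext ρ (map (algebraMap F (TrivSqZeroExt F F)) q) (fun x => by
      obtain ⟨e1, e2⟩ := tan_eval (pt ((ρ x).map (algebraMap K (TrivSqZeroExt F F)))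
        ((ρ x⁻¹).map (algebraMap K _))) 0 (fun s => by
          rw [f5 _ _ TrivSqZeroExt.snd, f3, f3, f2, f2, f4, f4]
          obtain ⟨_ | _, a, b⟩ := s <;> rfl) q
      refine TrivSqZeroExt.ext (e1.trans ?_) (e2.trans ?_)
      · simp only [f5 _ _ TrivSqZeroExt.fst, f3, f1, ← hρ]
        exact hq x
      · rw [show mkDerivation F (0 : Bool × ι × ι → MvPolynomial (Bool × ι × ι) F) = 0 from
          derivation_ext fun s => by simp, Derivation.zero_apply, map_zero]
        rfl) _
      (Clo.mul ρ (Clo.of ρ x) (Clo.mul ρ (Clo.swap ρ (Clo.map ρ (tanHom 0) hy))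
        (Clo.map ρ (tanHom δ) hy)))
    have e1 : ∀ s, (pt ((ρ x).map (algebraMap K _) * (y.2.map (tanHom (0 : Derivation K F F)) *
        y.1.map (tanHom δ))) (y.2.map (tanHom δ) * y.1.map (tanHom (0 : Derivation K F F)) *
          (ρ x⁻¹).map (algebraMap K _)) s).fst = pt (ρF x) (ρF x⁻¹) s := fun s => by
      simp only [f5 _ _ TrivSqZeroExt.fst, tan_fst, f3, f1, ← hρ, i2, mul_one, one_mul]
    have h2 := (tan_eval _ (pt (genG ι F true * cstG (y.2 * y.1.map δ))
      (-(cstG (y.2 * y.1.map δ) * genG ι F false))) (fun s => by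
        rw [funext e1, tan_pt]
        simp only [f5 _ _ TrivSqZeroExt.snd, tan_fst, tan_snd, f3, f1, f2, f4, ← hρ, mul_zero,
          zero_mul, add_zero, zero_add, d1, neg_mul]) q).2
    rw [funext e1] at h2
    exact h2.symm.trans (congrArg TrivSqZeroExt.snd h1)
  · have d2 : y.2.map δ = -(y.2 * y.1.map δ * y.2) := by
      rw [← neg_mul, ← d1, mul_assoc, i1, mul_one]
    rw [tan_leib, tan_leib, hρ, d0, ← hρ, d2, mul_zero, zero_add, mul_neg, mul_assoc y.1,
      ← mul_assoc (ρF g), hg, ← mul_assoc, ← mul_assoc, ← mul_assoc, i1, one_mul, neg_add_cancel]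

end Pool.Agent.Lib.MP_b39e30_al.Lin
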