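import Pool.Agent.Lib.MP_b39e30_al.Lin.GDefs
import Pool.Agent.Lib.MP_b39e30_al.Lin.GPoint
import Pool.Agent.Lib.MP_b39e30_al.Lin.GTan
import Pool.Agent.Lib.MP_b39e30_al.Lin.GDeriv
import Pool.Agent.Lib.MP_b39e30_al.Lin.GFormal
import Pool.Agent.Lib.MP_b39e30_al.Lin.GField
import Pool.Agent.Lib.MP_b39e30_al.Lin.Field2

set_option autoImplicit false

namespace Pool.Agent.Lib.MP_b39e30_al.Lin

open Pointwise in
theorem gfin_zero {ι : Type} [Fintype ι] [DecidableEq ι] {F : Type*} [Field F] {Γ : Type*}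
    [Group Γ] (ρ : Γ →* Matrix ι ι F) (hρ : Submodule.span F (Set.range ρ) = ⊤)
    {J : Set (Matrix ι ι F)} (hJ : ∀ x ∈ J, ∀ y : Γ, ρ y * x * ρ y⁻¹ ∈ J) {N : ℕ}
    (hN : ∀ l : List (Matrix ι ι F), (∀ W ∈ l, W ∈ J) → N ≤ l.length → l.prod = 0) :
    ∀ x ∈ J, x = 0 := by
  intro x hx
  by_contra h0
  rcases isEmpty_or_nonempty ι with hι | hι
  · exact h0 (Subsingleton.elim _ _)
  obtain ⟨L, hL⟩ : ∃ L : Submodule F (Matrix ι ι F), L = Submodule.span F J * ⊤ := ⟨_, rfl⟩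
  have h1 : L = Submodule.span F (J * (Set.univ : Set (Matrix ι ι F))) := by
    rw [hL, ← Submodule.span_mul_span, Submodule.span_univ]
  have h2 : ⊤ * L ≤ L := by
    rw [← hρ, h1, Submodule.span_mul_span]
    refine Submodule.span_le.2 ?_
    rintro _ ⟨_, ⟨y, rfl⟩, _, ⟨z, hz, M, -, rfl⟩, rfl⟩
    refine Submodule.subset_span ⟨_, hJ z hz y, ρ y * M, trivial, ?_⟩
    show ρ y * z * ρ y⁻¹ * (ρ y * M) = ρ y * (z * M)
    rw [mul_assoc, ← mul_assoc (ρ y⁻¹), ← map_mul, inv_mul_cancel, map_one, one_mul, mul_assoc]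
  have h3 : L * ⊤ ≤ L := by
    rw [hL, mul_assoc]
    exact mul_le_mul_right le_top _
  have h4 : (1 : Matrix ι ι F) ∈ L := by
    have := IsSimpleRing.one_mem_of_ne_zero_mem (TwoSidedIdeal.mk' (L : Set (Matrix ι ι F))
      L.zero_mem (fun ha hb => L.add_mem ha hb) (fun ha => L.neg_mem ha)
      (fun ha => h2 (Submodule.mul_mem_mul Submodule.mem_top ha))
      (fun ha => h3 (Submodule.mul_mem_mul ha Submodule.mem_top))) h0 (by
        rw [TwoSidedIdeal.mem_mk', SetLike.mem_coe, hL, ← mul_one x]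
        exact Submodule.mul_mem_mul (Submodule.subset_span hx) Submodule.mem_top)
    rwa [TwoSidedIdeal.mem_mk'] at this
  have h5 : L = ⊤ := eq_top_iff.2 fun M _ => by
    rw [← one_mul M]
    exact h3 (Submodule.mul_mem_mul h4 Submodule.mem_top)
  have h6 : ∀ m : ℕ, Submodule.span F J ^ m * ⊤ = ⊤ := by
    intro m
    induction m with
    | zero => rw [pow_zero, one_mul]
    | succ m ih => rw [pow_succ, mul_assoc, ← hL, h5, ih]
  have h7 : Submodule.span F J ^ N = ⊥ := by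
    rw [Submodule.span_pow, Submodule.span_eq_bot]
    intro z hz
    obtain ⟨f, rfl⟩ := Set.mem_pow.1 hz
    refine hN _ (fun U hU => ?_) List.length_ofFn.ge
    obtain ⟨i, rfl⟩ := List.mem_ofFn.1 hU
    exact (f i).2
  have h8 := h6 N
  rw [h7, Submodule.bot_mul] at h8
  exact h0 (by rw [← Submodule.mem_bot F, h8]; trivial)

theorem gfin_conj {A F : Type*} [Ring A] [Field F] [Algebra F A] {Γ : Type*} [Group Γ]
    (ρ : Γ →* A) {S : Set A} (hS : ∀ W ∈ S, ∀ y : Γ, ρ y * W * ρ y⁻¹ ∈ S) (y : Γ) {a : A}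
    (ha : a ∈ Algebra.adjoin F S) : ρ y * a * ρ y⁻¹ ∈ Algebra.adjoin F S := by
  have e1 : ρ y * ρ y⁻¹ = 1 := by rw [← map_mul, mul_inv_cancel, map_one]
  have e2 : ρ y⁻¹ * ρ y = 1 := by rw [← map_mul, inv_mul_cancel, map_one]
  induction ha using Algebra.adjoin_induction with
  | mem x hx => exact Algebra.subset_adjoin (hS x hx y)
  | algebraMap c =>
    rw [← Algebra.commutes, mul_assoc, e1, mul_one]
    exact Subalgebra.algebraMap_mem _ c
  | add x z _ _ h1 h2 =>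
    rw [mul_add, add_mul]
    exact add_mem h1 h2
  | mul x z _ _ h1 h2 =>
    have e : ρ y * (x * z) * ρ y⁻¹ = ρ y * x * ρ y⁻¹ * (ρ y * z * ρ y⁻¹) := by
      simp only [mul_assoc]
      rw [← mul_assoc (ρ y⁻¹) (ρ y), e2, one_mul]
    rw [e]
    exact mul_mem h1 h2

theorem gfin_comm {ι : Type} [Fintype ι] [DecidableEq ι] {F : Type*} [Field F] [CharZero F]
    {Γ : Type*} [Group Γ] (ρ : Γ →* Matrix ι ι F) (hρ : Submodule.span F (Set.range ρ) = ⊤)
    {S : Set (Matrix ι ι F)} (hS : ∀ W ∈ S, ∀ y : Γ, ρ y * W * ρ y⁻¹ ∈ S) {g : Γ}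
    (h : ∀ W ∈ S, ∀ a ∈ Algebra.adjoin F (S ∪ {ρ g, ρ g⁻¹}),
      ((ρ g * W - W * ρ g) * a).trace = 0) : ∀ W ∈ S, ρ g * W = W * ρ g := by
  intro W hW
  have e1 : ρ g * ρ g⁻¹ = 1 := by rw [← map_mul, mul_inv_cancel, map_one]
  have e2 : ρ g⁻¹ * ρ g = 1 := by rw [← map_mul, inv_mul_cancel, map_one]
  obtain ⟨N, hN⟩ := field2 (S := {x | x ∈ Algebra.adjoin F S ∧
      ∀ a ∈ Algebra.adjoin F S, (x * a).trace = 0}) (by
    intro l hl h1
    obtain ⟨x, l, rfl⟩ := List.exists_cons_of_ne_nil hl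
    rw [List.prod_cons]
    exact (h1 x List.mem_cons_self).2 _
      (Subalgebra.list_prod_mem _ fun z hz => (h1 z (List.mem_cons_of_mem _ hz)).1))
  have h2 := gfin_zero ρ hρ (J := {x | x ∈ Algebra.adjoin F S ∧
      ∀ a ∈ Algebra.adjoin F S, (x * a).trace = 0}) (fun x hx y =>
    ⟨gfin_conj ρ hS y hx.1, fun a ha => by
    have h3 := hx.2 _ (gfin_conj ρ hS y⁻¹ ha)
    rw [inv_inv] at h3
    rw [mul_assoc, mul_assoc, Matrix.trace_mul_comm, ← h3]
    simp only [mul_assoc]⟩) hN (ρ g * W * ρ g⁻¹ - W)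
    ⟨sub_mem (Algebra.subset_adjoin (hS W hW g)) (Algebra.subset_adjoin hW), fun a ha => by
      have h3 := h W hW (ρ g⁻¹ * a) (mul_mem (Algebra.subset_adjoin (by simp))
        (Algebra.adjoin_mono Set.subset_union_left ha))
      rwa [← mul_assoc, sub_mul, mul_assoc W, e1, mul_one] at h3⟩
  have h4 := congrArg (· * ρ g) (sub_eq_zero.1 h2)
  simpa only [mul_assoc, e2, mul_one] using h4

theorem gfin_span {ι : Type} [Fintype ι] [DecidableEq ι] {K F : Type*} [Field K] [Field F]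
    [Algebra K F] {Γ : Type*} (ρ : Γ → Matrix ι ι K) (hρ : Submodule.span K (Set.range ρ) = ⊤) :
    Submodule.span F (Set.range fun x => (ρ x).map (algebraMap K F)) = ⊤ := by
  have h1 : ∀ M ∈ Submodule.span K (Set.range ρ), M.map (algebraMap K F) ∈
      Submodule.span F (Set.range fun x => (ρ x).map (algebraMap K F)) := by
    intro M hM
    induction hM using Submodule.span_induction with
    | mem x hx =>
      obtain ⟨x, rfl⟩ := hx
      exact Submodule.subset_span ⟨x, rfl⟩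
    | zero =>
      rw [Matrix.map_zero _ (map_zero _)]
      exact zero_mem _
    | add x z _ _ h1 h2 =>
      rw [Matrix.map_add _ (map_add _)]
      exact add_mem h1 h2
    | smul c x _ h1 =>
      have e : (c • x).map (algebraMap K F) = algebraMap K F c • x.map (algebraMap K F) := by
        ext i j
        simp
      rw [e]
      exact Submodule.smul_mem _ _ h1
  refine eq_top_iff.2 fun M _ => ?_
  rw [Matrix.matrix_eq_sum_single M]
  refine sum_mem fun i _ => sum_mem fun j _ => ?_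
  have e : Matrix.single i j (M i j) =
      M i j • (Matrix.single i j (1 : K)).map (algebraMap K F) := by
    rw [Matrix.map_single, map_one, Matrix.smul_single, smul_eq_mul, mul_one]
  rw [e]
  exact Submodule.smul_mem _ _ (h1 _ (hρ ▸ Submodule.mem_top))

/-- In an absolutely irreducible representation a bounded left Engel element has finitely many
conjugates. -/
theorem finite_class {ι : Type} [Fintype ι] [DecidableEq ι] {K : Type} [Field K] [CharZero K]
    {Γ : Type*} [Group Γ] (ρ : Γ →* Matrix ι ι K) (hρ : Submodule.span K (Set.range ρ) = ⊤)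
    {n : ℕ} {g : Γ} (h : Eng n g) : {z | ∃ y : Γ, z = ρ (y⁻¹ * g * y)}.Finite := by
  by_contra hinf
  obtain ⟨F, _, _, _, δ, y, hy, hne⟩ := exists_point ρ g hinf
  have : CharZero F := charZero_of_injective_algebraMap (algebraMap K F).injective
  obtain ⟨ρF, hF⟩ : ∃ ρF : Γ →* Matrix ι ι F, ∀ x, ρF x = (ρ x).map (algebraMap K F) :=
    ⟨(algebraMap K F).mapMatrix.toMonoidHom.comp ρ, fun _ => rfl⟩
  obtain ⟨h1, h2⟩ := tangent ρ δ hy ρF hF
  have hS : ∀ W ∈ {W : Matrix ι ι F | ∀ p ∈ vanG ρF, DG W p ∈ vanG ρF}, ∀ x : Γ,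
      ρF x * W * ρF x⁻¹ ∈ {W : Matrix ι ι F | ∀ p ∈ vanG ρF, DG W p ∈ vanG ρF} :=
    fun W hW x => vanG_conj ρF hW x
  have h3 := fieldG (n := n) (g := ρF g) (g' := ρF g⁻¹)
    (S := {W : Matrix ι ι F | ∀ p ∈ vanG ρF, DG W p ∈ vanG ρF})
    (by rw [← map_mul, mul_inv_cancel, map_one]) (by rw [← map_mul, inv_mul_cancel, map_one])
    (fun W hW => ⟨hS W hW g, by simpa only [inv_inv] using hS W hW g⁻¹⟩)
    (formalG fun p hp => vanG_DGl ρF (fun W hW => hW) p (relG_subset ρF h hp))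
  have h4 : Submodule.span F (Set.range ρF) = ⊤ := by
    rw [show (ρF : Γ → Matrix ι ι F) = fun x => (ρ x).map (algebraMap K F) from funext hF]
    exact gfin_span ρ hρ
  exact hne (hF g ▸ h2 g (gfin_comm ρF h4 hS h3 _ h1))

end Pool.Agent.Lib.MP_b39e30_al.Lin
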