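import Pool.Agent.Lib.MP_b39e30_al.Lin.GDefs

set_option autoImplicit false

namespace Pool.Agent.Lib.MP_b39e30_al.Lin

theorem gnil_chain {K M : Type*} [Field K] [AddCommGroup M] [Module K M] [FiniteDimensional K M]
    (F : Submodule K M → Submodule K M) (hF : Monotone F) {N : ℕ} (h : F^[N] ⊤ = ⊥) :
    F^[Module.finrank K M] ⊤ = ⊥ := by
  have h1 : Antitone fun i => F^[i] ⊤ := hF.antitone_iterate_of_map_le le_top
  have key : ∀ i, F^[i] ⊤ = ⊥ ∨
      Module.finrank K (F^[i] ⊤ : Submodule K M) + i ≤ Module.finrank K M := fun i => by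
    induction i with
    | zero => exact Or.inr (Submodule.finrank_le _)
    | succ i ih =>
      rcases (h1 i.le_succ).eq_or_lt with e | e
      · left
        have e1 : F (F^[i] ⊤) = F^[i] ⊤ := (Function.iterate_succ_apply' F i ⊤).symm.trans e
        have e2 : F^[N + i] ⊤ = F^[i] ⊤ := by
          rw [Function.iterate_add_apply, Function.iterate_fixed e1]
        exact le_bot_iff.1 (e.le.trans (e2.ge.trans ((h1 (N.le_add_right i)).trans h.le)))
      · rcases ih with k | k
        · exact absurd (e.trans_le k.le) not_lt_bot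
        · exact Or.inr (by linarith [Submodule.finrank_lt_finrank_of_lt e])
  exact (key _).elim id fun k => Submodule.finrank_eq_zero.1 (by omega)

/-- A nilpotent set of matrices over a field has nilpotency index at most the size. -/
theorem nil_card {ι : Type} [Fintype ι] [DecidableEq ι] {K : Type*} [Field K]
    {S : Set (Matrix ι ι K)} {N : ℕ}
    (h : ∀ l : List (Matrix ι ι K), (∀ W ∈ l, W ∈ S) → l.length = N → l.prod = 0) :
    ∀ l : List (Matrix ι ι K), (∀ W ∈ l, W ∈ S) → l.length = Fintype.card ι → l.prod = 0 := by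
  let F : Submodule K (ι → K) → Submodule K (ι → K) := fun U => ⨆ W ∈ S, U.map W.mulVecLin
  have hF : Monotone F := fun _ _ k => iSup₂_mono fun _ _ => Submodule.map_mono k
  have h1 : ∀ l : List (Matrix ι ι K), (∀ W ∈ l, W ∈ S) →
      ∀ v, l.prod.mulVec v ∈ F^[l.length] ⊤ := fun l hl v => by
    induction l with
    | nil => trivial
    | cons W l ih =>
      rw [List.prod_cons, ← Matrix.mulVec_mulVec, List.length_cons, Function.iterate_succ_apply']
      exact Submodule.mem_iSup_of_mem W (Submodule.mem_iSup_of_mem (hl W List.mem_cons_self)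
        ⟨_, ih fun V k => hl V (List.mem_cons_of_mem W k), rfl⟩)
  have h2 : ∀ i, ∀ l : List (Matrix ι ι K), (∀ W ∈ l, W ∈ S) → l.length + i = N →
      F^[i] ⊤ ≤ LinearMap.ker l.prod.mulVecLin := fun i => by
    induction i with
    | zero => exact fun l hl e v _ => by simp [h l hl e]
    | succ i ih =>
      intro l hl e
      rw [Function.iterate_succ_apply']
      refine iSup₂_le fun W hW => Submodule.map_le_iff_le_comap.2 fun v hv => ?_
      have k := ih (l ++ [W]) (fun V k => (List.mem_append.1 k).elim (hl V)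
        fun k => List.mem_singleton.1 k ▸ hW) (by simp; omega) hv
      simpa using k
  have h3 := gnil_chain F hF (N := N) (le_bot_iff.1 fun v hv => by
    simpa using h2 N [] (by simp) (by simp) hv)
  intro l hl e
  refine Matrix.ext_of_mulVec_single fun i => ?_
  have k := h1 l hl (Pi.single i 1)
  rw [e, ← Module.finrank_fintype_fun_eq_card K, h3] at k
  rw [Matrix.zero_mulVec]
  exact k

/-- Burnside's theorem for the simple module attached to a maximal left ideal. -/
theorem burnside {K A : Type} [Field K] [IsAlgClosed K] [Ring A] [Algebra K A]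
    [FiniteDimensional K A] (m : Ideal A) (hm : m.IsMaximal) :
    ∃ (r : ℕ) (π : A →ₐ[K] Matrix (Fin r) (Fin r) K), Function.Surjective π ∧
      ∀ a, π a = 0 → a ∈ m := by
  have : IsSimpleModule A (A ⧸ m) := isSimpleModule_iff_isCoatom.2 (Ideal.isMaximal_def.1 hm)
  have : FiniteDimensional K (A ⧸ m) :=
    Module.Finite.of_surjective (m.mkQ.restrictScalars K) m.mkQ_surjective
  have : Module.Finite (Module.End A (A ⧸ m)) (A ⧸ m) :=
    Module.Finite.of_restrictScalars_finite K _ _
  let ρ : A →ₐ[K] Module.End K (A ⧸ m) := Algebra.lsmul K K (A ⧸ m)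
  have hρ : Function.Surjective ρ := fun f => by
    obtain ⟨a, ha⟩ := Module.Finite.toModuleEnd_moduleEnd_surjective (R := A) (M := A ⧸ m)
      { f with
        map_smul' := fun c v => by
          obtain ⟨t, rfl⟩ := (IsSimpleModule.algebraMap_end_bijective_of_isAlgClosed K).2 c
          simp }
    exact ⟨a, LinearMap.ext fun v => DFunLike.congr_fun ha v⟩
  let e := LinearMap.toMatrixAlgEquiv (Module.finBasis K (A ⧸ m))
  refine ⟨_, e.toAlgHom.comp ρ, e.surjective.comp hρ, fun a ha => ?_⟩
  have h1 : ρ a = 0 := e.injective (ha.trans (map_zero e).symm)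
  have h2 : a • m.mkQ 1 = 0 := DFunLike.congr_fun h1 (m.mkQ 1)
  rwa [← map_smul, smul_eq_mul, mul_one, Submodule.mkQ_apply, Submodule.Quotient.mk_eq_zero] at h2

end Pool.Agent.Lib.MP_b39e30_al.Lin
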