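import Pool.Agent.Lib.MP_b39e30_al.Lin.GDefs
import Pool.Agent.Lib.MP_b39e30_al.Lin.GFin
import Pool.Agent.Lib.MP_b39e30_al.Lin.GBaer
import Pool.Agent.Lib.MP_b39e30_al.Lin.GComm
import Pool.Agent.Lib.MP_b39e30_al.Lin.GNil

set_option autoImplicit false

namespace Pool.Agent.Lib.MP_b39e30_al.Lin

theorem gthm_simple {r : ℕ} {K : Type} [Field K] [CharZero K] {Γ : Type*} [Group Γ]
    (σ : Γ →* Matrix (Fin r) (Fin r) K) (hσ : Submodule.span K (Set.range σ) = ⊤) {n : ℕ} {g : Γ}
    (h : Eng n g) : ∃ e, ∀ e', e ≤ e' → ∀ f, σ (zw g f e') = 1 := by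
  have hφ := σ.toHomUnits.rangeRestrict_surjective
  have hi : Function.Injective fun z : σ.toHomUnits.range => (z.1 : Matrix (Fin r) (Fin r) K) :=
    Units.val_injective.comp Subtype.val_injective
  obtain ⟨e, he⟩ := zw_of_nilpotent (baer_finite (h.map _ hφ)
    (((finite_class σ hσ h).preimage hi.injOn).subset (by
      rintro _ ⟨y, rfl⟩
      obtain ⟨y, rfl⟩ := hφ y
      exact ⟨y, by rw [← map_inv, ← map_mul, ← map_mul]; rfl⟩)))
  refine ⟨e, fun e' h1 f => ?_⟩
  have h2 := (map_zw σ.toHomUnits.rangeRestrict g f e').trans (zw_mono (he _) h1)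
  exact congrArg (fun z : σ.toHomUnits.range => (z.1 : Matrix (Fin r) (Fin r) K)) h2

theorem gthm_jac {K A : Type} [Field K] [CharZero K] [IsAlgClosed K] [Ring A] [Algebra K A]
    [FiniteDimensional K A] {Γ : Type*} [Group Γ] (ρ : Γ →* A)
    (hρ : Submodule.span K (Set.range ρ) = ⊤) {n : ℕ} {g : Γ} (h : Eng n g) :
    ∃ e, ∀ f, ρ (zw g f e) - 1 ∈ Ideal.jacobson (⊥ : Ideal A) := by
  have : IsArtinianRing A := IsArtinianRing.of_finite K _
  obtain ⟨J, ⟨e, he⟩, hJ⟩ := IsArtinian.set_has_minimal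
    {J : Submodule A A | ∃ e, ∀ e', e ≤ e' → ∀ f, ρ (zw g f e') - 1 ∈ J}
    ⟨⊤, 0, fun _ _ _ => Submodule.mem_top⟩
  refine ⟨e, fun f => Ideal.mem_sInf.2 fun {m} hm => ?_⟩
  obtain ⟨r, π, h1, h2⟩ := burnside (K := K) m hm.2
  obtain ⟨d, hd⟩ := gthm_simple (π.toMonoidHom.comp ρ) (by
    have e1 : Set.range (π.toMonoidHom.comp ρ) = π.toLinearMap '' Set.range ρ := by
      rw [← Set.range_comp]
      rfl
    rw [e1, ← Submodule.map_span, hρ, Submodule.map_top, LinearMap.range_eq_top]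
    exact h1) h
  have h3 := hJ (J ⊓ m) ⟨max e d, fun e' h4 f => ⟨he e' ((le_max_left _ _).trans h4) f,
    h2 _ (by rw [map_sub, map_one, sub_eq_zero]; exact hd e' ((le_max_right _ _).trans h4) f)⟩⟩
  have h4 : J ⊓ m = J := (eq_or_lt_of_le inf_le_left).resolve_right h3
  exact (inf_eq_left.1 h4) (he e le_rfl f)

theorem gthm_prod {A : Type*} [Ring A] (J : Ideal A) (l : List A) (hl : ∀ a ∈ l, a ∈ J) :
    l.prod ∈ J ^ l.length := by
  induction l using List.reverseRecOn with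
  | nil => simp [Submodule.pow_zero]
  | append_singleton l s ih =>
    rw [List.length_append, List.length_singleton, Submodule.pow_succ, List.prod_append,
      List.prod_singleton]
    exact Ideal.mul_mem_mul (ih fun a ha => hl a (List.mem_append_left _ ha)) (hl s (by simp))

/-- The theorem over an algebraically closed field, in a form with bounded witnesses. -/
theorem field_thm {ι : Type} [Fintype ι] [DecidableEq ι] {K : Type} [Field K] [CharZero K]
    [IsAlgClosed K] {Γ : Type*} [Group Γ] (ρ : Γ →* Matrix ι ι K) {n : ℕ} {g : Γ}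
    (h : Eng n g) : ∃ e, PP ρ g e (Fintype.card ι) := by
  let A := Algebra.adjoin K (Set.range ρ)
  let ρ' : Γ →* A := ρ.codRestrict A fun x => Algebra.subset_adjoin ⟨x, rfl⟩
  have hρ : Submodule.span K (Set.range ρ') = ⊤ := by
    refine eq_top_iff.2 fun x _ => ?_
    have h1 : x.1 ∈ Subalgebra.toSubmodule A := x.2
    rw [Algebra.adjoin_eq_span, ← MonoidHom.coe_mrange, Submonoid.closure_eq,
      MonoidHom.coe_mrange] at h1
    have e1 : Set.range ρ = A.val.toLinearMap '' Set.range ρ' := by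
      rw [← Set.range_comp]
      rfl
    rw [e1, ← Submodule.map_span] at h1
    obtain ⟨y, hy, h2⟩ := h1
    rwa [← Subtype.ext h2]
  obtain ⟨e, he⟩ := gthm_jac ρ' hρ h
  have : IsArtinianRing A := IsArtinianRing.of_finite K _
  obtain ⟨N, hN⟩ := IsArtinianRing.isNilpotent_jacobson_bot (R := A)
  refine ⟨e, fun u f => nil_card (S := A.val '' Ideal.jacobson (⊥ : Ideal A)) (N := N)
    (fun l hl h1 => ?_) _ (fun W hW => ?_) (List.length_ofFn)⟩
  · obtain ⟨l', h2, h3⟩ : ∃ l' : List A, (∀ a ∈ l', a ∈ Ideal.jacobson (⊥ : Ideal A)) ∧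
        l'.map A.val = l := by
      clear h1
      induction l with
      | nil => exact ⟨[], by simp, rfl⟩
      | cons a l ih =>
        obtain ⟨l', h2, h3⟩ := ih fun W hW => hl W (List.mem_cons_of_mem _ hW)
        obtain ⟨b, hb, rfl⟩ := hl a List.mem_cons_self
        exact ⟨b :: l', List.forall_mem_cons.2 ⟨hb, h2⟩, by rw [List.map_cons, h3]⟩
    have h4 := gthm_prod _ l' h2
    rw [← List.length_map (f := A.val), h3, h1, hN, Submodule.zero_eq_bot, Ideal.mem_bot] at h4
    rw [← h3, ← map_list_prod, h4, map_zero]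
  · obtain ⟨i, rfl⟩ := List.mem_ofFn.1 hW
    exact ⟨ρ' (u i) * (ρ' (zw g (f i) e) - 1), Ideal.mul_mem_left _ _ (he _), rfl⟩

end Pool.Agent.Lib.MP_b39e30_al.Lin
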