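import Pool.Agent.Lib.MP_b39e30_al.Lin.GDefs
import Pool.Agent.Lib.MP_b39e30_al.Lin.GThm
import Pool.Agent.Lib.MP_b39e30_al.Lin.GComm

set_option autoImplicit false

namespace Pool.Agent.Lib.MP_b39e30_al.Lin

/-- The product in the definition of `PP`. -/
def ulPr {A : Type*} [Ring A] {Γ : Type*} [Group Γ] (ρ : Γ →* A) (g : Γ) (e : ℕ) {d : ℕ}
    (u : Fin d → Γ) (f : Fin d → ℕ → Γ) : A :=
  (List.ofFn fun i => ρ (u i) * (ρ (zw g (f i) e) - 1)).prod

theorem ul_map {A B : Type*} [Ring A] [Ring B] {Γ Γ' : Type*} [Group Γ] [Group Γ'] (ψ : A →+* B)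
    (φ : Γ →* Γ') {ρ : Γ →* A} {σ : Γ' →* B} (h : ∀ x, ψ (ρ x) = σ (φ x)) (g : Γ) (e : ℕ) {d : ℕ}
    (u : Fin d → Γ) (f : Fin d → ℕ → Γ) :
    ψ (ulPr ρ g e u f) = ulPr σ (φ g) e (fun i => φ (u i)) fun i j => φ (f i j) := by
  rw [ulPr, ulPr, map_list_prod, List.map_ofFn]
  congr 2
  funext i
  simp only [Function.comp_apply, map_mul, map_sub, map_one, h, map_zw]

section

variable {ι : Type} [Fintype ι] [DecidableEq ι] {R : Type} [CommRing R] {Γ : Type*} [Group Γ]

theorem ul_iff {K : Type} [CommRing K] (φ : R →+* K) {p : Ideal R} (hp : ∀ x, φ x = 0 ↔ x ∈ p)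
    (ρ : Γ →* Matrix ι ι R) (g : Γ) (e d : ℕ) :
    PP (φ.mapMatrix.toMonoidHom.comp ρ) g e d ↔
      ∀ (u : Fin d → Γ) (f : Fin d → ℕ → Γ) (a b : ι), ulPr ρ g e u f a b ∈ p := by
  refine forall₂_congr fun u f => ?_
  have h := ul_map φ.mapMatrix (MonoidHom.id Γ) (ρ := ρ) (σ := φ.mapMatrix.toMonoidHom.comp ρ)
    (fun _ => rfl) g e u f
  change ulPr (φ.mapMatrix.toMonoidHom.comp ρ) g e u f = 0 ↔ _
  simp only [MonoidHom.id_apply] at h
  rw [← h, ← Matrix.ext_iff]
  exact forall₂_congr fun a b => hp _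

theorem ul_prime [Algebra ℚ R] (p : Ideal R) [p.IsPrime] (ρ : Γ →* Matrix ι ι R) {n : ℕ} {g : Γ}
    (h : Eng n g) : ∃ e, ∀ (u : Fin (Fintype.card ι) → Γ) (f : Fin (Fintype.card ι) → ℕ → Γ)
      (a b : ι), ulPr ρ g e u f a b ∈ p := by
  let K := AlgebraicClosure (FractionRing (R ⧸ p))
  let φ : R →+* K := (algebraMap (FractionRing (R ⧸ p)) K).comp
    ((algebraMap (R ⧸ p) (FractionRing (R ⧸ p))).comp (Ideal.Quotient.mk p))
  have hker : ∀ x, φ x = 0 ↔ x ∈ p := by
    intro x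
    simp only [φ, RingHom.comp_apply,
      map_eq_zero_iff _ (algebraMap (FractionRing (R ⧸ p)) K).injective,
      map_eq_zero_iff _ (IsFractionRing.injective (R ⧸ p) (FractionRing (R ⧸ p))),
      Ideal.Quotient.eq_zero_iff_mem]
  have : CharZero K :=
    charZero_of_injective_ringHom (φ.comp (algebraMap ℚ R)).injective
  exact (field_thm (φ.mapMatrix.toMonoidHom.comp ρ) h).imp fun e he => (ul_iff φ hker ρ g e _).1 he

/-- The ideal of the sequences that lie in the given ideals along the hyperfilter. -/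
def ulId (p : ℕ → Ideal R) : Ideal (ℕ → R) where
  carrier := {x | ∀ᶠ c in (Filter.hyperfilter ℕ : Filter ℕ), x c ∈ p c}
  zero_mem' := Filter.Eventually.of_forall fun c => (p c).zero_mem
  add_mem' := fun {_ _} hx hy => (Filter.Eventually.and hx hy).mono fun c h =>
    (p c).add_mem h.1 h.2
  smul_mem' := fun y _ hx => Filter.Eventually.mono hx fun c h => (p c).mul_mem_left (y c) h

theorem ulId_prime {p : ℕ → Ideal R} (hp : ∀ c, (p c).IsPrime) : (ulId p).IsPrime := by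
  refine ⟨fun h => ?_, fun {x y} h => ?_⟩
  · obtain ⟨c, hc⟩ := Filter.Eventually.exists ((Ideal.eq_top_iff_one _).1 h)
    exact (hp c).ne_top ((Ideal.eq_top_iff_one _).2 hc)
  · exact Ultrafilter.eventually_or.1 (Filter.Eventually.mono h fun c e => (hp c).mem_or_mem e)

/-- The representation of the sequences. -/
def ulRep (ρ : Γ →* Matrix ι ι R) : (ℕ → Γ) →* Matrix ι ι (ℕ → R) where
  toFun x := Matrix.of fun a b c => ρ (x c) a b
  map_one' := by
    ext a b c
    by_cases h : a = b <;> simp [Matrix.one_apply, h]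
  map_mul' x y := by
    ext a b c
    simp [Matrix.mul_apply, Finset.sum_apply]

theorem ul_unif [Algebra ℚ R] (ρ : Γ →* Matrix ι ι R) {n : ℕ} {g : Γ} (h : Eng n g) :
    ∃ e, ∀ p : Ideal R, p.IsPrime →
      PP ((Ideal.Quotient.mk p).mapMatrix.toMonoidHom.comp ρ) g e (Fintype.card ι) := by
  by_contra hne
  push Not at hne
  choose p hp hP using hne
  have hq := ulId_prime hp
  have hE : Eng n (fun _ : ℕ => g) := fun x => funext fun c => by
    have h1 : Function.Semiconj (fun y : ℕ → Γ => y c)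
        (fun y => y⁻¹ * (fun _ : ℕ => g)⁻¹ * y * fun _ : ℕ => g)
        (fun y => y⁻¹ * g⁻¹ * y * g) := fun _ => rfl
    exact (h1.iterate_right n x).trans (h (x c))
  obtain ⟨e, he⟩ := ul_prime (ulId p) (ulRep ρ) hE
  have h2 : ∀ c, ∃ (u : Fin (Fintype.card ι) → Γ) (f : Fin (Fintype.card ι) → ℕ → Γ),
      e ≤ c → ¬ ∀ a b, ulPr ρ g e u f a b ∈ p c := fun c => by
    by_contra h3
    push Not at h3
    exact hP c (((ul_iff _ (fun _ => Ideal.Quotient.eq_zero_iff_mem) ρ g e _).2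
      fun u f => (h3 u f).2).mono (h3 1 1).1)
  choose u f h2 using h2
  have h3 : ∀ᶠ c in (Filter.hyperfilter ℕ : Filter ℕ), ∀ a b,
      ulPr (ulRep ρ) (fun _ => g) e (fun i c => u c i) (fun i j c => f c i j) a b c ∈ p c :=
    Filter.eventually_all.2 fun a => Filter.eventually_all.2 fun b => he _ _ a b
  obtain ⟨c, h4, h5⟩ :=
    (h3.and (Nat.hyperfilter_le_atTop (Filter.eventually_ge_atTop e))).exists
  refine h2 c h5 fun a b => ?_
  have h6 := ul_map (Pi.evalRingHom (fun _ : ℕ => R) c).mapMatrix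
    (Pi.evalMonoidHom (fun _ : ℕ => Γ) c) (ρ := ulRep ρ) (σ := ρ) (fun _ => rfl) (fun _ => g) e
    (fun i c => u c i) fun i j c => f c i j
  have h7 := congrFun (congrFun h6 a) b
  exact h7 ▸ h4 a b

theorem ul_nil {M : Matrix ι ι R} (h : ∀ a b, IsNilpotent (M a b)) : IsNilpotent M := by
  let I : Ideal R := Ideal.span (Set.range fun x : ι × ι => M x.1 x.2)
  have h1 : I.FG := Submodule.fg_span (Set.finite_range _)
  obtain ⟨k, hk⟩ := h1.isNilpotent_iff_le_nilradical.2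
    (Ideal.span_le.2 (Set.range_subset_iff.2 fun x => h x.1 x.2))
  have h2 : ∀ k a b, (M ^ k) a b ∈ I ^ k := fun k => by
    induction k with
    | zero => simp
    | succ k ih =>
      intro a b
      rw [pow_succ, pow_succ, Matrix.mul_apply]
      exact Ideal.sum_mem _ fun c _ =>
        Ideal.mul_mem_mul (ih a c) (Ideal.subset_span ⟨(c, b), rfl⟩)
  refine ⟨k, Matrix.ext fun a b => ?_⟩
  have h3 := h2 k a b
  rwa [hk] at h3

end

/-- Uniformity over all prime ideals, by an ultraproduct. -/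
theorem ultra {ι : Type} [Fintype ι] [DecidableEq ι] {R : Type} [CommRing R] [Algebra ℚ R]
    {Γ : Type*} [Group Γ] (ρ : Γ →* Matrix ι ι R) {n : ℕ} {g : Γ} (h : Eng n g) :
    ∃ e, ∀ w ∈ ZN g e, IsNilpotent (ρ w - 1) := by
  obtain ⟨e, he⟩ := ul_unif ρ h
  refine ⟨e, fun w hw => IsNilpotent.of_pow (m := Fintype.card ι) (ul_nil fun a b => ?_)⟩
  refine nilpotent_iff_mem_prime.2 fun p hp => Ideal.Quotient.eq_zero_iff_mem.1 ?_
  have h1 : (Ideal.Quotient.mk p).mapMatrix ((ρ w - 1) ^ Fintype.card ι) = 0 := by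
    rw [map_pow, map_sub, map_one]
    exact (he p hp).pow w hw
  exact congrFun (congrFun h1 a) b

end Pool.Agent.Lib.MP_b39e30_al.Lin
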