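import Pool.Agent.Lib.MP_b39e30_al.Lin.GDefs
import Pool.Agent.Lib.MP_b39e30_al.Lin.GEngine
import Pool.Agent.Lib.MP_b39e30_al.Lin.GUltra
import Pool.Agent.Lib.MP_b39e30_al.Lin.GFilt
import Pool.Agent.Lib.MP_b39e30_al.Lin.GChain
import Pool.Agent.Lib.MP_b39e30_al.Lin.GUnip

set_option autoImplicit false

namespace Pool.Agent.Lib.MP_b39e30_al.Lin

/-- A bounded left Engel element of a linear group over a commutative `ℚ`-algebra generates a
subnormal subgroup. -/
theorem mainG {ι : Type} [Fintype ι] [DecidableEq ι] {R : Type} [CommRing R] [Algebra ℚ R]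
    {Γ : Type*} [Group Γ] (ρ : Γ →* Matrix ι ι R) (hρ : Function.Injective ρ) {n : ℕ} {g : Γ}
    (h : Eng n g) : (Subgroup.zpowers g).IsSubnormal := by
  obtain ⟨e, he⟩ := ultra ρ h
  have := ZN_normal g e
  obtain ⟨m, hm⟩ := engineG ρ (ZN g e) h
  have hu : ∀ W ∈ Submodule.span ℚ (logs ρ (ZN g e)),
      (fun Z => ρ g⁻¹ * Z * ρ g - Z)^[n] W = 0 := fun W hW =>
    GE.unip (by rw [← map_mul, mul_inv_cancel, map_one])
      (by rw [← map_mul, inv_mul_cancel, map_one])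
      (formalG (S := Submodule.span ℚ (logs ρ (ZN g e)))
        (fun p hp => vanG_DGl ρ (logs_DG ρ _) p (relG_subset ρ h hp)) W (LG.mem hW))
  obtain ⟨J, M, hA, h0, h1, h2, hM⟩ := filt ρ g (ZN g e) he hu hm
  exact Subgroup.IsSubnormal.trans le_sup_left
    (chain ρ hρ g _ (Subgroup.mem_sup_left (Subgroup.mem_zpowers g)) J M hA h0 h1 h2 hM)
    (ZN_subnormal g e)

end Pool.Agent.Lib.MP_b39e30_al.Lin
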