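import Mathlib

set_option autoImplicit false

namespace Pool.Agent.Lib.MP_b39e30_al.Lin

/-- A commutative ring with torsion-free additive group embeds in a commutative `ℚ`-algebra. -/
theorem exists_rat_algebra (R : Type) [CommRing R] [IsAddTorsionFree R] :
    ∃ (R' : Type) (_ : CommRing R') (_ : Algebra ℚ R') (φ : R →+* R'), Function.Injective φ := by
  let T : Submonoid R := (nonZeroDivisors ℤ).map (Int.castRingHom R)
  have hT : T ≤ nonZeroDivisors R := by
    rintro _ ⟨m, hm, rfl⟩
    have hm0 : m ≠ 0 := nonZeroDivisors.ne_zero hm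
    refine mem_nonZeroDivisors_iff_left.2 fun x hx => ?_
    have h1 : m • x = m • (0 : R) := by simpa [zsmul_eq_mul] using hx
    exact zsmul_right_injective hm0 h1
  let ψ : ℚ →+* Localization T := IsLocalization.lift (M := nonZeroDivisors ℤ)
    (g := (algebraMap R (Localization T)).comp (Int.castRingHom R))
    fun m => IsLocalization.map_units (Localization T) (⟨_, m, m.2, rfl⟩ : T)
  exact ⟨Localization T, inferInstance, ψ.toAlgebra, algebraMap R _,
    IsLocalization.injective _ hT⟩

end Pool.Agent.Lib.MP_b39e30_al.Lin
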