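import Pool.Agent.Lib.MP_b39e30_al.Lin.PHig
import Pool.Agent.Lib.MP_b39e30_al.Lin.Field2

/-!
An algebra of endomorphisms of a finitely generated module whose elements are, modulo commutators,
nilpotent of bounded index is nilpotent.
-/

set_option autoImplicit false

namespace Pool.Agent.Lib.MP_b39e30_al.Lin

section Mat

variable {ι : Type} [Fintype ι] [DecidableEq ι] {R : Type} [CommRing R]

theorem pn_ent (D : Matrix ι ι R) (h : ∀ i j, IsNilpotent (D i j)) : IsNilpotent D := by
  let I : Ideal R := Ideal.span (Set.range fun p : ι × ι => D p.1 p.2)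
  obtain ⟨k, hk⟩ : IsNilpotent I :=
    (Ideal.FG.isNilpotent_iff_le_nilradical (Submodule.fg_span (Set.finite_range _))).2
      (Ideal.span_le.2 (by rintro _ ⟨p, rfl⟩; exact h p.1 p.2))
  have h1 : ∀ n i j, (D ^ n) i j ∈ I ^ n := fun n => by
    induction n with
    | zero => simp
    | succ n ih =>
      intro i j
      rw [pow_succ, pow_succ, Matrix.mul_apply]
      exact Ideal.sum_mem _ fun l _ =>
        Ideal.mul_mem_mul (ih i l) (Ideal.subset_span ⟨(l, j), rfl⟩)
  refine ⟨k, Matrix.ext fun i j => ?_⟩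
  have h2 := h1 k i j
  rwa [hk] at h2

theorem pn_mat [Algebra ℚ R] (X : Matrix ι ι R) (h : ∀ i, IsNilpotent (X ^ (i + 1)).trace) :
    IsNilpotent X := by
  refine IsNilpotent.of_pow (m := Fintype.card ι) (pn_ent _ fun i j => ?_)
  refine nilpotent_iff_mem_prime.2 fun p hp => ?_
  let K := FractionRing (R ⧸ p)
  let φ : R →+* K := (algebraMap (R ⧸ p) K).comp (Ideal.Quotient.mk p)
  have hker : ∀ x, φ x = 0 ↔ x ∈ p := fun x => by
    simp only [φ, RingHom.comp_apply, map_eq_zero_iff _ (IsFractionRing.injective (R ⧸ p) K),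
      Ideal.Quotient.eq_zero_iff_mem]
  have : CharZero K := charZero_of_injective_ringHom (φ.comp (algebraMap ℚ R)).injective
  have h1 : ∀ i, (φ.mapMatrix X ^ (i + 1)).trace = 0 := fun i => by
    rw [← map_pow, RingHom.mapMatrix_apply, ← AddMonoidHom.map_trace]
    exact ((h i).map φ).eq_zero
  have h2 : IsNilpotent (φ.mapMatrix X) := field2_nil fun q => by
    induction q using Polynomial.induction_on' with
    | add p q hp hq => rw [map_add, add_mul, Matrix.trace_add, hp, hq, add_zero]
    | monomial i c =>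
      rw [Polynomial.aeval_monomial, mul_assoc, ← pow_succ, ← Algebra.smul_def,
        Matrix.trace_smul, h1, smul_zero]
  have h3 := (Matrix.isNilpotent_charpoly_sub_pow_of_isNilpotent h2).eq_zero
  have h4 := Matrix.aeval_self_charpoly (φ.mapMatrix X)
  rw [sub_eq_zero.1 h3, map_pow, Polynomial.aeval_X, ← map_pow] at h4
  exact (hker _).1 (congrFun (congrFun h4 i) j)

end Mat

/-- Uniformity of the nilpotency index, by a product of counterexamples. -/
theorem pn_unif (r m k : ℕ) : ∃ N : ℕ, ∀ (R : Type) [CommRing R] [Algebra ℚ R]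
    (X : Matrix (Fin r) (Fin r) R), (∀ i, ∃ Y : Matrix (Fin r) (Fin r) R,
      (∀ a b, (Y ^ m) a b ^ k = 0) ∧ ((X ^ (i + 1)).trace - Y.trace) ^ k = 0) → X ^ N = 0 := by
  by_contra hc
  push Not at hc
  choose R _ _ X hX hN using hc
  choose Y hY hT using hX
  let X' : Matrix (Fin r) (Fin r) (∀ c, R c) := Matrix.of fun a b c => X c a b
  let Y' : ℕ → Matrix (Fin r) (Fin r) (∀ c, R c) := fun i => Matrix.of fun a b c => Y c i a b
  have hx : ∀ c n, (Pi.evalRingHom R c).mapMatrix (X' ^ n) = X c ^ n := fun c n => map_pow _ _ _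
  have hy : ∀ c i n, (Pi.evalRingHom R c).mapMatrix (Y' i ^ n) = Y c i ^ n :=
    fun c i n => map_pow _ _ _
  obtain ⟨N, h⟩ := pn_mat X' fun i => by
    have h1 : IsNilpotent (Y' i) := IsNilpotent.of_pow (m := m) (pn_ent _ fun a b =>
      ⟨k, funext fun c => by
        have h2 : (Y' i ^ m) a b c = (Y c i ^ m) a b := congrFun (congrFun (hy c i m) a) b
        rw [Pi.pow_apply, h2, hY, Pi.zero_apply]⟩)
    have h3 : IsNilpotent ((X' ^ (i + 1)).trace - (Y' i).trace) := ⟨k, funext fun c => by
      have h4 : (X' ^ (i + 1)).trace c = (X c ^ (i + 1)).trace := by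
        rw [← hx]
        exact AddMonoidHom.map_trace (Pi.evalRingHom R c) (X' ^ (i + 1))
      have h5 : (Y' i).trace c = (Y c i).trace :=
        AddMonoidHom.map_trace (Pi.evalRingHom R c) (Y' i)
      rw [Pi.pow_apply, Pi.sub_apply, h4, h5, hT, Pi.zero_apply]⟩
    simpa using (Commute.all _ _).isNilpotent_add h3 (Matrix.isNilpotent_trace_of_isNilpotent h1)
  exact hN N (by rw [← hx, h, map_zero])

theorem pn_sum {R ι : Type*} [CommRing R] (s : Finset ι) {f : ι → R} {N : ℕ}
    (h : ∀ i, f i ^ N = 0) : (∑ i ∈ s, f i) ^ (s.card * N + 1) = 0 := by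
  classical
  induction s using Finset.induction_on with
  | empty => simp
  | insert i s hi ih =>
    rw [Finset.sum_insert hi, Finset.card_insert_of_notMem hi]
    exact (Commute.all _ _).add_pow_eq_zero_of_add_le_succ_of_pow_eq_zero (h i) ih (by nlinarith)

section Mod

variable {R M : Type} [CommRing R] [AddCommGroup M] [Module R M]

theorem pn_rep {r : ℕ} {c : Fin r → M} {a : R}
    (ha : ∀ v, a • v ∈ Submodule.span R (Set.range c)) (f : Module.End R M) :
    ∃ A : Matrix (Fin r) (Fin r) R, A.Represents c (a • f) := by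
  choose w hw using fun j => (Submodule.mem_span_range_iff_exists_fun R).1 (ha (f (c j)))
  exact ⟨Matrix.of fun i j => w j i, Matrix.represents_iff'.2 fun j => hw j⟩

theorem pn_sub {r : ℕ} {c : Fin r → M} {A A' : Matrix (Fin r) (Fin r) R} {f f' : Module.End R M}
    (h : A.Represents c f) (h' : A'.Represents c f') : (A - A').Represents c (f - f') := by
  have h1 := h.add (h'.smul (-1 : R))
  rwa [neg_one_smul, neg_one_smul, ← sub_eq_add_neg, ← sub_eq_add_neg] at h1

theorem pn_pow {r : ℕ} {c : Fin r → M} {A : Matrix (Fin r) (Fin r) R} {f : Module.End R M}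
    (h : A.Represents c f) (n : ℕ) : (A ^ n).Represents c (f ^ n) := by
  induction n with
  | zero => simpa only [pow_zero] using Matrix.Represents.one
  | succ n ih => simpa only [pow_succ] using ih.mul h

theorem pn_comm {r : ℕ} {c : Fin r → M} {a : R}
    (ha : ∀ v, a • v ∈ Submodule.span R (Set.range c)) {z : Module.End R M}
    (hz : z ∈ Submodule.span R {z | ∃ φ ψ : Module.End R M, z = φ * ψ - ψ * φ}) :
    ∃ A : Matrix (Fin r) (Fin r) R, A.Represents c ((a * a) • z) ∧ A.trace = 0 := by
  induction hz using Submodule.span_induction with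
  | mem z hz =>
    obtain ⟨φ, ψ, rfl⟩ := hz
    obtain ⟨A, hA⟩ := pn_rep ha φ
    obtain ⟨B, hB⟩ := pn_rep ha ψ
    refine ⟨A * B - B * A, ?_, by rw [Matrix.trace_sub, Matrix.trace_mul_comm, sub_self]⟩
    have h := pn_sub (hA.mul hB) (hB.mul hA)
    rwa [smul_mul_smul_comm, smul_mul_smul_comm, ← smul_sub] at h
  | zero => exact ⟨0, by rw [smul_zero]; exact Matrix.Represents.zero, Matrix.trace_zero _ _⟩
  | add x y _ _ hx hy =>
    obtain ⟨A, h1, h2⟩ := hx
    obtain ⟨B, h3, h4⟩ := hy
    exact ⟨A + B, by rw [smul_add]; exact h1.add h3, by rw [Matrix.trace_add, h2, h4, add_zero]⟩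
  | smul t x _ hx =>
    obtain ⟨A, h1, h2⟩ := hx
    exact ⟨t • A, by rw [smul_comm]; exact h1.smul t, by rw [Matrix.trace_smul, h2, smul_zero]⟩

theorem pn_ind [Algebra ℚ R] (V : Submodule R (Module.End R M))
    (hV : ∀ x ∈ V, ∀ y ∈ V, x * y ∈ V) {m : ℕ}
    (h : ∀ x ∈ V, ∃ y : Module.End R M, y ^ m = 0 ∧
      x - y ∈ Submodule.span R {z | ∃ φ ψ : Module.End R M, z = φ * ψ - ψ * φ}) (r : ℕ) :
    ∃ N : ℕ, ∀ (c : Fin r → M) (a : R), (∀ v, a • v ∈ Submodule.span R (Set.range c)) →
      ∀ x ∈ V, (a • x) ^ N = 0 := by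
  induction r with
  | zero =>
    refine ⟨1, fun c a ha x _ => LinearMap.ext fun v => ?_⟩
    simpa using ha (x v)
  | succ r ih =>
    obtain ⟨N, hN⟩ := ih
    obtain ⟨N', hN'⟩ := pn_unif (r + 1) m ((r + 1) * N + 1)
    refine ⟨N + (2 * N' + 1), fun c a ha x hx => ?_⟩
    let b : Ideal R := (Submodule.span R {(a • x) ^ N}).annihilator
    have hb : ∀ t, t ∈ b ↔ t • (a • x) ^ N = 0 := fun t => Submodule.mem_annihilator_span_singleton _ _
    let π := Ideal.Quotient.mk b
    have h0 : ∀ D : Matrix (Fin (r + 1)) (Fin (r + 1)) R, D.Represents c 0 →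
        ∀ i j, π (D i j) ^ N = 0 := fun D hD i j => by
      have h1 : D i j • c i ∈ Submodule.span R (Set.range fun l => c (i.succAbove l)) := by
        have h2 := Matrix.represents_iff'.1 hD j
        rw [Fin.sum_univ_succAbove _ i, LinearMap.zero_apply, add_eq_zero_iff_eq_neg] at h2
        rw [h2]
        exact neg_mem (Submodule.sum_mem _ fun l _ =>
          Submodule.smul_mem _ _ (Submodule.subset_span ⟨l, rfl⟩))
      have h3 := hN (fun l => c (i.succAbove l)) (D i j * a) (fun v => by
        obtain ⟨w, hw⟩ := (Submodule.mem_span_range_iff_exists_fun R).1 (ha v)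
        rw [mul_smul, ← hw, Fin.sum_univ_succAbove _ i, smul_add, smul_comm]
        exact add_mem (Submodule.smul_mem _ _ h1) (Submodule.smul_mem _ _
          (Submodule.sum_mem _ fun l _ =>
            Submodule.smul_mem _ _ (Submodule.subset_span ⟨l, rfl⟩)))) x hx
      rw [← map_pow, Ideal.Quotient.eq_zero_iff_mem, hb, ← smul_pow, ← mul_smul, h3]
    obtain ⟨X, hX⟩ := pn_rep ha (a • x)
    have h4 := hN' (R ⧸ b) (π.mapMatrix X) fun i => by
      have h5 : x ^ (i + 1) ∈ V := by
        induction i with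
        | zero => simpa using hx
        | succ i ih => rw [pow_succ]; exact hV _ ih _ hx
      obtain ⟨y, h6, h7⟩ := h _ (V.smul_mem ((a * a) ^ i) h5)
      obtain ⟨Y, hY⟩ := pn_rep ha (a • y)
      obtain ⟨Z, hZ, h8⟩ := pn_comm ha h7
      refine ⟨π.mapMatrix Y, fun s t => ?_, ?_⟩
      · have h9 := pn_pow hY m
        rw [smul_pow, smul_pow, h6, smul_zero, smul_zero] at h9
        rw [← map_pow]
        exact pow_eq_zero_of_le (by nlinarith) (h0 _ h9 s t)
      · have h9 := pn_sub (pn_sub (pn_pow hX (i + 1)) hY) hZ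
        have h10 : (a • a • x) ^ (i + 1) - a • a • y - (a * a) • ((a * a) ^ i • x ^ (i + 1) - y)
            = 0 := by
          rw [← mul_smul, ← mul_smul, smul_pow, smul_sub, ← mul_smul, ← pow_succ', sub_self]
        rw [h10] at h9
        have h11 : (π.mapMatrix X ^ (i + 1)).trace - (π.mapMatrix Y).trace =
            ∑ s, π ((X ^ (i + 1) - Y - Z) s s) := by
          rw [← map_pow, ← Matrix.trace_sub, ← map_sub, RingHom.mapMatrix_apply,
            ← AddMonoidHom.map_trace, ← map_sum]
          change _ = π (X ^ (i + 1) - Y - Z).trace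
          rw [Matrix.trace_sub _ Z, h8, sub_zero]
        rw [h11]
        simpa using pn_sum Finset.univ fun s => h0 _ h9 s s
    refine LinearMap.ext fun v => ?_
    obtain ⟨w, hw⟩ := (Submodule.mem_span_range_iff_exists_fun R).1 (ha (x v))
    have h12 : ∀ j, ((a • x) ^ N * (a • a • x) ^ N') (c j) = 0 := fun j => by
      rw [Module.End.mul_apply, ← Matrix.represents_iff'.1 (pn_pow hX N') j, map_sum]
      refine Finset.sum_eq_zero fun i _ => ?_
      rw [← map_pow] at h4
      have h13 := (hb _).1 (Ideal.Quotient.eq_zero_iff_mem.1 (congrFun (congrFun h4 i) j))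
      rw [map_smul, ← LinearMap.smul_apply, h13, LinearMap.zero_apply]
    have h14 : (a • x) ^ (N + (2 * N' + 1)) =
        x ^ N' * ((a • x) ^ N * (a • a • x) ^ N') * (a • x) := by
      simp only [smul_pow, smul_mul_assoc, mul_smul_comm, smul_smul, ← pow_add, ← pow_succ]
      congr 1
      · ring
      · congr 1
        ring
    rw [h14, Module.End.mul_apply, Module.End.mul_apply, LinearMap.smul_apply, ← hw, map_sum,
      Finset.sum_eq_zero fun j _ => by rw [map_smul, h12, smul_zero], map_zero,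
      LinearMap.zero_apply]

/-- An algebra of endomorphisms whose elements are nilpotent of bounded index modulo commutators
is nilpotent. -/
theorem modNil [Algebra ℚ R] [Module.Finite R M] (V : Submodule R (Module.End R M))
    (hV : ∀ x ∈ V, ∀ y ∈ V, x * y ∈ V) {m : ℕ}
    (h : ∀ x ∈ V, ∃ y : Module.End R M, y ^ m = 0 ∧
      x - y ∈ Submodule.span R {z | ∃ φ ψ : Module.End R M, z = φ * ψ - ψ * φ}) :
    ∃ s : ℕ, ∀ l : List (Module.End R M), (∀ x ∈ l, x ∈ V) → l.length = s → l.prod = 0 := by
  let _ : Algebra ℚ (Module.End R M) :=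
    ((algebraMap R (Module.End R M)).comp (algebraMap ℚ R)).toAlgebra'
      fun c x => Algebra.commutes (algebraMap ℚ R c) x
  obtain ⟨r, c, hc⟩ := Module.Finite.exists_fin (R := R) (M := M)
  obtain ⟨N, hN⟩ := pn_ind V hV h r
  let V' : Submodule ℚ (Module.End R M) :=
    { carrier := V
      add_mem' := V.add_mem
      zero_mem' := V.zero_mem
      smul_mem' := fun t x hx => by
        have h1 := V.smul_mem (algebraMap ℚ R t) hx
        rwa [Algebra.smul_def] at h1 }
  obtain ⟨s, hs⟩ := nagata_higman (V := V') hV N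
  refine ⟨s, hs ⊥ (fun v _ u hu => ?_) fun x hx => ?_⟩
  · rw [(Submodule.mem_bot ℚ).1 hu, mul_zero, zero_mul]
    exact ⟨zero_mem _, zero_mem _⟩
  · have h1 := hN c 1 (fun v => by rw [hc]; trivial) x hx
    rwa [one_smul] at h1

end Mod

end Pool.Agent.Lib.MP_b39e30_al.Lin
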