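import Pool.Agent.Lib.MP_b39e30_al.Lin.MMain
import Pool.Agent.Lib.MP_b39e30_al.Lin.PNil

/-!
The conjugates of a unipotent bounded left Engel element act unitriangularly.
-/

set_option autoImplicit false

namespace Pool.Agent.Lib.MP_b39e30_al.Lin

/-- The weight filtration, for a normal subgroup whose elements need not be unipotent. -/
theorem filt3 {Γ A : Type*} [Group Γ] [Ring A] [Algebra ℚ A] (ρ : Γ →* A) (g : Γ)
    (N : Subgroup Γ) [N.Normal] {n m : ℕ}
    (hu : ∀ W ∈ Submodule.span ℚ (logs ρ N), (fun Z => ρ g⁻¹ * Z * ρ g - Z)^[n] W = 0)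
    (hm : ∀ l : List (Fin 4 × A), (∀ p ∈ l, p.2 ∈ Submodule.span ℚ (logs ρ N)) → m ≤ nC l →
      (l.map (letter (ρ g) (ρ g⁻¹))).prod = 0) :
    ∃ (J : ℕ → Submodule ℚ A) (M : ℕ), (∀ w ∈ N, IsNilpotent (ρ w - 1) → ρ w ∈ J 0) ∧
      (∀ v w, ∀ a ∈ J v, ∀ b ∈ J w, a * b ∈ J (v + w)) ∧
      (∀ b ∈ J 0, ρ g⁻¹ * b * ρ g - b ∈ J 1) ∧ J M = ⊥ := by
  set L := Submodule.span ℚ (logs ρ N) with hLd
  have h1 : ρ g⁻¹ * ρ g = 1 := by rw [← map_mul, inv_mul_cancel, map_one]
  have h2 : ρ g * ρ g⁻¹ = 1 := by rw [← map_mul, mul_inv_cancel, map_one]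
  have hL : ∀ W ∈ L, ρ g⁻¹ * W * ρ g ∈ L := fun W hW => by
    simpa only [inv_inv] using logs_conj ρ N g⁻¹ W hW
  refine ⟨filtS (ρ g) (ρ g⁻¹) L, m * n + 1, fun w hw hN => ?_,
    fun _ _ _ ha _ hb => filt_mul ha hb, fun b hb => ?_, ?_⟩
  · obtain ⟨k, X, hk, hX⟩ := setup_log hN
    rw [add_sub_cancel] at hX
    have h3 : X ∈ L := Submodule.subset_span ⟨⟨k, hk⟩, w, hw, by rw [← hX, E_eq_exp hk]⟩
    have h4 : X ∈ filtS (ρ g) (ρ g⁻¹) L 0 := FiltL.mem (Or.inr ⟨X, h3, rfl⟩)
    have h5 : ∀ i : ℕ, X ^ i ∈ filtS (ρ g) (ρ g⁻¹) L 0 := fun i => by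
      induction i with
      | zero => rw [pow_zero]; exact FiltW.one.mem
      | succ i ih => rw [pow_succ]; exact filt_mul (v := 0) (w := 0) ih h4
    rw [← hX]
    exact Submodule.sum_mem _ fun i _ => Submodule.smul_mem _ _ (h5 i)
  · induction hb using Submodule.span_induction with
    | mem a ha =>
      obtain ⟨v, h3, h4⟩ := ha
      exact filt_anti (Nat.succ_le_succ h3) (h4.step h1 h2 hL)
    | zero => simp
    | add a b _ _ ha hb =>
      rw [mul_add, add_mul, add_sub_add_comm]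
      exact add_mem ha hb
    | smul c a _ ha =>
      rw [mul_smul_comm, smul_mul_assoc, ← smul_sub]
      exact Submodule.smul_mem _ c ha
  · refine Submodule.span_eq_bot.2 ?_
    rintro a ⟨v, h4, h5⟩
    rcases h5.list h1 hL hu with h | ⟨l, k1, k2, rfl⟩
    · exact h
    refine hm l k1 (le_of_not_gt fun h => ?_)
    have := Nat.mul_le_mul_left n h.le
    rw [mul_comm m n] at h4
    omega

theorem pu_conj {Γ A : Type*} [Group Γ] [Ring A] (σ : Γ →* A) {g : Γ}
    (hu : IsNilpotent (σ g - 1)) (u : Γ) :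
    IsNilpotent (σ (u * g * u⁻¹) - 1) ∧ IsNilpotent (σ (u * g * u⁻¹)⁻¹ - 1) := by
  have h1 : IsNilpotent (σ (u * g * u⁻¹) - 1) := by
    obtain ⟨k, hk⟩ := hu
    have h2 : σ (u * g * u⁻¹) - 1 = (σ.toHomUnits u : A) * (σ g - 1) * ((σ.toHomUnits u)⁻¹ : Aˣ) := by
      rw [mul_sub, sub_mul, mul_one, Units.mul_inv, map_mul, map_mul, ← map_inv]
      rfl
    exact ⟨k, by rw [h2, Units.conj_pow, hk, mul_zero, zero_mul]⟩
  refine ⟨h1, ?_⟩
  generalize u * g * u⁻¹ = w at h1
  have h3 : σ w⁻¹ - 1 = -(σ w⁻¹ * (σ w - 1)) := by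
    rw [mul_sub, ← map_mul, inv_mul_cancel, map_one, mul_one, neg_sub]
  rw [h3]
  exact (Commute.isNilpotent_mul_left (((Commute.refl w).inv_left.map σ).sub_right
    (Commute.one_right _)) h1).neg

/-- Products of many elements `σ h - 1`, `h` conjugate to `g`, vanish. -/
theorem unipPP {R M : Type} [CommRing R] [Algebra ℚ R] [AddCommGroup M] [Module R M]
    [Module.Finite R M] {Γ : Type*} [Group Γ] (σ : Γ →* Module.End R M) {n : ℕ} {g : Γ}
    (h : Eng n g) (hu : IsNilpotent (σ g - 1)) : ∃ s : ℕ, ∀ f : Fin s → Γ,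
      (List.ofFn fun i => σ ((f i)⁻¹ * g * f i) - 1).prod = 0 := by
  let _ : Algebra ℚ (Module.End R M) :=
    ((algebraMap R (Module.End R M)).comp (algebraMap ℚ R)).toAlgebra'
      fun c x => Algebra.commutes (algebraMap ℚ R c) x
  let H := Subgroup.normalClosure ({g} : Set Γ)
  have hn : H.Normal := Subgroup.normalClosure_normal
  have hg : g ∈ H := Subgroup.subset_normalClosure rfl
  obtain ⟨hG, m, hm⟩ := engineM σ H h
  obtain ⟨J, k, h0, h1, h2, hk⟩ := filt3 σ g H (fun W hW =>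
    GE.unip (by rw [← map_mul, mul_inv_cancel, map_one])
      (by rw [← map_mul, inv_mul_cancel, map_one]) (hG W hW)) hm
  have h3 : ∀ w ∈ H, σ w ∈ J 0 ∧ σ w⁻¹ ∈ J 0 := fun w hw => by
    induction hw using Subgroup.closure_induction with
    | mem x hx =>
      obtain ⟨a, ha, hx'⟩ := Group.mem_conjugatesOfSet_iff.1 hx
      rw [Set.mem_singleton_iff.1 ha] at hx'
      obtain ⟨u, rfl⟩ := isConj_iff.1 hx'
      exact ⟨h0 _ (hn.conj_mem _ hg u) (pu_conj σ hu u).1,
        h0 _ (inv_mem (hn.conj_mem _ hg u)) (pu_conj σ hu u).2⟩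
    | one =>
      rw [inv_one, and_self]
      exact h0 1 (one_mem _) (by simp)
    | mul x y _ _ hx hy =>
      rw [mul_inv_rev, map_mul, map_mul]
      exact ⟨h1 0 0 _ hx.1 _ hy.1, h1 0 0 _ hy.2 _ hx.2⟩
    | inv x _ hx => rw [inv_inv]; exact hx.symm
  let I : ℕ → Submodule R (Module.End R M) := fun v => Submodule.span R (J v : Set _)
  have hI : ∀ v w, ∀ a ∈ I v, ∀ b ∈ I w, a * b ∈ I (v + w) := fun v w a ha b hb => by
    have h4 := Submodule.mul_mem_mul ha hb
    rw [Submodule.span_mul_span] at h4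
    refine Submodule.span_mono ?_ h4
    rintro _ ⟨a, ha, b, hb, rfl⟩
    exact h1 _ _ a ha b hb
  have hs : ∀ w ∈ H, σ w ∈ I 0 := fun w hw => Submodule.subset_span (h3 w hw).1
  have h1' : (1 : Module.End R M) ∈ I 0 := by simpa using hs 1 (one_mem _)
  have hx : σ g - 1 ∈ I 0 := sub_mem (hs g hg) h1'
  have hc : ∀ b ∈ I 0, (σ g - 1) * b - b * (σ g - 1) ∈ I 1 := fun b hb => by
    induction hb using Submodule.span_induction with
    | mem b hb =>
      have h4 : (σ g - 1) * b - b * (σ g - 1) = -(σ g * (σ g⁻¹ * b * σ g - b)) := by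
        rw [mul_sub (σ g), ← mul_assoc, ← mul_assoc, ← map_mul, mul_inv_cancel, map_one]
        noncomm_ring
      rw [h4]
      exact neg_mem (hI 0 1 _ (hs g hg) _ (Submodule.subset_span (h2 b hb)))
    | zero => simp
    | add a b _ _ ha hb =>
      rw [mul_add, add_mul, add_sub_add_comm]
      exact add_mem ha hb
    | smul c a _ ha =>
      rw [mul_smul_comm, smul_mul_assoc, ← smul_sub]
      exact Submodule.smul_mem _ c ha
  have hp : ∀ y ∈ I 1, y ^ k = 0 := fun y hy => by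
    have h4 : ∀ i, y ^ i ∈ I i := fun i => by
      induction i with
      | zero => rwa [pow_zero]
      | succ i ih => rw [pow_succ]; exact hI _ _ _ ih _ hy
    simpa [I, hk] using h4 k
  obtain ⟨q, hq⟩ := hu
  let T : Submodule R (Module.End R M) :=
    { carrier := {y | y ∈ I 0 ∧ ∃ c ∈ I 0, y - (σ g - 1) * c ∈ I 1}
      add_mem' := by
        rintro y z ⟨hy, c, h4, h5⟩ ⟨hz, c', h6, h7⟩
        exact ⟨add_mem hy hz, c + c', add_mem h4 h6, by
          rw [mul_add, add_sub_add_comm]; exact add_mem h5 h7⟩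
      zero_mem' := ⟨zero_mem _, 0, zero_mem _, by simp⟩
      smul_mem' := by
        rintro t y ⟨hy, c, h4, h5⟩
        exact ⟨Submodule.smul_mem _ t hy, t • c, Submodule.smul_mem _ t h4, by
          rw [mul_smul_comm, ← smul_sub]; exact Submodule.smul_mem _ t h5⟩ }
  have hT : ∀ y ∈ T, y ^ (q * k) = 0 := by
    rintro y ⟨hy, c, h4, h5⟩
    have h6 : ∀ i, ∃ c' ∈ I 0, y ^ i - (σ g - 1) ^ i * c' ∈ I 1 := fun i => by
      induction i with
      | zero => exact ⟨1, h1', by simp⟩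
      | succ i ih =>
        obtain ⟨c', h7, h8⟩ := ih
        have h9 : ∀ j, (σ g - 1) ^ j ∈ I 0 := fun j => by
          induction j with
          | zero => rwa [pow_zero]
          | succ j ih => rw [pow_succ]; exact hI 0 0 _ ih _ hx
        refine ⟨c' * c, hI 0 0 _ h7 _ h4, ?_⟩
        have h10 : y ^ (i + 1) - (σ g - 1) ^ (i + 1) * (c' * c) =
            (y ^ i - (σ g - 1) ^ i * c') * y + (σ g - 1) ^ i * c' * (y - (σ g - 1) * c) -
              (σ g - 1) ^ i * ((σ g - 1) * c' - c' * (σ g - 1)) * c := by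
          rw [pow_succ, pow_succ]
          generalize σ g - 1 = x
          noncomm_ring
        rw [h10]
        exact sub_mem (add_mem (hI 1 0 _ h8 _ hy) (hI 0 1 _ (hI 0 0 _ (h9 i) _ h7) _ h5))
          (hI 1 0 _ (hI 0 1 _ (h9 i) _ (hc c' h7)) _ h4)
    obtain ⟨c', -, h7⟩ := h6 q
    rw [hq, zero_mul, sub_zero] at h7
    rw [pow_mul, hp _ h7]
  let V : Submodule R (Module.End R M) := Submodule.span R {x | ∃ a ∈ H, ∃ b ∈ H, ∃ u : Γ,
    x = σ a * (σ (u⁻¹ * g * u) - 1) * σ b}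
  have hV1 : ∀ c ∈ H, ∀ x ∈ V, x * σ c ∈ V := fun c hc x hx => by
    induction hx using Submodule.span_induction with
    | mem x hx =>
      obtain ⟨a, ha, b, hb, u, rfl⟩ := hx
      exact Submodule.subset_span ⟨a, ha, b * c, mul_mem hb hc, u, by
        rw [mul_assoc, ← map_mul]⟩
    | zero => rw [zero_mul]; exact zero_mem _
    | add x y _ _ hx hy => rw [add_mul]; exact add_mem hx hy
    | smul t x _ hx => rw [smul_mul_assoc]; exact V.smul_mem t hx
  obtain ⟨s, hs'⟩ := modNil V (m := q * k)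
    (fun x hx y hy => by
      induction hy using Submodule.span_induction with
      | mem y hy =>
        obtain ⟨a, ha, b, hb, u, rfl⟩ := hy
        rw [mul_sub, sub_mul, mul_sub, mul_one, ← map_mul, ← map_mul, ← map_mul]
        exact sub_mem (hV1 _ (mul_mem (mul_mem ha (hn.conj_mem' _ hg _)) hb) x hx)
          (hV1 _ (mul_mem ha hb) x hx)
      | zero => rw [mul_zero]; exact zero_mem _
      | add y z _ _ hy hz => rw [mul_add]; exact add_mem hy hz
      | smul t y _ hy => rw [mul_smul_comm]; exact V.smul_mem t hy)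
    fun x hx' => by
      suffices h4 : ∃ y ∈ T,
          x - y ∈ Submodule.span R {z | ∃ φ ψ : Module.End R M, z = φ * ψ - ψ * φ} from
        h4.imp fun y hy => ⟨hT y hy.1, hy.2⟩
      induction hx' using Submodule.span_induction with
      | mem x hx' =>
        obtain ⟨a, ha, b, hb, u, hx'⟩ := hx'
        refine ⟨σ u * x * σ u⁻¹, ?_, Submodule.subset_span ⟨σ u⁻¹, σ u * x, ?_⟩⟩
        · have h5 : σ u * x * σ u⁻¹ = σ (u * a * u⁻¹) * (σ g - 1) * σ (u * b * u⁻¹) := by
            simp only [hx', mul_sub, sub_mul, mul_one, ← map_mul]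
            congr 2 <;> group
          have h6 := hs _ (hn.conj_mem _ ha u)
          have h7 := hs _ (hn.conj_mem _ hb u)
          rw [h5]
          refine ⟨hI 0 0 _ (hI 0 0 _ h6 _ hx) _ h7, _, hI 0 0 _ h6 _ h7, ?_⟩
          rw [← mul_assoc, ← sub_mul, ← neg_sub]
          exact hI 1 0 _ (neg_mem (hc _ h6)) _ h7
        · rw [← mul_assoc (σ u⁻¹), ← map_mul, inv_mul_cancel, map_one, one_mul]
      | zero => exact ⟨0, zero_mem _, by rw [sub_zero]; exact zero_mem _⟩
      | add x y _ _ hx hy =>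
        obtain ⟨x', h4, h5⟩ := hx
        obtain ⟨y', h6, h7⟩ := hy
        exact ⟨x' + y', add_mem h4 h6, by rw [add_sub_add_comm]; exact add_mem h5 h7⟩
      | smul t x _ hx =>
        obtain ⟨x', h4, h5⟩ := hx
        exact ⟨t • x', Submodule.smul_mem _ t h4, by
          rw [← smul_sub]; exact Submodule.smul_mem _ t h5⟩
  refine ⟨s, fun f => hs' _ (fun x hx => ?_) List.length_ofFn⟩
  obtain ⟨i, rfl⟩ := List.mem_ofFn.1 hx
  exact Submodule.subset_span ⟨1, one_mem _, 1, one_mem _, f i, by rw [map_one, one_mul, mul_one]⟩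

end Pool.Agent.Lib.MP_b39e30_al.Lin
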