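import Pool.Agent.Lib.MP_b39e30_al.Lin.Defs

set_option autoImplicit false

namespace Pool.Agent.Lib.MP_b39e30_al.Lin

theorem final_subnormal {Γ : Type*} [Group Γ] {S H : Subgroup Γ} (hS : S.Normal) (hH : H ≤ S)
    {n : ℕ} (hn : S.lowerCentralSeries n = ⊥) : H.IsSubnormal := by
  have key : ∀ i, (H ⊔ S.lowerCentralSeries i).IsSubnormal := by
    intro i
    induction i with
    | zero =>
      rw [Subgroup.lowerCentralSeries_zero, sup_eq_right.2 hH]
      exact hS.isSubnormal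
    | succ i ih =>
      have hle : H ⊔ S.lowerCentralSeries (i + 1) ≤ H ⊔ S.lowerCentralSeries i :=
        sup_le_sup_left (S.lowerCentralSeries_antitone i.le_succ) _
      refine Subgroup.IsSubnormal.step _ _ hle ih ?_
      rw [Subgroup.normal_subgroupOf_iff_le_normalizer hle]
      refine sup_le (le_sup_left.trans Subgroup.le_normalizer) ?_
      rw [Subgroup.le_normalizer_iff_commutator_le_right]
      exact (Subgroup.commutator_mono le_rfl
        (sup_le hH (S.lowerCentralSeries_le_self _))).trans le_sup_right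
  simpa [hn] using key n

theorem final_filt (R : Type*) {A : Type*} [CommRing R] [Ring A] [Algebra R A] (S : Set A) (m : ℕ)
    (hm : ∀ l : List A, (∀ U ∈ l, U ∈ S) → l.length = m → l.prod = 0) :
    ∃ F : ℕ → Submodule R A, (∀ s t, ∀ a ∈ F s, ∀ b ∈ F t, a * b ∈ F (s + t)) ∧ Antitone F ∧
      1 ∈ F 0 ∧ (∀ U ∈ S, U ∈ F 1) ∧ F m = ⊥ := by
  refine ⟨fun s => ⨆ i, Submodule.span R S ^ (i + s), fun s t a ha b hb => ?_,
    antitone_nat_of_succ_le fun s => iSup_le fun i => le_iSup_of_le (i + 1) (le_of_eq ?_),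
    Submodule.mem_iSup_of_mem 0 (Submodule.one_le.1 (by simp)),
    fun U hU => Submodule.mem_iSup_of_mem 0 (by simpa using Submodule.subset_span hU), ?_⟩
  · have := Submodule.mul_mem_mul ha hb
    rw [Submodule.iSup_mul] at this
    refine (iSup_le fun i => ?_ : _ ≤ ⨆ i, Submodule.span R S ^ (i + (s + t))) this
    rw [Submodule.mul_iSup]
    refine iSup_le fun j => le_iSup_of_le (i + j) (le_of_eq ?_)
    rw [← pow_add]
    congr 1
    omega
  · congr 1
    omega
  · have h0 : Submodule.span R S ^ m = ⊥ := by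
      rw [Submodule.span_pow, Submodule.span_eq_bot]
      intro x hx
      obtain ⟨f, rfl⟩ := Set.mem_pow.1 hx
      refine hm _ (fun U hU => ?_) List.length_ofFn
      obtain ⟨i, rfl⟩ := List.mem_ofFn.1 hU
      exact (f i).2
    refine iSup_eq_bot.2 fun i => ?_
    rw [pow_add, h0, Submodule.mul_bot]

theorem final_pow {R A : Type*} [CommRing R] [Ring A] [Algebra R A] {F : ℕ → Submodule R A}
    (hmul : ∀ s t, ∀ a ∈ F s, ∀ b ∈ F t, a * b ∈ F (s + t)) (h1 : 1 ∈ F 0) {s : ℕ} {a : A}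
    (ha : a ∈ F s) (n : ℕ) : a ^ n ∈ F (n * s) := by
  induction n with
  | zero => simpa using h1
  | succ n ih =>
    rw [pow_succ, add_mul, one_mul]
    exact hmul _ _ _ ih _ ha

theorem final_sub {R A Γ : Type*} [CommRing R] [Ring A] [Algebra R A] [Group Γ] (φ : Γ →* A)
    {F : ℕ → Submodule R A} (hmul : ∀ s t, ∀ a ∈ F s, ∀ b ∈ F t, a * b ∈ F (s + t))
    (han : Antitone F) (h1 : 1 ∈ F 0) {m : ℕ} (hm : F m = ⊥) (s : ℕ) :
    ∃ P : Subgroup Γ, ∀ h, h ∈ P ↔ ∃ c : Rˣ, ∃ a ∈ F (s + 1), φ h = (c : R) • (1 + a) := by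
  refine ⟨⟨⟨⟨{h | ∃ c : Rˣ, ∃ a ∈ F (s + 1), φ h = (c : R) • (1 + a)}, ?_⟩, ?_⟩, ?_⟩,
    fun _ => Iff.rfl⟩
  · rintro u v ⟨c, a, ha, hu⟩ ⟨c', b, hb, hv⟩
    refine ⟨c * c', a + b + a * b, add_mem (add_mem ha hb)
      (han (by omega) (hmul _ _ _ ha _ hb)), ?_⟩
    rw [map_mul, hu, hv, smul_mul_smul_comm, Units.val_mul]
    congr 1
    noncomm_ring
  · exact ⟨1, 0, zero_mem _, by simp⟩
  · rintro u ⟨c, a, ha, hu⟩
    have hp := final_pow hmul h1 (neg_mem ha)
    have h0 : (-a) ^ (m + 1) = 0 := by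
      have := han (by nlinarith : m ≤ (m + 1) * (s + 1)) (hp (m + 1))
      rwa [hm, Submodule.mem_bot] at this
    refine ⟨c⁻¹, ∑ i ∈ Finset.range m, (-a) ^ (i + 1),
      Submodule.sum_mem _ fun i _ => han (by nlinarith) (hp (i + 1)), ?_⟩
    have h2 := mul_neg_geom_sum (-a) (m + 1)
    rw [h0, sub_zero, sub_neg_eq_add, Finset.sum_range_succ', pow_zero, add_comm _ (1 : A)] at h2
    have h3 : φ u * (((c⁻¹ : Rˣ) : R) • (1 + ∑ i ∈ Finset.range m, (-a) ^ (i + 1))) = 1 := by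
      rw [hu, smul_mul_smul_comm, h2, Units.mul_inv, one_smul]
    have h4 : φ u⁻¹ * φ u = 1 := by rw [← map_mul, inv_mul_cancel, map_one]
    exact left_inv_eq_right_inv h4 h3

theorem final_lcs {R A Γ : Type*} [CommRing R] [Ring A] [Algebra R A] [Group Γ] (φ : Γ →* A)
    (hφ : Function.Injective φ) {F : ℕ → Submodule R A}
    (hmul : ∀ s t, ∀ a ∈ F s, ∀ b ∈ F t, a * b ∈ F (s + t))
    (han : Antitone F) (h1 : 1 ∈ F 0) {m : ℕ} (hm : F m = ⊥) {T : Set Γ}
    (hT : ∀ h ∈ T, ∃ c : Rˣ, ∃ a ∈ F 1, φ h = (c : R) • (1 + a)) :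
    (Subgroup.closure T).lowerCentralSeries (m + 1) = ⊥ := by
  choose P hP using final_sub φ hmul han h1 hm
  have h0 : Subgroup.closure T ≤ P 0 := (Subgroup.closure_le _).2 fun h hh => (hP 0 h).2 (hT h hh)
  have key : ∀ s, ∀ u ∈ P s, ∀ v ∈ P 0, ∃ a ∈ F (s + 1 + 1), φ (u * v * u⁻¹ * v⁻¹) = 1 + a := by
    intro s u hu v hv
    obtain ⟨c, a, ha, eu⟩ := (hP s u).1 hu
    obtain ⟨c', b, hb, ev⟩ := (hP 0 v).1 hv
    have hu0 : u ∈ P 0 := (hP 0 u).2 ⟨c, a, han (by omega) ha, eu⟩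
    obtain ⟨c'', e, he, ew⟩ := (hP 0 _).1 (inv_mem (mul_mem hv hu0))
    have hab : a * b - b * a ∈ F (s + 1 + 1) :=
      sub_mem (hmul _ _ _ ha _ hb) (han (by omega) (hmul _ _ _ hb _ ha))
    have e1 : φ u * φ v - φ v * φ u = ((c : R) * c') • (a * b - b * a) := by
      rw [eu, ev, smul_mul_smul_comm, smul_mul_smul_comm, mul_comm (c' : R), ← smul_sub]
      congr 1
      noncomm_ring
    refine ⟨(φ u * φ v - φ v * φ u) * φ (v * u)⁻¹, ?_, ?_⟩
    · rw [e1, ew]
      exact hmul _ 0 _ (Submodule.smul_mem _ _ hab) _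
        (Submodule.smul_mem _ _ (add_mem h1 (han (by omega) he)))
    · rw [sub_mul, ← map_mul, ← map_mul, ← map_mul, ← map_mul, mul_inv_cancel, map_one,
        add_sub_cancel, mul_inv_rev, ← mul_assoc]
  have hl : ∀ s, (Subgroup.closure T).lowerCentralSeries s ≤ P s := by
    intro s
    induction s with
    | zero => exact h0
    | succ s ih =>
      refine Subgroup.commutator_le.2 fun u hu v hv => ?_
      obtain ⟨a, ha, e⟩ := key s u (ih hu) v (h0 hv)
      exact (hP _ _).2 ⟨1, a, ha, by rw [Units.val_one, one_smul, ← e, commutatorElement_def]⟩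
  refine eq_bot_iff.2 (Subgroup.commutator_le.2 fun u hu v hv => ?_)
  obtain ⟨a, ha, e⟩ := key m u (hl m hu) v (h0 hv)
  have ha0 := han (by omega : m ≤ m + 1 + 1) ha
  rw [hm, Submodule.mem_bot] at ha0
  rw [ha0, add_zero, ← map_one φ] at e
  rw [Subgroup.mem_bot, commutatorElement_def]
  exact hφ e

/-- If all long products of conjugates of the logarithm vanish, the normal closure is nilpotent. -/
theorem final {d : ℕ} {R : Type*} [CommRing R] [Algebra ℚ R] (G : Subgroup (GL (Fin d) R))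
    (g : G) (r : Rˣ) (k : ℕ) (X : Matrix (Fin d) (Fin d) R) (hX : X ^ k = 0)
    (hg : ((g : GL (Fin d) R) : Matrix (Fin d) (Fin d) R) = (r : R) • E k X) (m : ℕ)
    (hm : ∀ l : List (Matrix (Fin d) (Fin d) R),
      (∀ U ∈ l, ∃ y : G, U = (((y : GL (Fin d) R)⁻¹ : GL (Fin d) R) : Matrix (Fin d) (Fin d) R) *
        X * ((y : GL (Fin d) R) : Matrix (Fin d) (Fin d) R)) → l.length = m → l.prod = 0) :
    Group.IsNilpotent (Subgroup.normalClosure ({g} : Set G)) ∧
      (Subgroup.zpowers g).IsSubnormal := by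
  obtain ⟨F, hmul, han, h1, hS, h0⟩ := final_filt R {U | ∃ y : G, U =
    (((y : GL (Fin d) R)⁻¹ : GL (Fin d) R) : Matrix (Fin d) (Fin d) R) *
      X * ((y : GL (Fin d) R) : Matrix (Fin d) (Fin d) R)} m hm
  have hl : (Subgroup.normalClosure ({g} : Set G)).lowerCentralSeries (m + 1) = ⊥ := by
    refine final_lcs ((Units.coeHom _).comp G.subtype)
      (Units.val_injective.comp Subtype.val_injective) hmul han h1 h0 fun h hh => ?_
    obtain ⟨a, ha, hc⟩ := Group.mem_conjugatesOfSet_iff.1 hh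
    obtain rfl : a = g := ha
    obtain ⟨y, rfl⟩ := isConj_iff.1 hc
    have hU := hS _ ⟨y⁻¹, rfl⟩
    rw [Subgroup.coe_inv, inv_inv] at hU
    have hk : E k X = E (k + 1) X := by
      rw [E_eq_exp hX, E_eq_exp (by rw [pow_succ, hX, zero_mul])]
    refine ⟨r, _, Submodule.sum_mem _ fun i (_ : i ∈ Finset.range k) =>
      Submodule.smul_of_tower_mem _ (((i + 1).factorial : ℚ)⁻¹)
        (han (by omega) (final_pow hmul h1 hU (i + 1))), ?_⟩
    simp only [MonoidHom.comp_apply, Subgroup.subtype_apply, Units.coeHom_apply, Subgroup.coe_mul,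
      Subgroup.coe_inv, Units.val_mul, Units.conj_pow]
    rw [hg, hk, E, Finset.sum_range_succ', mul_smul_comm, smul_mul_assoc, mul_add, add_mul,
      Finset.mul_sum, Finset.sum_mul, add_comm]
    simp only [mul_smul_comm, smul_mul_assoc, Nat.factorial_zero, Nat.cast_one, inv_one, pow_zero,
      one_smul, mul_one, Units.mul_inv]
  exact ⟨Subgroup.isNilpotent_of_lowerCentralSeries_eq_bot hl, final_subnormal
    Subgroup.normalClosure_normal
    (Subgroup.zpowers_le.2 (Subgroup.subset_normalClosure (Set.mem_singleton g))) hl⟩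

end Pool.Agent.Lib.MP_b39e30_al.Lin
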