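import Pool.Agent.Lib.MP_b39e30_al.Lin.MDefs

set_option autoImplicit false

namespace Pool.Agent.Lib.MP_b39e30_al.Lin

open TensorProduct

variable {R M : Type*} [CommRing R] [AddCommGroup M] [Module R M]

theorem mfib_flat (D K : Type*) [CommRing D] [Field K] [Algebra D K]
    (h : Function.Injective (algebraMap D K)) : Module.Flat D K := by
  have : FaithfulSMul D K := (faithfulSMul_iff_algebraMap_injective D K).2 h
  have : IsDomain D := h.isDomain _
  let _ : Algebra (FractionRing D) K := FractionRing.liftAlgebra D K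
  have : Module.Flat D (FractionRing D) := IsLocalization.flat _ (nonZeroDivisors D)
  exact Module.Flat.trans D (FractionRing D) K

theorem mfib_elt (K : Type*) [Field K] [Algebra R K] {v : M} (hv : (1 : K) ⊗ₜ[R] v = 0) :
    ∃ s, s ∉ RingHom.ker (algebraMap R K) ∧
      s • v ∈ RingHom.ker (algebraMap R K) • (⊤ : Submodule R M) := by
  by_contra hc
  push Not at hc
  set p := RingHom.ker (algebraMap R K) with hp
  let _ : Algebra (R ⧸ p) K := (RingHom.kerLift (algebraMap R K)).toAlgebra
  have : IsScalarTower R (R ⧸ p) K := .of_algebraMap_eq fun x =>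
    (RingHom.kerLift_mk (algebraMap R K) x).symm
  have : Module.Flat (R ⧸ p) K := mfib_flat _ _ (RingHom.kerLift_injective _)
  have h1 : Function.Injective (LinearMap.toSpanSingleton (R ⧸ p) (M ⧸ p • (⊤ : Submodule R M))
      (Submodule.Quotient.mk v)) := by
    refine (injective_iff_map_eq_zero _).2 fun d hd => ?_
    obtain ⟨s, rfl⟩ := Ideal.Quotient.mk_surjective d
    refine Ideal.Quotient.eq_zero_iff_mem.2 (by_contra fun hs => hc s hs ?_)
    exact (Submodule.Quotient.mk_eq_zero _).1 hd
  have h2 := Module.Flat.lTensor_preserves_injective_linearMap (M := K) _ h1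
  have h3 := congrArg (fun x => TensorProduct.mapOfCompatibleSMul (R ⧸ p) R R K
    (M ⧸ p • (⊤ : Submodule R M)) (LinearMap.lTensor K (Submodule.mkQ _) x)) hv
  simp only [LinearMap.lTensor_tmul, map_zero, TensorProduct.mapOfCompatibleSMul_tmul,
    Submodule.mkQ_apply] at h3
  have h4 : (1 : K) ⊗ₜ[R ⧸ p] (1 : R ⧸ p) = 0 := h2 (by
    rw [LinearMap.lTensor_tmul, LinearMap.toSpanSingleton_apply, one_smul, h3, map_zero])
  have h5 := congrArg (TensorProduct.rid (R ⧸ p) K) h4
  simp at h5

theorem Zp_iff [Module.Finite R M] (K : Type*) [Field K] [Algebra R K] (a : Module.End R M) :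
    Zp (RingHom.ker (algebraMap R K)) a ↔ a.baseChange K = 0 := by
  constructor
  · rintro ⟨s, hs, h⟩
    have h1 : ∀ w ∈ RingHom.ker (algebraMap R K) • (⊤ : Submodule R M), (1 : K) ⊗ₜ[R] w = 0 :=
      fun w hw => Submodule.smul_induction_on hw
        (fun r hr n _ => by
          rw [← smul_tmul, ← Algebra.algebraMap_eq_smul_one, RingHom.mem_ker.1 hr, zero_tmul])
        fun x y hx hy => by rw [tmul_add, hx, hy, add_zero]
    ext v
    have h2 := h1 _ (h v)
    rw [tmul_smul, ← algebraMap_smul K] at h2
    simpa using (smul_eq_zero.1 h2).resolve_left hs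
  · intro h
    obtain ⟨S, hS⟩ := Module.Finite.fg_top (R := R) (M := M)
    have h1 : ∀ v : M, (1 : K) ⊗ₜ[R] a v = 0 := fun v => by
      rw [← LinearMap.baseChange_tmul, h, LinearMap.zero_apply]
    choose s hs hs' using fun v => mfib_elt K (h1 v)
    refine ⟨∏ v ∈ S, s v, fun e => ?_, fun v => ?_⟩
    · rw [RingHom.mem_ker, map_prod, Finset.prod_eq_zero_iff] at e
      obtain ⟨v, -, e⟩ := e
      exact hs v e
    · have hv : v ∈ Submodule.span R (S : Set M) := hS ▸ Submodule.mem_top
      induction hv using Submodule.span_induction with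
      | mem x hx =>
        obtain ⟨c, hc⟩ := Finset.dvd_prod_of_mem s hx
        rw [hc, mul_comm, mul_smul]
        exact Submodule.smul_mem _ _ (hs' x)
      | zero => simp
      | add x y _ _ hx hy =>
        rw [map_add, smul_add]
        exact add_mem hx hy
      | smul c x _ hx =>
        rw [map_smul, smul_comm]
        exact Submodule.smul_mem _ _ hx

theorem represents_baseChange {ι : Type} [Fintype ι] [DecidableEq ι] (K : Type*) [CommRing K]
    [Algebra R K] {b : ι → M} {A : Matrix ι ι R} {f : Module.End R M} (h : A.Represents b f) :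
    (A.map (algebraMap R K)).Represents (fun i => (1 : K) ⊗ₜ[R] b i) (f.baseChange K) := by
  refine Matrix.represents_iff'.2 fun j => ?_
  rw [LinearMap.baseChange_tmul, ← Matrix.represents_iff'.1 h j, tmul_sum]
  exact Finset.sum_congr rfl fun i _ => by rw [Matrix.map_apply, algebraMap_smul, tmul_smul]

theorem span_baseChange {ι : Type} (K : Type*) [CommRing K] [Algebra R K] {b : ι → M}
    (hb : Submodule.span R (Set.range b) = ⊤) :
    Submodule.span K (Set.range fun i => (1 : K) ⊗ₜ[R] b i) = ⊤ := by
  rw [← Submodule.baseChange_top, ← hb, Submodule.baseChange_span, ← Set.range_comp]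
  rfl

end Pool.Agent.Lib.MP_b39e30_al.Lin
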