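import Pool.Agent.Lib.MP_b39e30_al.Lin.MDefs
import Pool.Agent.Lib.MP_b39e30_al.Lin.GField
import Pool.Agent.Lib.MP_b39e30_al.Lin.GThm
import Pool.Agent.Lib.MP_b39e30_al.Lin.Field2

set_option autoImplicit false

namespace Pool.Agent.Lib.MP_b39e30_al.Lin

variable {K V : Type} [Field K] [CharZero K] [AddCommGroup V] [Module K V] [FiniteDimensional K V]

/-- Endomorphisms as matrices in a chosen basis. -/
noncomputable def mfE (K V : Type) [Field K] [AddCommGroup V] [Module K V]
    [FiniteDimensional K V] : Module.End K V ≃ₐ[K]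
      Matrix (Fin (Module.finrank K V)) (Fin (Module.finrank K V)) K :=
  LinearMap.toMatrixAlgEquiv (Module.finBasis K V)

omit [CharZero K] in
theorem mf_trace (x : Module.End K V) : LinearMap.trace K V x = (mfE K V x).trace :=
  LinearMap.trace_eq_matrix_trace K (Module.finBasis K V) x

theorem mf_LG {R A B : Type*} [CommRing R] [Ring A] [Ring B] [Algebra R A] [Algebra R B]
    (e : A →ₐ[R] B) {S : Set A} {Y' : B} (h : LG R (e '' S) Y') : ∃ Y, LG R S Y ∧ e Y = Y' := by
  induction h with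
  | mem h =>
    obtain ⟨a, ha, rfl⟩ := h
    exact ⟨a, .mem ha, rfl⟩
  | zero => exact ⟨0, .zero, map_zero e⟩
  | add _ _ iha ihb =>
    obtain ⟨a, ha, rfl⟩ := iha
    obtain ⟨b, hb, rfl⟩ := ihb
    exact ⟨a + b, .add ha hb, map_add e a b⟩
  | smul c _ ih =>
    obtain ⟨a, ha, rfl⟩ := ih
    exact ⟨c • a, .smul c ha, map_smul e c a⟩
  | br _ _ iha ihb =>
    obtain ⟨a, ha, rfl⟩ := iha
    obtain ⟨b, hb, rfl⟩ := ihb
    exact ⟨a * b - b * a, .br ha hb, by rw [map_sub, map_mul, map_mul]⟩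

theorem mf_pad {A : Type*} [Ring A] {Γ : Type*} [Group Γ] {ρ : Γ →* A} {g : Γ} {e r d : ℕ}
    (h : PP ρ g e r) (hd : r ≤ d) : PP ρ g e d := by
  obtain ⟨c, rfl⟩ := Nat.exists_eq_add_of_le hd
  intro u f
  rw [List.ofFn_add, List.prod_append, h (fun i => u (Fin.castLE (Nat.le_add_right r c) i))
    fun i => f (Fin.castLE (Nat.le_add_right r c) i), zero_mul]

theorem nil_of_trace {x : Module.End K V} (h : ∀ i : ℕ, LinearMap.trace K V (x ^ (i + 1)) = 0) :
    IsNilpotent x := by
  have h1 : IsNilpotent (mfE K V x) := by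
    refine field2_nil fun q => ?_
    induction q using Polynomial.induction_on' with
    | add p q hp hq => rw [map_add, add_mul, Matrix.trace_add, hp, hq, add_zero]
    | monomial i c =>
      rw [Polynomial.aeval_monomial, ← Algebra.smul_def, smul_mul_assoc, ← pow_succ, ← map_pow,
        Matrix.trace_smul, ← mf_trace, h, smul_zero]
  simpa using h1.map (mfE K V).symm

theorem fieldE [IsAlgClosed K] [Algebra ℚ (Module.End K V)] {n : ℕ} {g g' : Module.End K V}
    {S : Set (Module.End K V)} (h1 : g * g' = 1) (h2 : g' * g = 1)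
    (hS : ∀ W ∈ S, g * W * g' ∈ S ∧ g' * W * g ∈ S) (h : ∀ Y, LG K S Y → GE n g g' Y) :
    ∀ W ∈ S, ∀ a ∈ Algebra.adjoin K (S ∪ {g, g'}),
      LinearMap.trace K V ((g * W - W * g) * a) = 0 := by
  intro W hW a ha
  let e := (mfE K V).toAlgHom
  have h3 := fieldG (n := n) (g := e g) (g' := e g') (S := e '' S)
    (by rw [← map_mul, h1, map_one]) (by rw [← map_mul, h2, map_one])
    (by
      rintro _ ⟨U, hU, rfl⟩
      exact ⟨⟨_, (hS U hU).1, by rw [map_mul, map_mul]⟩, _, (hS U hU).2, by rw [map_mul, map_mul]⟩)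
    (fun Y' hY => by
      obtain ⟨Y, hY2, rfl⟩ := mf_LG e hY
      exact (h Y hY2).map e.toRingHom) (e W) ⟨W, hW, rfl⟩ (e a) (by
      rw [← Set.image_pair, ← Set.image_union, ← AlgHom.map_adjoin]
      exact ⟨a, ha, rfl⟩)
  rw [← map_mul, ← map_mul, ← map_sub, ← map_mul] at h3
  exact (mf_trace _).trans h3

theorem field_thmE [IsAlgClosed K] {Γ : Type*} [Group Γ] (ρ : Γ →* Module.End K V) {n : ℕ}
    {g : Γ} (h : Eng n g) {d : ℕ} (hd : Module.finrank K V ≤ d) : ∃ e, PP ρ g e d := by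
  obtain ⟨e, he⟩ := field_thm ((mfE K V).toAlgHom.toRingHom.toMonoidHom.comp ρ) h
  rw [Fintype.card_fin] at he
  refine ⟨e, mf_pad (fun u f => (mfE K V).injective ?_) hd⟩
  rw [map_zero, ← he u f, map_list_prod, List.map_ofFn]
  refine congrArg (fun F => (List.ofFn F).prod) (funext fun i => ?_)
  rw [Function.comp_apply, map_mul, map_sub, map_one]
  rfl

end Pool.Agent.Lib.MP_b39e30_al.Lin
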