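import Pool.Agent.Lib.MP_b39e30_al.Lin.MDefs
import Pool.Agent.Lib.MP_b39e30_al.Lin.GFormal

set_option autoImplicit false

namespace Pool.Agent.Lib.MP_b39e30_al.Lin

open MvPolynomial

section MFormalAux

variable {ι : Type} [Fintype ι] [DecidableEq ι] {R M : Type*} [CommRing R] [AddCommGroup M]
  [Module R M] {b : ι → M} {S : Set (Matrix ι ι R)}

theorem mf_lift {Y : Module.End R M} (hY : LG R {w | ∃ W ∈ S, W.Represents b w} Y) :
    ∃ Z, LG R S Z ∧ Z.Represents b Y := by
  induction hY with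
  | mem h =>
    obtain ⟨W, h1, h2⟩ := h
    exact ⟨W, .mem h1, h2⟩
  | zero => exact ⟨0, .zero, .zero⟩
  | add _ _ ha hb =>
    obtain ⟨A, a1, a2⟩ := ha
    obtain ⟨B, b1, b2⟩ := hb
    exact ⟨A + B, a1.add b1, a2.add b2⟩
  | smul c _ ha =>
    obtain ⟨A, a1, a2⟩ := ha
    exact ⟨c • A, a1.smul c, a2.smul c⟩
  | br _ _ ha hb =>
    obtain ⟨A, a1, a2⟩ := ha
    obtain ⟨B, b1, b2⟩ := hb
    refine ⟨A * B - B * A, a1.br b1, ?_⟩
    have h := (a2.mul b2).add ((b2.mul a2).smul (-1))
    rwa [neg_one_smul, neg_one_smul, ← sub_eq_add_neg, ← sub_eq_add_neg] at h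

/-- Columns of polynomials all of whose derivatives along `S` vanish on `b` at the identity. -/
def mfV (b : ι → M) (S : Set (Matrix ι ι R)) (p : ι → MvPolynomial (Bool × ι × ι) R) : Prop :=
  ∀ ws : List (Matrix ι ι R), (∀ W ∈ ws, W ∈ S) →
    ∑ a, eval (pt 1 1) (DGl ws (p a)) • b a = 0

theorem mf_lin {p q : ι → MvPolynomial (Bool × ι × ι) R} (hp : mfV b S p) (hq : mfV b S q)
    (c d : R) : mfV b S fun a => c • p a + d • q a := fun ws hws => by
  simp only [gf_Dl_add, gf_Dl_smul, map_add, smul_eval, add_smul, mul_smul,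
    Finset.sum_add_distrib, ← Finset.smul_sum, hp ws hws, hq ws hws, smul_zero, add_zero]

theorem mf_stable {Y : Matrix ι ι R} (hY : LG R S Y) :
    ∀ p, mfV b S p → mfV b S fun a => DG Y (p a) := by
  induction hY with
  | @mem W hW =>
    intro q hq ws hws
    have h := hq (ws ++ [W]) (by
      intro V hV
      rcases List.mem_append.1 hV with hV | hV
      · exact hws V hV
      · rw [List.mem_singleton.1 hV]
        exact hW)
    simpa only [DGl, List.foldr_append, List.foldr_cons, List.foldr_nil] using h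
  | zero =>
    intro q hq
    have h := mf_lin hq hq 0 0
    simpa only [gf_D_zero, Derivation.zero_apply, zero_smul, add_zero] using h
  | add _ _ iha ihb =>
    intro q hq
    have h := mf_lin (iha q hq) (ihb q hq) 1 1
    simpa only [gf_D_add, Derivation.add_apply, one_smul] using h
  | smul c _ ih =>
    intro q hq
    have h := mf_lin (ih q hq) hq c 0
    simpa only [gf_D_smul, Derivation.smul_apply, zero_smul, add_zero] using h
  | br _ _ iha ihb =>
    intro q hq
    have h := mf_lin (iha _ (ihb q hq)) (ihb _ (iha q hq)) 1 (-1)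
    simpa only [gf_D_br, Derivation.commutator_apply, one_smul, neg_one_smul, ← sub_eq_add_neg]
      using h

variable [Algebra ℚ R]

theorem mf_vanish {Y : Matrix ι ι R} (hY : LG R S Y) (i : ℕ) :
    ∀ p, mfV b S p → ∑ a, PowerSeries.coeff i (gfEv Y (p a)) • b a = 0 := by
  induction i with
  | zero =>
    intro p hp
    simp only [gf_const]
    exact hp [] (by simp)
  | succ i ih =>
    intro p hp
    have h := ih _ (mf_stable hY p hp)
    simp only [← gf_chain, PowerSeries.coeff_derivative, mul_comm _ ((i : R) + 1), mul_smul,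
      ← Finset.smul_sum] at h
    have hu : IsUnit ((i : R) + 1) := by
      have h1 : IsUnit ((i + 1 : ℕ) : ℚ) := (Nat.cast_ne_zero.2 (Nat.succ_ne_zero i)).isUnit
      simpa using h1.map (algebraMap ℚ R)
    exact hu.smul_eq_zero.1 h

theorem mf_psi (n : ℕ) (g g' Y : Matrix ι ι R) :
    formalPsi ι R (((engP (PowerSeries.C g) (PowerSeries.C g'))^[n] (Ex Y, Ex (-Y))).1 - 1) =
      (gfEv Y).mapMatrix (engM n g g') := by
  have h2 := congrArg Prod.fst (map_engP (gfEv Y).mapMatrix (cstG g) (cstG g') n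
    (genG ι R true, genG ι R false))
  have h3 := congrArg Prod.fst (map_engP (formalPsi ι R) (PowerSeries.C g) (PowerSeries.C g') n
    (Ex Y, Ex (-Y)))
  rw [Prod.map_fst] at h2 h3
  rw [engM, map_sub, map_sub, map_one, map_one, h2, h3, gfEv, gf_subst_cst, gf_subst_cst,
    Prod.map_apply, Prod.map_apply, gf_subst_t, gf_subst_f]

theorem mf_fin {B E : Type*} [Ring B] [Algebra ℚ B] [Ring E] [Algebra ℚ E]
    (v : B →+* Matrix ι ι R) (e : B →+* E) (he : ∀ A, (v A).Represents b 0 → e A = 0) {n : ℕ}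
    (G G' Z : B) (hZ : LG R S (v Z)) (h : ∀ ws : List (Matrix ι ι R), (∀ W ∈ ws, W ∈ S) →
      (relM n (v G) (v G') ws).Represents b 0) : GE n (e G) (e G') (e Z) := by
  have h3 := mf_psi n (v G) (v G') (v Z)
  rw [← map_GE_aux, ← map_one (PowerSeries.map v), ← map_sub] at h3
  rw [GE, ← map_GE_aux, ← sub_eq_zero, ← map_one (PowerSeries.map e), ← map_sub]
  generalize ((engP (PowerSeries.C G) (PowerSeries.C G'))^[n] (Ex Z, Ex (-Z))).1 - 1 = w at h3 ⊢
  refine PowerSeries.ext fun i => ?_
  rw [PowerSeries.coeff_map, map_zero]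
  refine he _ (Matrix.represents_iff'.2 fun j => ?_)
  have h5 := mf_vanish (b := b) hZ i (fun a => engM n (v G) (v G') a j) fun ws hws => by
    have h6 := Matrix.represents_iff'.1 (h ws hws) j
    simpa only [relM, Matrix.of_apply, LinearMap.zero_apply] using h6
  rw [LinearMap.zero_apply, ← h5]
  refine Finset.sum_congr rfl fun a _ => ?_
  have h4 := formal_Psi_coeff (PowerSeries.map v w) a j i
  rw [h3, PowerSeries.coeff_map, RingHom.mapMatrix_apply, Matrix.map_apply] at h4
  rw [h4]

end MFormalAux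

/-- From the derived relations to the formal Engel condition in the endomorphism ring. -/
theorem formalM {ι : Type} [Fintype ι] [DecidableEq ι] {R M : Type*} [CommRing R] [Algebra ℚ R]
    [AddCommGroup M] [Module R M] [Algebra ℚ (Module.End R M)] (b : ι → M)
    (hb : Submodule.span R (Set.range b) = ⊤) {n : ℕ} {G G' : Matrix ι ι R}
    {g g' : Module.End R M} (hG : G.Represents b g) (hG' : G'.Represents b g')
    {S : Set (Matrix ι ι R)} (hS : ∀ W ∈ S, ∃ w, W.Represents b w)
    (h : ∀ ws : List (Matrix ι ι R), (∀ W ∈ ws, W ∈ S) → (relM n G G' ws).Represents b 0) :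
    ∀ Y : Module.End R M, LG R {w | ∃ W ∈ S, W.Represents b w} Y → GE n g g' Y := by
  intro Y hY
  obtain ⟨Z, hZ, hZY⟩ := mf_lift hY
  have he := fun A (f : Module.End R M) =>
    Matrix.isRepresentation.eq_toEnd_of_represents R b hb A (f := f)
  have h1 := mf_fin (b := b) (S := S) (n := n) (Matrix.isRepresentation R b).val.toRingHom
    (Matrix.isRepresentation.toEnd R b hb).toRingHom (fun A => he A 0) ⟨G, g, hG⟩ ⟨G', g', hG'⟩
    ⟨Z, Y, hZY⟩ hZ h
  rwa [← he ⟨G, g, hG⟩ g hG, ← he ⟨G', g', hG'⟩ g' hG', ← he ⟨Z, Y, hZY⟩ Y hZY]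

end Pool.Agent.Lib.MP_b39e30_al.Lin
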