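import Pool.Agent.Lib.MP_b39e30_al.Lin.MDefs

set_option autoImplicit false

namespace Pool.Agent.Lib.MP_b39e30_al.Lin

open Polynomial in
/-- An endomorphism of a finitely generated module that is nilpotent on every fibre is
nilpotent. -/
theorem fib_nil {R M : Type*} [CommRing R] [AddCommGroup M] [Module R M] [Module.Finite R M]
    (ψ : Module.End R M) (h : ∀ p : Ideal R, p.IsPrime → ∃ N : ℕ, Zp p (ψ ^ N)) :
    IsNilpotent ψ := by
  have key : (X : R[X]) ∈ (RingHom.ker (aeval ψ : R[X] →ₐ[R] Module.End R M)).radical := by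
    rw [Ideal.radical_eq_sInf, Ideal.mem_sInf]
    rintro q ⟨hq, hp⟩
    obtain ⟨N, s, hs, e⟩ := h (q.comap (C : R →+* R[X])) inferInstance
    obtain ⟨P, h1, -, h2, h3⟩ :=
      LinearMap.exists_monic_and_natDegree_eq_and_coeff_mem_pow_and_aeval_eq_zero R
        (s • ψ ^ N) (q.comap (C : R →+* R[X])) (by rintro _ ⟨v, rfl⟩; exact e v)
    have h4 : aeval (C s * X ^ N : R[X]) P ∈ q := by
      refine hq ?_
      rw [RingHom.mem_ker, ← aeval_algHom_apply, map_mul, map_pow, aeval_C, aeval_X,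
        ← Algebra.smul_def, h3]
    rw [h1.as_sum, map_add, map_pow, aeval_X, map_sum] at h4
    have h5 := (q.add_mem_iff_left (sum_mem fun i hi => ?_)).1 h4
    · exact hp.mem_of_pow_mem _ ((hp.mem_or_mem (hp.mem_of_pow_mem _ h5)).resolve_left hs)
    · rw [map_mul, aeval_C]
      exact q.mul_mem_right _ (Ideal.pow_le_self (I := q.comap (C : R →+* R[X]))
        (Nat.sub_ne_zero_of_lt (Finset.mem_range.1 hi)) (h2 i))
  obtain ⟨k, hk⟩ := key
  exact ⟨k, by rwa [RingHom.mem_ker, map_pow, aeval_X] at hk⟩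

lemma mnil_pair {A : Type*} [Ring A] {I I' : Ideal A} (h : ∀ x ∈ I', ∀ y ∈ I', x * y ∈ I)
    (m : ℕ) : ∀ l : List A, (∀ x ∈ l, x ∈ I') → l.length = 2 * m →
      ∃ l' : List A, (∀ x ∈ l', x ∈ I) ∧ l'.length = m ∧ l'.prod = l.prod := by
  induction m with
  | zero => exact fun l _ e => ⟨[], by simp, rfl, by rw [List.length_eq_zero_iff.1 e]⟩
  | succ m ih =>
    rintro (_ | ⟨x, _ | ⟨y, l⟩⟩) hl e
    · simp at e
    · simp only [List.length_cons, List.length_nil] at e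
      omega
    · simp only [List.length_cons] at e
      obtain ⟨l', h1, h2, h3⟩ := ih l (fun z hz => hl z (by simp [hz])) (by omega)
      refine ⟨x * y :: l', ?_, by simp [h2], by simp [h3, mul_assoc]⟩
      intro z hz
      rcases List.mem_cons.1 hz with rfl | hz
      · exact h _ (hl _ (by simp)) _ (hl _ (by simp))
      · exact h1 z hz

lemma mnil_sq {A : Type*} [Ring A] [IsNoetherianRing A] (J : TwoSidedIdeal A)
    (h : ∀ x ∈ J, IsNilpotent x) {I : Ideal A} (hI : ∀ x ∈ I, ∀ r, x * r ∈ I) {b : A} (hb : b ∈ J)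
    (hbI : b ∉ I) : ∃ a ∈ J, a ∉ I ∧ ∀ x, a * x * a ∈ I := by
  obtain ⟨_, ⟨a, h1, h2, rfl⟩, hmax⟩ := (wellFounded_gt (α := Ideal A)).has_min
    {L | ∃ a ∈ J, a ∉ I ∧ L = Submodule.comap (LinearMap.toSpanSingleton A A a) I}
    ⟨_, b, hb, hbI, rfl⟩
  refine ⟨a, h1, h2, fun x => ?_⟩
  by_contra hx
  have key : ∀ j : ℕ, a * (x * a) ^ j ∉ I := fun j => by
    induction j with
    | zero => simpa using h2
    | succ j ih =>
      intro e
      have h3 : Submodule.comap (LinearMap.toSpanSingleton A A a) I ≤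
          Submodule.comap (LinearMap.toSpanSingleton A A (a * (x * a) ^ j)) I := fun r hr => by
        have h4 := hI _ hr ((x * a) ^ j)
        rwa [LinearMap.toSpanSingleton_apply, smul_eq_mul, mul_assoc] at h4
      have h4 := eq_of_le_of_not_lt h3 (hmax _ ⟨_, J.mul_mem_right _ _ h1, ih, rfl⟩)
      have h5 : a * x ∈ Submodule.comap (LinearMap.toSpanSingleton A A (a * (x * a) ^ j)) I := by
        rw [Submodule.mem_comap, LinearMap.toSpanSingleton_apply, smul_eq_mul, mul_assoc,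
          ← mul_assoc x, ← pow_succ']
        exact e
      rw [← h4] at h5
      exact hx h5
  obtain ⟨k, hk⟩ := h _ (J.mul_mem_left x a h1)
  exact key k (by rw [hk, mul_zero]; exact I.zero_mem)

/-- Levitzki's theorem. -/
theorem levitzki {A : Type*} [Ring A] [IsNoetherianRing A] (J : TwoSidedIdeal A)
    (h : ∀ x ∈ J, IsNilpotent x) :
    ∃ m : ℕ, ∀ l : List A, (∀ x ∈ l, x ∈ J) → l.length = m → l.prod = 0 := by
  obtain ⟨I, ⟨h1, h2, m, h3⟩, hmax⟩ := (wellFounded_gt (α := Ideal A)).has_min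
    {I | (∀ x ∈ I, ∀ r, x * r ∈ I) ∧ (∀ x ∈ I, x ∈ J) ∧
      ∃ m : ℕ, ∀ l : List A, (∀ x ∈ l, x ∈ I) → l.length = m → l.prod = 0}
    ⟨⊥, fun x hx r => by rw [Ideal.mem_bot.1 hx, zero_mul]; exact zero_mem _,
      fun x hx => by rw [Ideal.mem_bot.1 hx]; exact J.zero_mem, 1, fun l hl e => by
        obtain ⟨x, rfl⟩ := List.length_eq_one_iff.1 e
        simpa using hl⟩
  refine ⟨m, fun l hl => h3 l fun b hb => ?_⟩
  by_contra hbI
  obtain ⟨a, a1, a2, a3⟩ := mnil_sq J h h1 (hl b hb) hbI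
  let I' : Ideal A :=
    { carrier := {z | z ∈ J ∧ (∀ x, a * x * z ∈ I) ∧ ∀ t, (∀ x, a * x * t ∈ I) → z * t ∈ I}
      zero_mem' := ⟨J.zero_mem, fun x => by simp, fun t _ => by simp⟩
      add_mem' := fun {u v} hu hv => ⟨J.add_mem hu.1 hv.1,
        fun x => by rw [mul_add]; exact I.add_mem (hu.2.1 x) (hv.2.1 x),
        fun t ht => by rw [add_mul]; exact I.add_mem (hu.2.2 t ht) (hv.2.2 t ht)⟩
      smul_mem' := fun r u hu => ⟨J.mul_mem_left r u hu.1,
        fun x => by rw [smul_eq_mul, ← mul_assoc, mul_assoc a]; exact hu.2.1 _,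
        fun t ht => by rw [smul_eq_mul, mul_assoc]; exact I.mul_mem_left r (hu.2.2 t ht)⟩ }
  have hle : I ≤ I' := fun z hz => ⟨h2 z hz, fun x => I.mul_mem_left _ hz, fun t _ => h1 z hz t⟩
  have ha : a ∈ I' := ⟨a1, a3, fun t ht => by simpa using ht 1⟩
  refine hmax I' ⟨fun z hz r => ⟨J.mul_mem_right z r hz.1, fun x => ?_, fun t ht => ?_⟩,
    fun z hz => hz.1, 2 * m, fun l hl e => ?_⟩ (lt_of_le_of_ne hle fun e => a2 (e ▸ ha))
  · rw [← mul_assoc]
    exact h1 _ (hz.2.1 x) r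
  · rw [mul_assoc]
    exact hz.2.2 _ fun x => by rw [← mul_assoc, mul_assoc a]; exact ht _
  · obtain ⟨l', b1, b2, b3⟩ := mnil_pair (I := I) (I' := I')
      (fun x hx y hy => hx.2.2 y hy.2.1) m l hl e
    rw [← b3, h3 l' b1 b2]

end Pool.Agent.Lib.MP_b39e30_al.Lin
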