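import Pool.Agent.Lib.MP_b39e30_al.Lin.MDefs
import Pool.Agent.Lib.MP_b39e30_al.Lin.Engine

set_option autoImplicit false

namespace Pool.Agent.Lib.MP_b39e30_al.Lin

open MvPolynomial

theorem mpolar_aux {ι μ : Type} [Fintype ι] [Fintype μ] {R S M : Type*} [CommRing R] [Algebra ℚ R]
    [CommRing S] [Algebra ℚ S] [AddCommGroup M] [Module R M] (φ : R →+* S) (ψ : M →+ S)
    (hψ : ∀ v, ψ v = 0 → v = 0) (hs : ∀ r v, ψ (r • v) = φ r * ψ v)
    (b : ι → M) (L : Submodule ℚ (Matrix ι ι R)) (F : ι → MvPolynomial (μ × ι × ι) R)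
    (h : ∀ z : ι × ι → Matrix ι ι R, (∀ j, z j ∈ L) → ∀ a : μ → ι × ι → ℚ,
      ∑ i, eval (fun p : μ × ι × ι => (∑ j, a p.1 j • z j) p.2.1 p.2.2) (F i) • b i = 0)
    (Y : μ → Matrix ι ι R) (hY : ∀ i, Y i ∈ L) :
    ∑ i, eval (fun p : μ × ι × ι => Y p.1 p.2.1 p.2.2) (F i) • b i = 0 := by
  let e : Matrix ι ι R →ₗ[ℚ] Matrix ι ι S :=
    { toFun := fun W => W.map φ
      map_add' := fun _ _ => Matrix.map_add _ (map_add φ) _ _
      map_smul' := fun c W => by
        ext a b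
        simp only [Matrix.map_apply, Matrix.smul_apply, map_rat_smul, RingHom.id_apply] }
  have key : ∀ W : μ → Matrix ι ι R,
      eval (fun p : μ × ι × ι => e (W p.1) p.2.1 p.2.2)
        (∑ i, MvPolynomial.map φ (F i) * C (ψ (b i))) =
      ψ (∑ i, eval (fun p : μ × ι × ι => W p.1 p.2.1 p.2.2) (F i) • b i) := fun W => by
    rw [map_sum, map_sum]
    refine Finset.sum_congr rfl fun i _ => ?_
    rw [map_mul, eval_C, hs, eval_map, ← coe_eval₂Hom, eval, map_eval₂Hom, RingHom.comp_id]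
    rfl
  refine hψ _ ((key Y).symm.trans (eng_polar (L.map e) _ (fun z hz a => ?_) (fun i => e (Y i))
    fun i => ⟨_, hY i, rfl⟩))
  choose z' h1 h2 using hz
  have h3 := key fun i => ∑ j, a i j • z' j
  rw [h z' h1 a, map_zero] at h3
  simp only [map_sum e, map_smul e, h2] at h3
  exact h3

/-- Polarisation for polynomial maps with values in a module. -/
theorem polarM {ι μ : Type} [Fintype ι] [Fintype μ] {R M : Type*} [CommRing R] [Algebra ℚ R]
    [AddCommGroup M] [Module R M] (b : ι → M) (L : Submodule ℚ (Matrix ι ι R))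
    (F : ι → MvPolynomial (μ × ι × ι) R)
    (h : ∀ z : ι × ι → Matrix ι ι R, (∀ j, z j ∈ L) → ∀ a : μ → ι × ι → ℚ,
      ∑ i, eval (fun p : μ × ι × ι => (∑ j, a p.1 j • z j) p.2.1 p.2.2) (F i) • b i = 0)
    (Y : μ → Matrix ι ι R) (hY : ∀ i, Y i ∈ L) :
    ∑ i, eval (fun p : μ × ι × ι => Y p.1 p.2.1 p.2.2) (F i) • b i = 0 := by
  let _ : Module Rᵐᵒᵖ M := Module.compHom M ((RingHom.id R).fromOpposite mul_comm)
  have _ : IsCentralScalar R M := ⟨fun _ _ => rfl⟩
  let _ : Algebra ℚ (TrivSqZeroExt R M) :=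
    ((algebraMap R (TrivSqZeroExt R M)).comp (algebraMap ℚ R)).toAlgebra
  refine mpolar_aux (S := TrivSqZeroExt R M) (algebraMap R (TrivSqZeroExt R M))
    (TrivSqZeroExt.inrHom R M).toAddMonoidHom (fun v hv => ?_) (fun r v => ?_) b L F h Y hY
  · exact congrArg TrivSqZeroExt.snd hv
  · exact (TrivSqZeroExt.inl_mul_inr r v).symm

end Pool.Agent.Lib.MP_b39e30_al.Lin
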