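import Pool.Agent.Lib.MP_b39e30_al.Lin.MDefs
import Pool.Agent.Lib.MP_b39e30_al.Lin.GLogs

set_option autoImplicit false

namespace Pool.Agent.Lib.MP_b39e30_al.Lin

open MvPolynomial

section Aux

variable {ι : Type} [Fintype ι] [DecidableEq ι] {R M : Type*} [CommRing R]
  [AddCommGroup M] [Module R M]

omit [DecidableEq ι] in
theorem mvan_poly [Algebra ℚ R] (b : ι → M) (P : ι → Polynomial R)
    (h : ∀ m : ℕ, ∑ a, (P a).eval (m : R) • b a = 0) : ∑ a, (P a).coeff 1 • b a = 0 := by
  let _ : Module Rᵐᵒᵖ M := Module.compHom M ((RingHom.id R).fromOpposite mul_comm)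
  have : IsCentralScalar R M := ⟨fun _ _ => rfl⟩
  let _ : Algebra ℚ (TrivSqZeroExt R M) :=
    ((algebraMap R (TrivSqZeroExt R M)).comp (algebraMap ℚ R)).toAlgebra
  have h0 : ∀ c : ι → R, ∑ a, algebraMap R (TrivSqZeroExt R M) (c a) * TrivSqZeroExt.inr (b a) =
      TrivSqZeroExt.inr (∑ a, c a • b a) := fun c => by
    rw [TrivSqZeroExt.inr_sum]
    exact Finset.sum_congr rfl fun a _ => TrivSqZeroExt.inl_mul_inr _ _
  have h1 := dv_poly _ (∑ a, (P a).map (algebraMap R (TrivSqZeroExt R M)) *
      Polynomial.C (TrivSqZeroExt.inr (b a))) 0 rfl fun m _ => by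
    simp only [Polynomial.eval_finsetSum, Polynomial.eval_mul, Polynomial.eval_C,
      Polynomial.eval_natCast_map]
    rw [h0, h m, TrivSqZeroExt.inr_zero]
  have h2 := congrArg (fun q => Polynomial.coeff q 1) h1
  simp only [Polynomial.finsetSum_coeff, Polynomial.coeff_mul_C, Polynomial.coeff_map,
    Polynomial.coeff_zero] at h2
  rw [h0] at h2
  exact congrArg TrivSqZeroExt.snd h2

theorem mvan_rat [Algebra ℚ R] [Algebra ℚ (Module.End R M)] (c : ℚ) (w : Module.End R M) :
    c • w = algebraMap ℚ R c • w := by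
  have h := map_rat_smul (LinearMap.toSpanSingleton R _ w) c (1 : R)
  rw [LinearMap.toSpanSingleton_apply, LinearMap.toSpanSingleton_apply, one_smul,
    ← Algebra.algebraMap_eq_smul_one] at h
  exact h.symm

theorem mvan_pow {b : ι → M} {W : Matrix ι ι R} {w : Module.End R M} (h : W.Represents b w)
    (i : ℕ) : (W ^ i).Represents b (w ^ i) := by
  induction i with
  | zero => simpa only [pow_zero] using Matrix.Represents.one
  | succ i ih => simpa only [pow_succ] using ih.mul h

theorem mvan_E [Algebra ℚ R] [Algebra ℚ (Module.End R M)] {b : ι → M} {W : Matrix ι ι R}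
    {w : Module.End R M} (h : W.Represents b w) (k : ℕ) : (E k W).Represents b (E k w) := by
  induction k with
  | zero => simpa only [E, Finset.sum_range_zero] using Matrix.Represents.zero
  | succ k ih =>
    rw [E, E, Finset.sum_range_succ, Finset.sum_range_succ, mvan_rat, ← algebraMap_smul R _ (W ^ k)]
    exact ih.add ((mvan_pow h k).smul _)

theorem mvan_nat {A : Type*} [Ring A] [Algebra ℚ A] {k : ℕ} {w : A} (h0 : w ^ k = 0) (m : ℕ) :
    E k (m • w) = IsNilpotent.exp w ^ m := by
  have h1 : ∀ s : ℕ, (s • w) ^ k = 0 := fun s => by rw [smul_pow, h0, smul_zero]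
  rw [E_eq_exp (h1 m)]
  induction m with
  | zero => rw [zero_smul, IsNilpotent.exp_zero, pow_zero]
  | succ m ih =>
    rw [pow_succ, ← ih, add_smul, one_smul,
      IsNilpotent.exp_add_of_commute ((Commute.refl w).smul_left _) ⟨k, h1 _⟩ ⟨k, h0⟩]

theorem mvan_eps [Algebra ℚ R] {k : ℕ} (hk : 2 ≤ k) (W : Matrix ι ι R) {e : R}
    (he : e * e = 0) : E k (e • W) = 1 + e • W := by
  have h2 : (e • W) ^ 2 = 0 := by rw [smul_pow, sq e, he, zero_smul]
  rw [E_eq_exp (pow_eq_zero_of_le hk h2), ← E_eq_exp h2]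
  simp [E, Finset.sum_range_succ]

theorem mvan_key [Algebra ℚ R] (k : ℕ) (y y' W V : Matrix ι ι R)
    (p : MvPolynomial (Bool × ι × ι) R) {S : Type*} [CommRing S] [Algebra ℚ S] (φ : R →+* S)
    (s : S) : Polynomial.eval₂RingHom φ s (eval (pt
        (y.map Polynomial.C * E k ((Polynomial.X : Polynomial R) • W.map Polynomial.C))
        (E k ((Polynomial.X : Polynomial R) • V.map Polynomial.C) * y'.map Polynomial.C))
        (MvPolynomial.map Polynomial.C p)) =
      eval (pt (y.map φ * E k (s • W.map φ)) (E k (s • V.map φ) * y'.map φ))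
        (MvPolynomial.map φ p) := by
  have e : (Polynomial.eval₂RingHom φ s).comp Polynomial.C = φ :=
    RingHom.ext fun _ => Polynomial.eval₂_C _ _
  rw [lgs_pt, Matrix.map_mul, Matrix.map_mul, lgs_curve, lgs_curve, map_map]
  simp only [Matrix.map_map]
  rw [← RingHom.coe_comp, e, Polynomial.coe_eval₂RingHom, Polynomial.eval₂_X]

theorem mvan_snd (P : Polynomial R) : TrivSqZeroExt.snd
    (Polynomial.eval₂RingHom (algebraMap R (DualNumber R)) DualNumber.eps P) = P.coeff 1 := by
  have h := Polynomial.aeval_add_of_sq_eq_zero P (0 : DualNumber R) DualNumber.eps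
    (by rw [sq, DualNumber.eps_mul_eps])
  rw [zero_add, ← Polynomial.coeff_zero_eq_aeval_zero', ← Polynomial.coeff_zero_eq_aeval_zero',
    Polynomial.coeff_derivative] at h
  change TrivSqZeroExt.snd (Polynomial.aeval DualNumber.eps P) = _
  rw [h]
  simp [TrivSqZeroExt.algebraMap_eq_inl]

theorem mvan_coeff [Algebra ℚ R] {k : ℕ} (hk : 2 ≤ k) (y y' W : Matrix ι ι R)
    (p : MvPolynomial (Bool × ι × ι) R) : (eval (pt
        (y.map Polynomial.C * E k ((Polynomial.X : Polynomial R) • W.map Polynomial.C))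
        (E k ((Polynomial.X : Polynomial R) • (-W).map Polynomial.C) * y'.map Polynomial.C))
        (MvPolynomial.map Polynomial.C p)).coeff 1 = eval (pt y y') (DG W p) := by
  have h5 : (-W).map (algebraMap R (DualNumber R)) = -W.map (algebraMap R (DualNumber R)) := by
    ext1 a b
    simp
  rw [← mvan_snd, mvan_key, mvan_eps hk _ DualNumber.eps_mul_eps,
    mvan_eps hk _ DualNumber.eps_mul_eps, h5, mul_add, add_mul, mul_one, one_mul,
    mul_smul_comm, smul_mul_assoc, lgs_taylor _ _ _ DualNumber.eps_mul_eps, ← lgs_map, ← lgs_pt,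
    ← lgs_pt]
  simp [TrivSqZeroExt.algebraMap_eq_inl]

variable {Γ : Type*} [Group Γ]

/-- The families of polynomials whose values at representing pairs are relations of `b`. -/
def mvanV (b : ι → M) (ρ : Γ →* Module.End R M) (p : ι → MvPolynomial (Bool × ι × ι) R) : Prop :=
  ∀ (x : Γ) (y y' : Matrix ι ι R), y.Represents b (ρ x) → y'.Represents b (ρ x⁻¹) →
    ∑ a, eval (pt y y') (p a) • b a = 0

theorem mvan_step [Algebra ℚ R] [Algebra ℚ (Module.End R M)] {b : ι → M}
    {ρ : Γ →* Module.End R M} {W : Matrix ι ι R} {w : Module.End R M} (hW : W.Represents b w)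
    (h0 : IsNilpotent w) {u : Γ} (hu : ρ u = IsNilpotent.exp w)
    {p : ι → MvPolynomial (Bool × ι × ι) R} (hp : mvanV b ρ p) :
    mvanV b ρ fun a => DG W (p a) := by
  intro x y y' hy hy'
  obtain ⟨j, hj⟩ := h0
  have hk : w ^ (j + 2) = 0 := pow_eq_zero_of_le (by omega) hj
  have hk' : (-w) ^ (j + 2) = 0 := by rw [neg_pow, hk, mul_zero]
  have hu' : ρ u⁻¹ = IsNilpotent.exp (-w) := by
    rw [← mul_one (ρ u⁻¹), ← IsNilpotent.exp_mul_exp_neg_self ⟨j, hj⟩, ← hu, ← mul_assoc,
      ← map_mul, inv_mul_cancel, map_one, one_mul]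
  have hW' : (-W).Represents b (-w) := by simpa only [neg_one_smul] using hW.smul (-1)
  simp only [← mvan_coeff (k := j + 2) (by omega) y y' W]
  refine mvan_poly b _ fun m => ?_
  refine Eq.trans (Finset.sum_congr rfl fun a _ => congrArg (· • b a)
    ((mvan_key (j + 2) y y' W (-W) (p a) (RingHom.id R) m).trans (by rw [map_id]; rfl)))
    (hp (x * u ^ m) (y * E (j + 2) ((m : R) • W)) (E (j + 2) ((m : R) • (-W)) * y') ?_ ?_)
  · rw [map_mul, map_pow, hu, ← mvan_nat hk, ← Nat.cast_smul_eq_nsmul R]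
    exact hy.mul (mvan_E (hW.smul _) _)
  · rw [mul_inv_rev, ← inv_pow, map_mul, map_pow, hu', ← mvan_nat hk', ← Nat.cast_smul_eq_nsmul R]
    exact (mvan_E (hW'.smul _) _).mul hy'

theorem mvan_span [Algebra ℚ R] [Algebra ℚ (Module.End R M)] {b : ι → M}
    (hb : Submodule.span R (Set.range b) = ⊤) {ρ : Γ →* Module.End R M} {N : Subgroup Γ}
    {p : ι → MvPolynomial (Bool × ι × ι) R} (hp : mvanV b ρ p) {w : Module.End R M}
    (hw : w ∈ Submodule.span ℚ (logs ρ N)) :
    ∀ W : Matrix ι ι R, W.Represents b w → mvanV b ρ fun a => DG W (p a) := by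
  have hl : ∀ v : Module.End R M, ∃ V : Matrix ι ι R, V.Represents b v := fun v => by
    obtain ⟨V, rfl⟩ := Matrix.isRepresentation.toEnd_surjective R b hb v
    exact ⟨V, Matrix.isRepresentation.toEnd_represents R b hb V⟩
  have hz : ∀ W : Matrix ι ι R, W.Represents b 0 → mvanV b ρ fun a => DG W (p a) := fun W hW =>
    mvan_step hW IsNilpotent.zero (u := 1) (by rw [map_one, IsNilpotent.exp_zero]) hp
  induction hw using Submodule.span_induction with
  | mem w hw =>
    obtain ⟨h0, u, _, e⟩ := hw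
    exact fun W hW => mvan_step hW h0 e hp
  | zero => exact hz
  | add w v _ _ k1 k2 =>
    intro W hW x y y' hy hy'
    obtain ⟨V, hV⟩ := hl v
    have h1 := k1 (W + (-1 : R) • V) (by simpa using hW.add (hV.smul (-1))) x y y' hy hy'
    have h2 := k2 V hV x y y' hy hy'
    have e : W = W + (-1 : R) • V + V := by simp
    rw [e, lgs_add]
    simp only [Derivation.add_apply, map_add, add_smul, Finset.sum_add_distrib]
    rw [h1, h2, add_zero]
  | smul c w _ k1 =>
    intro W hW x y y' hy hy'
    obtain ⟨V, hV⟩ := hl w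
    rw [mvan_rat] at hW
    have h1 := hz (W + (-algebraMap ℚ R c) • V)
      (by simpa using hW.add (hV.smul (-algebraMap ℚ R c))) x y y' hy hy'
    have h2 := k1 V hV x y y' hy hy'
    have e : W = W + (-algebraMap ℚ R c) • V + algebraMap ℚ R c • V := by simp
    rw [e, lgs_add, lgs_smul (algebraMap ℚ R c)]
    simp only [Derivation.add_apply, Derivation.smul_apply, smul_eq_C_mul, map_add, map_mul, eval_C,
      add_smul, mul_smul, Finset.sum_add_distrib]
    rw [h1, ← Finset.smul_sum, h2, smul_zero, add_zero]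

theorem mvan_eng {b : ι → M} {G G' y y' : Matrix ι ι R} {g g' u u' : Module.End R M}
    (hG : G.Represents b g) (hG' : G'.Represents b g') (hy : y.Represents b u)
    (hy' : y'.Represents b u') (n : ℕ) :
    ((engP G G')^[n] (y, y')).1.Represents b ((engP g g')^[n] (u, u')).1 ∧
      ((engP G G')^[n] (y, y')).2.Represents b ((engP g g')^[n] (u, u')).2 := by
  induction n with
  | zero => exact ⟨hy, hy'⟩
  | succ n ih =>
    rw [Function.iterate_succ_apply', Function.iterate_succ_apply']
    exact ⟨((ih.2.mul hG').mul ih.1).mul hG, ((hG'.mul ih.2).mul hG).mul ih.1⟩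

theorem mvan_col {b : ι → M} {ρ : Γ →* Module.End R M} {n : ℕ} {g : Γ} (h : Eng n g)
    {G G' : Matrix ι ι R} (hG : G.Represents b (ρ g)) (hG' : G'.Represents b (ρ g⁻¹)) (j : ι) :
    mvanV b ρ fun a => engM n G G' a j := by
  intro x y y' hy hy'
  let f := (eval (pt y y')).mapMatrix (m := ι)
  have h1 : f (genG ι R true) = y := by
    ext a b
    simp [f, genG, pt]
  have h1' : f (genG ι R false) = y' := by
    ext a b
    simp [f, genG, pt]
  have h2 : ∀ W : Matrix ι ι R, f (cstG W) = W := fun W => by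
    ext a b
    simp [f, cstG]
  have h3 := congrArg Prod.fst
    (map_engP f (cstG G) (cstG G') n (genG ι R true, genG ι R false))
  rw [Prod.map_fst, Prod.map_apply, h1, h1', h2, h2] at h3
  have h4 := (mvan_eng hG hG' hy hy' n).1
  rw [engP_hom, h x, map_one, ← h3] at h4
  have h5 : (f (engM n G G')).Represents b 0 := by
    rw [engM, map_sub, map_one]
    simpa [sub_eq_add_neg] using h4.add (Matrix.Represents.one.smul (-1))
  exact Matrix.represents_iff'.1 h5 j

end Aux

/-- The derived Engel relations along lifts of logarithms represent zero. -/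
theorem vanM {ι : Type} [Fintype ι] [DecidableEq ι] {R M : Type*} [CommRing R] [Algebra ℚ R]
    [AddCommGroup M] [Module R M] [Algebra ℚ (Module.End R M)] (b : ι → M)
    (hb : Submodule.span R (Set.range b) = ⊤) {Γ : Type*} [Group Γ] (ρ : Γ →* Module.End R M)
    (N : Subgroup Γ) {n : ℕ} {g : Γ} (h : Eng n g) {G G' : Matrix ι ι R}
    (hG : G.Represents b (ρ g)) (hG' : G'.Represents b (ρ g⁻¹)) (ws : List (Matrix ι ι R))
    (hws : ∀ W ∈ ws, ∃ w ∈ Submodule.span ℚ (logs ρ N), W.Represents b w) :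
    (relM n G G' ws).Represents b 0 := by
  refine Matrix.represents_iff'.2 fun j => ?_
  have key : mvanV b ρ fun a => DGl ws (engM n G G' a j) := by
    induction ws with
    | nil => exact mvan_col h hG hG' j
    | cons W ws ih =>
      obtain ⟨w, hw, e⟩ := hws W List.mem_cons_self
      exact mvan_span hb (ih fun V hV => hws V (List.mem_cons_of_mem W hV)) hw W e
  exact key 1 1 1 (by rw [map_one]; exact Matrix.Represents.one)
    (by rw [inv_one, map_one]; exact Matrix.Represents.one)

end Pool.Agent.Lib.MP_b39e30_al.Lin
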