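import Pool.Agent.Lib.MP_b39e30_al.Lin.MDefs
import Pool.Agent.Lib.MP_b39e30_al.Lin.GEngine
import Pool.Agent.Lib.MP_b39e30_al.Lin.MVan
import Pool.Agent.Lib.MP_b39e30_al.Lin.MFormal
import Pool.Agent.Lib.MP_b39e30_al.Lin.MFib
import Pool.Agent.Lib.MP_b39e30_al.Lin.MNil
import Pool.Agent.Lib.MP_b39e30_al.Lin.MField
import Pool.Agent.Lib.MP_b39e30_al.Lin.MPolar

set_option autoImplicit false

namespace Pool.Agent.Lib.MP_b39e30_al.Lin

open MvPolynomial TensorProduct

section Rep

variable {ι : Type} [Fintype ι] [DecidableEq ι] {R M : Type*} [CommRing R] [AddCommGroup M]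
  [Module R M] {b : ι → M}

theorem me_sub {A A' : Matrix ι ι R} {f f' : Module.End R M} (h : A.Represents b f)
    (h' : A'.Represents b f') : (A - A').Represents b (f - f') := by
  have h1 := h.add (h'.smul (-1 : R))
  rwa [neg_one_smul, neg_one_smul, ← sub_eq_add_neg, ← sub_eq_add_neg] at h1

theorem me_exists (hb : Submodule.span R (Set.range b) = ⊤) (f : Module.End R M) :
    ∃ A : Matrix ι ι R, A.Represents b f := by
  obtain ⟨A, rfl⟩ := Matrix.isRepresentation.toEnd_surjective R b hb f
  exact ⟨A, Matrix.isRepresentation.toEnd_represents R b hb A⟩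

theorem me_letter {G G' W : Matrix ι ι R} {g g' w : Module.End R M} (hG : G.Represents b g)
    (hG' : G'.Represents b g') (hW : W.Represents b w) (i : Fin 4) :
    (letter G G' (i, W)).Represents b (letter g g' (i, w)) := by
  fin_cases i
  · exact hW
  · exact me_sub (hG.mul hW) (hW.mul hG)
  · exact hG
  · exact hG'

theorem me_word {G G' : Matrix ι ι R} {g g' : Module.End R M} (hG : G.Represents b g)
    (hG' : G'.Represents b g') {α : Type*} (l : List α) (k : α → Fin 4) (W : α → Matrix ι ι R)
    (w : α → Module.End R M) (h : ∀ x ∈ l, (W x).Represents b (w x)) :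
    ((l.map fun x => (k x, W x)).map (letter G G')).prod.Represents b
      ((l.map fun x => (k x, w x)).map (letter g g')).prod := by
  induction l with
  | nil => exact Matrix.Represents.one
  | cons x l ih =>
    simp only [List.map_cons, List.prod_cons]
    exact (me_letter hG hG' (h x List.mem_cons_self) _).mul
      (ih fun y hy => h y (List.mem_cons_of_mem _ hy))

theorem me_nC {α A : Type*} (l : List α) (k : α → Fin 4) (W : α → A) :
    nC (l.map fun x => (k x, W x)) = l.countP fun x => k x = 1 := by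
  simp only [nC, List.countP_map]
  rfl

theorem me_map_word {α A B : Type*} [Ring A] [Ring B] (f : A →+* B) (g g' : A) (l : List α)
    (k : α → Fin 4) (W : α → A) :
    f ((l.map fun x => (k x, W x)).map (letter g g')).prod =
      ((l.map fun x => (k x, f (W x))).map (letter (f g) (f g'))).prod := by
  rw [ge_map_word, List.map_map (l := l)]
  rfl

theorem me_trace {A K V : Type*} [Ring A] [Field K] [AddCommGroup V] [Module K V]
    (τ : A →+* Module.End K V) (B : Subalgebra K (Module.End K V)) (hA : ∀ a, τ a ∈ B)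
    (s : Set A) (hs : ∀ x ∈ s, ∀ a ∈ B, LinearMap.trace K V (τ x * a) = 0) :
    ∀ ψ ∈ TwoSidedIdeal.span s, ∀ a ∈ B, LinearMap.trace K V (τ ψ * a) = 0 := by
  intro ψ hψ
  induction hψ using TwoSidedIdeal.span_induction with
  | mem x hx => exact hs x hx
  | zero => simp
  | add x hx y hy ihx ihy =>
    intro a ha
    rw [map_add τ, add_mul, map_add, ihx a ha, ihy a ha, add_zero]
  | neg x hx ih =>
    intro a ha
    rw [map_neg τ, neg_mul, map_neg, ih a ha, neg_zero]
  | left_absorb c x hx ih =>
    intro a ha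
    rw [map_mul τ, mul_assoc, LinearMap.trace_mul_comm, mul_assoc]
    exact ih _ (mul_mem ha (hA c))
  | right_absorb c x hx ih =>
    intro a ha
    rw [map_mul τ, mul_assoc]
    exact ih _ (mul_mem (hA c) ha)

end Rep

section Abstract

/-- The abstract step over a Noetherian ring: words with many commutator letters vanish. -/
theorem me_noeth {ι : Type} [Fintype ι] [DecidableEq ι] {S Q : Type} [CommRing S] [Algebra ℚ S]
    [IsNoetherianRing S] [AddCommGroup Q] [Module S Q] (β : ι → Q)
    (hβ : Submodule.span S (Set.range β) = ⊤) {n : ℕ} {G G' : Matrix ι ι S}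
    {γ γ' : Module.End S Q} (hG : G.Represents β γ) (hG' : G'.Represents β γ')
    (h1 : γ * γ' = 1) (h2 : γ' * γ = 1) {T : Set (Matrix ι ι S)}
    (hT : ∀ W ∈ T, ∃ w, W.Represents β w) (hc : ∀ W ∈ T, G * W * G' ∈ T ∧ G' * W * G ∈ T)
    (hr : ∀ ws : List (Matrix ι ι S), (∀ W ∈ ws, W ∈ T) → (relM n G G' ws).Represents β 0) :
    ∃ m : ℕ, ∀ l : List (Fin 4 × Module.End S Q), (∀ p ∈ l, ∃ W ∈ T, W.Represents β p.2) →
      m ≤ nC l → (l.map (letter γ γ')).prod = 0 := by
  have : Module.Finite S Q := Module.Finite.of_fg_top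
    (Submodule.fg_def.2 ⟨_, Set.finite_range β, hβ⟩)
  let T' : Set (Module.End S Q) := {w | ∃ W ∈ T, W.Represents β w}
  let A := Algebra.adjoin S (T' ∪ {γ, γ'})
  have : IsNoetherianRing A := isNoetherian_of_tower S
    (isNoetherian_of_injective A.val.toLinearMap Subtype.val_injective)
  have hγ : γ ∈ A := Algebra.subset_adjoin (Or.inr (Or.inl rfl))
  have hγ' : γ' ∈ A := Algebra.subset_adjoin (Or.inr (Or.inr rfl))
  let J : TwoSidedIdeal A := TwoSidedIdeal.span {x | ∃ w ∈ T', x.1 = γ * w - w * γ}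
  obtain ⟨m, hm⟩ := levitzki J fun ψ hψ => by
    refine (IsNilpotent.map_iff (f := A.val) Subtype.val_injective).1 (fib_nil _ fun p hp => ?_)
    let K := AlgebraicClosure (FractionRing (S ⧸ p))
    let φ : S →+* K := (algebraMap (FractionRing (S ⧸ p)) K).comp
      ((algebraMap (S ⧸ p) (FractionRing (S ⧸ p))).comp (Ideal.Quotient.mk p))
    let _ : Algebra S K := φ.toAlgebra
    have hker : RingHom.ker (algebraMap S K) = p := by
      ext x
      change φ x = 0 ↔ _
      simp only [φ, RingHom.comp_apply,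
        map_eq_zero_iff _ (algebraMap (FractionRing (S ⧸ p)) K).injective,
        map_eq_zero_iff _ (IsFractionRing.injective (S ⧸ p) (FractionRing (S ⧸ p))),
        Ideal.Quotient.eq_zero_iff_mem]
    have : CharZero K := charZero_of_injective_ringHom (φ.comp (algebraMap ℚ S)).injective
    let _ : Algebra ℚ (Module.End K (K ⊗[S] Q)) :=
      ((algebraMap K (Module.End K (K ⊗[S] Q))).comp (algebraMap ℚ K)).toAlgebra'
        fun c x => Algebra.commutes (algebraMap ℚ K c) x
    let τ : Module.End S Q →+* Module.End K (K ⊗[S] Q) :=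
      RingHomClass.toRingHom (Module.End.baseChangeHom S K Q)
    have hb := span_baseChange K hβ
    have hset : {w | ∃ W ∈ (fun W => Matrix.map W (algebraMap S K)) '' T,
        W.Represents (fun i => (1 : K) ⊗ₜ[S] β i) w} = τ '' T' := by
      ext w
      constructor
      · rintro ⟨_, ⟨W, hW, rfl⟩, h3⟩
        obtain ⟨w', h4⟩ := hT W hW
        exact ⟨w', ⟨W, hW, h4⟩, Matrix.Represents.eq hb (represents_baseChange K h4) h3⟩
      · rintro ⟨w', ⟨W, hW, h4⟩, rfl⟩
        exact ⟨_, ⟨W, hW, rfl⟩, represents_baseChange K h4⟩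
    have hGE := formalM (n := n) _ hb (represents_baseChange K hG) (represents_baseChange K hG')
      (S := (fun W => Matrix.map W (algebraMap S K)) '' T)
      (by
        rintro _ ⟨W, hW, rfl⟩
        obtain ⟨w', h4⟩ := hT W hW
        exact ⟨_, represents_baseChange K h4⟩)
      (fun ws hws => by
        obtain ⟨ws', h3, rfl⟩ := eng_lift _ _ ws hws
        rw [← relM_map]
        simpa only [LinearMap.baseChange_zero] using represents_baseChange K (hr ws' h3))
    rw [hset] at hGE
    have hF := fieldE (g := τ γ) (g' := τ γ') (S := τ '' T') (by rw [← map_mul, h1, map_one])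
      (by rw [← map_mul, h2, map_one])
      (by
        rintro _ ⟨w, ⟨W, hW, h3⟩, rfl⟩
        exact ⟨⟨γ * w * γ', ⟨_, (hc W hW).1, (hG.mul h3).mul hG'⟩, by simp only [map_mul]⟩,
          ⟨γ' * w * γ, ⟨_, (hc W hW).2, (hG'.mul h3).mul hG⟩, by simp only [map_mul]⟩⟩) hGE
    have hA : ∀ a : A, τ a.1 ∈ Algebra.adjoin K (τ '' T' ∪ {τ γ, τ γ'}) := by
      rintro ⟨a, ha⟩
      induction ha using Algebra.adjoin_induction with
      | mem x hx =>
        refine Algebra.subset_adjoin ?_
        rcases hx with hx | rfl | rfl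
        · exact Or.inl ⟨x, hx, rfl⟩
        · exact Or.inr (Or.inl rfl)
        · exact Or.inr (Or.inr rfl)
      | algebraMap r =>
        have h3 : τ (algebraMap S _ r) = algebraMap K _ (algebraMap S K r) := by
          refine LinearMap.ext fun v => ?_
          change (algebraMap S (Module.End S Q) r).baseChange K v = _
          rw [Algebra.algebraMap_eq_smul_one, LinearMap.baseChange_smul, LinearMap.baseChange_one,
            Module.algebraMap_end_apply, algebraMap_smul]
          rfl
        rw [h3]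
        exact Subalgebra.algebraMap_mem _ _
      | add x y _ _ hx hy => rw [map_add]; exact add_mem hx hy
      | mul x y _ _ hx hy => rw [map_mul]; exact mul_mem hx hy
    have hJ := me_trace (τ.comp A.val.toRingHom) _ hA _ (by
      rintro x ⟨w, hw, hx⟩ a ha
      have h3 : (τ.comp A.val.toRingHom) x = τ γ * τ w - τ w * τ γ := by
        change τ x.1 = _
        rw [hx, map_sub, map_mul, map_mul]
      rw [h3]
      exact hF _ ⟨w, hw, rfl⟩ a ha) ψ hψ
    obtain ⟨N, hN⟩ := nil_of_trace (x := τ ψ.1) fun i => by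
      rw [pow_succ']
      exact hJ _ (pow_mem (hA ψ) i)
    refine ⟨N, ?_⟩
    rw [← hker, Zp_iff]
    rw [← map_pow] at hN
    exact hN
  refine ⟨m, fun l hl hn => ?_⟩
  have hA : ∀ p ∈ l, letter γ γ' p ∈ A := by
    rintro ⟨i, w⟩ hp
    have hW : w ∈ A := Algebra.subset_adjoin (Or.inl (hl _ hp))
    fin_cases i
    · exact hW
    · exact sub_mem (mul_mem hγ hW) (mul_mem hW hγ)
    · exact hγ
    · exact hγ'
  obtain ⟨l', h3, h4, c, h5⟩ := ge_absorb γ γ' A.toSubmonoid (Subtype.val '' (J : Set A))
    (by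
      rintro t ht _ ⟨x, hx, rfl⟩
      exact ⟨⟨t, ht⟩ * x, J.mul_mem_left _ _ hx, rfl⟩) l hA
    (by
      rintro ⟨i, w⟩ hp rfl
      exact ⟨⟨_, hA _ hp⟩, TwoSidedIdeal.subset_span ⟨w, hl _ hp, rfl⟩, rfl⟩) m hn
  obtain ⟨l'', h6, rfl⟩ := eng_lift _ _ l' h3
  have h7 := congrArg A.val (hm l'' h6 (by simpa using h4))
  rw [map_list_prod, map_zero] at h7
  rw [h5]
  exact mul_eq_zero_of_left h7 c

end Abstract

section Generic

variable {ι : Type} [Fintype ι] [DecidableEq ι] {R M : Type} [CommRing R] [Algebra ℚ R]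
  [AddCommGroup M] [Module R M]

/-- The generic vectors all of whose specialisations vanish in `M`. -/
noncomputable def meK (b : ι → M) (G G' : Matrix ι ι R) (L : Submodule ℚ (Matrix ι ι R)) :
    Submodule (MvPolynomial ((Bool ⊕ ι × ι) × ι × ι) ℚ)
      (ι → MvPolynomial ((Bool ⊕ ι × ι) × ι × ι) ℚ) where
  carrier := {v | ∀ z : ι × ι → Matrix ι ι R, (∀ j, z j ∈ L) →
    Fintype.linearCombination R b (fun i => geEv G G' z (v i)) = 0}
  add_mem' := by
    intro v w hv hw z hz
    have h : (fun i => geEv G G' z ((v + w) i)) =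
        (fun i => geEv G G' z (v i)) + fun i => geEv G G' z (w i) := funext fun i => by simp
    rw [h, map_add, hv z hz, hw z hz, add_zero]
  zero_mem' := by
    intro z _
    have h : (fun i => geEv G G' z ((0 : ι → _) i)) = 0 := funext fun i => by simp
    rw [h, map_zero]
  smul_mem' := by
    intro c v hv z hz
    have h : (fun i => geEv G G' z ((c • v) i)) =
        geEv G G' z c • fun i => geEv G G' z (v i) := funext fun i => by simp
    rw [h, map_smul, hv z hz, smul_zero]

/-- The generators of the generic module. -/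
noncomputable def meB (b : ι → M) (G G' : Matrix ι ι R) (L : Submodule ℚ (Matrix ι ι R)) (i : ι) :
    (ι → MvPolynomial ((Bool ⊕ ι × ι) × ι × ι) ℚ) ⧸ meK b G G' L :=
  Submodule.Quotient.mk (Pi.single i 1)

variable {b : ι → M} {G G' : Matrix ι ι R} {L : Submodule ℚ (Matrix ι ι R)}

theorem meB_comb (v : ι → MvPolynomial ((Bool ⊕ ι × ι) × ι × ι) ℚ) :
    Fintype.linearCombination (MvPolynomial ((Bool ⊕ ι × ι) × ι × ι) ℚ) (meB b G G' L) v =
      Submodule.Quotient.mk v := by
  rw [Fintype.linearCombination_apply]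
  conv_rhs => rw [pi_eq_sum_univ' v]
  change _ = (meK b G G' L).mkQ _
  rw [map_sum]
  simp only [map_smul, Submodule.mkQ_apply, meB]

theorem meB_span : Submodule.span (MvPolynomial ((Bool ⊕ ι × ι) × ι × ι) ℚ)
    (Set.range (meB b G G' L)) = ⊤ := by
  rw [← Fintype.range_linearCombination, LinearMap.range_eq_top]
  intro q
  obtain ⟨v, rfl⟩ := Submodule.Quotient.mk_surjective _ q
  exact ⟨v, meB_comb v⟩

omit [DecidableEq ι] in
theorem me_mulVec (z : ι × ι → Matrix ι ι R)
    (W : Matrix ι ι (MvPolynomial ((Bool ⊕ ι × ι) × ι × ι) ℚ))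
    (v : ι → MvPolynomial ((Bool ⊕ ι × ι) × ι × ι) ℚ) :
    (fun i => geEv G G' z (W.mulVec v i)) =
      (W.map (geEv G G' z)).mulVec fun i => geEv G G' z (v i) :=
  funext fun i => RingHom.map_mulVec (geEv G G' z) W v i

theorem me_rep (W : Matrix ι ι (MvPolynomial ((Bool ⊕ ι × ι) × ι × ι) ℚ))
    (hW : ∀ z : ι × ι → Matrix ι ι R, (∀ j, z j ∈ L) →
      ∃ w, (W.map (geEv G G' z)).Represents b w) : ∃ w, W.Represents (meB b G G' L) w := by
  refine ⟨(meK b G G' L).mapQ (meK b G G' L) W.mulVecLin fun v hv z hz => ?_,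
    Matrix.represents_iff.2 fun v => ?_⟩
  · obtain ⟨w, hw⟩ := hW z hz
    rw [Matrix.mulVecLin_apply, me_mulVec, hw.congr_fun, hv z hz, map_zero]
  · rw [meB_comb, meB_comb, Submodule.mapQ_apply, Matrix.mulVecLin_apply]

theorem me_zero (W : Matrix ι ι (MvPolynomial ((Bool ⊕ ι × ι) × ι × ι) ℚ)) :
    W.Represents (meB b G G' L) 0 ↔
      ∀ z : ι × ι → Matrix ι ι R, (∀ j, z j ∈ L) → (W.map (geEv G G' z)).Represents b 0 := by
  constructor
  · intro h z hz
    refine Matrix.represents_iff'.2 fun j => ?_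
    have h1 := h.congr_fun (Pi.single j 1)
    rw [meB_comb, LinearMap.zero_apply, Submodule.Quotient.mk_eq_zero] at h1
    have h2 := h1 z hz
    rw [Fintype.linearCombination_apply] at h2
    simpa using h2
  · intro h
    refine Matrix.represents_iff.2 fun v => ?_
    rw [meB_comb, LinearMap.zero_apply, Submodule.Quotient.mk_eq_zero]
    intro z hz
    rw [me_mulVec, (h z hz).congr_fun, LinearMap.zero_apply]

end Generic

/-- Words with many commutator letters vanish. -/
theorem engineM {R M : Type} [CommRing R] [Algebra ℚ R] [AddCommGroup M] [Module R M]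
    [Module.Finite R M] [Algebra ℚ (Module.End R M)] {Γ : Type*} [Group Γ]
    (ρ : Γ →* Module.End R M) (N : Subgroup Γ) [N.Normal] {n : ℕ} {g : Γ} (h : Eng n g) :
    (∀ W ∈ Submodule.span ℚ (logs ρ N), GE n (ρ g) (ρ g⁻¹) W) ∧
    ∃ m : ℕ, ∀ l : List (Fin 4 × Module.End R M), (∀ p ∈ l, p.2 ∈ Submodule.span ℚ (logs ρ N)) →
      m ≤ nC l → (l.map (letter (ρ g) (ρ g⁻¹))).prod = 0 := by
  obtain ⟨d, b, hb⟩ := Module.Finite.exists_fin (R := R) (M := M)
  obtain ⟨G, hG⟩ := me_exists hb (ρ g)
  obtain ⟨G', hG'⟩ := me_exists hb (ρ g⁻¹)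
  let L : Submodule ℚ (Matrix (Fin d) (Fin d) R) :=
    { carrier := {W | ∃ w ∈ Submodule.span ℚ (logs ρ N), W.Represents b w}
      add_mem' := by
        rintro _ _ ⟨w, h1, h2⟩ ⟨w', h3, h4⟩
        exact ⟨w + w', add_mem h1 h3, h2.add h4⟩
      zero_mem' := ⟨0, zero_mem _, Matrix.Represents.zero⟩
      smul_mem' := by
        rintro c W ⟨w, h1, h2⟩
        refine ⟨c • w, Submodule.smul_mem _ _ h1, ?_⟩
        have h3 : c • w = algebraMap ℚ R c • w := by
          rw [Algebra.smul_def, Algebra.smul_def]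
          congr 1
          exact DFunLike.congr_fun (Subsingleton.elim (algebraMap ℚ (Module.End R M))
            ((algebraMap R (Module.End R M)).comp (algebraMap ℚ R))) c
        rw [h3, ← algebraMap_smul R c W]
        exact h2.smul _ }
  have hv : ∀ ws : List (Matrix (Fin d) (Fin d) R), (∀ W ∈ ws, W ∈ L) →
      (relM n G G' ws).Represents b 0 := fun ws hws => vanM b hb ρ N h hG hG' ws hws
  refine ⟨fun w hw => ?_, ?_⟩
  · obtain ⟨W, hW⟩ := me_exists hb w
    exact formalM b hb hG hG' (S := L) (fun W hW => hW.imp fun _ h => h.2) hv w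
      (LG.mem ⟨W, ⟨w, hw, hW⟩, hW⟩)
  obtain ⟨γ, hγ⟩ := me_rep (b := b) (G := G) (G' := G') (L := L) (geT (Fin d) (Sum.inl true))
    fun z _ => ⟨_, by rw [geEv_true]; exact hG⟩
  obtain ⟨γ', hγ'⟩ := me_rep (b := b) (G := G) (G' := G') (L := L) (geT (Fin d) (Sum.inl false))
    fun z _ => ⟨_, by rw [geEv_false]; exact hG'⟩
  have hT : ∀ W ∈ geS G G' L, ∃ w, W.Represents (meB b G G' L) w := fun W hW =>
    me_rep W fun z hz => (hW z hz).imp fun _ h => h.2
  obtain ⟨m, hm⟩ := me_noeth (n := n) (meB b G G' L) meB_span hγ hγ'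
    (by
      rw [← sub_eq_zero]
      refine Matrix.Represents.eq meB_span (me_sub (hγ.mul hγ') Matrix.Represents.one)
        ((me_zero _).2 fun z _ => ?_)
      have h1 := me_sub (hG.mul hG') Matrix.Represents.one
      rw [← map_mul, mul_inv_cancel, map_one, sub_self] at h1
      rwa [Matrix.map_sub _ (map_sub _), Matrix.map_mul, geEv_true, geEv_false,
        Matrix.map_one _ (map_zero _) (map_one _)])
    (by
      rw [← sub_eq_zero]
      refine Matrix.Represents.eq meB_span (me_sub (hγ'.mul hγ) Matrix.Represents.one)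
        ((me_zero _).2 fun z _ => ?_)
      have h1 := me_sub (hG'.mul hG) Matrix.Represents.one
      rw [← map_mul, inv_mul_cancel, map_one, sub_self] at h1
      rwa [Matrix.map_sub _ (map_sub _), Matrix.map_mul, geEv_true, geEv_false,
        Matrix.map_one _ (map_zero _) (map_one _)])
    hT
    (fun W hW => ⟨fun z hz => by
        obtain ⟨w, h1, h2⟩ := hW z hz
        rw [Matrix.map_mul, Matrix.map_mul, geEv_true, geEv_false]
        exact ⟨_, logs_conj ρ N g _ h1, (hG.mul h2).mul hG'⟩, fun z hz => by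
        obtain ⟨w, h1, h2⟩ := hW z hz
        rw [Matrix.map_mul, Matrix.map_mul, geEv_true, geEv_false]
        exact ⟨_, by simpa only [inv_inv] using logs_conj ρ N g⁻¹ _ h1, (hG'.mul h2).mul hG⟩⟩)
    (fun ws hws => (me_zero _).2 fun z hz => by
      rw [relM_map, geEv_true, geEv_false]
      refine hv _ fun W hW => ?_
      obtain ⟨W', h1, rfl⟩ := List.mem_map.1 hW
      exact hws W' h1 z hz)
  refine ⟨m, fun l hl hn => ?_⟩
  choose Y hY using fun i : Fin l.length => me_exists hb (l.get i).2
  have hl2 : l = (List.finRange l.length).map fun i => ((l.get i).1, (l.get i).2) :=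
    (List.map_get_finRange l).symm
  have hcount : m ≤ (List.finRange l.length).countP fun i => (l.get i).1 = 1 := by
    rw [← me_nC _ _ fun i => (l.get i).2, ← hl2]
    exact hn
  let C0 : R →+* MvPolynomial (Fin l.length × Fin d × Fin d) R := C
  let U : Fin l.length → Matrix (Fin d) (Fin d) (MvPolynomial (Fin l.length × Fin d × Fin d) R) :=
    fun i => Matrix.of fun a b => MvPolynomial.X (i, a, b)
  let F := (((List.finRange l.length).map fun i => ((l.get i).1, U i)).map
    (letter (G.map C0) (G'.map C0))).prod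
  have hF : ∀ W : Fin l.length → Matrix (Fin d) (Fin d) R,
      F.map (eval fun p : Fin l.length × Fin d × Fin d => W p.1 p.2.1 p.2.2) =
        (((List.finRange l.length).map fun i => ((l.get i).1, W i)).map (letter G G')).prod := by
    intro W
    have h1 := me_map_word
      (eval fun p : Fin l.length × Fin d × Fin d => W p.1 p.2.1 p.2.2).mapMatrix
      (G.map C0) (G'.map C0) (List.finRange l.length) (fun i => (l.get i).1) U
    have h2 : ∀ V : Matrix (Fin d) (Fin d) R,
        (eval fun p : Fin l.length × Fin d × Fin d => W p.1 p.2.1 p.2.2).mapMatrix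
          (V.map C0) = V := fun V => by
      ext a b
      simp [C0]
    have h3 : ∀ i, (eval fun p : Fin l.length × Fin d × Fin d => W p.1 p.2.1 p.2.2).mapMatrix
        (U i) = W i := fun i => by
      ext a b
      simp [U]
    simp only [h2, h3] at h1
    exact h1
  have hrep := me_word hG hG' (List.finRange l.length) (fun i => (l.get i).1) Y
    (fun i => (l.get i).2) fun i _ => hY i
  rw [← hl2, ← hF] at hrep
  refine Matrix.Represents.eq hb hrep (Matrix.represents_iff'.2 fun j => ?_)
  refine polarM b L (fun i => F i j) (fun z hz c => ?_) Y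
    fun i => ⟨_, hl _ (List.get_mem _ _), hY i⟩
  have hW : ∀ i : Fin l.length, ∑ j, c i j • geT (Fin d) (Sum.inr j) ∈ geS G G' L := by
    intro i z hz
    rw [geEv_sum]
    exact Submodule.sum_mem _ fun j _ => Submodule.smul_mem _ _ (hz j)
  choose w hw using fun i => hT _ (hW i)
  have h1 := me_word hγ hγ' (List.finRange l.length) (fun i => (l.get i).1) _ w fun i _ => hw i
  rw [hm _ (fun p hp => by
    obtain ⟨i, -, rfl⟩ := List.mem_map.1 hp
    exact ⟨_, hW i, hw i⟩) (by rw [me_nC]; exact hcount)] at h1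
  have h2 := (me_zero _).1 h1 z hz
  have h3 := me_map_word (geEv G G' z).mapMatrix (geT (Fin d) (Sum.inl true))
    (geT (Fin d) (Sum.inl false)) (List.finRange l.length) (fun i => (l.get i).1)
    fun i => ∑ j, c i j • geT (Fin d) (Sum.inr j)
  simp only [RingHom.mapMatrix_apply, geEv_sum, geEv_true, geEv_false] at h3
  rw [h3, ← hF fun i => ∑ j, c i j • z j] at h2
  exact Matrix.represents_iff'.1 h2 j

end Pool.Agent.Lib.MP_b39e30_al.Lin
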