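import Pool.Agent.Lib.MP_b39e30_al.Lin.MDefs
import Pool.Agent.Lib.MP_b39e30_al.Lin.MFib
import Pool.Agent.Lib.MP_b39e30_al.Lin.MNil
import Pool.Agent.Lib.MP_b39e30_al.Lin.MField
import Pool.Agent.Lib.MP_b39e30_al.Lin.GComm
import Pool.Agent.Lib.MP_b39e30_al.Lin.GUltra

set_option autoImplicit false

namespace Pool.Agent.Lib.MP_b39e30_al.Lin

section

variable {R M : Type} [CommRing R] [AddCommGroup M] [Module R M] {Γ : Type*} [Group Γ]

theorem mu_field (p : Ideal R) [p.IsPrime] : ∃ (K : Type) (_ : Field K) (_ : Algebra R K),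
    IsAlgClosed K ∧ RingHom.ker (algebraMap R K) = p := by
  let K := AlgebraicClosure (FractionRing (R ⧸ p))
  let φ : R →+* K := (algebraMap (FractionRing (R ⧸ p)) K).comp
    ((algebraMap (R ⧸ p) (FractionRing (R ⧸ p))).comp (Ideal.Quotient.mk p))
  refine ⟨K, inferInstance, φ.toAlgebra, inferInstance, Ideal.ext fun x => ?_⟩
  change φ x = 0 ↔ x ∈ p
  simp only [φ, RingHom.comp_apply,
    map_eq_zero_iff _ (algebraMap (FractionRing (R ⧸ p)) K).injective,
    map_eq_zero_iff _ (IsFractionRing.injective (R ⧸ p) (FractionRing (R ⧸ p))),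
    Ideal.Quotient.eq_zero_iff_mem]

/-- The representation on the fibre. -/
noncomputable def muRep (K : Type) [Field K] [Algebra R K] (ρ : Γ →* Module.End R M) :
    Γ →* Module.End K (TensorProduct R K M) :=
  (Module.End.baseChangeHom R K M).toRingHom.toMonoidHom.comp ρ

theorem mu_iff [Module.Finite R M] (K : Type) [Field K] [Algebra R K]
    (ρ : Γ →* Module.End R M) (g : Γ) (e d : ℕ) :
    PP (A := Module.End K (TensorProduct R K M)) (muRep K ρ) g e d ↔
      ∀ (u : Fin d → Γ) (f : Fin d → ℕ → Γ),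
        Zp (RingHom.ker (algebraMap R K)) (ulPr ρ g e u f) := by
  refine forall₂_congr fun u f => ?_
  have h := ul_map (B := Module.End K (TensorProduct R K M))
    (Module.End.baseChangeHom R K M).toRingHom (MonoidHom.id Γ) (ρ := ρ)
    (σ := muRep K ρ) (fun _ => rfl) g e u f
  change ulPr (A := Module.End K (TensorProduct R K M)) (muRep K ρ) g e u f = 0 ↔ _
  simp only [MonoidHom.id_apply] at h
  rw [← h, Zp_iff]
  rfl

theorem mu_prime [Algebra ℚ R] [Module.Finite R M] (p : Ideal R) [p.IsPrime] {d : ℕ}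
    {b : Fin d → M} (hb : Submodule.span R (Set.range b) = ⊤) (ρ : Γ →* Module.End R M) {n : ℕ}
    {g : Γ} (h : Eng n g) :
    ∃ e, ∀ (u : Fin d → Γ) (f : Fin d → ℕ → Γ), Zp p (ulPr ρ g e u f) := by
  obtain ⟨K, _, _, _, rfl⟩ := mu_field p
  have : CharZero K :=
    charZero_of_injective_ringHom ((algebraMap R K).comp (algebraMap ℚ R)).injective
  have hd := finrank_le_of_span_eq_top (span_baseChange K hb)
  rw [Fintype.card_fin] at hd
  exact (field_thmE (muRep K ρ) h hd).imp fun e he => (mu_iff K ρ g e d).1 he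

theorem mu_mono [Module.Finite R M] (p : Ideal R) [p.IsPrime] {ρ : Γ →* Module.End R M} {g : Γ}
    {e e' d : ℕ} (h : ∀ (u : Fin d → Γ) (f : Fin d → ℕ → Γ), Zp p (ulPr ρ g e u f))
    (he : e ≤ e') : ∀ (u : Fin d → Γ) (f : Fin d → ℕ → Γ), Zp p (ulPr ρ g e' u f) := by
  obtain ⟨K, _, _, _, rfl⟩ := mu_field p
  exact (mu_iff K ρ g e' d).1 (((mu_iff K ρ g e d).2 h).mono he)

theorem mu_pow [Module.Finite R M] (p : Ideal R) [p.IsPrime] {ρ : Γ →* Module.End R M} {g : Γ}
    {e d : ℕ} (h : ∀ (u : Fin d → Γ) (f : Fin d → ℕ → Γ), Zp p (ulPr ρ g e u f)) {w : Γ}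
    (hw : w ∈ ZN g e) : Zp p ((ρ w - 1) ^ d) := by
  obtain ⟨K, _, _, _, rfl⟩ := mu_field p
  have h1 := ((mu_iff K ρ g e d).2 h).pow w hw
  rw [Zp_iff]
  change Module.End.baseChangeHom R K M ((ρ w - 1) ^ d) = 0
  rw [map_pow, map_sub, map_one]
  exact h1

/-- A sequence of endomorphisms acts on the module of sequences. -/
def muEnd (R M : Type) [CommRing R] [AddCommGroup M] [Module R M] :
    (ℕ → Module.End R M) →+* Module.End (ℕ → R) (ℕ → M) where
  toFun a :=
    { toFun := fun v c => a c (v c)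
      map_add' := fun v w => funext fun c => map_add (a c) (v c) (w c)
      map_smul' := fun r v => funext fun c => map_smul (a c) (r c) (v c) }
  map_one' := rfl
  map_mul' _ _ := rfl
  map_zero' := rfl
  map_add' _ _ := rfl

theorem mu_span {d : ℕ} {b : Fin d → M} (hb : Submodule.span R (Set.range b) = ⊤) :
    Submodule.span (ℕ → R) (Set.range fun (j : Fin d) (_ : ℕ) => b j) = ⊤ := by
  refine eq_top_iff.2 fun v _ => ?_
  choose a ha using fun c => (Submodule.mem_span_range_iff_exists_fun R).1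
    (hb.ge (Submodule.mem_top : v c ∈ ⊤))
  refine (Submodule.mem_span_range_iff_exists_fun _).2 ⟨fun j c => a c j, funext fun c => ?_⟩
  rw [Finset.sum_apply]
  exact ha c

theorem mu_down {p : ℕ → Ideal R} {d : ℕ} {b : Fin d → M}
    (hb : Submodule.span R (Set.range b) = ⊤) {a : ℕ → Module.End R M}
    (h : Zp (ulId p) (muEnd R M a)) :
    ∀ᶠ c in (Filter.hyperfilter ℕ : Filter ℕ), Zp (p c) (a c) := by
  obtain ⟨s, hs, h⟩ := h
  have h1 : ∀ v ∈ ulId p • (⊤ : Submodule (ℕ → R) (ℕ → M)),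
      ∀ᶠ c in (Filter.hyperfilter ℕ : Filter ℕ), v c ∈ p c • (⊤ : Submodule R M) := fun v hv =>
    Submodule.smul_induction_on hv
      (fun r hr m _ => Filter.Eventually.mono hr fun c hc =>
        Submodule.smul_mem_smul hc Submodule.mem_top)
      fun x y hx hy => (hx.and hy).mono fun c hc => Submodule.add_mem _ hc.1 hc.2
  have h2 : ∀ᶠ c in (Filter.hyperfilter ℕ : Filter ℕ), ∀ j,
      s c • a c (b j) ∈ p c • (⊤ : Submodule R M) :=
    Filter.eventually_all.2 fun j => h1 _ (h fun _ => b j)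
  refine ((Ultrafilter.eventually_not.2 hs).and h2).mono fun c hc => ⟨s c, hc.1, fun v => ?_⟩
  obtain ⟨t, rfl⟩ := (Submodule.mem_span_range_iff_exists_fun R).1
    (hb.ge (Submodule.mem_top : v ∈ ⊤))
  rw [map_sum, Finset.smul_sum]
  refine Submodule.sum_mem _ fun j _ => ?_
  rw [map_smul, smul_comm]
  exact Submodule.smul_mem _ _ (hc.2 j)

theorem mu_unif [Algebra ℚ R] [Module.Finite R M] {d : ℕ} {b : Fin d → M}
    (hb : Submodule.span R (Set.range b) = ⊤) (ρ : Γ →* Module.End R M) {n : ℕ} {g : Γ}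
    (h : Eng n g) : ∃ e, ∀ p : Ideal R, p.IsPrime →
      ∀ (u : Fin d → Γ) (f : Fin d → ℕ → Γ), Zp p (ulPr ρ g e u f) := by
  by_contra hne
  have hne' : ∀ e, ∃ p : Ideal R, p.IsPrime ∧
      ¬ ∀ (u : Fin d → Γ) (f : Fin d → ℕ → Γ), Zp p (ulPr ρ g e u f) := fun e => by
    by_contra h1
    exact hne ⟨e, fun p hp => by_contra fun h2 => h1 ⟨p, hp, h2⟩⟩
  choose p hp hP using hne'
  have hq := ulId_prime hp
  have hE : Eng n (fun _ : ℕ => g) := fun x => funext fun c => by
    have h1 : Function.Semiconj (fun y : ℕ → Γ => y c)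
        (fun y => y⁻¹ * (fun _ : ℕ => g)⁻¹ * y * fun _ : ℕ => g)
        (fun y => y⁻¹ * g⁻¹ * y * g) := fun _ => rfl
    exact (h1.iterate_right n x).trans (h (x c))
  have hF : Module.Finite (ℕ → R) (ℕ → M) :=
    ⟨mu_span hb ▸ Submodule.fg_span (Set.finite_range _)⟩
  obtain ⟨e, he⟩ := mu_prime (ulId p) (mu_span hb)
    ((muEnd R M).toMonoidHom.comp (ρ.compLeft ℕ)) hE
  have h2 : ∀ c, ∃ (u : Fin d → Γ) (f : Fin d → ℕ → Γ),
      e ≤ c → ¬ Zp (p c) (ulPr ρ g e u f) := fun c => by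
    by_contra h3
    push Not at h3
    have := hp c
    exact hP c (mu_mono (p c) (fun u f => (h3 u f).2) (h3 1 1).1)
  choose u f h2 using h2
  have h3 := he (fun i c => u c i) fun i j c => f c i j
  have h6 := ul_map (muEnd R M) (MonoidHom.id (ℕ → Γ)) (ρ := ρ.compLeft ℕ)
    (σ := (muEnd R M).toMonoidHom.comp (ρ.compLeft ℕ)) (fun _ => rfl) (fun _ => g) e
    (fun i c => u c i) fun i j c => f c i j
  simp only [MonoidHom.id_apply] at h6
  rw [← h6] at h3
  obtain ⟨c, h4, h5⟩ :=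
    ((mu_down hb h3).and (Nat.hyperfilter_le_atTop (Filter.eventually_ge_atTop e))).exists
  have h7 := ul_map (Pi.evalRingHom (fun _ : ℕ => Module.End R M) c)
    (Pi.evalMonoidHom (fun _ : ℕ => Γ) c) (ρ := ρ.compLeft ℕ) (σ := ρ) (fun _ => rfl)
    (fun _ => g) e (fun i c => u c i) fun i j c => f c i j
  exact h2 c h5 (h7 ▸ h4)

end

/-- Uniformity over all fibres, by an ultraproduct. -/
theorem ultraM {R M : Type} [CommRing R] [Algebra ℚ R] [AddCommGroup M] [Module R M]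
    [Module.Finite R M] {Γ : Type*} [Group Γ] (ρ : Γ →* Module.End R M) {n : ℕ} {g : Γ}
    (h : Eng n g) : ∃ e, ∀ w ∈ ZN g e, IsNilpotent (ρ w - 1) := by
  obtain ⟨d, b, hb⟩ := Module.Finite.exists_fin (R := R) (M := M)
  obtain ⟨e, he⟩ := mu_unif hb ρ h
  exact ⟨e, fun w hw => fib_nil _ fun p hp => ⟨d, mu_pow p (he p hp) hw⟩⟩

end Pool.Agent.Lib.MP_b39e30_al.Lin
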