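import Pool.Agent.Lib.MP_b39e30_al.Lin.MDefs
import Pool.Agent.Lib.MP_b39e30_al.Lin.GTors

set_option autoImplicit false

namespace Pool.Agent.Lib.MP_b39e30_al.Lin

/-- A finitely generated module with torsion-free additive group embeds, with its endomorphisms,
in a finitely generated module over a commutative `ℚ`-algebra. -/
theorem exists_rat_module (R M : Type) [CommRing R] [AddCommGroup M] [Module R M]
    [Module.Finite R M] [IsAddTorsionFree M] :
    ∃ (R' : Type) (_ : CommRing R') (_ : Algebra ℚ R') (M' : Type) (_ : AddCommGroup M')
      (_ : Module R' M') (_ : Module.Finite R' M') (θ : Module.End R M →* Module.End R' M'),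
      Function.Injective θ := by
  let T : Submonoid R := (nonZeroDivisors ℤ).map (Int.castRingHom R)
  let ψ : ℚ →+* Localization T := IsLocalization.lift (M := nonZeroDivisors ℤ)
    (g := (algebraMap R (Localization T)).comp (Int.castRingHom R))
    fun m => IsLocalization.map_units (Localization T) (⟨_, m, m.2, rfl⟩ : T)
  have hi : Function.Injective (TensorProduct.mk R (Localization T) M 1) := by
    rw [injective_iff_map_eq_zero]
    intro v hv
    obtain ⟨⟨_, m, hm, rfl⟩, h⟩ := (IsLocalizedModule.eq_zero_iff T _).1 hv
    have h1 : m • v = m • (0 : M) := by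
      rw [smul_zero, ← Int.cast_smul_eq_zsmul R]
      exact h
    exact zsmul_right_injective (nonZeroDivisors.ne_zero hm) h1
  refine ⟨Localization T, inferInstance, ψ.toAlgebra, TensorProduct R (Localization T) M,
    inferInstance, inferInstance, inferInstance,
    (Module.End.baseChangeHom R (Localization T) M).toMonoidHom, fun a b h => ?_⟩
  ext v
  exact hi (LinearMap.congr_fun h (TensorProduct.tmul R 1 v))

end Pool.Agent.Lib.MP_b39e30_al.Lin
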