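import Pool.Agent.Lib.MP_b39e30_al.Lin.MDefs
import Pool.Agent.Lib.MP_b39e30_al.Lin.MEngine
import Pool.Agent.Lib.MP_b39e30_al.Lin.MUltra
import Pool.Agent.Lib.MP_b39e30_al.Lin.GFilt
import Pool.Agent.Lib.MP_b39e30_al.Lin.GChain
import Pool.Agent.Lib.MP_b39e30_al.Lin.GUnip

set_option autoImplicit false

namespace Pool.Agent.Lib.MP_b39e30_al.Lin

/-- A bounded left Engel element of a group of automorphisms of a finitely generated module over
a commutative `ℚ`-algebra generates a subnormal subgroup. -/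
theorem mainM {R M : Type} [CommRing R] [Algebra ℚ R] [AddCommGroup M] [Module R M]
    [Module.Finite R M] {Γ : Type*} [Group Γ] (ρ : Γ →* Module.End R M)
    (hρ : Function.Injective ρ) {n : ℕ} {g : Γ} (h : Eng n g) :
    (Subgroup.zpowers g).IsSubnormal := by
  let _ : Algebra ℚ (Module.End R M) :=
    ((algebraMap R (Module.End R M)).comp (algebraMap ℚ R)).toAlgebra'
      fun c x => Algebra.commutes (algebraMap ℚ R c) x
  obtain ⟨e, he⟩ := ultraM ρ h
  have := ZN_normal g e
  obtain ⟨hG, m, hm⟩ := engineM ρ (ZN g e) h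
  have hu : ∀ W ∈ Submodule.span ℚ (logs ρ (ZN g e)),
      (fun Z => ρ g⁻¹ * Z * ρ g - Z)^[n] W = 0 := fun W hW =>
    GE.unip (by rw [← map_mul, mul_inv_cancel, map_one])
      (by rw [← map_mul, inv_mul_cancel, map_one]) (hG W hW)
  obtain ⟨J, M, hA, h0, h1, h2, hM⟩ := filt ρ g (ZN g e) he hu hm
  exact Subgroup.IsSubnormal.trans le_sup_left
    (chain ρ hρ g _ (Subgroup.mem_sup_left (Subgroup.mem_zpowers g)) J M hA h0 h1 h2 hM)
    (ZN_subnormal g e)

end Pool.Agent.Lib.MP_b39e30_al.Lin
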