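import Pool.Agent.Lib.MP_b39e30_al.Lin.PZub

/-!
In a subquotient of an algebra that is free of finite rank, a subalgebra whose elements are
nilpotent of bounded index modulo commutators is nilpotent.
-/

set_option autoImplicit false

namespace Pool.Agent.Lib.MP_b39e30_al.Lin

open Function

open scoped IsMulCommutative in
theorem zs_ops (k e : ℕ) : ∃ N : ℕ, ∀ (R P : Type) [CommRing R] [Algebra ℚ R] [AddCommGroup P]
    [Module R P] (t : Fin k → Module.End R P), (∀ i j, Commute (t i) (t j)) →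
    ∀ U : Submodule R P, (∀ i, ∀ Φ ∈ U, ((∑ j, t j ^ (i + 1)) ^ (e + 1)) Φ = 0) →
      ∀ j, ∀ Φ ∈ U, (t j ^ N) Φ = 0 := by
  obtain ⟨N, hN⟩ := pn_unif k 1 (e + 1)
  refine ⟨N, fun R P _ _ _ _ t hc U h j => ?_⟩
  let C := Algebra.adjoin R (Set.range t)
  have : IsMulCommutative C := Algebra.isMulCommutative_adjoin R (by
    rintro _ ⟨i, rfl⟩ _ ⟨j, rfl⟩
    exact hc i j)
  let t' : Fin k → C := fun j => ⟨_, Algebra.subset_adjoin ⟨j, rfl⟩⟩
  let n : Ideal C :=
    { carrier := {c | ∀ Φ ∈ U, c.1 Φ = 0}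
      add_mem' := fun h1 h2 Φ h => by
        rw [Subalgebra.coe_add, LinearMap.add_apply, h1 Φ h, h2 Φ h, add_zero]
      zero_mem' := fun _ _ => rfl
      smul_mem' := fun c d h1 Φ h => by
        change c.1 (d.1 Φ) = 0
        rw [h1 Φ h, map_zero] }
  let _ : Algebra ℚ (C ⧸ n) := ((algebraMap R (C ⧸ n)).comp (algebraMap ℚ R)).toAlgebra'
    fun c x => Algebra.commutes (algebraMap ℚ R c) x
  have h1 := hN (C ⧸ n) (Matrix.diagonal fun j => Ideal.Quotient.mk n (t' j)) fun i => by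
    refine ⟨0, fun _ _ => by simp, ?_⟩
    rw [Matrix.trace_zero, sub_zero, Matrix.diagonal_pow, Matrix.trace_diagonal]
    simp only [Pi.pow_apply, ← map_pow, ← map_sum]
    refine Ideal.Quotient.eq_zero_iff_mem.2 fun Φ hΦ => ?_
    simpa [t'] using h i Φ hΦ
  have h3 := congrFun (congrFun h1 j) j
  rw [Matrix.diagonal_pow, Matrix.diagonal_apply_eq, Pi.pow_apply, ← map_pow] at h3
  exact Ideal.Quotient.eq_zero_iff_mem.1 h3

variable {R B E : Type} [CommRing R] [Ring B] [Ring E] [Algebra R B] [Algebra R E]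
  (S : Subalgebra R (E × B)) {k : ℕ}

/-- Alternating maps that lift. -/
def Adm (f : B [⋀^Fin k]→ₗ[R] B) : Prop := ∃ F : E [⋀^Fin k]→ₗ[R] E,
  ∀ (Y : Fin k → E) (y : Fin k → B), (∀ i, (Y i, y i) ∈ S) → (F Y, f y) ∈ S

/-- Bilinear maps that lift. -/
def AdmB (β : B →ₗ[R] B →ₗ[R] B) : Prop := ∃ β' : E →ₗ[R] E →ₗ[R] E,
  ∀ e b e' b', (e, b) ∈ S → (e', b') ∈ S → (β' e e', β b b') ∈ S

/-- The span of the values. -/
def zJ (k : ℕ) : Submodule R B :=
  Submodule.span R {z | ∃ f : B [⋀^Fin k]→ₗ[R] B, Adm S f ∧ ∃ y, z = f y}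

variable {S}

theorem zs_update {Y : Fin k → E} {y : Fin k → B} (h : ∀ i, (Y i, y i) ∈ S) (j : Fin k) {e : E}
    {b : B} (h1 : (e, b) ∈ S) (i : Fin k) : (update Y j e i, update y j b i) ∈ S := by
  rcases eq_or_ne i j with rfl | h2
  · simpa using h1
  · simpa [h2] using h i

theorem zs_sum {ι : Type} [Fintype ι] {e : ι → E} {b : ι → B} (h : ∀ i, (e i, b i) ∈ S) :
    (∑ i, e i, ∑ i, b i) ∈ S := by
  rw [prod_mk_sum]
  exact sum_mem fun i _ => h i

theorem Adm.cramer {β : B →ₗ[R] B →ₗ[R] B} (hβ : AdmB S β) {f : B [⋀^Fin k]→ₗ[R] B}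
    (hf : Adm S f) (u : B) (y : Fin k → B) :
    β u (f y) - ∑ i, β (y i) (f (update y i u)) ∈ zJ S (k + 1) := by
  obtain ⟨β', hβ⟩ := hβ
  obtain ⟨F, hf⟩ := hf
  refine Submodule.subset_span ⟨zA β f, ⟨zA β' F, fun Y y h => ?_⟩, _, (zA_cons β f u y).symm⟩
  rw [zA_apply, zA_apply]
  exact zs_sum fun i => zsmul_mem (hβ _ _ _ _ (h i) (hf _ _ fun j => h _)) ((-1) ^ (i : ℕ))

variable (hS : ∀ b, ∃ e, (e, b) ∈ S)
include hS

theorem Adm.zD {f : B [⋀^Fin k]→ₗ[R] B} (hf : Adm S f) (a : B) : Adm S (zD a f) := by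
  obtain ⟨F, hf⟩ := hf
  obtain ⟨e, he⟩ := hS a
  refine ⟨Lin.zD e F, fun Y y h => ?_⟩
  rw [zD_apply, zD_apply]
  exact zs_sum fun j => hf _ _ (zs_update h j (mul_mem he (h j)))

theorem Adm.mul {f : B [⋀^Fin k]→ₗ[R] B} (hf : Adm S f) (a : B) :
    Adm S ((LinearMap.mulLeft R a).compAlternatingMap f) ∧
      Adm S ((LinearMap.mulRight R a).compAlternatingMap f) := by
  obtain ⟨F, hf⟩ := hf
  obtain ⟨e, he⟩ := hS a
  exact ⟨⟨(LinearMap.mulLeft R e).compAlternatingMap F, fun Y y h => mul_mem he (hf Y y h)⟩,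
    ⟨(LinearMap.mulRight R e).compAlternatingMap F, fun Y y h => mul_mem (hf Y y h) he⟩⟩

theorem zJ_mul (a : B) {z : B} (hz : z ∈ zJ S k) : a * z ∈ zJ S k ∧ z * a ∈ zJ S k := by
  induction hz using Submodule.span_induction with
  | mem z hz =>
    obtain ⟨f, hf, y, rfl⟩ := hz
    exact ⟨Submodule.subset_span ⟨_, (hf.mul hS a).1, y, rfl⟩,
      Submodule.subset_span ⟨_, (hf.mul hS a).2, y, rfl⟩⟩
  | zero => simp
  | add x y _ _ hx hy => rw [mul_add, add_mul]; exact ⟨add_mem hx.1 hy.1, add_mem hx.2 hy.2⟩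
  | smul t x _ hx =>
    rw [mul_smul_comm, smul_mul_assoc]
    exact ⟨Submodule.smul_mem _ t hx.1, Submodule.smul_mem _ t hx.2⟩

/-- The exchange identity. -/
theorem zs_key {f g : B [⋀^Fin k]→ₗ[R] B} (hf : Adm S f) (hg : Adm S g) (a : B)
    (y w : Fin k → B) : ∑ i, f (update y i (a * y i)) * g w -
      ∑ j, f y * g (update w j (a * w j)) ∈ zJ S (k + 1) := by
  choose l hl using hS
  have h1 : ∀ j, f y * g (update w j (a * w j)) -
      ∑ i, f (update y i (a * w j)) * g (update w j (y i)) ∈ zJ S (k + 1) := fun j =>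
    hf.cramer (β := (LinearMap.mul R B).flip ∘ₗ g.toMultilinearMap.toLinearMap w j) (by
      obtain ⟨G, hg⟩ := hg
      exact ⟨(LinearMap.mul R E).flip ∘ₗ G.toMultilinearMap.toLinearMap (fun i => l (w i)) j,
        fun e b e' b' h2 h3 => mul_mem h3 (hg _ _ (zs_update (fun i => hl (w i)) j h2))⟩)
      (a * w j) y
  have h2 : ∀ i, f (update y i (a * y i)) * g w -
      ∑ j, f (update y i (a * w j)) * g (update w j (y i)) ∈ zJ S (k + 1) := fun i =>
    hg.cramer (β := LinearMap.mul R B ∘ₗ f.toMultilinearMap.toLinearMap y i ∘ₗ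
      LinearMap.mulLeft R a) (by
      obtain ⟨F, hf⟩ := hf
      exact ⟨LinearMap.mul R E ∘ₗ F.toMultilinearMap.toLinearMap (fun i => l (y i)) i ∘ₗ
        LinearMap.mulLeft R (l a), fun e b e' b' h2 h3 =>
          mul_mem (hf _ _ (zs_update (fun i => hl (y i)) i (mul_mem (hl a) h2))) h3⟩) (y i) w
  have h3 := sub_mem (Submodule.sum_mem _ fun i (_ : i ∈ Finset.univ) => h2 i)
    (Submodule.sum_mem _ fun j (_ : j ∈ Finset.univ) => h1 j)
  rwa [Finset.sum_sub_distrib, Finset.sum_sub_distrib, Finset.sum_comm (f := fun j i =>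
    f (update y i (a * w j)) * g (update w j (y i))), sub_sub_sub_cancel_right] at h3

omit hS

variable (S) in
/-- The doubly alternating maps. -/
def zP (k : ℕ) :
    Submodule R (MultilinearMap R (fun _ : Fin k => B) ((Fin k → B) → B ⧸ zJ S (k + 1))) :=
  Submodule.span R {Φ | ∃ f g : B [⋀^Fin k]→ₗ[R] B, Adm S f ∧ Adm S g ∧
    ∀ y w, Φ y w = Submodule.Quotient.mk (f y * g w)}

/-- The trace operator in the second group of variables. -/
def zW {W : Type} [AddCommGroup W] [Module R W] (a : B) :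
    Module.End R (MultilinearMap R (fun _ : Fin k => B) ((Fin k → B) → W)) :=
  LinearMap.compMultilinearMapₗ R (LinearMap.pi fun w : Fin k → B =>
    ∑ j, LinearMap.proj (R := R) (φ := fun _ : Fin k → B => W) (update w j (a * w j)))

theorem zW_apply {W : Type} [AddCommGroup W] [Module R W] (a : B)
    (Φ : MultilinearMap R (fun _ : Fin k => B) ((Fin k → B) → W)) (y w : Fin k → B) :
    zW a Φ y w = ∑ j, Φ y (update w j (a * w j)) := by
  simp [zW]

include hS

theorem zP_step (a : B) {Φ} (h : Φ ∈ zP S k) : zY _ k a Φ ∈ zP S k ∧ zY _ k a Φ = zW a Φ := by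
  induction h using Submodule.span_induction with
  | mem Φ h =>
    obtain ⟨f, g, hf, hg, h⟩ := h
    refine ⟨Submodule.subset_span ⟨zD a f, g, hf.zD hS a, hg, fun y w => ?_⟩,
      MultilinearMap.ext fun y => funext fun w => ?_⟩
    · simp only [zY_apply, zD_apply, Finset.sum_apply, h, Finset.sum_mul, ← Submodule.mkQ_apply,
        map_sum]
    · simp only [zY_apply, zW_apply, Finset.sum_apply, h, ← Submodule.mkQ_apply, ← map_sum]
      exact (Submodule.Quotient.eq _).2 (zs_key hS hf hg a y w)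
  | zero => simp
  | add Φ Ψ _ _ h1 h2 => rw [map_add, map_add]; exact ⟨add_mem h1.1 h2.1, by rw [h1.2, h2.2]⟩
  | smul t Φ _ h1 =>
    rw [map_smul, map_smul]
    exact ⟨Submodule.smul_mem _ t h1.1, by rw [h1.2]⟩

theorem zP_comm {z : B} (hz : z ∈ Submodule.span R {z | ∃ φ ψ : B, z = φ * ψ - ψ * φ}) {Φ}
    (h : Φ ∈ zP S k) : zY _ k z Φ = 0 := by
  induction hz using Submodule.span_induction with
  | mem z hz =>
    obtain ⟨a, b, rfl⟩ := hz
    rw [zY_lie, LinearMap.sub_apply, Module.End.mul_apply, Module.End.mul_apply,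
      (zP_step hS a (zP_step hS b h).1).2, (zP_step hS a h).2, sub_eq_zero]
    refine MultilinearMap.ext fun y => funext fun w => ?_
    simp only [zY_apply, zW_apply, Finset.sum_apply]
    exact Finset.sum_comm
  | zero => simp
  | add x y _ _ hx hy => rw [map_add, LinearMap.add_apply, hx, hy, add_zero]
  | smul t x _ hx => rw [map_smul, LinearMap.smul_apply, hx, smul_zero]

theorem zs_step [Algebra ℚ R] (k m : ℕ) : ∃ N : ℕ, ∀ x : B, (∀ i, ∃ y : B, y ^ m = 0 ∧
    x ^ (i + 1) - y ∈ Submodule.span R {z | ∃ φ ψ : B, z = φ * ψ - ψ * φ}) →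
    ∀ a ∈ zJ S k, ∀ b ∈ zJ S k, a * x ^ N * b ∈ zJ S (k + 1) := by
  obtain ⟨N, hN⟩ := zs_ops k (k * m)
  refine ⟨N, fun x hx => ?_⟩
  have h2 : ∀ j, ∀ Φ ∈ zP S k, zT _ j (x ^ N) Φ = 0 := fun j => by
    rw [zT_pow]
    refine hN R _ (fun j => zT (R := R) ((Fin k → B) → B ⧸ zJ S (k + 1)) j x)
      (fun i j => zT_comm' i j x) (zP S k) (fun i Φ h => ?_) j
    obtain ⟨y, h2, h3⟩ := hx i
    have h5 : ∀ s, ∀ Φ ∈ zP S k, (zY _ k (x ^ (i + 1)) ^ s) Φ = (zY _ k y ^ s) Φ := fun s => by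
      induction s with
      | zero => exact fun _ _ => rfl
      | succ s ih =>
        intro Φ h
        have h6 := zP_comm hS h3 h
        rw [map_sub, LinearMap.sub_apply, sub_eq_zero] at h6
        rw [pow_succ _ s, pow_succ _ s, Module.End.mul_apply, Module.End.mul_apply, h6,
          ih _ (zP_step hS y h).1]
    have h7 := h5 (k * m + 1) Φ h
    rw [zY_nil h2, LinearMap.zero_apply, zY_eq] at h7
    simp only [zT_pow] at h7
    exact h7
  have h3 : ∀ f g : B [⋀^Fin k]→ₗ[R] B, Adm S f → Adm S g → ∀ y w,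
      f y * x ^ N * g w ∈ zJ S (k + 1) := fun f g hf hg y w => by
    obtain ⟨e, he⟩ : ∃ e, (e, g w) ∈ S := hS _
    have h4 := hf.cramer (β := (LinearMap.mul R B).flip ∘ₗ LinearMap.mulRight R (g w))
      ⟨(LinearMap.mul R E).flip ∘ₗ LinearMap.mulRight R e,
        fun e b e' b' h2 h3 => mul_mem h3 (mul_mem h2 he)⟩ (x ^ N) y
    rw [mul_assoc]
    refine (Submodule.sub_mem_iff_left _ (Submodule.sum_mem _ fun i _ => ?_)).1 h4
    have h5 := h2 i ((LinearMap.pi fun w : Fin k → B => (zJ S (k + 1)).mkQ ∘ₗ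
      LinearMap.mulRight R (y i * g w)).compMultilinearMap f.toMultilinearMap)
      (Submodule.subset_span ⟨f, _, hf, (hg.mul hS (y i)).1, fun _ _ => rfl⟩)
    have h6 := congrFun (DFunLike.congr_fun h5 (update y i 1)) w
    rw [zT_apply, update_idem, update_self, mul_one] at h6
    exact (Submodule.Quotient.mk_eq_zero _).1 h6
  intro a ha b hb
  induction ha using Submodule.span_induction with
  | mem a ha =>
    obtain ⟨f, hf, y, rfl⟩ := ha
    induction hb using Submodule.span_induction with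
    | mem b hb =>
      obtain ⟨g, hg, w, rfl⟩ := hb
      exact h3 f g hf hg y w
    | zero => simp
    | add b c _ _ hb hc => rw [mul_add]; exact add_mem hb hc
    | smul s b _ hb => rw [mul_smul_comm]; exact Submodule.smul_mem _ s hb
  | zero => simp
  | add a c _ _ ha hc => rw [add_mul, add_mul]; exact add_mem ha hc
  | smul s a _ ha => rw [smul_mul_assoc, smul_mul_assoc]; exact Submodule.smul_mem _ s ha

/-- The nilpotency criterion in a subquotient. -/
theorem relNil [Algebra ℚ R] [Module.Free R E] [Module.Finite R E]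
    (h0 : ∀ b, (0, b) ∈ S → b = 0) (V : Submodule R B) (hV : ∀ x ∈ V, ∀ y ∈ V, x * y ∈ V) {m : ℕ}
    (h : ∀ x ∈ V, ∃ y : B, y ^ m = 0 ∧
      x - y ∈ Submodule.span R {z | ∃ φ ψ : B, z = φ * ψ - ψ * φ}) :
    ∃ s : ℕ, ∀ l : List B, (∀ x ∈ l, x ∈ V) → l.length = s → l.prod = 0 := by
  have h1 : ∀ k, ∃ N, ∀ x ∈ V, x ^ N ∈ zJ S k := fun k => by
    induction k with
    | zero =>
      exact ⟨0, fun x _ => Submodule.subset_span ⟨AlternatingMap.constOfIsEmpty R B _ 1,
        ⟨AlternatingMap.constOfIsEmpty R E _ 1, fun _ _ _ => one_mem S⟩, 0, pow_zero x⟩⟩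
    | succ k ih =>
      obtain ⟨N, hN⟩ := ih
      obtain ⟨N', hN'⟩ := zs_step hS k m
      refine ⟨N + N' + N, fun x hx => ?_⟩
      rw [pow_add, pow_add]
      refine hN' x (fun i => h _ ?_) _ (hN x hx) _ (hN x hx)
      induction i with
      | zero => simpa using hx
      | succ i ih => rw [pow_succ]; exact hV _ ih _ hx
  obtain ⟨N, hN⟩ := h1 (Fintype.card (Module.Free.ChooseBasisIndex R E) + 1)
  have h2 : zJ S (Fintype.card (Module.Free.ChooseBasisIndex R E) + 1) = ⊥ := by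
    refine Submodule.span_eq_bot.2 ?_
    rintro _ ⟨f, ⟨F, hf⟩, y, rfl⟩
    have h3 : F = 0 := (Module.Free.chooseBasis R E).ext_alternating fun v hv => by
      have h4 := Fintype.card_le_of_injective v hv
      simp at h4
    choose l hl using hS
    have h5 := hf (fun i => l (y i)) y fun i => hl _
    rw [h3] at h5
    exact h0 _ h5
  let _ : Algebra ℚ B := ((algebraMap R B).comp (algebraMap ℚ R)).toAlgebra'
    fun c x => Algebra.commutes (algebraMap ℚ R c) x
  let V' : Submodule ℚ B :=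
    { carrier := V
      add_mem' := V.add_mem
      zero_mem' := V.zero_mem
      smul_mem' := fun t x hx => by
        have h1 := V.smul_mem (algebraMap ℚ R t) hx
        rwa [Algebra.smul_def] at h1 }
  obtain ⟨s, hs⟩ := nagata_higman (V := V') hV N
  refine ⟨s, hs ⊥ (fun v _ u hu => ?_) fun x hx => ?_⟩
  · rw [(Submodule.mem_bot ℚ).1 hu, mul_zero, zero_mul]
    exact ⟨zero_mem _, zero_mem _⟩
  · have h3 := hN x hx
    rwa [h2] at h3

omit hS in
/-- The same criterion, for a quotient of a subalgebra. -/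
theorem subqNil {A : Type} [Ring A] [Algebra R A] [Algebra ℚ R] [Module.Free R E]
    [Module.Finite R E] (ι : A →ₐ[R] E) (hι : Injective ι) (π : A →ₐ[R] B) (hπ : Surjective π)
    (V : Submodule R B) (hV : ∀ x ∈ V, ∀ y ∈ V, x * y ∈ V) {m : ℕ}
    (h : ∀ x ∈ V, ∃ y : B, y ^ m = 0 ∧
      x - y ∈ Submodule.span R {z | ∃ φ ψ : B, z = φ * ψ - ψ * φ}) :
    ∃ s : ℕ, ∀ l : List B, (∀ x ∈ l, x ∈ V) → l.length = s → l.prod = 0 := by
  refine relNil (S := (ι.prod π).range) (fun b => ?_) (fun b hb => ?_) V hV h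
  · obtain ⟨a, rfl⟩ := hπ b
    exact ⟨ι a, a, rfl⟩
  · obtain ⟨a, ha⟩ := hb
    have h1 : a = 0 := hι ((congrArg Prod.fst ha).trans (map_zero ι).symm)
    rw [h1, map_zero] at ha
    exact (congrArg Prod.snd ha).symm

end Pool.Agent.Lib.MP_b39e30_al.Lin
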