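import Mathlib

/-!
Definitions for the proof that a bounded left Engel element of a linear group over a commutative
`ℚ`-algebra which is a scalar multiple of a unipotent matrix has a nilpotent normal closure.
-/

set_option autoImplicit false

namespace Pool.Agent.Lib.MP_b39e30_al.Lin

open MvPolynomial

section Ring

variable {A : Type*} [Ring A] [Algebra ℚ A]

/-- The exponential series truncated at `k`. -/
noncomputable def E (k : ℕ) (U : A) : A :=
  ∑ i ∈ Finset.range k, ((i.factorial : ℚ)⁻¹) • U ^ i

/-- The Engel step on logarithms of conjugates. -/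
noncomputable def Phi (k : ℕ) (X U : A) : A := E k (-X) * E k U * X * E k (-U) * E k X

/-- The formal flow `exp (t ad Y) X`. -/
noncomputable def flow (Y X : A) : PowerSeries A :=
  PowerSeries.mk fun i => ((i.factorial : ℚ)⁻¹) • (fun Z => Y * Z - Z * Y)^[i] X

/-- The Engel condition along the formal flow of `Y`. -/
def FE (k n : ℕ) (X Y : A) : Prop :=
  flow Y X ^ k = 0 ∧ (Phi k (PowerSeries.C X))^[n] (flow Y X) = PowerSeries.C X

theorem E_eq_exp {k : ℕ} {U : A} (h : U ^ k = 0) : E k U = IsNilpotent.exp U :=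
  (IsNilpotent.exp_eq_sum h).symm

theorem map_E {B : Type*} [Ring B] [Algebra ℚ B] (f : A →+* B) (k : ℕ) (U : A) :
    f (E k U) = E k (f U) := by
  simp only [E, map_sum, map_rat_smul, map_pow]

theorem map_Phi {B : Type*} [Ring B] [Algebra ℚ B] (f : A →+* B) (k : ℕ) (X U : A) :
    f (Phi k X U) = Phi k (f X) (f U) := by
  simp only [Phi, map_mul, map_E, map_neg]

theorem map_Phi_iter {B : Type*} [Ring B] [Algebra ℚ B] (f : A →+* B) (k n : ℕ) (X U : A) :
    f ((Phi k X)^[n] U) = (Phi k (f X))^[n] (f U) := by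
  induction n with
  | zero => rfl
  | succ n ih => rw [Function.iterate_succ_apply', Function.iterate_succ_apply', map_Phi, ih]

omit [Algebra ℚ A] in
theorem map_ad_iter {B : Type*} [Ring B] (f : A →+* B) (Y X : A) (i : ℕ) :
    f ((fun Z => Y * Z - Z * Y)^[i] X) = (fun Z => f Y * Z - Z * f Y)^[i] (f X) := by
  induction i with
  | zero => rfl
  | succ i ih => rw [Function.iterate_succ_apply', Function.iterate_succ_apply', ← ih, map_sub,
      map_mul, map_mul]

theorem map_flow {B : Type*} [Ring B] [Algebra ℚ B] (f : A →+* B) (Y X : A) :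
    PowerSeries.map f (flow Y X) = flow (f Y) (f X) := by
  ext i
  simp only [flow, PowerSeries.coeff_map, PowerSeries.coeff_mk, map_rat_smul, map_ad_iter]

theorem FE.map {B : Type*} [Ring B] [Algebra ℚ B] (f : A →+* B) {k n : ℕ} {X Y : A}
    (h : FE k n X Y) : FE k n (f X) (f Y) := by
  refine ⟨?_, ?_⟩
  · rw [← map_flow, ← map_pow, h.1, map_zero]
  · rw [← map_flow, ← PowerSeries.map_C, ← map_Phi_iter, h.2]

theorem FE.of_map {B : Type*} [Ring B] [Algebra ℚ B] (f : A →+* B) (hf : Function.Injective f)
    {k n : ℕ} {X Y : A} (h : FE k n (f X) (f Y)) : FE k n X Y := by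
  have hi : Function.Injective (PowerSeries.map f) := by
    intro a b hab
    ext i
    apply hf
    simpa only [PowerSeries.coeff_map] using congrArg (PowerSeries.coeff i) hab
  refine ⟨hi ?_, hi ?_⟩
  · rw [map_pow, map_flow, h.1, map_zero]
  · rw [map_Phi_iter, map_flow, PowerSeries.map_C, h.2]

end Ring

/-- The Lie subalgebra generated by `S` inside an associative `K`-algebra. -/
inductive LG (K : Type*) [CommRing K] {A : Type*} [Ring A] [Algebra K A] (S : Set A) : A → Prop
  | mem {a : A} : a ∈ S → LG K S a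
  | zero : LG K S 0
  | add {a b : A} : LG K S a → LG K S b → LG K S (a + b)
  | smul (c : K) {a : A} : LG K S a → LG K S (c • a)
  | br {a b : A} : LG K S a → LG K S b → LG K S (a * b - b * a)

section Matrix

variable {ι : Type} [Fintype ι] [DecidableEq ι] {R : Type*} [CommRing R]

/-- The generic matrix. -/
noncomputable def genU (ι : Type) (R : Type*) [CommRing R] :
    Matrix ι ι (MvPolynomial (ι × ι) R) := Matrix.of fun a b => X (a, b)

/-- A matrix as a matrix of constant polynomials. -/
noncomputable def cst (W : Matrix ι ι R) : Matrix ι ι (MvPolynomial (ι × ι) R) :=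
  W.map (C : R →+* MvPolynomial (ι × ι) R)

/-- Evaluation of a polynomial in the matrix entries at the matrix `U`. -/
noncomputable def ev (U : Matrix ι ι R) : MvPolynomial (ι × ι) R →+* R :=
  eval fun p => U p.1 p.2

/-- The derivation along the vector field `U ↦ W U - U W`. -/
noncomputable def D (W : Matrix ι ι R) :
    Derivation R (MvPolynomial (ι × ι) R) (MvPolynomial (ι × ι) R) :=
  mkDerivation R fun p => (cst W * genU ι R - genU ι R * cst W) p.1 p.2

/-- The iterated derivation along a list of matrices. -/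
noncomputable def Dl (ws : List (Matrix ι ι R)) (p : MvPolynomial (ι × ι) R) :
    MvPolynomial (ι × ι) R := ws.foldr (fun W q => D W q) p

/-- The polynomials that express `U ^ k = 0` and `Phi ^ n U = X`. -/
def relP [Algebra ℚ R] (k n : ℕ) (X : Matrix ι ι R) : Set (MvPolynomial (ι × ι) R) :=
  {p | ∃ a b, p = (genU ι R ^ k) a b ∨
    p = ((Phi k (cst X))^[n] (genU ι R) - cst X) a b}

/-- The data extracted from a bounded left Engel element: `X` is its logarithm and `Cs` the set
of conjugates of `X`. -/
structure Cls [Algebra ℚ R] (k n : ℕ) (X : Matrix ι ι R) (Cs : Set (Matrix ι ι R)) : Prop where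
  mem : X ∈ Cs
  nil : ∀ U ∈ Cs, U ^ k = 0
  conj : ∀ W ∈ Cs, ∀ U ∈ Cs, E k W * U * E k (-W) ∈ Cs
  engel : ∀ U ∈ Cs, (Phi k X)^[n] U = X
  hom : ∀ U ∈ Cs, ∃ a b : Matrix ι ι R, b * a = 1 ∧ a * U * b = X ∧ ∀ W ∈ Cs, a * W * b ∈ Cs

end Matrix

end Pool.Agent.Lib.MP_b39e30_al.Lin
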