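import Pool.Agent.Lib.MP_b39e30_al.Lin.Defs

/-!
Definitions for the proof that every bounded left Engel element of a linear group over a
commutative `ℚ`-algebra generates a subnormal subgroup.
-/

set_option autoImplicit false

namespace Pool.Agent.Lib.MP_b39e30_al.Lin

open MvPolynomial

section Group

variable {Γ : Type*} [Group Γ]

/-- `g` is a left `n`-Engel element. -/
def Eng (n : ℕ) (g : Γ) : Prop := ∀ x : Γ, (fun y => y⁻¹ * g⁻¹ * y * g)^[n] x = 1

/-- The left-normed commutator of the conjugates of `g` by `f 0, …, f e`. -/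
def zw (g : Γ) (f : ℕ → Γ) : ℕ → Γ
  | 0 => (f 0)⁻¹ * g * f 0
  | e + 1 => (zw g f e)⁻¹ * ((f (e + 1))⁻¹ * g * f (e + 1))⁻¹ * zw g f e *
      ((f (e + 1))⁻¹ * g * f (e + 1))

/-- The subgroup generated by the commutators of weight `e + 1` in the conjugates of `g`. -/
def ZN (g : Γ) (e : ℕ) : Subgroup Γ := Subgroup.closure {z | ∃ f : ℕ → Γ, z = zw g f e}

/-- All products of `d` elements `ρ u * (ρ z - 1)` vanish, `z` a commutator of weight `e + 1`. -/
def PP {A : Type*} [Ring A] (ρ : Γ →* A) (g : Γ) (e d : ℕ) : Prop :=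
  ∀ (u : Fin d → Γ) (f : Fin d → ℕ → Γ),
    (List.ofFn fun i => ρ (u i) * (ρ (zw g (f i) e) - 1)).prod = 0

theorem map_zw {Γ' : Type*} [Group Γ'] (φ : Γ →* Γ') (g : Γ) (f : ℕ → Γ) (e : ℕ) :
    φ (zw g f e) = zw (φ g) (fun i => φ (f i)) e := by
  induction e with
  | zero => simp [zw]
  | succ e ih => simp [zw, ih]

theorem Eng.map {Γ' : Type*} [Group Γ'] (φ : Γ →* Γ') (hφ : Function.Surjective φ) {n : ℕ}
    {g : Γ} (h : Eng n g) : Eng n (φ g) := by
  intro x
  obtain ⟨x, rfl⟩ := hφ x
  have h1 : Function.Semiconj φ (fun y => y⁻¹ * g⁻¹ * y * g)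
      (fun y => y⁻¹ * (φ g)⁻¹ * y * φ g) := fun y => by simp
  rw [← h1.iterate_right n x, h x, map_one]

end Group

section Ring

variable {A : Type*} [Ring A]

/-- The Engel step on pairs (element, inverse). -/
def engP (g g' : A) (p : A × A) : A × A := (p.2 * g' * p.1 * g, g' * p.2 * g * p.1)

theorem map_engP {B : Type*} [Ring B] (f : A →+* B) (g g' : A) (n : ℕ) (p : A × A) :
    Prod.map f f ((engP g g')^[n] p) = (engP (f g) (f g'))^[n] (Prod.map f f p) := by
  induction n with
  | zero => rfl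
  | succ n ih =>
    rw [Function.iterate_succ_apply', Function.iterate_succ_apply', ← ih]
    simp [engP]

theorem engP_hom {Γ : Type*} [Group Γ] (ρ : Γ →* A) (g : Γ) (n : ℕ) (x : Γ) :
    (engP (ρ g) (ρ g⁻¹))^[n] (ρ x, ρ x⁻¹) =
      (ρ ((fun y => y⁻¹ * g⁻¹ * y * g)^[n] x), ρ ((fun y => y⁻¹ * g⁻¹ * y * g)^[n] x)⁻¹) := by
  induction n with
  | zero => rfl
  | succ n ih =>
    rw [Function.iterate_succ_apply', Function.iterate_succ_apply', ih]
    simp [engP, mul_assoc]

variable [Algebra ℚ A]

/-- The formal exponential `exp (t Y)`. -/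
noncomputable def Ex (Y : A) : PowerSeries A :=
  PowerSeries.mk fun i => ((i.factorial : ℚ)⁻¹) • Y ^ i

/-- The Engel condition at the formal element `exp (t Y)`. -/
def GE (n : ℕ) (g g' Y : A) : Prop :=
  ((engP (PowerSeries.C g) (PowerSeries.C g'))^[n] (Ex Y, Ex (-Y))).1 = 1

theorem map_Ex {B : Type*} [Ring B] [Algebra ℚ B] (f : A →+* B) (Y : A) :
    PowerSeries.map f (Ex Y) = Ex (f Y) := by
  ext i
  simp only [Ex, PowerSeries.coeff_map, PowerSeries.coeff_mk, map_rat_smul, map_pow]

theorem map_GE_aux {B : Type*} [Ring B] [Algebra ℚ B] (f : A →+* B) (n : ℕ) (g g' Y : A) :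
    PowerSeries.map f ((engP (PowerSeries.C g) (PowerSeries.C g'))^[n] (Ex Y, Ex (-Y))).1 =
      ((engP (PowerSeries.C (f g)) (PowerSeries.C (f g')))^[n] (Ex (f Y), Ex (-f Y))).1 := by
  have h := congrArg Prod.fst (map_engP (PowerSeries.map f) (PowerSeries.C g) (PowerSeries.C g') n
    (Ex Y, Ex (-Y)))
  simpa only [Prod.map_fst, Prod.map_apply, map_Ex, PowerSeries.map_C, map_neg] using h

theorem GE.map {B : Type*} [Ring B] [Algebra ℚ B] (f : A →+* B) {n : ℕ} {g g' Y : A}
    (h : GE n g g' Y) : GE n (f g) (f g') (f Y) := by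
  rw [GE, ← map_GE_aux, h, map_one]

theorem GE.of_map {B : Type*} [Ring B] [Algebra ℚ B] (f : A →+* B) (hf : Function.Injective f)
    {n : ℕ} {g g' Y : A} (h : GE n (f g) (f g') (f Y)) : GE n g g' Y := by
  have hi : Function.Injective (PowerSeries.map f) := by
    intro a b hab
    ext i
    apply hf
    simpa only [PowerSeries.coeff_map] using congrArg (PowerSeries.coeff i) hab
  exact hi (by rw [map_GE_aux, h, map_one])

/-- The logarithms of the images of the elements of `N`. -/
def logs {Γ : Type*} [Group Γ] (ρ : Γ →* A) (N : Subgroup Γ) : Set A :=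
  {W | IsNilpotent W ∧ ∃ w ∈ N, ρ w = IsNilpotent.exp W}

end Ring

section Word

variable {A : Type*} [Ring A]

/-- Letters: `0` an element `W`, `1` the commutator `g W - W g`, `2` is `g`, `3` is `g'`. -/
def letter (g g' : A) (p : Fin 4 × A) : A := ![p.2, g * p.2 - p.2 * g, g, g'] p.1

/-- The number of commutator letters. -/
def nC (l : List (Fin 4 × A)) : ℕ := l.countP fun p => p.1 = 1

end Word

section Matrix

variable {ι : Type} [Fintype ι] [DecidableEq ι] {R : Type*} [CommRing R]

/-- The generic matrix (`true`) and the generic inverse (`false`). -/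
noncomputable def genG (ι : Type) (R : Type*) [CommRing R] (s : Bool) :
    Matrix ι ι (MvPolynomial (Bool × ι × ι) R) := Matrix.of fun a b => X (s, a, b)

/-- A matrix as a matrix of constant polynomials. -/
noncomputable def cstG (W : Matrix ι ι R) : Matrix ι ι (MvPolynomial (Bool × ι × ι) R) :=
  W.map (C : R →+* MvPolynomial (Bool × ι × ι) R)

/-- The point given by a pair of matrices. -/
def pt (y y' : Matrix ι ι R) : Bool × ι × ι → R := fun p => (bif p.1 then y else y') p.2.1 p.2.2

/-- The left invariant derivation `y ↦ y W`, `y' ↦ - W y'`. -/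
noncomputable def DG (W : Matrix ι ι R) :
    Derivation R (MvPolynomial (Bool × ι × ι) R) (MvPolynomial (Bool × ι × ι) R) :=
  mkDerivation R (pt (genG ι R true * cstG W) (-(cstG W * genG ι R false)))

/-- The iterated derivation along a list of matrices. -/
noncomputable def DGl (ws : List (Matrix ι ι R)) (p : MvPolynomial (Bool × ι × ι) R) :
    MvPolynomial (Bool × ι × ι) R := ws.foldr (fun W q => DG W q) p

/-- The polynomials that express the Engel identity. -/
def relG (n : ℕ) (g g' : Matrix ι ι R) : Set (MvPolynomial (Bool × ι × ι) R) :=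
  {p | ∃ a b, p = (((engP (cstG g) (cstG g'))^[n] (genG ι R true, genG ι R false)).1 - 1) a b}

/-- The polynomials that vanish on the image of `ρ`. -/
def vanG {Γ : Type*} [Group Γ] (ρ : Γ →* Matrix ι ι R) : Set (MvPolynomial (Bool × ι × ι) R) :=
  {p | ∀ y : Γ, eval (pt (ρ y) (ρ y⁻¹)) p = 0}

end Matrix

end Pool.Agent.Lib.MP_b39e30_al.Lin
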