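import Pool.Agent.Lib.MP_b39e30_al.Lin.GDeriv

/-!
Definitions for the case of a finitely generated module.
-/

set_option autoImplicit false

namespace Pool.Agent.Lib.MP_b39e30_al.Lin

open MvPolynomial

/-- The endomorphism `a` is zero on the fibre of `M` at `p`. -/
def Zp {R M : Type*} [CommRing R] [AddCommGroup M] [Module R M] (p : Ideal R)
    (a : Module.End R M) : Prop := ∃ s, s ∉ p ∧ ∀ v, s • a v ∈ p • (⊤ : Submodule R M)

variable {ι : Type} [Fintype ι] [DecidableEq ι] {R : Type*} [CommRing R]

/-- The Engel word minus one, as a matrix of polynomials. -/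
noncomputable def engM (n : ℕ) (g g' : Matrix ι ι R) :
    Matrix ι ι (MvPolynomial (Bool × ι × ι) R) :=
  ((engP (cstG g) (cstG g'))^[n] (genG ι R true, genG ι R false)).1 - 1

/-- The value at the identity of the iterated derivative of the Engel word. -/
noncomputable def relM (n : ℕ) (g g' : Matrix ι ι R) (ws : List (Matrix ι ι R)) : Matrix ι ι R :=
  Matrix.of fun a b => eval (pt 1 1) (DGl ws (engM n g g' a b))

theorem engM_map {R' : Type*} [CommRing R'] (φ : R →+* R') (n : ℕ) (g g' : Matrix ι ι R) :
    (engM n g g').map (MvPolynomial.map φ) = engM n (g.map φ) (g'.map φ) := by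
  have h := congrArg Prod.fst (map_engP (MvPolynomial.map (σ := Bool × ι × ι) φ).mapMatrix
    (cstG g) (cstG g') n (genG ι R true, genG ι R false))
  have h1 : ∀ W : Matrix ι ι R,
      (MvPolynomial.map (σ := Bool × ι × ι) φ).mapMatrix (cstG W) = cstG (W.map φ) := fun W => by
    ext a b : 2
    simp [cstG]
  have h2 : ∀ s, (MvPolynomial.map (σ := Bool × ι × ι) φ).mapMatrix (genG ι R s) = genG ι R' s :=
    fun s => by
      ext a b : 2
      simp [genG]
  rw [Prod.map_fst, Prod.map_apply, h1, h1, h2, h2] at h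
  change (MvPolynomial.map (σ := Bool × ι × ι) φ).mapMatrix _ = _
  rw [engM, map_sub, map_one, h, engM]

theorem relM_map {R' : Type*} [CommRing R'] (φ : R →+* R') (n : ℕ) (g g' : Matrix ι ι R)
    (ws : List (Matrix ι ι R)) :
    (relM n g g' ws).map φ = relM n (g.map φ) (g'.map φ) (ws.map fun W => W.map φ) := by
  ext a b
  simp only [relM, Matrix.map_apply, Matrix.of_apply]
  rw [map_pt, map_DGl, Matrix.map_one _ (map_zero φ) (map_one φ), ← engM_map]
  rfl

end Pool.Agent.Lib.MP_b39e30_al.Lin
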