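import Pool.Agent.Lib.MP_b39e30_al.Lin.MMain
import Pool.Agent.Lib.MP_b39e30_al.Lin.PNil

/-!
In characteristic zero the long commutators in the conjugates of a bounded left Engel element
satisfy a bounded identity.
-/

set_option autoImplicit false

namespace Pool.Agent.Lib.MP_b39e30_al.Lin

/-- The weight filtration is multiplicative. -/
theorem filt2 {Γ A : Type*} [Group Γ] [Ring A] [Algebra ℚ A] (ρ : Γ →* A) (g : Γ)
    (N : Subgroup Γ) [N.Normal] (hN : ∀ w ∈ N, IsNilpotent (ρ w - 1)) {n m : ℕ}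
    (hu : ∀ W ∈ Submodule.span ℚ (logs ρ N), (fun Z => ρ g⁻¹ * Z * ρ g - Z)^[n] W = 0)
    (hm : ∀ l : List (Fin 4 × A), (∀ p ∈ l, p.2 ∈ Submodule.span ℚ (logs ρ N)) → m ≤ nC l →
      (l.map (letter (ρ g) (ρ g⁻¹))).prod = 0) :
    ∃ (J : ℕ → Submodule ℚ A) (M : ℕ), (∀ w ∈ N, ρ w ∈ J 0) ∧
      (∀ v w, ∀ a ∈ J v, ∀ b ∈ J w, a * b ∈ J (v + w)) ∧
      (∀ b ∈ J 0, ρ g⁻¹ * b * ρ g - b ∈ J 1) ∧ J M = ⊥ := by
  set L := Submodule.span ℚ (logs ρ N) with hLd
  have h1 : ρ g⁻¹ * ρ g = 1 := by rw [← map_mul, inv_mul_cancel, map_one]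
  have h2 : ρ g * ρ g⁻¹ = 1 := by rw [← map_mul, mul_inv_cancel, map_one]
  have hL : ∀ W ∈ L, ρ g⁻¹ * W * ρ g ∈ L := fun W hW => by
    simpa only [inv_inv] using logs_conj ρ N g⁻¹ W hW
  refine ⟨filtS (ρ g) (ρ g⁻¹) L, m * n + 1, fun w hw => ?_, fun _ _ _ ha _ hb => filt_mul ha hb,
    fun b hb => ?_, ?_⟩
  · obtain ⟨k, X, hk, hX⟩ := setup_log (hN w hw)
    rw [add_sub_cancel] at hX
    have h3 : X ∈ L := Submodule.subset_span ⟨⟨k, hk⟩, w, hw, by rw [← hX, E_eq_exp hk]⟩
    have h4 : X ∈ filtS (ρ g) (ρ g⁻¹) L 0 := FiltL.mem (Or.inr ⟨X, h3, rfl⟩)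
    have h5 : ∀ i : ℕ, X ^ i ∈ filtS (ρ g) (ρ g⁻¹) L 0 := fun i => by
      induction i with
      | zero => rw [pow_zero]; exact FiltW.one.mem
      | succ i ih => rw [pow_succ]; exact filt_mul (v := 0) (w := 0) ih h4
    rw [← hX]
    exact Submodule.sum_mem _ fun i _ => Submodule.smul_mem _ _ (h5 i)
  · induction hb using Submodule.span_induction with
    | mem a ha =>
      obtain ⟨v, h3, h4⟩ := ha
      exact filt_anti (Nat.succ_le_succ h3) (h4.step h1 h2 hL)
    | zero => simp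
    | add a b _ _ ha hb =>
      rw [mul_add, add_mul, add_sub_add_comm]
      exact add_mem ha hb
    | smul c a _ ha =>
      rw [mul_smul_comm, smul_mul_assoc, ← smul_sub]
      exact Submodule.smul_mem _ c ha
  · refine Submodule.span_eq_bot.2 ?_
    rintro a ⟨v, h4, h5⟩
    rcases h5.list h1 hL hu with h | ⟨l, k1, k2, rfl⟩
    · exact h
    refine hm l k1 (le_of_not_gt fun h => ?_)
    have := Nat.mul_le_mul_left n h.le
    rw [mul_comm m n] at h4
    omega

/-- The bounded identity in characteristic zero. -/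
theorem char0PP {R M : Type} [CommRing R] [Algebra ℚ R] [AddCommGroup M] [Module R M]
    [Module.Finite R M] {Γ : Type*} [Group Γ] (ρ : Γ →* Module.End R M) {n : ℕ} {g : Γ}
    (h : Eng n g) : ∃ e s : ℕ, ∀ f : Fin s → ℕ → Γ,
      (List.ofFn fun i => ρ (zw g (f i) e) - 1).prod = 0 := by
  let _ : Algebra ℚ (Module.End R M) :=
    ((algebraMap R (Module.End R M)).comp (algebraMap ℚ R)).toAlgebra'
      fun c x => Algebra.commutes (algebraMap ℚ R c) x
  obtain ⟨e, he⟩ := ultraM ρ h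
  have hn := ZN_normal g e
  obtain ⟨hG, m, hm⟩ := engineM ρ (ZN g e) h
  have hu : ∀ W ∈ Submodule.span ℚ (logs ρ (ZN g e)),
      (fun Z => ρ g⁻¹ * Z * ρ g - Z)^[n] W = 0 := fun W hW =>
    GE.unip (by rw [← map_mul, mul_inv_cancel, map_one])
      (by rw [← map_mul, inv_mul_cancel, map_one]) (hG W hW)
  obtain ⟨J, k, h0, h1, h2, hk⟩ := filt2 ρ g (ZN g e) he hu hm
  let I : ℕ → Submodule R (Module.End R M) := fun v => Submodule.span R (J v : Set _)
  have hI : ∀ y ∈ I 1, y ^ k = 0 := fun y hy => by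
    have h3 : ∀ i, y ^ i ∈ I i := fun i => by
      induction i with
      | zero => simpa using Submodule.subset_span (h0 1 (one_mem _))
      | succ i ih =>
        have h4 := Submodule.mul_mem_mul ih hy
        rw [Submodule.span_mul_span, ← pow_succ] at h4
        refine Submodule.span_mono ?_ h4
        rintro _ ⟨a, ha, b, hb, rfl⟩
        exact h1 _ _ a ha b hb
    simpa [I, hk] using h3 k
  let V : Submodule R (Module.End R M) := Submodule.span R {x | ∃ a ∈ ZN g e, ∃ w ∈ ZN g e,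
    ∃ b ∈ ZN g e, ∃ u : Γ, x = ρ a * (ρ ((u⁻¹ * g * u)⁻¹ * w * (u⁻¹ * g * u)) - ρ w) * ρ b}
  have hV1 : ∀ c ∈ ZN g e, ∀ x ∈ V, x * ρ c ∈ V := fun c hc x hx => by
    induction hx using Submodule.span_induction with
    | mem x hx =>
      obtain ⟨a, ha, w, hw, b, hb, u, rfl⟩ := hx
      exact Submodule.subset_span ⟨a, ha, w, hw, b * c, mul_mem hb hc, u, by
        rw [mul_assoc, ← map_mul]⟩
    | zero => rw [zero_mul]; exact zero_mem _
    | add x y _ _ hx hy => rw [add_mul]; exact add_mem hx hy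
    | smul t x _ hx => rw [smul_mul_assoc]; exact V.smul_mem t hx
  obtain ⟨s, hs⟩ := modNil V (m := k)
    (fun x hx y hy => by
      induction hy using Submodule.span_induction with
      | mem y hy =>
        obtain ⟨a, ha, w, hw, b, hb, u, rfl⟩ := hy
        rw [mul_sub, sub_mul, mul_sub, ← map_mul, ← map_mul, ← map_mul, ← map_mul]
        exact sub_mem (hV1 _ (mul_mem (mul_mem ha (hn.conj_mem' _ hw _)) hb) x hx)
          (hV1 _ (mul_mem (mul_mem ha hw) hb) x hx)
      | zero => rw [mul_zero]; exact zero_mem _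
      | add y z _ _ hy hz => rw [mul_add]; exact add_mem hy hz
      | smul t y _ hy => rw [mul_smul_comm]; exact V.smul_mem t hy)
    fun x hx => by
      suffices h3 : ∃ y ∈ I 1,
          x - y ∈ Submodule.span R {z | ∃ φ ψ : Module.End R M, z = φ * ψ - ψ * φ} from
        h3.imp fun y hy => ⟨hI y hy.1, hy.2⟩
      induction hx using Submodule.span_induction with
      | mem x hx =>
        obtain ⟨a, ha, w, hw, b, hb, u, hx⟩ := hx
        refine ⟨ρ u * x * ρ u⁻¹, Submodule.subset_span ?_,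
          Submodule.subset_span ⟨ρ u⁻¹, ρ u * x, ?_⟩⟩
        · have h4 := h1 _ _ _ (h1 _ _ _ (h0 _ (hn.conj_mem _ ha u)) _
            (h2 _ (h0 _ (hn.conj_mem _ hw u)))) _ (h0 _ (hn.conj_mem _ hb u))
          have h5 : ρ u * x * ρ u⁻¹ = ρ (u * a * u⁻¹) *
              (ρ g⁻¹ * ρ (u * w * u⁻¹) * ρ g - ρ (u * w * u⁻¹)) * ρ (u * b * u⁻¹) := by
            simp only [hx, mul_sub, sub_mul, ← map_mul]
            congr 2 <;> group
          rw [h5]
          exact h4
        · rw [← mul_assoc (ρ u⁻¹), ← map_mul, inv_mul_cancel, map_one, one_mul]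
      | zero => exact ⟨0, zero_mem _, by rw [sub_zero]; exact zero_mem _⟩
      | add x y _ _ hx hy =>
        obtain ⟨x', h4, h5⟩ := hx
        obtain ⟨y', h6, h7⟩ := hy
        exact ⟨x' + y', add_mem h4 h6, by rw [add_sub_add_comm]; exact add_mem h5 h7⟩
      | smul t x _ hx =>
        obtain ⟨x', h4, h5⟩ := hx
        exact ⟨t • x', Submodule.smul_mem _ t h4, by
          rw [← smul_sub]; exact Submodule.smul_mem _ t h5⟩
  refine ⟨e + 1, s, fun f => hs _ (fun x hx => ?_) List.length_ofFn⟩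
  obtain ⟨i, rfl⟩ := List.mem_ofFn.1 hx
  refine Submodule.subset_span ⟨_, inv_mem (gcm_mem g (f i) e), _, gcm_mem g (f i) e, 1, one_mem _,
    f i (e + 1), ?_⟩
  rw [map_one, mul_one, mul_sub, ← map_mul, ← map_mul, inv_mul_cancel, map_one, zw]
  simp only [mul_assoc]

end Pool.Agent.Lib.MP_b39e30_al.Lin
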