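import Pool.Agent.Lib.MP_b39e30_al.Lin.GMain
import Pool.Agent.Lib.MP_b39e30_al.Lin.PUni

/-!
The conjugates of a bounded left Engel element act unitriangularly, by conjugation, on the span of
the long commutators.
-/

set_option autoImplicit false

namespace Pool.Agent.Lib.MP_b39e30_al.Lin

variable {ι : Type} [Fintype ι] [DecidableEq ι] {R : Type} [CommRing R] {Γ : Type*} [Group Γ]

/-- The action by conjugation. -/
def pdA (ρ : Γ →* Matrix ι ι R) : Γ →* Module.End R (Matrix ι ι R) where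
  toFun γ :=
    { toFun := fun Y => ρ γ * Y * ρ γ⁻¹
      map_add' := fun Y Z => by rw [mul_add, add_mul]
      map_smul' := fun c Y => by rw [mul_smul_comm, smul_mul_assoc, RingHom.id_apply] }
  map_one' := LinearMap.ext fun Y => by simp
  map_mul' γ δ := LinearMap.ext fun Y => by simp [mul_assoc]

theorem pd_step (ρ : Γ →* Matrix ι ι R) (h : Γ) (X Y : Matrix ι ι R) :
    ((ρ h⁻¹ * X * ρ h - X) * Y).trace = (X * (pdA ρ h - 1) Y).trace := by
  change _ = (X * (ρ h * Y * ρ h⁻¹ - Y)).trace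
  rw [sub_mul, mul_sub, Matrix.trace_sub, Matrix.trace_sub, mul_assoc, mul_assoc,
    Matrix.trace_mul_comm, mul_assoc]

theorem pd_list (ρ : Γ →* Matrix ι ι R) (l : List Γ) (Y : Matrix ι ι R) : ∀ X : Matrix ι ι R,
    (l.foldl (fun X h => ρ h⁻¹ * X * ρ h - X) X * Y).trace =
      (X * (l.map fun h => pdA ρ h - 1).prod Y).trace := by
  induction l with
  | nil => exact fun _ => rfl
  | cons h l ih =>
    intro X
    rw [List.foldl_cons, ih, pd_step, List.map_cons, List.prod_cons, Module.End.mul_apply]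

theorem pd_iter (ρ : Γ →* Matrix ι ι R) (g : Γ) (k : ℕ) (Y : Matrix ι ι R) : ∀ X : Matrix ι ι R,
    ((fun Z => ρ g⁻¹ * Z * ρ g - Z)^[k] X * Y).trace = (X * ((pdA ρ g - 1) ^ k) Y).trace := by
  induction k with
  | zero => exact fun _ => rfl
  | succ k ih =>
    intro X
    rw [Function.iterate_succ_apply, ih, pd_step, pow_succ', Module.End.mul_apply]

/-- Duality for an invariant submodule on which `g` is unipotent. -/
theorem dualPP [Algebra ℚ R] (ρ : Γ →* Matrix ι ι R) {n : ℕ} {g : Γ} (h : Eng n g)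
    (U : Submodule R (Matrix ι ι R)) (hU : ∀ γ, ∀ X ∈ U, ρ γ⁻¹ * X * ρ γ ∈ U) {k : ℕ}
    (hk : ∀ X ∈ U, (fun Z => ρ g⁻¹ * Z * ρ g - Z)^[k] X = 0) :
    ∃ s : ℕ, ∀ l : List Γ, (∀ x ∈ l, ∃ u, x = u⁻¹ * g * u) → l.length = s →
      ∀ X ∈ U, l.foldl (fun X x => ρ x⁻¹ * X * ρ x - X) X = 0 := by
  let K : Submodule R (Matrix ι ι R) :=
    { carrier := {Y | ∀ X ∈ U, (X * Y).trace = 0}
      add_mem' := fun hY hZ X hX => by rw [mul_add, Matrix.trace_add, hY X hX, hZ X hX, add_zero]
      zero_mem' := fun X _ => by rw [mul_zero, Matrix.trace_zero]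
      smul_mem' := fun c Y hY X hX => by
        rw [mul_smul_comm, Matrix.trace_smul, hY X hX, smul_zero] }
  have hK : ∀ γ, K ≤ K.comap (pdA ρ γ) := fun γ Y hY X hX => by
    change (X * (ρ γ * Y * ρ γ⁻¹)).trace = 0
    rw [← mul_assoc, Matrix.trace_mul_comm, ← mul_assoc, ← mul_assoc]
    exact hY _ (hU γ X hX)
  let σ : Γ →* Module.End R (Matrix ι ι R ⧸ K) :=
    { toFun := fun γ => K.mapQ K (pdA ρ γ) (hK γ)
      map_one' := Submodule.linearMap_qext _ (LinearMap.ext fun Y => by simp)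
      map_mul' := fun γ δ => Submodule.linearMap_qext _ (LinearMap.ext fun Y => by simp) }
  have h1 : ∀ (l : List Γ) (Y : Matrix ι ι R),
      (l.map fun x => σ x - 1).prod (Submodule.Quotient.mk Y) =
        Submodule.Quotient.mk ((l.map fun x => pdA ρ x - 1).prod Y) := fun l Y => by
    induction l with
    | nil => rfl
    | cons x l ih =>
      rw [List.map_cons, List.prod_cons, Module.End.mul_apply, ih]
      rfl
  obtain ⟨s, hs⟩ := unipPP σ h ⟨k, Submodule.linearMap_qext _ (LinearMap.ext fun Y => by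
    have h2 := h1 (List.replicate k g) Y
    rw [List.map_replicate, List.map_replicate, List.prod_replicate, List.prod_replicate] at h2
    refine h2.trans ((Submodule.Quotient.mk_eq_zero K).2 fun X hX => ?_)
    rw [← pd_iter, hk X hX, zero_mul, Matrix.trace_zero])⟩
  refine ⟨s, fun l hl hn X hX => Matrix.ext fun a b => ?_⟩
  subst hn
  choose u hu using fun i : Fin l.length => hl _ (List.get_mem l i)
  have h3 : (l.map fun x => σ x - 1).prod = 0 := by
    rw [← hs u]
    conv_lhs => rw [← List.ofFn_get l, List.map_ofFn]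
    congr 2
    funext i
    rw [Function.comp_apply, hu i]
  have h4 := h1 l (Matrix.single b a 1)
  rw [h3, LinearMap.zero_apply, eq_comm, Submodule.Quotient.mk_eq_zero] at h4
  have h5 := h4 X hX
  rw [← pd_list, Matrix.trace_mul_single] at h5
  simpa using h5

/-- The conjugates of `g` act unitriangularly on the span of the long commutators. -/
theorem adPP [Algebra ℚ R] (ρ : Γ →* Matrix ι ι R) {n : ℕ} {g : Γ} (h : Eng n g) :
    ∃ e s : ℕ, ∀ l : List Γ, (∀ x ∈ l, ∃ u, x = u⁻¹ * g * u) → l.length = s →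
      ∀ X ∈ Submodule.span R (ρ '' ZN g e), l.foldl (fun X x => ρ x⁻¹ * X * ρ x - X) X = 0 := by
  obtain ⟨e, he⟩ := ultra ρ h
  have hn := ZN_normal g e
  obtain ⟨m, hm⟩ := engineG ρ (ZN g e) h
  have hu : ∀ W ∈ Submodule.span ℚ (logs ρ (ZN g e)),
      (fun Z => ρ g⁻¹ * Z * ρ g - Z)^[n] W = 0 := fun W hW =>
    GE.unip (by rw [← map_mul, mul_inv_cancel, map_one])
      (by rw [← map_mul, inv_mul_cancel, map_one])
      (formalG (S := Submodule.span ℚ (logs ρ (ZN g e)))
        (fun p hp => vanG_DGl ρ (logs_DG ρ _) p (relG_subset ρ h hp)) W (LG.mem hW))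
  obtain ⟨J, k, -, h0, -, h2, hk⟩ := filt ρ g (ZN g e) he hu hm
  refine ⟨e, dualPP ρ h _ (fun γ X hX => ?_) (k := k) fun X hX => ?_⟩
  · induction hX using Submodule.span_induction with
    | mem X hX =>
      obtain ⟨w, hw, rfl⟩ := hX
      exact Submodule.subset_span ⟨_, hn.conj_mem' _ hw γ, by rw [map_mul, map_mul]⟩
    | zero => rw [mul_zero, zero_mul]; exact zero_mem _
    | add X Y _ _ hX hY => rw [mul_add, add_mul]; exact add_mem hX hY
    | smul c X _ hX => rw [mul_smul_comm, smul_mul_assoc]; exact Submodule.smul_mem _ c hX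
  · have h3 : ∀ (i : ℕ) (X : Matrix ι ι R), (fun Z => ρ g⁻¹ * Z * ρ g - Z)^[i] X =
        ((pdA ρ g⁻¹ - 1) ^ i) X := fun i X => by
      rw [Module.End.pow_apply]
      congr 1
      funext Z
      change _ = ρ g⁻¹ * Z * ρ g⁻¹⁻¹ - Z
      rw [inv_inv]
    rw [h3]
    refine (Submodule.span_le (p := LinearMap.ker ((pdA ρ g⁻¹ - 1) ^ k))).2 ?_ hX
    rintro _ ⟨w, hw, rfl⟩
    have h4 : ∀ i, (fun Z => ρ g⁻¹ * Z * ρ g - Z)^[i] (ρ w) ∈ J i := fun i => by
      induction i with
      | zero => exact h0 w (Subgroup.mem_sup_right hw)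
      | succ i ih => rw [Function.iterate_succ_apply']; exact h2 _ _ ih
    have h5 := h4 k
    rwa [hk, h3] at h5

end Pool.Agent.Lib.MP_b39e30_al.Lin
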