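import Mathlib

/-!
The Nagata-Higman theorem.
-/

set_option autoImplicit false

namespace Pool.Agent.Lib.MP_b39e30_al.Lin

open Polynomial

variable {A : Type*} [Ring A] [Algebra ℚ A]

theorem nh_coeff (J : Submodule ℚ A) (P : A[X])
    (h : ∀ t : ℚ, P.eval (algebraMap ℚ A t) ∈ J) (k : ℕ) : P.coeff k ∈ J := by
  refine (Subspace.forall_mem_dualAnnihilator_apply_eq_zero_iff J _).1 fun φ hφ => ?_
  have hQ : (∑ i ∈ Finset.range (P.natDegree + 1), monomial i (φ (P.coeff i)) : ℚ[X]) = 0 :=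
    Polynomial.funext fun t => by
      have h1 := (Submodule.mem_dualAnnihilator φ).1 hφ _ (h t)
      rw [eval_eq_sum_range, map_sum] at h1
      rw [eval_finsetSum, eval_zero, ← h1]
      refine Finset.sum_congr rfl fun i _ => ?_
      rw [eval_monomial, ← map_pow, ← Algebra.commutes, ← Algebra.smul_def, map_smul,
        smul_eq_mul, mul_comm]
  have h2 := congrArg (fun Q : ℚ[X] => Q.coeff k) hQ
  simp only [finsetSum_coeff, coeff_monomial, Finset.sum_ite_eq', Finset.mem_range,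
    coeff_zero] at h2
  split_ifs at h2 with h3
  · exact h2
  · rw [coeff_eq_zero_of_natDegree_lt (by omega), map_zero]

omit [Algebra ℚ A] in
theorem nh_pow (a b : A) (n : ℕ) : ((C a + C b * X) ^ n).coeff 0 = a ^ n ∧
    ((C a + C b * X) ^ n).coeff 1 = ∑ i ∈ Finset.range n, a ^ i * b * a ^ (n - 1 - i) := by
  induction n with
  | zero => simp [coeff_one]
  | succ n ih =>
    rw [pow_succ, mul_add, ← mul_assoc, coeff_add, coeff_add, coeff_mul_X_zero, coeff_mul_X,
      coeff_mul_C, coeff_mul_C, coeff_mul_C, ih.1, ih.2, add_zero, pow_succ, Finset.sum_range_succ,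
      Finset.sum_mul]
    refine ⟨rfl, ?_⟩
    congr 1
    · refine Finset.sum_congr rfl fun i hi => ?_
      have h1 := Finset.mem_range.1 hi
      rw [mul_assoc, ← pow_succ, show n - 1 - i + 1 = n + 1 - 1 - i by omega]
    · simp

theorem nh_lin {V J : Submodule ℚ A} {n : ℕ} (h : ∀ x ∈ V, x ^ n ∈ J) {a b : A} (ha : a ∈ V)
    (hb : b ∈ V) : ∑ i ∈ Finset.range n, a ^ i * b * a ^ (n - 1 - i) ∈ J := by
  rw [← (nh_pow a b n).2]
  refine nh_coeff J _ (fun t => ?_) 1
  have h1 := map_pow (eval₂RingHom' (RingHom.id A) (algebraMap ℚ A t)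
    fun c => (Algebra.commutes t c).symm) (C a + C b * X) n
  change eval _ _ = (eval _ _) ^ n at h1
  rw [h1, eval_add, eval_mul_X, eval_C, eval_C, ← Algebra.commutes, ← Algebra.smul_def]
  exact h _ (add_mem ha (V.smul_mem t hb))

theorem nh_absorb {V J : Submodule ℚ A} (hJ : ∀ v ∈ V, ∀ u ∈ J, v * u ∈ J ∧ u * v ∈ J) {a u : A}
    (ha : a ∈ V) (hu : u ∈ J) (i : ℕ) : a ^ i * u ∈ J ∧ u * a ^ i ∈ J := by
  induction i with
  | zero => simpa using hu
  | succ i ih =>
    refine ⟨?_, ?_⟩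
    · rw [pow_succ', mul_assoc]
      exact (hJ a ha _ ih.1).1
    · rw [pow_succ, ← mul_assoc]
      exact (hJ a ha _ ih.2).2

theorem nh_key {V J : Submodule ℚ A} (hV : ∀ x ∈ V, ∀ y ∈ V, x * y ∈ V)
    (hJ : ∀ v ∈ V, ∀ u ∈ J, v * u ∈ J ∧ u * v ∈ J) {n : ℕ} (h : ∀ x ∈ V, x ^ (n + 1) ∈ J)
    {a b c : A} (ha : a ∈ V) (hb : b ∈ V) (hc : c ∈ V) : a ^ n * c * b ^ n ∈ J := by
  have hVV : ∀ v ∈ V, ∀ u ∈ V, v * u ∈ V ∧ u * v ∈ V := fun v hv u hu => ⟨hV v hv u hu, hV u hu v hv⟩
  have h1 : ∑ j ∈ Finset.range (n + 1), ∑ i ∈ Finset.range (n + 1),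
      a ^ i * (c * b ^ j) * a ^ (n + 1 - 1 - i) * b ^ (n + 1 - 1 - j) ∈ J :=
    Submodule.sum_mem _ fun j _ => by
      rw [← Finset.sum_mul]
      exact (nh_absorb hJ hb (nh_lin h ha (nh_absorb hVV hb hc j).2) _).2
  have h2 : ∑ i ∈ Finset.range n, ∑ j ∈ Finset.range (n + 1),
      a ^ i * (c * b ^ j) * a ^ (n + 1 - 1 - i) * b ^ (n + 1 - 1 - j) ∈ J :=
    Submodule.sum_mem _ fun i hi => by
      have h3 := Finset.mem_range.1 hi
      have h4 : a ^ (n + 1 - 1 - i) ∈ V := by
        rw [show n + 1 - 1 - i = (n - 1 - i) + 1 by omega, pow_succ]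
        exact (nh_absorb hVV ha ha _).1
      have h5 := (nh_absorb hJ ha (hJ c hc _ (nh_lin h hb h4)).1 i).1
      rw [Finset.mul_sum, Finset.mul_sum] at h5
      simpa only [mul_assoc] using h5
  rw [Finset.sum_comm, Finset.sum_range_succ] at h1
  have h3 := (add_mem_cancel_left h2).1 h1
  have h4 : ∑ j ∈ Finset.range (n + 1),
      a ^ n * (c * b ^ j) * a ^ (n + 1 - 1 - n) * b ^ (n + 1 - 1 - j) =
        ((n + 1 : ℕ) : ℚ) • (a ^ n * c * b ^ n) := by
    rw [Finset.sum_congr rfl (g := fun _ => a ^ n * c * b ^ n), Finset.sum_const, Finset.card_range,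
      Nat.cast_smul_eq_nsmul]
    intro j hj
    have h5 := Finset.mem_range.1 hj
    rw [show n + 1 - 1 - n = 0 by omega, pow_zero, mul_one, ← mul_assoc, mul_assoc _ (b ^ j),
      ← pow_add, show j + (n + 1 - 1 - j) = n by omega]
  rw [h4] at h3
  exact (J.smul_mem_iff (by positivity)).1 h3

/-- The Nagata-Higman theorem, modulo an ideal `J`. -/
theorem nagata_higman {V : Submodule ℚ A} (hV : ∀ x ∈ V, ∀ y ∈ V, x * y ∈ V) (n : ℕ) :
    ∃ s : ℕ, ∀ J : Submodule ℚ A, (∀ v ∈ V, ∀ u ∈ J, v * u ∈ J ∧ u * v ∈ J) →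
      (∀ x ∈ V, x ^ n ∈ J) → ∀ l : List A, (∀ x ∈ l, x ∈ V) → l.length = s → l.prod ∈ J := by
  induction n with
  | zero =>
    refine ⟨0, fun J _ h l _ hl => ?_⟩
    rw [List.length_eq_zero_iff.1 hl]
    simpa using h 0 V.zero_mem
  | succ n ih =>
    obtain ⟨s, hs⟩ := ih
    refine ⟨s + (s + 1), fun J hJ h l hl hn => ?_⟩
    have h1 : ∀ l : List A, (∀ x ∈ l, x ∈ V) → l.length = s →
        ∀ c ∈ V, ∀ b ∈ V, l.prod * c * b ^ n ∈ J :=
      hs { carrier := {u | ∀ c ∈ V, ∀ b ∈ V, u * c * b ^ n ∈ J}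
           add_mem' := fun hu hw c hc b hb => by
             rw [add_mul, add_mul]
             exact add_mem (hu c hc b hb) (hw c hc b hb)
           zero_mem' := fun c _ b _ => by simp
           smul_mem' := fun t u hu c hc b hb => by
             rw [smul_mul_assoc, smul_mul_assoc]
             exact J.smul_mem t (hu c hc b hb) }
        (fun v hv u hu => ⟨fun c hc b hb => by
            simpa only [mul_assoc] using (hJ v hv _ (hu c hc b hb)).1,
          fun c hc b hb => by simpa only [mul_assoc] using hu _ (hV v hv c hc) b hb⟩)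
        fun a ha c hc b hb => nh_key hV hJ h ha hb hc
    obtain ⟨l₁, l₂, rfl, h2, h3⟩ : ∃ l₁ l₂ : List A, l = l₁ ++ l₂ ∧ l₁.length = s ∧
        l₂.length = s + 1 := ⟨l.take s, l.drop s, (List.take_append_drop s l).symm,
          by rw [List.length_take]; omega, by rw [List.length_drop]; omega⟩
    obtain ⟨c, l₃, rfl⟩ := List.exists_cons_of_length_eq_add_one h3
    have h4 : ∀ l : List A, (∀ x ∈ l, x ∈ V) → l.length = s → ∀ c ∈ V, l₁.prod * c * l.prod ∈ J :=
      hs { carrier := {u | ∀ c ∈ V, l₁.prod * c * u ∈ J}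
           add_mem' := fun hu hw c hc => by
             rw [mul_add]
             exact add_mem (hu c hc) (hw c hc)
           zero_mem' := fun c _ => by simp
           smul_mem' := fun t u hu c hc => by
             rw [mul_smul_comm]
             exact J.smul_mem t (hu c hc) }
        (fun v hv u hu => ⟨fun c hc => by simpa only [mul_assoc] using hu _ (hV c hc v hv),
          fun c hc => by simpa only [mul_assoc] using (hJ v hv _ (hu c hc)).2⟩)
        fun b hb c hc => h1 l₁ (fun x hx => hl x (List.mem_append_left _ hx)) h2 c hc b hb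
    rw [List.prod_append, List.prod_cons, ← mul_assoc]
    exact h4 l₃ (fun x hx => hl x (List.mem_append_right _ (List.mem_cons_of_mem _ hx)))
      (by simpa using h3) c (hl c (List.mem_append_right _ List.mem_cons_self))

end Pool.Agent.Lib.MP_b39e30_al.Lin
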