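import Pool.Agent.Lib.MP_b39e30_al.Lin.PChar0

/-!
The bounded identity for modules without small torsion, by a limit module.
-/

set_option autoImplicit false

namespace Pool.Agent.Lib.MP_b39e30_al.Lin

theorem pl_map {A B Γ Γ' : Type*} [Ring A] [Ring B] [Group Γ] [Group Γ'] (θ : A →+* B)
    (φ : Γ →* Γ') {ρ : Γ →* A} {σ : Γ' →* B} (h : ∀ x, θ (ρ x) = σ (φ x)) (g : Γ) (e : ℕ) {s : ℕ}
    (f : Fin s → ℕ → Γ) : θ (List.ofFn fun i => ρ (zw g (f i) e) - 1).prod =
      (List.ofFn fun i => σ (zw (φ g) (fun j => φ (f i j)) e) - 1).prod := by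
  rw [map_list_prod, List.map_ofFn]
  congr 2
  funext i
  rw [Function.comp_apply, map_sub, map_one, h, map_zw]

/-- The bounded identity for torsion-free modules. -/
theorem tfPP {R M : Type} [CommRing R] [AddCommGroup M] [Module R M] [Module.Finite R M]
    (ht : ∀ m : ℤ, m ≠ 0 → ∀ v : M, m • v = 0 → v = 0) {Γ : Type*} [Group Γ]
    (ρ : Γ →* Module.End R M) {n : ℕ} {g : Γ} (h : Eng n g) :
    ∃ e s : ℕ, ∀ f : Fin s → ℕ → Γ, (List.ofFn fun i => ρ (zw g (f i) e) - 1).prod = 0 := by
  let T : Submonoid R := (nonZeroDivisors ℤ).map (Int.castRingHom R)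
  let ψ : ℚ →+* Localization T := IsLocalization.lift (M := nonZeroDivisors ℤ)
    (g := (algebraMap R (Localization T)).comp (Int.castRingHom R))
    fun m => IsLocalization.map_units (Localization T) (⟨_, m, m.2, rfl⟩ : T)
  have hi : ∀ v, TensorProduct.mk R (Localization T) M 1 v = 0 → v = 0 := fun v hv => by
    obtain ⟨⟨_, m, hm, rfl⟩, h⟩ := (IsLocalizedModule.eq_zero_iff T _).1 hv
    refine ht m (nonZeroDivisors.ne_zero hm) v ?_
    rw [← Int.cast_smul_eq_zsmul R]
    exact h
  let _ := ψ.toAlgebra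
  let θ : Module.End R M →+* Module.End (Localization T) (TensorProduct R (Localization T) M) :=
    RingHomClass.toRingHom (Module.End.baseChangeHom R (Localization T) M)
  obtain ⟨e, s, hs⟩ := char0PP (θ.toMonoidHom.comp ρ) h
  refine ⟨e, s, fun f => LinearMap.ext fun v => hi _ ?_⟩
  have h1 := (pl_map (B := Module.End (Localization T) (TensorProduct R (Localization T) M)) θ
    (MonoidHom.id Γ) (ρ := ρ) (σ := θ.toMonoidHom.comp ρ) (fun _ => rfl) g e f).trans (hs f)
  exact LinearMap.congr_fun h1 (TensorProduct.tmul R 1 v)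

section Lim

variable (R M : ℕ → Type) [∀ c, CommRing (R c)] [∀ c, AddCommGroup (M c)]
  [∀ c, Module (R c) (M c)]

/-- The sequences that are eventually zero. -/
def plK : Submodule (∀ c, R c) (∀ c, M c) where
  carrier := {v | ∀ᶠ c in Filter.atTop, v c = 0}
  add_mem' := fun hv hw => (hv.and hw).mono fun c hc => by
    rw [Pi.add_apply, hc.1, hc.2, add_zero]
  zero_mem' := Filter.Eventually.of_forall fun _ => rfl
  smul_mem' := fun r v hv => hv.mono fun c hc => by
    change r c • v c = 0
    rw [hc, smul_zero]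

/-- A sequence of endomorphisms acts on the product. -/
def plP (a : ∀ c, Module.End (R c) (M c)) : Module.End (∀ c, R c) (∀ c, M c) where
  toFun := fun v c => a c (v c)
  map_add' := fun v w => funext fun c => map_add (a c) (v c) (w c)
  map_smul' := fun r v => funext fun c => map_smul (a c) (r c) (v c)

/-- A sequence of endomorphisms acts on the limit module. -/
def plE : (∀ c, Module.End (R c) (M c)) →+* Module.End (∀ c, R c) ((∀ c, M c) ⧸ plK R M) where
  toFun a := (plK R M).mapQ (plK R M) (plP R M a) fun v hv =>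
    Filter.Eventually.mono hv fun c hc => by
      change a c (v c) = 0
      rw [hc, map_zero]
  map_one' := Submodule.linearMap_qext _ rfl
  map_mul' _ _ := Submodule.linearMap_qext _ rfl
  map_zero' := Submodule.linearMap_qext _ rfl
  map_add' _ _ := Submodule.linearMap_qext _ rfl

end Lim

theorem pl_tors {M : Type} [AddCommGroup M] {c : ℕ}
    (h : ∀ p : ℕ, p.Prime → p ≤ c → ∀ v : M, p • v = 0 → v = 0) (m : ℕ) :
    m ≠ 0 → m ≤ c → ∀ v : M, m • v = 0 → v = 0 := by
  induction m using induction_on_primes with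
  | zero => exact fun h0 => absurd rfl h0
  | one => exact fun _ _ v hv => by rwa [one_smul] at hv
  | prime_mul p a hp ih =>
    intro h0 hc v hv
    have ha : a ≠ 0 := right_ne_zero_of_mul h0
    rw [mul_smul] at hv
    exact ih ha ((Nat.le_mul_of_pos_left a hp.pos).trans hc) v
      (h p hp ((Nat.le_mul_of_pos_right p (Nat.pos_of_ne_zero ha)).trans hc) _ hv)

/-- The bounded identity for modules without small torsion. -/
theorem unifPP (d n : ℕ) : ∃ N : ℕ, ∀ (R M : Type) [CommRing R] [AddCommGroup M] [Module R M]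
    (b : Fin d → M), Submodule.span R (Set.range b) = ⊤ →
    (∀ p : ℕ, p.Prime → p ≤ N → ∀ v : M, p • v = 0 → v = 0) →
    ∀ (Γ : Type) [Group Γ] (ρ : Γ →* Module.End R M) (g : Γ), Eng n g →
      ∃ e s : ℕ, ∀ f : Fin s → ℕ → Γ, (List.ofFn fun i => ρ (zw g (f i) e) - 1).prod = 0 := by
  by_contra hc
  push Not at hc
  choose R M _ _ _ b hb ht Γ _ ρ g hE f hf using hc
  have hF : Module.Finite (∀ c, R c) (∀ c, M c) := by
    refine ⟨Submodule.fg_def.2 ⟨Set.range fun (j : Fin d) c => b c j, Set.finite_range _,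
      eq_top_iff.2 fun v _ => ?_⟩⟩
    choose a ha using fun c => (Submodule.mem_span_range_iff_exists_fun (R c)).1
      ((hb c).ge (Submodule.mem_top : v c ∈ ⊤))
    refine (Submodule.mem_span_range_iff_exists_fun _).2 ⟨fun j c => a c j, funext fun c => ?_⟩
    rw [Finset.sum_apply]
    exact ha c
  have hE' : Eng n g := fun x => funext fun c => by
    have h1 : Function.Semiconj (fun y : ∀ c, Γ c => y c) (fun y => y⁻¹ * g⁻¹ * y * g)
        (fun y => y⁻¹ * (g c)⁻¹ * y * g c) := fun _ => rfl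
    exact (h1.iterate_right n x).trans (hE c (x c))
  let ρ' : (∀ c, Γ c) →* ∀ c, Module.End (R c) (M c) :=
    MonoidHom.pi fun c => (ρ c).comp (Pi.evalMonoidHom Γ c)
  obtain ⟨e, s, hs⟩ := tfPP (R := ∀ c, R c) (M := (∀ c, M c) ⧸ plK R M) (fun m hm v hv => by
    obtain ⟨v, rfl⟩ := Submodule.Quotient.mk_surjective _ v
    have h1 : m • v ∈ plK R M := (Submodule.Quotient.mk_eq_zero _).1 hv
    refine (Submodule.Quotient.mk_eq_zero _).2 ((Filter.Eventually.and h1
      (Filter.eventually_ge_atTop m.natAbs)).mono fun c h2 => ?_)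
    exact pl_tors (ht c) _ (Int.natAbs_ne_zero.2 hm) h2.2 _ (natAbs_nsmul_eq_zero.2 h2.1))
    ((plE R M).toMonoidHom.comp ρ') hE'
  have h1 := (pl_map (plE R M) (MonoidHom.id _) (ρ := ρ') (σ := (plE R M).toMonoidHom.comp ρ')
    (fun _ => rfl) g e fun i j c => f c e s i j).trans (hs _)
  have h2 : ∀ j, ∀ᶠ c in Filter.atTop,
      (List.ofFn fun i => ρ' (zw g (fun j c => f c e s i j) e) - 1).prod c (b c j) = 0 := fun j =>
    (Submodule.Quotient.mk_eq_zero (plK R M)).1
      (LinearMap.congr_fun h1 (Submodule.Quotient.mk fun c => b c j))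
  obtain ⟨c, h3⟩ := (Filter.eventually_all.2 h2).exists
  have h4 := pl_map (Pi.evalRingHom _ c) (Pi.evalMonoidHom Γ c) (ρ := ρ') (σ := ρ c)
    (fun _ => rfl) g e fun i j c => f c e s i j
  exact hf c e s (h4.symm.trans (LinearMap.ext_on_range (hb c) h3))

end Pool.Agent.Lib.MP_b39e30_al.Lin
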