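import Pool.Agent.Lib.MP_b39e30_al.Lin.PNil

/-!
Trace operators on alternating maps: the algebraic part.
-/

set_option autoImplicit false

namespace Pool.Agent.Lib.MP_b39e30_al.Lin

open Function

variable {R C W : Type} [CommRing R] [Ring C] [Algebra R C] [AddCommGroup W] [Module R W] {k : ℕ}

/-- Multiplication of the `j`-th variable. -/
def zT (W : Type) [AddCommGroup W] [Module R W] (j : Fin k) :
    C →ₗ[R] Module.End R (MultilinearMap R (fun _ : Fin k => C) W) where
  toFun a :=
    { toFun := fun Φ =>
        Φ.compLinearMap fun i => if i = j then LinearMap.mulLeft R a else LinearMap.id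
      map_add' := fun _ _ => rfl
      map_smul' := fun _ _ => rfl }
  map_add' a b := LinearMap.ext fun Φ => MultilinearMap.ext fun y => by
    have h : ∀ c : C, (fun i => (if i = j then LinearMap.mulLeft R c else LinearMap.id) (y i)) =
        update y j (c * y j) := fun c => funext fun i => by
      rcases eq_or_ne i j with rfl | h <;> simp [*]
    change Φ _ = Φ _ + Φ _
    rw [h, h, h, add_mul, Φ.map_update_add]
  map_smul' t a := LinearMap.ext fun Φ => MultilinearMap.ext fun y => by
    have h : ∀ c : C, (fun i => (if i = j then LinearMap.mulLeft R c else LinearMap.id) (y i)) =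
        update y j (c * y j) := fun c => funext fun i => by
      rcases eq_or_ne i j with rfl | h <;> simp [*]
    change Φ _ = t • Φ _
    rw [h, h, smul_mul_assoc, Φ.map_update_smul]

theorem zT_apply (j : Fin k) (a : C) (Φ : MultilinearMap R (fun _ : Fin k => C) W)
    (y : Fin k → C) : zT W j a Φ y = Φ (update y j (a * y j)) := by
  change Φ _ = _
  congr 1
  funext i
  rcases eq_or_ne i j with rfl | h <;> simp [*]

theorem zT_mul (j : Fin k) (a b : C) :
    zT (R := R) W j (a * b) = zT W j b * zT W j a := by
  refine LinearMap.ext fun Φ => MultilinearMap.ext fun y => ?_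
  rw [Module.End.mul_apply, zT_apply, zT_apply, zT_apply, update_idem, update_self, mul_assoc]

theorem zT_pow (j : Fin k) (a : C) (n : ℕ) : zT (R := R) W j (a ^ n) = zT W j a ^ n := by
  induction n with
  | zero =>
    refine LinearMap.ext fun Φ => MultilinearMap.ext fun y => ?_
    rw [zT_apply, pow_zero, pow_zero, one_mul, update_eq_self, Module.End.one_apply]
  | succ n ih => rw [pow_succ', zT_mul, ih, pow_succ]

theorem zT_comm {i j : Fin k} (h : i ≠ j) (a b : C) :
    Commute (zT (R := R) W i a) (zT W j b) := by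
  refine LinearMap.ext fun Φ => MultilinearMap.ext fun y => ?_
  rw [Module.End.mul_apply, Module.End.mul_apply, zT_apply, zT_apply, zT_apply, zT_apply,
    update_of_ne h, update_of_ne h.symm, update_comm h]

theorem zT_comm' (i j : Fin k) (a : C) : Commute (zT (R := R) W i a) (zT W j a) := by
  rcases eq_or_ne i j with rfl | h
  · exact Commute.refl _
  · exact zT_comm h a a

/-- The trace operator. -/
def zY (W : Type) [AddCommGroup W] [Module R W] (k : ℕ) :
    C →ₗ[R] Module.End R (MultilinearMap R (fun _ : Fin k => C) W) := ∑ j, zT W j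

theorem zY_eq (a : C) : zY (R := R) W k a = ∑ j, zT W j a := LinearMap.sum_apply _ _ _

theorem zY_apply (a : C) (Φ : MultilinearMap R (fun _ : Fin k => C) W) (y : Fin k → C) :
    zY W k a Φ y = ∑ j, Φ (update y j (a * y j)) := by
  simp only [zY_eq, LinearMap.sum_apply, sum_apply, zT_apply]

theorem zY_lie (a b : C) : zY (R := R) W k (a * b - b * a) =
    zY W k b * zY W k a - zY W k a * zY W k b := by
  rw [zY_eq, zY_eq, zY_eq, Finset.sum_mul_sum, Finset.sum_mul_sum, Finset.sum_comm (f := fun i j =>
    zT W i a * zT W j b), ← Finset.sum_sub_distrib]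
  refine Finset.sum_congr rfl fun i _ => ?_
  rw [← Finset.sum_sub_distrib, Finset.sum_eq_single i, map_sub, zT_mul, zT_mul]
  · intro j _ h
    rw [(zT_comm h a b).eq, sub_self]
  · simp

theorem zb_sum {A ι : Type*} [Ring A] (s : Finset ι) {f : ι → A} {N : ℕ}
    (hc : ∀ i j, Commute (f i) (f j)) (h : ∀ i, f i ^ N = 0) :
    (∑ i ∈ s, f i) ^ (s.card * N + 1) = 0 := by
  classical
  induction s using Finset.induction_on with
  | empty => simp
  | insert i s hi ih =>
    rw [Finset.sum_insert hi, Finset.card_insert_of_notMem hi]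
    exact (Commute.sum_right _ _ _ fun j _ => hc i j).add_pow_eq_zero_of_add_le_succ_of_pow_eq_zero
      (h i) ih (by nlinarith)

theorem zY_nil {y : C} {m : ℕ} (h : y ^ m = 0) : zY (R := R) W k y ^ (k * m + 1) = 0 := by
  have h1 := zb_sum Finset.univ (f := fun j : Fin k => zT (R := R) W j y) (N := m)
    (fun i j => zT_comm' i j y) fun j => by rw [← zT_pow, h, map_zero]
  rwa [Finset.card_univ, Fintype.card_fin, ← zY_eq] at h1

/-- The trace operator on alternating maps. -/
def zD (a : C) (f : C [⋀^Fin k]→ₗ[R] W) : C [⋀^Fin k]→ₗ[R] W where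
  toMultilinearMap := zY W k a f.toMultilinearMap
  map_eq_zero_of_eq' := by
    intro y i j h hij
    change zY W k a f.toMultilinearMap y = 0
    rw [zY_apply]
    change ∑ j, f (update y j (a * y j)) = 0
    rw [Fintype.sum_eq_add i j hij fun l hl => f.map_eq_zero_of_eq _
      (by rw [update_of_ne hl.1.symm, update_of_ne hl.2.symm, h]) hij]
    have h1 : update y j (a * y j) = update y i (a * y i) ∘ Equiv.swap i j := by
      rw [Equiv.comp_swap_eq_update, update_self, update_of_ne hij.symm, update_comm hij,
        update_idem, ← h, update_comm hij.symm, update_eq_self]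
    rw [h1]
    exact f.map_add_swap _ hij

theorem zD_apply (a : C) (f : C [⋀^Fin k]→ₗ[R] W) (y : Fin k → C) :
    zD a f y = ∑ j, f (update y j (a * y j)) := zY_apply a _ y

/-- The alternating map attached to Cramer's rule. -/
def zA (β : C →ₗ[R] C →ₗ[R] C) (f : C [⋀^Fin k]→ₗ[R] C) : C [⋀^Fin (k + 1)]→ₗ[R] C :=
  AlternatingMap.alternatizeUncurryFin
    { toFun := fun u => (β u).compAlternatingMap f
      map_add' := fun u v => AlternatingMap.ext fun y => by simp
      map_smul' := fun t u => AlternatingMap.ext fun y => by simp }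

theorem zA_apply (β : C →ₗ[R] C →ₗ[R] C) (f : C [⋀^Fin k]→ₗ[R] C) (v : Fin (k + 1) → C) :
    zA β f v = ∑ i : Fin (k + 1), (-1) ^ (i : ℕ) • β (v i) (f (i.removeNth v)) :=
  AlternatingMap.alternatizeUncurryFin_apply _ v

theorem zA_cons (β : C →ₗ[R] C →ₗ[R] C) (f : C [⋀^Fin k]→ₗ[R] C) (u : C) (y : Fin k → C) :
    zA β f (Fin.cons u y) = β u (f y) - ∑ i, β (y i) (f (update y i u)) := by
  rw [zA_apply, Fin.sum_univ_succ, sub_eq_add_neg, ← Finset.sum_neg_distrib]
  congr 1
  · simp
  · refine Finset.sum_congr rfl fun i _ => ?_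
    cases k with
    | zero => exact i.elim0
    | succ k =>
      have h1 : Fin.removeNth (α := fun _ => C) i.succ (Fin.cons u y) =
          Matrix.vecCons u (i.removeNth y) := Fin.cons_comp_succ_succAbove u y i
      rw [h1, ← f.neg_one_pow_smul_map_insertNth i, Fin.insertNth_removeNth, Fin.cons_succ,
        map_zsmul, smul_smul, Fin.val_succ, pow_succ, mul_right_comm, ← pow_add,
        Even.neg_one_pow ⟨_, rfl⟩, one_mul, neg_one_smul]

end Pool.Agent.Lib.MP_b39e30_al.Lin
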